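import Pool.Agent.Q236.UL.PairSum

set_option autoImplicit false

/-!
# The joint Poisson law for shifted conditions of several types
-/

namespace Pool.Agent.Q236.UL

open Finset Filter Pool.Agent.H373R2.T7 Pool.Agent.W123.RP Pool.Agent.W123.RU Pool.Agent.TH464.PO
open Pool.Agent.Q236.CP Pool.Agent.Q236.ML

variable {τ : Type*} [Fintype τ] [DecidableEq τ]

/-- the hypotheses on the collisions -/
structure PH (P0 : ℕ → ℕ → Prop) (Q : τ → ℕ → ℕ → Prop) (X : τ → τ → Finset ℕ) (y : ℕ) (u v : τ → ℕ)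
    (T0 : ℕ) (Λ2 η' : ℝ) : Prop where
  base : ∀ s, ∃ T : ℕ, T0 ≤ T ∧ v s ≤ T ∧ T * Vq (Q s) y ≤ Λ2 ∧
    ∀ d ∈ Icc 1 T, (LC P0 (Q s) y T d : ℝ) ≤ η' * T
  pair : ∀ s t, ∃ T : ℕ, T0 ≤ T ∧ v s ≤ T ∧ v t ≤ T ∧ (T * Vq (Q s) y ≤ Λ2 ∨ T * Vq (Q t) y ≤ Λ2) ∧
    (∀ d ∈ Icc 1 T, d ∉ X s t → (LC (Q s) (Q t) y T d : ℝ) ≤ η' * T) ∧
    (∀ d ∈ Icc 1 T, d ∉ X t s → (LC (Q t) (Q s) y T d : ℝ) ≤ η' * T) ∧
    (s ≠ t → Disjoint (Ioc (u s) (v s)) (Ioc (u t) (v t)) ∨ 0 ∈ X s t ∨ (LC (Q s) (Q t) y T 0 : ℝ) ≤ η' * T)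

/-- the indices -/
def Ix (u v : τ → ℕ) (t : τ) : Finset (Option (τ × ℕ)) := (Ioc (u t) (v t)).image (fun b => some (t, b))

lemma Ix_disj (u v : τ → ℕ) (t s : τ) (h : t ≠ s) : Disjoint (Ix u v t) (Ix u v s) := by
  unfold Ix
  rw [Finset.disjoint_left]
  intro i hi hi'
  rw [mem_image] at hi hi'
  obtain ⟨b, _, rfl⟩ := hi
  obtain ⟨b', _, h2⟩ := hi'
  simp only [Option.some.injEq, Prod.mk.injEq] at h2
  exact h h2.1.symm

lemma none_notMem (u v : τ → ℕ) : none ∉ Al (Ix u v) := by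
  unfold Al Ix
  simp

lemma sum_Ix (u v : τ → ℕ) (t : τ) (h : Option (τ × ℕ) → ℝ) :
    ∑ i ∈ Ix u v t, h i = ∑ b ∈ Ioc (u t) (v t), h (some (t, b)) := by
  unfold Ix
  rw [Finset.sum_image]
  intro b _ b' _ hbb
  simp only [Option.some.injEq, Prod.mk.injEq] at hbb
  exact hbb.2

lemma sum_Al (u v : τ → ℕ) (h : Option (τ × ℕ) → ℝ) :
    ∑ i ∈ Al (Ix u v), h i = ∑ t, ∑ b ∈ Ioc (u t) (v t), h (some (t, b)) := by
  unfold Al
  rw [Finset.sum_biUnion (fun t _ s _ hts => Ix_disj u v t s hts)]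
  exact Finset.sum_congr rfl fun t _ => sum_Ix u v t h

lemma card_Al (u v : τ → ℕ) : (Al (Ix u v)).card ≤ ∑ t, v t := by
  unfold Al
  refine card_biUnion_le.trans ?_
  apply Finset.sum_le_sum
  intro t _
  unfold Ix
  refine card_image_le.trans ?_
  rw [Nat.card_Ioc]
  omega

open Classical in
lemma sum_off {ι : Type*} [DecidableEq ι] (S : Finset ι) (o : ι) (ho : o ∉ S) (ex : ι × ι → Prop)
    (f : ι × ι → ℝ) (hf : ∀ x, 0 ≤ f x) :
    ∑ x ∈ (insert o S).offDiag.filter (fun x => ¬ ex x), f x ≤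
      ∑ i ∈ S, f (o, i) + ∑ i ∈ S, f (i, o) +
        ∑ i ∈ S, ∑ j ∈ S, if i ≠ j ∧ ¬ ex (i, j) then f (i, j) else 0 := by
  have h1 : (insert o S).offDiag.filter (fun x => ¬ ex x) ⊆
      ((S.image (fun i => (o, i))) ∪ (S.image (fun i => (i, o)))) ∪
        ((S ×ˢ S).filter (fun x => x.1 ≠ x.2 ∧ ¬ ex x)) := by
    intro x hx
    rw [mem_filter, mem_offDiag, mem_insert, mem_insert] at hx
    obtain ⟨⟨h1, h2, h3⟩, h4⟩ := hx
    rw [mem_union, mem_union, mem_image, mem_image, mem_filter, mem_product]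
    obtain ⟨a, b⟩ := x
    simp only at h1 h2 h3 h4 ⊢
    rcases h1 with h1 | h1
    · rcases h2 with h2 | h2
      · exact absurd (h1.trans h2.symm) h3
      · exact Or.inl (Or.inl ⟨b, h2, by rw [h1]⟩)
    · rcases h2 with h2 | h2
      · exact Or.inl (Or.inr ⟨a, h1, by rw [h2]⟩)
      · exact Or.inr ⟨⟨h1, h2⟩, h3, h4⟩
  refine (Finset.sum_le_sum_of_subset_of_nonneg h1 (fun x _ _ => hf x)).trans ?_
  have hu : ∀ A B : Finset (ι × ι), ∑ x ∈ A ∪ B, f x ≤ ∑ x ∈ A, f x + ∑ x ∈ B, f x := by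
    intro A B
    rw [← Finset.sum_union_inter]
    have : 0 ≤ ∑ x ∈ A ∩ B, f x := Finset.sum_nonneg fun x _ => hf x
    linarith
  refine (hu _ _).trans ?_
  have h2 := hu (S.image (fun i => (o, i))) (S.image (fun i => (i, o)))
  have e1 : ∑ x ∈ S.image (fun i => (o, i)), f x = ∑ i ∈ S, f (o, i) := by
    rw [Finset.sum_image]
    intro a _ b _ hab
    simp only [Prod.mk.injEq] at hab
    exact hab.2
  have e2 : ∑ x ∈ S.image (fun i => (i, o)), f x = ∑ i ∈ S, f (i, o) := by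
    rw [Finset.sum_image]
    intro a _ b _ hab
    simp only [Prod.mk.injEq] at hab
    exact hab.1
  have e3 : ∑ x ∈ (S ×ˢ S).filter (fun x => x.1 ≠ x.2 ∧ ¬ ex x), f x =
      ∑ i ∈ S, ∑ j ∈ S, if i ≠ j ∧ ¬ ex (i, j) then f (i, j) else 0 := by
    rw [Finset.sum_filter, Finset.sum_product]
  rw [e1, e2] at h2
  rw [e3]
  linarith

lemma Vt_le_div (P : ℕ → ℕ → Prop) (w y : ℕ) (hwy : w ≤ y) (W0 : ℝ) (hW0 : 0 < W0) (h : W0 ≤ Vq P w) :
    Vt P w y ≤ Vq P y / W0 := by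
  rw [le_div_iff₀ hW0, Vq_split P w y hwy, mul_comm]
  exact mul_le_mul_of_nonneg_right h (Vt_nonneg P w y)

open Classical in
/-- the number of the alive shifts in a window -/
lemma win_count (Q : ℕ → ℕ → Prop) (c : ℕ) (hQ : PerB Q c) (w a u v : ℕ) (huv : u ≤ v) :
    |((((Ioc u v).filter (fun b => Sf Q w (a + b))).card : ℕ) : ℝ) - ((v : ℝ) - u) * Vq Q w| ≤ 2 * Mw w := by
  have h1 := window Q c hQ w a v
  have h2 := window Q c hQ w a u
  have h3 : ((Icc 1 v).filter (fun b => Sf Q w (a + b))).card =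
      ((Icc 1 u).filter (fun b => Sf Q w (a + b))).card + ((Ioc u v).filter (fun b => Sf Q w (a + b))).card := by
    rw [← card_union_of_disjoint]
    · congr 1
      rw [← Finset.filter_union]
      congr 1
      ext b
      rw [Finset.mem_union, mem_Icc, mem_Icc, mem_Ioc]
      omega
    · rw [Finset.disjoint_left]
      intro b hb hb'
      rw [mem_filter, mem_Icc] at hb
      rw [mem_filter, mem_Ioc] at hb'
      omega
  have h3' : ((((Icc 1 v).filter (fun b => Sf Q w (a + b))).card : ℕ) : ℝ) =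
      ((((Icc 1 u).filter (fun b => Sf Q w (a + b))).card : ℕ) : ℝ) +
        ((((Ioc u v).filter (fun b => Sf Q w (a + b))).card : ℕ) : ℝ) := by exact_mod_cast h3
  rw [h3'] at h1
  rw [abs_le] at h1 h2 ⊢
  constructor
  · linarith [h1.1, h1.2, h2.1, h2.2]
  · linarith [h1.1, h1.2, h2.1, h2.2]

/-- the small constants -/
lemma exists_kappa (η W0 Mr s M Λ : ℝ) (hη : 0 < η) (hη1 : η ≤ 1) (hW0 : 0 < W0) (hW01 : W0 ≤ 1) (hMr : 1 ≤ Mr)
    (hs : 0 ≤ s) (hM : 0 ≤ M) (hΛ : 0 ≤ Λ) : ∃ κ : ℝ, 0 < κ ∧ κ / W0 ≤ η ∧ 2 * Mr * (κ / W0) ≤ η ∧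
      κ ≤ η / (16 * Mr) ∧ s ^ 2 * (2 * M) * (Λ / W0 * (κ / W0)) ≤ η ∧
      s ^ 2 * (2 * M) * κ ≤ η / 16 := by
  obtain ⟨G, hG⟩ : ∃ G : ℝ, G = 32 * Mr * (s ^ 2 + 1) * (M + 1) * (Λ + 1) := ⟨_, rfl⟩
  have ha : 1 ≤ s ^ 2 + 1 := by nlinarith [sq_nonneg s]
  have hb : 1 ≤ M + 1 := by linarith
  have hc : 1 ≤ Λ + 1 := by linarith
  have hG0 : 0 < G := by rw [hG]; positivity
  have h1 : 32 * Mr ≤ G := by
    rw [hG]
    have h2 : 1 ≤ (s ^ 2 + 1) * (M + 1) := one_le_mul_of_one_le_of_one_le ha hb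
    have h3 : 1 ≤ (s ^ 2 + 1) * (M + 1) * (Λ + 1) := one_le_mul_of_one_le_of_one_le h2 hc
    nlinarith
  have h2 : s ^ 2 * (2 * M) * Λ * 16 ≤ G := by
    rw [hG]
    have h3 : s ^ 2 * M * Λ ≤ (s ^ 2 + 1) * (M + 1) * (Λ + 1) := by
      apply mul_le_mul _ (by linarith) hΛ (by positivity)
      apply mul_le_mul (by linarith) (by linarith) hM (by positivity)
    have h4 : 0 ≤ (s ^ 2 + 1) * (M + 1) * (Λ + 1) := by positivity
    nlinarith
  refine ⟨η * W0 ^ 2 / G, by positivity, ?_, ?_, ?_, ?_, ?_⟩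
  · rw [div_div, div_le_iff₀ (by positivity)]
    have : η * W0 ^ 2 = η * W0 * W0 := by ring
    rw [this]
    have h5 : W0 * 1 ≤ G * W0 := by nlinarith
    have h6 : η * W0 * W0 ≤ η * W0 * 1 := mul_le_mul_of_nonneg_left hW01 (by positivity)
    nlinarith [mul_le_mul_of_nonneg_left h5 hη.le]
  · have e : 2 * Mr * (η * W0 ^ 2 / G / W0) = 2 * Mr * (η * W0) / G := by
      field_simp
    rw [e, div_le_iff₀ hG0]
    have h5 : 2 * Mr * (η * W0) ≤ 2 * Mr * (η * 1) := by gcongr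
    nlinarith
  · rw [div_le_div_iff₀ hG0 (by positivity)]
    have h5 : W0 ^ 2 ≤ 1 := pow_le_one₀ hW0.le hW01
    have h6 : η * W0 ^ 2 * (16 * Mr) ≤ η * 1 * (16 * Mr) := by gcongr
    nlinarith
  · have e : s ^ 2 * (2 * M) * (Λ / W0 * (η * W0 ^ 2 / G / W0)) = s ^ 2 * (2 * M) * Λ * η / G := by
      field_simp
    rw [e, div_le_iff₀ hG0]
    have h5 : 0 ≤ s ^ 2 * (2 * M) * Λ := by positivity
    nlinarith
  · have e : s ^ 2 * (2 * M) * (η * W0 ^ 2 / G) = s ^ 2 * (2 * M) * η * W0 ^ 2 / G := by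
      field_simp
    rw [e, div_le_iff₀ hG0]
    have h5 : 0 ≤ s ^ 2 * (2 * M) := by positivity
    have h51 : W0 ^ 2 ≤ 1 := pow_le_one₀ hW0.le hW01
    have h6 : s ^ 2 * (2 * M) * η * W0 ^ 2 ≤ s ^ 2 * (2 * M) * η * 1 :=
      mul_le_mul_of_nonneg_left h51 (by positivity)
    have h7 : s ^ 2 * (2 * M) * 16 ≤ G := by
      rw [hG]
      have h8 : s ^ 2 * M ≤ (s ^ 2 + 1) * (M + 1) := by nlinarith [sq_nonneg s]
      have h9 : (s ^ 2 + 1) * (M + 1) ≤ (s ^ 2 + 1) * (M + 1) * (Λ + 1) := by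
        have : 0 ≤ (s ^ 2 + 1) * (M + 1) := by positivity
        nlinarith
      have h10 : 0 ≤ (s ^ 2 + 1) * (M + 1) * (Λ + 1) := by positivity
      nlinarith
    nlinarith

/-- logarithms are small -/
lemma log_T (C : ℝ) (B : ℕ) (δ : ℝ) (hC : 0 < C) (hδ : 0 < δ) : ∃ T0 : ℕ, 2 ≤ T0 ∧ ∀ T : ℕ, T0 ≤ T →
    C * Real.log T ^ B ≤ δ * T := by
  have h := ((isLittleO_log_rpow_rpow_atTop (B : ℝ) (by norm_num : (0 : ℝ) < 1)).comp_tendsto
    tendsto_natCast_atTop_atTop).bound (by positivity : (0 : ℝ) < δ / C)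
  obtain ⟨T2, hT2⟩ := Filter.eventually_atTop.1 h
  refine ⟨max T2 2, le_max_right _ _, fun T hT => ?_⟩
  have h2 := hT2 T ((le_max_left _ _).trans hT)
  have hT1 : (1 : ℝ) ≤ T := by
    have : 2 ≤ T := (le_max_right _ _).trans hT
    exact_mod_cast (by omega : 1 ≤ T)
  have hlog : 0 ≤ Real.log (T : ℝ) := Real.log_nonneg hT1
  simp only [Function.comp_def] at h2
  rw [Real.norm_of_nonneg (by positivity), Real.norm_of_nonneg (by positivity), Real.rpow_natCast,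
    Real.rpow_one] at h2
  calc C * Real.log T ^ B ≤ C * (δ / C * T) := mul_le_mul_of_nonneg_left h2 hC.le
    _ = δ * T := by field_simp

lemma Vq_le_one' (P : ℕ → ℕ → Prop) (w : ℕ) : Vq P w ≤ 1 := by
  unfold Vq
  apply Finset.prod_le_one
  · intro p hp
    exact one_sub_nonneg P p (mem_pz.1 hp).2
  · intro p _
    have : (0 : ℝ) ≤ (nuB P p : ℝ) / p := by positivity
    linarith

end Pool.Agent.Q236.UL
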