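import Pool.Agent.Q236.UL.Glob
import Pool.Agent.Q236.ML.Pairs

set_option autoImplicit false

/-!
# Shifted conditions of several types: the collisions
-/

namespace Pool.Agent.Q236.UL

open Finset Filter Pool.Agent.H373R2.T7 Pool.Agent.W123.RP Pool.Agent.W123.RU Pool.Agent.TH464.PO
open Pool.Agent.Q236.CP Pool.Agent.Q236.ML

variable {τ : Type*} [Fintype τ] [DecidableEq τ]

/-- the base, and the shifted conditions -/
def Es (P0 : ℕ → ℕ → Prop) (Q : τ → ℕ → ℕ → Prop) : Option (τ × ℕ) → ℕ → ℕ → Prop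
  | none => P0
  | some x => Qt (Q x.1) x.2

/-- collisions of two different conditions -/
def CG (P Q : ℕ → ℕ → Prop) (p d : ℕ) : Prop := ∃ m : ℕ, P p m ∧ Q p (m + d)

open Classical in
/-- the product over the collision primes -/
noncomputable def FG (P Q : ℕ → ℕ → Prop) (K w y d : ℕ) : ℝ :=
  ∏ p ∈ (pz y).filter (fun p : ℕ => w < p ∧ CG P Q p d), (1 + (K : ℝ) / p)

open Classical in
/-- the number of the large collision primes -/
noncomputable def LC (P Q : ℕ → ℕ → Prop) (y T d : ℕ) : ℕ :=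
  ((pz y).filter (fun p : ℕ => T < p ∧ CG P Q p d)).card

lemma FG_ge (P Q : ℕ → ℕ → Prop) (K w y d : ℕ) : 1 ≤ FG P Q K w y d := by
  unfold FG
  apply Finset.one_le_prod
  intro p _
  have : 0 ≤ (K : ℝ) / p := by positivity
  linarith

theorem coll_CG (P Q : ℕ → ℕ → Prop) (c : ℕ) (hP : PerB P c) (hQ : PerB Q c) (p0 : ℕ) :
    Coll (CG P Q) p0 (c ^ 2) := by
  classical
  constructor
  · intro p n
    unfold CG
    apply exists_congr
    intro m
    rw [per_add Q c hQ p m m n (n % p) rfl (Nat.mod_mod n p).symm]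
  · intro p hp _
    have hsub : (range p).filter (fun h => CG P Q p h) ⊆
        ((range p).filter (fun r => P p r)).biUnion (fun a => (range p).filter (fun r => Q p (r + a))) := by
      intro h hh
      rw [mem_filter] at hh
      obtain ⟨hh1, m, hm1, hm2⟩ := hh
      rw [mem_biUnion]
      refine ⟨m % p, ?_, ?_⟩
      · rw [mem_filter, mem_range]
        exact ⟨Nat.mod_lt _ hp.pos, (hP.per p m).1 hm1⟩
      · rw [mem_filter]
        refine ⟨hh1, ?_⟩
        rw [add_comm h]
        exact (per_add Q c hQ p m (m % p) h h (Nat.mod_mod m p).symm rfl).1 hm2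
    have h1 := Finset.card_biUnion_le_card_mul ((range p).filter (fun r => P p r))
      (fun a => (range p).filter (fun r => Q p (r + a))) c (by
        intro a _
        have h2 := nuB_shift Q c hQ a p
        have h3 := hQ.few p hp
        refine le_trans (le_of_eq ?_) h3
        rw [← h2])
    have h2 : ((range p).filter (fun r => P p r)).card ≤ c := by
      refine le_trans (le_of_eq ?_) (hP.few p hp)
      unfold nuB
      congr
    have h3 := (card_le_card hsub).trans (h1.trans (Nat.mul_le_mul_right c h2))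
    rw [sq]
    convert h3

lemma Fc_none (P0 : ℕ → ℕ → Prop) (Q : τ → ℕ → ℕ → Prop) (K w y : ℕ) (u : τ) (b : ℕ) :
    Fc (Es P0 Q) K w y (none, some (u, b)) ≤ FG P0 (Q u) K w y b := by
  classical
  unfold Fc FG
  apply Finset.prod_le_prod_of_subset_of_one_le
  · intro p hp
    rw [mem_filter] at hp ⊢
    exact hp
  · intro p _
    positivity
  · intro p _ _
    have : 0 ≤ (K : ℝ) / p := by positivity
    linarith

lemma Fc_symm {ι : Type*} [DecidableEq ι] (E : ι → ℕ → ℕ → Prop) (K w y : ℕ) (i j : ι) :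
    Fc E K w y (i, j) = Fc E K w y (j, i) := by
  classical
  unfold Fc
  apply Finset.prod_congr _ (fun _ _ => rfl)
  apply Finset.filter_congr
  intro p _
  unfold Col
  constructor
  · rintro ⟨h1, n, h2, h3⟩
    exact ⟨h1, n, h3, h2⟩
  · rintro ⟨h1, n, h2, h3⟩
    exact ⟨h1, n, h3, h2⟩

lemma Fc_some (P0 : ℕ → ℕ → Prop) (Q : τ → ℕ → ℕ → Prop) (K w y : ℕ) (t u : τ) (b b' : ℕ) (h : b ≤ b') :
    Fc (Es P0 Q) K w y (some (t, b), some (u, b')) ≤ FG (Q t) (Q u) K w y (b' - b) := by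
  classical
  unfold Fc FG
  apply Finset.prod_le_prod_of_subset_of_one_le
  · intro p hp
    rw [mem_filter] at hp ⊢
    obtain ⟨h1, h2, n, h3, h4⟩ := hp
    refine ⟨h1, h2, n + b, h3, ?_⟩
    have e : n + b + (b' - b) = n + b' := by omega
    rw [e]
    exact h4
  · intro p _
    positivity
  · intro p _ _
    have : 0 ≤ (K : ℝ) / p := by positivity
    linarith

lemma Fc_some' (P0 : ℕ → ℕ → Prop) (Q : τ → ℕ → ℕ → Prop) (K w y : ℕ) (t u : τ) (b b' : ℕ) (h : b' ≤ b) :
    Fc (Es P0 Q) K w y (some (t, b), some (u, b')) ≤ FG (Q u) (Q t) K w y (b - b') := by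
  rw [Fc_symm]
  exact Fc_some P0 Q K w y u t b' b h

lemma Vt_some (P0 : ℕ → ℕ → Prop) (Q : τ → ℕ → ℕ → Prop) (c : ℕ) (hQ : ∀ t, PerB (Q t) c) (w y : ℕ)
    (t : τ) (b : ℕ) : Vt (Es P0 Q (some (t, b))) w y = Vt (Q t) w y := by
  unfold Vt
  apply Finset.prod_congr rfl
  intro p _
  have : nuB (Es P0 Q (some (t, b))) p = nuB (Q t) p := nuB_Qt (Q t) c (hQ t) b p
  rw [this]

/-- the averages over the differences -/
theorem avg_FG (K c w : ℕ) (hw : 1 ≤ w) (η : ℝ) (hη : 0 < η) (hη1 : η ≤ 1)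
    (hKD : (K * c ^ 2 : ℕ) / (w : ℝ) ≤ η) : ∃ T0 : ℕ, 2 ≤ T0 ∧ ∀ T : ℕ, T0 ≤ T →
    ∀ P Q : ℕ → ℕ → Prop, PerB P c → PerB Q c → ∀ y : ℕ, ∀ η' : ℝ, 0 ≤ η' → K * η' ≤ η →
    ∀ E : Finset ℕ, E ⊆ Icc 1 T →
    (∀ h ∈ E, (LC P Q y T h : ℝ) ≤ η' * T) →
    ∑ h ∈ E, (FG P Q K w y h - 1) ≤ 38 * η * T := by
  classical
  obtain ⟨T0, hT0, h⟩ := avg_E K (c ^ 2) w hw η hη hKD
  refine ⟨T0, hT0, ?_⟩
  intro T hT P Q hP hQ y η' hη' hKη E hE hbig
  have h1 := h T hT (CG P Q) (coll_CG P Q c hP hQ w) y η' hη' hKη E hE (by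
    intro t ht
    exact hbig t ht)
  have h2 := exp_bound2 η hη.le hη1
  have hTr : (0 : ℝ) ≤ T := Nat.cast_nonneg T
  refine le_trans (le_of_eq ?_) (h1.trans (mul_le_mul_of_nonneg_right h2 hTr))
  rfl

/-- one difference -/
theorem one_FG (K : ℕ) : ∃ (C : ℝ) (B T0 : ℕ), 0 < C ∧ 2 ≤ T0 ∧ ∀ T : ℕ, T0 ≤ T →
    ∀ P Q : ℕ → ℕ → Prop, ∀ w y d : ℕ, ∀ η' : ℝ, 0 ≤ η' → K * η' ≤ 1 →
    (LC P Q y T d : ℝ) ≤ η' * T →
    FG P Q K w y d ≤ C * Real.log T ^ B := by
  classical
  obtain ⟨C, hC, B, T0, hT0, hlog⟩ := prod_one_add_le K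
  refine ⟨Real.exp 1 * C, B, T0, by positivity, hT0, ?_⟩
  intro T hT P Q w y d η' hη' hK hcard
  have hTr : (0 : ℝ) < T := by exact_mod_cast (by omega : 0 < T)
  have h1 : FG P Q K w y d ≤ (∏ p ∈ (pz y).filter (fun p : ℕ => T < p ∧ CG P Q p d), (1 + (K : ℝ) / p)) *
      ∏ p ∈ pz T, (1 + (K : ℝ) / p) := by
    have hsplit := Finset.prod_filter_mul_prod_filter_not
      ((pz y).filter (fun p : ℕ => w < p ∧ CG P Q p d)) (fun p => T < p) (fun p => (1 + (K : ℝ) / p))
    unfold FG
    rw [← hsplit]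
    apply mul_le_mul
    · apply Finset.prod_le_prod_of_subset_of_one_le
      · intro p hp
        rw [mem_filter, mem_filter] at hp
        rw [mem_filter]
        exact ⟨hp.1.1, hp.2, hp.1.2.2⟩
      · intro p _
        positivity
      · intro p _ _
        have : 0 ≤ (K : ℝ) / p := by positivity
        linarith
    · apply Finset.prod_le_prod_of_subset_of_one_le
      · intro p hp
        rw [mem_filter, mem_filter] at hp
        rw [mem_pz]
        exact ⟨by omega, (mem_pz.1 hp.1.1).2⟩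
      · intro p _
        positivity
      · intro p _ _
        have : 0 ≤ (K : ℝ) / p := by positivity
        linarith
    · exact Finset.prod_nonneg fun p _ => by positivity
    · exact Finset.prod_nonneg fun p _ => by positivity
  have h2 : ∏ p ∈ (pz y).filter (fun p : ℕ => T < p ∧ CG P Q p d), (1 + (K : ℝ) / p) ≤ Real.exp 1 := by
    calc ∏ p ∈ (pz y).filter (fun p : ℕ => T < p ∧ CG P Q p d), (1 + (K : ℝ) / p) ≤
        ∏ _p ∈ (pz y).filter (fun p : ℕ => T < p ∧ CG P Q p d), Real.exp ((K : ℝ) / T) := by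
          apply Finset.prod_le_prod
          · intro p _; positivity
          · intro p hp
            rw [mem_filter] at hp
            have h1 : (T : ℝ) ≤ p := by exact_mod_cast hp.2.1.le
            have h2 : (K : ℝ) / p ≤ K / T := by gcongr
            have h3 := Real.add_one_le_exp ((K : ℝ) / T)
            linarith
      _ = Real.exp ((K : ℝ) / T * ((pz y).filter (fun p : ℕ => T < p ∧ CG P Q p d)).card) := by
          rw [Finset.prod_const, ← Real.exp_nat_mul]
          congr 1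
          ring
      _ ≤ Real.exp 1 := by
          apply Real.exp_le_exp.2
          have h4 : (K : ℝ) / T * ((pz y).filter (fun p : ℕ => T < p ∧ CG P Q p d)).card ≤ K / T * (η' * T) := by
            apply mul_le_mul_of_nonneg_left _ (by positivity)
            exact hcard
          calc _ ≤ K / T * (η' * T) := h4
            _ = K * η' := by field_simp
            _ ≤ 1 := hK
  have hprod0 : 0 ≤ ∏ p ∈ pz T, (1 + (K : ℝ) / p) := Finset.prod_nonneg fun p _ => by positivity
  calc FG P Q K w y d ≤ _ := h1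
    _ ≤ Real.exp 1 * (C * Real.log T ^ B) :=
        mul_le_mul h2 (hlog T hT) hprod0 (Real.exp_pos 1).le
    _ = _ := by ring

end Pool.Agent.Q236.UL
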