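import Mathlib

set_option autoImplicit false

/-!
# Elementary symmetric functions of small weights
-/

namespace Pool.Agent.Q236.UL

open Finset

variable {ι : Type*} [DecidableEq ι]

lemma prod_one_add_le_exp (S : Finset ι) (V : ι → ℝ) (hV : ∀ i ∈ S, 0 ≤ V i) :
    ∏ i ∈ S, (1 + V i) ≤ Real.exp (∑ i ∈ S, V i) := by
  rw [Real.exp_sum]
  apply Finset.prod_le_prod
  · intro i hi
    have := hV i hi
    linarith
  · intro i _
    have := Real.add_one_le_exp (V i)
    linarith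

lemma sum_powerset_prod (S : Finset ι) (V : ι → ℝ) :
    ∑ J ∈ S.powerset, ∏ i ∈ J, V i = ∏ i ∈ S, (1 + V i) := by
  rw [Finset.prod_one_add]

/-- the subsets which contain two given elements -/
lemma sum_pair (S : Finset ι) (V : ι → ℝ) (hV : ∀ i ∈ S, 0 ≤ V i) (a b : ι) (ha : a ∈ S) (hb : b ∈ S)
    (hab : a ≠ b) : ∑ J ∈ S.powerset.filter (fun J => a ∈ J ∧ b ∈ J), ∏ i ∈ J, V i ≤
      V a * V b * ∏ i ∈ S, (1 + V i) := by
  have h1 : ∀ J ∈ S.powerset.filter (fun J => a ∈ J ∧ b ∈ J), ∏ i ∈ J, V i =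
      V a * V b * ∏ i ∈ (J.erase a).erase b, V i := by
    intro J hJ
    rw [mem_filter] at hJ
    rw [← Finset.mul_prod_erase J V hJ.2.1, ← Finset.mul_prod_erase (J.erase a) V
      (mem_erase.2 ⟨hab.symm, hJ.2.2⟩), mul_assoc]
  rw [Finset.sum_congr rfl h1, ← Finset.mul_sum]
  apply mul_le_mul_of_nonneg_left _ (mul_nonneg (hV a ha) (hV b hb))
  rw [← sum_powerset_prod]
  have h2 : ∑ J ∈ S.powerset.filter (fun J => a ∈ J ∧ b ∈ J), ∏ i ∈ (J.erase a).erase b, V i =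
      ∑ J ∈ (S.powerset.filter (fun J => a ∈ J ∧ b ∈ J)).image (fun J => (J.erase a).erase b), ∏ i ∈ J, V i := by
    rw [Finset.sum_image]
    intro I hI J hJ hIJ
    rw [mem_coe, mem_filter] at hI hJ
    simp only at hIJ
    ext x
    by_cases hxi : x = a
    · rw [hxi]
      exact ⟨fun _ => hJ.2.1, fun _ => hI.2.1⟩
    · by_cases hxj : x = b
      · rw [hxj]
        exact ⟨fun _ => hJ.2.2, fun _ => hI.2.2⟩
      · have h5 : x ∈ (I.erase a).erase b ↔ x ∈ (J.erase a).erase b := by rw [hIJ]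
        simp only [mem_erase] at h5
        tauto
  rw [h2]
  apply Finset.sum_le_sum_of_subset_of_nonneg
  · intro I hI
    rw [mem_image] at hI
    obtain ⟨J, hJ, rfl⟩ := hI
    rw [mem_filter, mem_powerset] at hJ
    rw [mem_powerset]
    exact (erase_subset _ _).trans ((erase_subset _ _).trans hJ.1)
  · intro J hJ _
    rw [mem_powerset] at hJ
    exact Finset.prod_nonneg fun i hi => hV i (hJ hi)

/-- sums over pairs inside the subsets -/
lemma sum_offDiag (S : Finset ι) (V : ι → ℝ) (hV : ∀ i ∈ S, 0 ≤ V i) (𝒥 : Finset (Finset ι))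
    (h𝒥 : 𝒥 ⊆ S.powerset) (g : ι × ι → ℝ) (hg : ∀ x, 0 ≤ g x) (ex : ι × ι → Prop) [DecidablePred ex]
    (hfree : ∀ J ∈ 𝒥, ∀ x ∈ J.offDiag, ¬ ex x) :
    ∑ J ∈ 𝒥, (∏ i ∈ J, V i) * ∑ x ∈ J.offDiag, g x ≤
      (∏ i ∈ S, (1 + V i)) * ∑ x ∈ S.offDiag.filter (fun x => ¬ ex x), V x.1 * V x.2 * g x := by
  have h1 : ∀ J ∈ 𝒥, (∏ i ∈ J, V i) * ∑ x ∈ J.offDiag, g x =
      ∑ x ∈ S.offDiag.filter (fun x => ¬ ex x), if x.1 ∈ J ∧ x.2 ∈ J then (∏ i ∈ J, V i) * g x else 0 := by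
    intro J hJ
    have hJS := mem_powerset.1 (h𝒥 hJ)
    rw [Finset.mul_sum, ← Finset.sum_filter]
    apply Finset.sum_congr _ (fun _ _ => rfl)
    ext x
    rw [mem_filter, mem_filter, mem_offDiag, mem_offDiag]
    constructor
    · intro hx
      exact ⟨⟨⟨hJS hx.1, hJS hx.2.1, hx.2.2⟩, hfree J hJ x (mem_offDiag.2 hx)⟩, hx.1, hx.2.1⟩
    · rintro ⟨⟨⟨_, _, h3⟩, _⟩, h4, h5⟩
      exact ⟨h4, h5, h3⟩
  rw [Finset.sum_congr rfl h1, Finset.sum_comm, Finset.mul_sum]
  apply Finset.sum_le_sum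
  intro x hx
  rw [mem_filter, mem_offDiag] at hx
  have h2 := sum_pair S V hV x.1 x.2 hx.1.1 hx.1.2.1 hx.1.2.2
  have h3 : ∑ J ∈ 𝒥, (if x.1 ∈ J ∧ x.2 ∈ J then (∏ i ∈ J, V i) * g x else 0) ≤
      (∑ J ∈ S.powerset.filter (fun J => x.1 ∈ J ∧ x.2 ∈ J), ∏ i ∈ J, V i) * g x := by
    rw [Finset.sum_mul, ← Finset.sum_filter]
    apply Finset.sum_le_sum_of_subset_of_nonneg
    · exact Finset.filter_subset_filter _ h𝒥
    · intro J hJ _
      rw [mem_filter, mem_powerset] at hJ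
      exact mul_nonneg (Finset.prod_nonneg fun i hi => hV i (hJ.1 hi)) (hg x)
  refine h3.trans ((mul_le_mul_of_nonneg_right h2 (hg x)).trans (le_of_eq ?_))
  ring

/-- the elementary symmetric function -/
noncomputable def es (k : ℕ) (S : Finset ι) (V : ι → ℝ) : ℝ := ∑ J ∈ powersetCard k S, ∏ i ∈ J, V i

lemma es_zero (S : Finset ι) (V : ι → ℝ) : es 0 S V = 1 := by
  unfold es
  rw [powersetCard_zero, sum_singleton, prod_empty]

lemma es_insert (k : ℕ) (S : Finset ι) (a : ι) (ha : a ∉ S) (V : ι → ℝ) :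
    es (k + 1) (insert a S) V = es (k + 1) S V + V a * es k S V := by
  unfold es
  rw [powersetCard_succ_insert ha, sum_union]
  · congr 1
    rw [Finset.sum_image, Finset.mul_sum]
    · apply Finset.sum_congr rfl
      intro J hJ
      rw [mem_powersetCard] at hJ
      rw [Finset.prod_insert (fun h => ha (hJ.1 h))]
    · intro I hI J hJ hIJ
      rw [mem_coe, mem_powersetCard] at hI hJ
      exact insert_inj_on_aux ha hI.1 hJ.1 hIJ
  · rw [Finset.disjoint_left]
    intro J hJ hJ'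
    rw [mem_powersetCard] at hJ
    rw [mem_image] at hJ'
    obtain ⟨I, _, rfl⟩ := hJ'
    exact ha (hJ.1 (mem_insert_self a I))
where
  insert_inj_on_aux {a : ι} {S I J : Finset ι} (ha : a ∉ S) (hI : I ⊆ S) (hJ : J ⊆ S)
      (h : insert a I = insert a J) : I = J := by
    have h1 : a ∉ I := fun h => ha (hI h)
    have h2 : a ∉ J := fun h => ha (hJ h)
    rw [← erase_insert h1, ← erase_insert h2, h]

lemma es_nonneg (k : ℕ) (S : Finset ι) (V : ι → ℝ) (hV : ∀ i ∈ S, 0 ≤ V i) : 0 ≤ es k S V := by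
  unfold es
  apply Finset.sum_nonneg
  intro J hJ
  rw [mem_powersetCard] at hJ
  exact Finset.prod_nonneg fun i hi => hV i (hJ.1 hi)

/-- the second order expansion of a power -/
lemma pow_expand (x v : ℝ) (hx : 0 ≤ x) (hv : 0 ≤ v) (k : ℕ) :
    x ^ (k + 1) + (k + 1) * v * x ^ k ≤ (x + v) ^ (k + 1) ∧
    (x + v) ^ (k + 2) ≤ x ^ (k + 2) + (k + 2) * v * x ^ (k + 1) +
      (k + 1) * (k + 2) / 2 * v ^ 2 * (x + v) ^ k := by
  constructor
  · induction k with
    | zero => simp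
    | succ k ih =>
      have hxk : 0 ≤ x ^ k := pow_nonneg hx k
      calc x ^ (k + 1 + 1) + ((k + 1 : ℕ) + 1) * v * x ^ (k + 1) ≤
          (x ^ (k + 1) + (k + 1) * v * x ^ k) * (x + v) := by
            push_cast
            have h1 : 0 ≤ ((k : ℝ) + 1) * v * x ^ k * v := by positivity
            have e : x ^ (k + 1 + 1) + ((k : ℝ) + 1 + 1) * v * x ^ (k + 1) + ((k : ℝ) + 1) * v * x ^ k * v =
                (x ^ (k + 1) + (k + 1) * v * x ^ k) * (x + v) := by ring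
            linarith
        _ ≤ (x + v) ^ (k + 1) * (x + v) := mul_le_mul_of_nonneg_right ih (by linarith)
        _ = (x + v) ^ (k + 1 + 1) := by ring
  · induction k with
    | zero =>
      have e : (x + v) ^ (0 + 2) = x ^ (0 + 2) + ((0 : ℕ) + 2) * v * x ^ (0 + 1) +
        ((0 : ℕ) + 1) * ((0 : ℕ) + 2) / 2 * v ^ 2 * (x + v) ^ 0 := by
        push_cast
        ring
      exact e.le
    | succ k ih =>
      have h1 : x ^ (k + 1) ≤ (x + v) ^ (k + 1) := pow_le_pow_left₀ hx (by linarith) _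
      have h2 : (x + v) ^ (k + 1 + 2) = (x + v) ^ (k + 2) * (x + v) := by ring
      have hxv : 0 ≤ x + v := by linarith
      rw [h2]
      refine (mul_le_mul_of_nonneg_right ih hxv).trans ?_
      have e : (x ^ (k + 2) + ((k : ℝ) + 2) * v * x ^ (k + 1) +
          (k + 1) * (k + 2) / 2 * v ^ 2 * (x + v) ^ k) * (x + v) =
          x ^ (k + 1 + 2) + ((k : ℝ) + 1 + 2) * v * x ^ (k + 1 + 1) + ((k : ℝ) + 2) * v ^ 2 * x ^ (k + 1) +
          (k + 1) * (k + 2) / 2 * v ^ 2 * (x + v) ^ (k + 1) := by ring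
      rw [e]
      push_cast
      have h3 : ((k : ℝ) + 2) * v ^ 2 * x ^ (k + 1) ≤ ((k : ℝ) + 2) * v ^ 2 * (x + v) ^ (k + 1) :=
        mul_le_mul_of_nonneg_left h1 (by positivity)
      have e2 : ((k : ℝ) + 1 + 1) * ((k : ℝ) + 1 + 2) / 2 * v ^ 2 * (x + v) ^ (k + 1) =
          ((k : ℝ) + 2) * v ^ 2 * (x + v) ^ (k + 1) + (k + 1) * (k + 2) / 2 * v ^ 2 * (x + v) ^ (k + 1) := by ring
      linarith

lemma fac_expand (x v : ℝ) (hx : 0 ≤ x) (hv : 0 ≤ v) (k : ℕ) :
    x ^ (k + 1) / (k + 1).factorial + v * (x ^ k / k.factorial) ≤ (x + v) ^ (k + 1) / (k + 1).factorial ∧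
    (x + v) ^ (k + 2) / (k + 2).factorial ≤ x ^ (k + 2) / (k + 2).factorial + v * (x ^ (k + 1) / (k + 1).factorial) +
      v ^ 2 / 2 * ((x + v) ^ k / k.factorial) := by
  obtain ⟨h1, h2⟩ := pow_expand x v hx hv k
  have hf : (0 : ℝ) < k.factorial := by exact_mod_cast Nat.factorial_pos k
  have e1 : ((k + 1).factorial : ℝ) = (k + 1) * k.factorial := by
    rw [Nat.factorial_succ]
    push_cast
    ring
  have e2 : ((k + 2).factorial : ℝ) = (k + 2) * ((k + 1) * k.factorial) := by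
    rw [Nat.factorial_succ, Nat.factorial_succ]
    push_cast
    ring
  have hk0 : (0 : ℝ) ≤ k := Nat.cast_nonneg k
  constructor
  · rw [e1]
    have e : x ^ (k + 1) / ((k + 1) * (k.factorial : ℝ)) + v * (x ^ k / k.factorial) =
        (x ^ (k + 1) + (k + 1) * v * x ^ k) / ((k + 1) * k.factorial) := by
      field_simp
    rw [e]
    exact div_le_div_of_nonneg_right h1 (by positivity)
  · rw [e2, e1]
    have e : x ^ (k + 2) / (((k : ℝ) + 2) * ((k + 1) * k.factorial)) +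
        v * (x ^ (k + 1) / ((k + 1) * k.factorial)) + v ^ 2 / 2 * ((x + v) ^ k / k.factorial) =
        (x ^ (k + 2) + (k + 2) * v * x ^ (k + 1) + (k + 1) * (k + 2) / 2 * v ^ 2 * (x + v) ^ k) /
          ((k + 2) * ((k + 1) * k.factorial)) := by
      field_simp
    rw [e]
    exact div_le_div_of_nonneg_right h2 (by positivity)

/-- the elementary symmetric function and the power of the sum -/
lemma es_near (S : Finset ι) (V : ι → ℝ) (hV : ∀ i ∈ S, 0 ≤ V i) :
    es 1 S V = ∑ i ∈ S, V i ∧ ∀ k : ℕ,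
      es (k + 2) S V ≤ (∑ i ∈ S, V i) ^ (k + 2) / (k + 2).factorial ∧
      (∑ i ∈ S, V i) ^ (k + 2) / (k + 2).factorial - es (k + 2) S V ≤
        (∑ i ∈ S, V i ^ 2) / 2 * ((∑ i ∈ S, V i) ^ k / k.factorial) := by
  induction S using Finset.induction_on with
  | empty =>
    constructor
    · unfold es
      rw [powersetCard_eq_empty.2 (by simp)]
      simp
    · intro k
      unfold es
      rw [powersetCard_eq_empty.2 (by simp)]
      simp
  | insert a S ha ih =>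
    obtain ⟨ih1, ih2⟩ := ih (fun i hi => hV i (mem_insert_of_mem hi))
    have hVa : 0 ≤ V a := hV a (mem_insert_self _ _)
    have hL0 : 0 ≤ ∑ i ∈ S, V i := Finset.sum_nonneg fun i hi => hV i (mem_insert_of_mem hi)
    have hs0 : 0 ≤ ∑ i ∈ S, V i ^ 2 := Finset.sum_nonneg fun i _ => sq_nonneg _
    rw [Finset.sum_insert ha, Finset.sum_insert ha]
    obtain ⟨L, hL⟩ : ∃ L, L = ∑ i ∈ S, V i := ⟨_, rfl⟩
    obtain ⟨s, hs⟩ : ∃ s, s = ∑ i ∈ S, V i ^ 2 := ⟨_, rfl⟩
    rw [← hL] at ih1 ih2 hL0 ⊢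
    rw [← hs] at ih2 hs0 ⊢
    constructor
    · rw [es_insert 0 S a ha V, es_zero, ih1]
      ring
    · intro k
      rw [es_insert (k + 1) S a ha V]
      obtain ⟨h1, h2⟩ := ih2 k
      obtain ⟨h3, h4⟩ := fac_expand L (V a) hL0 hVa (k + 1)
      obtain ⟨h5, h6⟩ := fac_expand L (V a) hL0 hVa k
      rw [add_comm (V a) L, add_comm (V a ^ 2) s]
      have hpos : 0 ≤ (L + V a) ^ k / (k.factorial : ℝ) := by positivity
      rcases k with _ | k
      · -- `k = 0`
        rw [zero_add] at h1 h2 ⊢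
        rw [ih1]
        simp only [zero_add, Nat.factorial, Nat.cast_one, pow_zero, pow_one] at h1 h2 h6 ⊢
        norm_num at h1 h2 h6 ⊢
        constructor
        · nlinarith [sq_nonneg (V a)]
        · nlinarith [sq_nonneg (V a)]
      · obtain ⟨g1, g2⟩ := ih2 k
        have g3 := mul_le_mul_of_nonneg_left g1 hVa
        have g4 := mul_le_mul_of_nonneg_left g2 hVa
        have h7 : L ^ (k + 1) / ((k + 1).factorial : ℝ) + V a * (L ^ k / k.factorial) ≤
            (L + V a) ^ (k + 1) / (k + 1).factorial := (fac_expand L (V a) hL0 hVa k).1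
        constructor
        · linarith [h3]
        · have h8 : s / 2 * (L ^ (k + 1) / ((k + 1).factorial : ℝ) + V a * (L ^ k / k.factorial)) ≤
            s / 2 * ((L + V a) ^ (k + 1) / (k + 1).factorial) := mul_le_mul_of_nonneg_left h7 (by positivity)
          nlinarith [h6, h2, g4, h8]

/-- one factor -/
lemma es_close (k : ℕ) (S : Finset ι) (V : ι → ℝ) (hV : ∀ i ∈ S, 0 ≤ V i) (v Λ x : ℝ) (hv : 0 ≤ v)
    (hVv : ∀ i ∈ S, V i ≤ v) (hΛ : ∑ i ∈ S, V i ≤ Λ) (hx : 0 ≤ x) (hxΛ : x ≤ Λ) :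
    |es k S V - x ^ k / k.factorial| ≤ (1 + Λ) ^ (k + 1) * (v + k * |∑ i ∈ S, V i - x|) := by
  obtain ⟨L, hL⟩ : ∃ L, L = ∑ i ∈ S, V i := ⟨_, rfl⟩
  have hL0 : 0 ≤ L := by rw [hL]; exact Finset.sum_nonneg hV
  have hΛ0 : 0 ≤ Λ := by linarith
  obtain ⟨h1, h2⟩ := es_near S V hV
  rw [← hL] at h1 h2 hΛ ⊢
  have hsq : ∑ i ∈ S, V i ^ 2 ≤ v * L := by
    rw [hL, Finset.mul_sum]
    apply Finset.sum_le_sum
    intro i hi
    rw [sq]
    exact mul_le_mul_of_nonneg_right (hVv i hi) (hV i hi)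
  have hfac : ∀ j : ℕ, (1 : ℝ) ≤ j.factorial := fun j => by exact_mod_cast Nat.factorial_pos j
  have hA : |es k S V - L ^ k / k.factorial| ≤ (1 + Λ) ^ (k + 1) * v := by
    rcases k with _ | _ | k
    · rw [es_zero]
      simp
      positivity
    · rw [zero_add, h1]
      simp
      positivity
    · obtain ⟨a1, a2⟩ := h2 k
      rw [abs_sub_comm, abs_of_nonneg (by linarith)]
      refine a2.trans ?_
      have h3 : L ^ k / (k.factorial : ℝ) ≤ (1 + Λ) ^ k := by
        refine (div_le_self (by positivity) (hfac k)).trans ?_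
        exact pow_le_pow_left₀ hL0 (by linarith) k
      have h4 : (∑ i ∈ S, V i ^ 2) / 2 ≤ v * Λ := by
        have : v * L ≤ v * Λ := mul_le_mul_of_nonneg_left hΛ hv
        have h5 : 0 ≤ v * Λ := mul_nonneg hv hΛ0
        linarith
      calc (∑ i ∈ S, V i ^ 2) / 2 * (L ^ k / k.factorial) ≤ (v * Λ) * (1 + Λ) ^ k := by
            apply mul_le_mul h4 h3 (by positivity) (by positivity)
        _ ≤ (1 + Λ) ^ (k + 2 + 1) * v := by
            have h6 : Λ * (1 + Λ) ^ k ≤ (1 + Λ) ^ (k + 2 + 1) := by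
              calc Λ * (1 + Λ) ^ k ≤ (1 + Λ) * (1 + Λ) ^ k := mul_le_mul_of_nonneg_right (by linarith) (by positivity)
                _ = (1 + Λ) ^ (k + 1) := by ring
                _ ≤ (1 + Λ) ^ (k + 2 + 1) := pow_le_pow_right₀ (by linarith) (by omega)
            nlinarith
  have hB : |L ^ k / (k.factorial : ℝ) - x ^ k / k.factorial| ≤ (1 + Λ) ^ (k + 1) * (k * |L - x|) := by
    have e : L ^ k / (k.factorial : ℝ) - x ^ k / k.factorial = (L ^ k - x ^ k) / k.factorial := by ring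
    rw [e, abs_div, Nat.abs_cast]
    refine (div_le_self (abs_nonneg _) (hfac k)).trans ?_
    have h3 : |L ^ k - x ^ k| ≤ k * (1 + Λ) ^ k * |L - x| := by
      have h4 := abs_pow_sub_pow_le L x k
      have h5 : max |L| |x| ≤ 1 + Λ := by
        rw [abs_of_nonneg hL0, abs_of_nonneg hx]
        exact max_le (by linarith) (by linarith)
      have h6 : max |L| |x| ^ (k - 1) ≤ (1 + Λ) ^ k := by
        calc max |L| |x| ^ (k - 1) ≤ (1 + Λ) ^ (k - 1) :=
              pow_le_pow_left₀ (le_max_of_le_left (abs_nonneg _)) h5 _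
          _ ≤ (1 + Λ) ^ k := pow_le_pow_right₀ (by linarith) (by omega)
      calc |L ^ k - x ^ k| ≤ |L - x| * k * max |L| |x| ^ (k - 1) := h4
        _ ≤ |L - x| * k * (1 + Λ) ^ k := mul_le_mul_of_nonneg_left h6 (by positivity)
        _ = _ := by ring
    refine h3.trans ?_
    have h7 : (1 + Λ) ^ k ≤ (1 + Λ) ^ (k + 1) := pow_le_pow_right₀ (by linarith) (by omega)
    have h8 : 0 ≤ (k : ℝ) * |L - x| := by positivity
    calc (k : ℝ) * (1 + Λ) ^ k * |L - x| = (1 + Λ) ^ k * (k * |L - x|) := by ring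
      _ ≤ _ := mul_le_mul_of_nonneg_right h7 h8
  have := abs_sub_le (es k S V) (L ^ k / k.factorial) (x ^ k / k.factorial)
  nlinarith

/-- products of close numbers -/
lemma prod_close {τ : Type*} [DecidableEq τ] (s : Finset τ) (a b : τ → ℝ) (G δ : ℝ) (hG : 1 ≤ G)
    (ha : ∀ t ∈ s, |a t| ≤ G) (hb : ∀ t ∈ s, |b t| ≤ G) (h : ∀ t ∈ s, |a t - b t| ≤ δ) :
    |∏ t ∈ s, a t - ∏ t ∈ s, b t| ≤ s.card * G ^ s.card * δ := by
  induction s using Finset.induction_on with
  | empty => simp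
  | insert t s ht ih =>
    have ih' := ih (fun t ht => ha t (mem_insert_of_mem ht)) (fun t ht => hb t (mem_insert_of_mem ht))
      (fun t ht => h t (mem_insert_of_mem ht))
    rw [prod_insert ht, prod_insert ht, card_insert_of_notMem ht]
    have e : a t * ∏ t ∈ s, a t - b t * ∏ t ∈ s, b t = (a t - b t) * ∏ t ∈ s, a t +
      b t * (∏ t ∈ s, a t - ∏ t ∈ s, b t) := by ring
    rw [e]
    refine (abs_add_le _ _).trans ?_
    rw [abs_mul, abs_mul]
    have h1 : |∏ t ∈ s, a t| ≤ G ^ s.card := by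
      rw [abs_prod]
      calc ∏ t ∈ s, |a t| ≤ ∏ _t ∈ s, G := prod_le_prod (fun t _ => abs_nonneg _)
            (fun t ht => ha t (mem_insert_of_mem ht))
        _ = G ^ s.card := by rw [prod_const]
    have hδ : 0 ≤ δ := (abs_nonneg _).trans (h t (mem_insert_self _ _))
    have h2 : |a t - b t| * |∏ t ∈ s, a t| ≤ δ * G ^ s.card :=
      mul_le_mul (h t (mem_insert_self _ _)) h1 (abs_nonneg _) hδ
    have h3 : |b t| * |∏ t ∈ s, a t - ∏ t ∈ s, b t| ≤ G * (s.card * G ^ s.card * δ) :=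
      mul_le_mul (hb t (mem_insert_self _ _)) ih' (abs_nonneg _) (by linarith)
    have h4 : G ^ s.card ≤ G ^ (s.card + 1) := pow_le_pow_right₀ hG (by omega)
    have h5 : δ * G ^ s.card ≤ δ * G ^ (s.card + 1) := mul_le_mul_of_nonneg_left h4 hδ
    calc |a t - b t| * |∏ t ∈ s, a t| + |b t| * |∏ t ∈ s, a t - ∏ t ∈ s, b t| ≤
        δ * G ^ (s.card + 1) + G * (s.card * G ^ s.card * δ) := by linarith
      _ = _ := by
        push_cast
        ring

/-- powers and binomial coefficients -/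
lemma pow_le_choose' (v m : ℕ) : ((1 + v : ℕ) : ℝ) ^ m ≤
    ((2 * m + 1 : ℕ) : ℝ) ^ m + 2 ^ m * m.factorial * (v.choose m : ℝ) := by
  rcases le_or_gt v (2 * m) with h | h
  · have h1 : ((1 + v : ℕ) : ℝ) ^ m ≤ ((2 * m + 1 : ℕ) : ℝ) ^ m := by
      apply pow_le_pow_left₀ (by positivity)
      exact_mod_cast (by omega : 1 + v ≤ 2 * m + 1)
    have h2 : (0 : ℝ) ≤ 2 ^ m * m.factorial * (v.choose m : ℝ) := by positivity
    linarith
  · have h1 : (((v + 1 - m : ℕ) ^ m : ℕ) : ℝ) ≤ m.factorial * (v.choose m : ℝ) := by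
      have := Nat.pow_sub_le_descFactorial v m
      rw [Nat.descFactorial_eq_factorial_mul_choose] at this
      exact_mod_cast this
    have h2 : ((1 + v : ℕ) : ℝ) ≤ 2 * ((v + 1 - m : ℕ) : ℝ) := by
      exact_mod_cast (by omega : 1 + v ≤ 2 * (v + 1 - m))
    have h3 : (0 : ℝ) ≤ ((2 * m + 1 : ℕ) : ℝ) ^ m := by positivity
    calc ((1 + v : ℕ) : ℝ) ^ m ≤ (2 * ((v + 1 - m : ℕ) : ℝ)) ^ m := pow_le_pow_left₀ (by positivity) h2 m
      _ = 2 ^ m * (((v + 1 - m : ℕ) ^ m : ℕ) : ℝ) := by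
          push_cast
          ring
      _ ≤ 2 ^ m * (m.factorial * (v.choose m : ℝ)) := mul_le_mul_of_nonneg_left h1 (by positivity)
      _ = 2 ^ m * m.factorial * (v.choose m : ℝ) := by ring
      _ ≤ _ := by linarith

end Pool.Agent.Q236.UL
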