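import Pool.Agent.TH464.PO.Comb
import Pool.Agent.Q236.ML.Mixed

set_option autoImplicit false

/-!
# From joint binomial moments to the joint law
-/

namespace Pool.Agent.Q236.UL

open Finset Pool.Agent.TH464.PO Pool.Agent.Q236.ML

/-- one step, with weights -/
lemma law_w (Om : Finset ℕ) (W : ℕ → ℝ) (hW : ∀ n, 0 ≤ W n) (N : ℕ → ℕ) (x η c0 : ℝ) (hx : 0 ≤ x)
    (hc0 : 0 ≤ c0) (j m : ℕ)
    (h : ∀ k ≤ m + 1 + j, |∑ n ∈ Om, W n * ((N n).choose k : ℝ) - c0 * (x ^ k / k.factorial)| ≤ η) :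
    |∑ n ∈ Om, W n * (if N n = j then (1 : ℝ) else 0) - c0 * (Real.exp (-x) * x ^ j / j.factorial)| ≤
      c0 * (((m + 1 + j).choose j : ℝ) * (x ^ (m + 1 + j) / (m + 1 + j).factorial) * (1 + Real.exp x)) +
        η * ∑ i ∈ range (m + 2), ((i + j).choose j : ℝ) := by
  obtain ⟨S, hS⟩ : ∃ S : ℝ, S = ∑ i ∈ range (m + 1), (-1) ^ i * (((i + j).choose j : ℝ) *
      ∑ n ∈ Om, W n * ((N n).choose (i + j) : ℝ)) := ⟨_, rfl⟩
  have h2 : |∑ n ∈ Om, W n * (if N n = j then (1 : ℝ) else 0) - S| ≤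
      ((m + 1 + j).choose j : ℝ) * ∑ n ∈ Om, W n * ((N n).choose (m + 1 + j) : ℝ) := by
    have e : S = ∑ n ∈ Om, W n * ∑ i ∈ range (m + 1), (-1) ^ i * (((i + j).choose j : ℝ) *
        ((N n).choose (i + j) : ℝ)) := by
      rw [hS]
      have : ∀ n ∈ Om, W n * ∑ i ∈ range (m + 1), (-1) ^ i * (((i + j).choose j : ℝ) *
        ((N n).choose (i + j) : ℝ)) = ∑ i ∈ range (m + 1), (-1) ^ i * (((i + j).choose j : ℝ) *
        (W n * ((N n).choose (i + j) : ℝ))) := by
        intro n _
        rw [Finset.mul_sum]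
        apply Finset.sum_congr rfl
        intro i _
        ring
      rw [Finset.sum_congr rfl this, Finset.sum_comm]
      apply Finset.sum_congr rfl
      intro i _
      rw [Finset.mul_sum, Finset.mul_sum]
    rw [e, ← Finset.sum_sub_distrib]
    refine (Finset.abs_sum_le_sum_abs _ _).trans ?_
    rw [Finset.mul_sum]
    apply Finset.sum_le_sum
    intro n _
    rw [← mul_sub, abs_mul, abs_of_nonneg (hW n)]
    calc W n * |(if N n = j then (1 : ℝ) else 0) - ∑ i ∈ range (m + 1), (-1) ^ i * (((i + j).choose j : ℝ) *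
        ((N n).choose (i + j) : ℝ))| ≤ W n * (((m + 1 + j).choose j : ℝ) * ((N n).choose (m + 1 + j) : ℝ)) :=
          mul_le_mul_of_nonneg_left (bonf_eq (N n) j m) (hW n)
      _ = _ := by ring
  obtain ⟨P, hP⟩ : ∃ P : ℝ, P = ∑ i ∈ range (m + 1), (-1) ^ i * (((i + j).choose j : ℝ) *
      (x ^ (i + j) / (i + j).factorial)) := ⟨_, rfl⟩
  have h3 := bonf_poisson x hx j m
  rw [← hP] at h3
  have h4 : |S - c0 * P| ≤ η * ∑ i ∈ range (m + 1), ((i + j).choose j : ℝ) := by
    rw [hS, hP, Finset.mul_sum, ← Finset.sum_sub_distrib]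
    refine (Finset.abs_sum_le_sum_abs _ _).trans ?_
    rw [Finset.mul_sum]
    apply Finset.sum_le_sum
    intro i hi
    rw [mem_range] at hi
    have h5 := h (i + j) (by omega)
    have e : (-1 : ℝ) ^ i * (((i + j).choose j : ℝ) * ∑ n ∈ Om, W n * ((N n).choose (i + j) : ℝ)) -
        c0 * ((-1) ^ i * (((i + j).choose j : ℝ) * (x ^ (i + j) / (i + j).factorial))) =
        (-1) ^ i * (((i + j).choose j : ℝ) * (∑ n ∈ Om, W n * ((N n).choose (i + j) : ℝ) -
          c0 * (x ^ (i + j) / (i + j).factorial))) := by ring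
    rw [e, abs_mul, abs_pow, abs_neg, abs_one, one_pow, one_mul, abs_mul, Nat.abs_cast, mul_comm]
    exact mul_le_mul_of_nonneg_right h5 (Nat.cast_nonneg _)
  have h5 : ∑ n ∈ Om, W n * ((N n).choose (m + 1 + j) : ℝ) ≤
      c0 * (x ^ (m + 1 + j) / (m + 1 + j).factorial) + η := by
    have := (abs_le.1 (h (m + 1 + j) le_rfl)).2
    linarith
  have h6 := mul_le_mul_of_nonneg_left h5 (Nat.cast_nonneg ((m + 1 + j).choose j) : (0 : ℝ) ≤ _)
  have h7 : |c0 * P - c0 * (Real.exp (-x) * x ^ j / j.factorial)| ≤ c0 *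
      (((m + 1 + j).choose j : ℝ) * (x ^ (m + 1 + j) / (m + 1 + j).factorial) * Real.exp x) := by
    rw [← mul_sub, abs_mul, abs_of_nonneg hc0, abs_sub_comm]
    exact mul_le_mul_of_nonneg_left h3 hc0
  have h8 : ∑ n ∈ Om, W n * (if N n = j then (1 : ℝ) else 0) - c0 * (Real.exp (-x) * x ^ j / j.factorial) =
      (∑ n ∈ Om, W n * (if N n = j then (1 : ℝ) else 0) - S) + (S - c0 * P) +
        (c0 * P - c0 * (Real.exp (-x) * x ^ j / j.factorial)) := by ring
  rw [h8, Finset.sum_range_succ _ (m + 1)]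
  refine (abs_add_three _ _ _).trans ?_
  nlinarith [h2, h4, h7, h6]

/-- the error in one step is small -/
lemma step_small (Λ G δ : ℝ) (hΛ : 0 ≤ Λ) (hG : 0 ≤ G) (hδ : 0 < δ) (J : ℕ) : ∃ m : ℕ, ∀ j ≤ J, ∀ x : ℝ,
    0 ≤ x → x ≤ Λ →
    G * (((m + 1 + j).choose j : ℝ) * (x ^ (m + 1 + j) / (m + 1 + j).factorial) * (1 + Real.exp x)) ≤ δ := by
  obtain ⟨y, hy⟩ : ∃ y : ℝ, y = max Λ 1 := ⟨_, rfl⟩
  have hy1 : 1 ≤ y := by rw [hy]; exact le_max_right _ _
  have hyx : Λ ≤ y := by rw [hy]; exact le_max_left _ _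
  obtain ⟨m, hm⟩ := exists_small y (G * y ^ J * (1 + Real.exp Λ)) δ hδ
  have hm' := hm (m + 1) (by omega)
  refine ⟨m, ?_⟩
  intro j hj x hx hxx
  refine le_trans ?_ hm'
  have h3 := Nat.add_choose_mul_factorial_mul_factorial (m + 1) j
  have h3' : ((m + 1 + j).choose j : ℝ) * (m + 1).factorial * j.factorial = (m + 1 + j).factorial := by
    exact_mod_cast h3
  have h4 : ((m + 1 + j).choose j : ℝ) ≠ 0 := by
    have : 0 < (m + 1 + j).choose j := Nat.choose_pos (by omega)
    positivity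
  have h5 : ((m + 1 + j).choose j : ℝ) * (x ^ (m + 1 + j) / (m + 1 + j).factorial) =
      x ^ (m + 1 + j) / ((m + 1).factorial * j.factorial) := by
    rw [← h3']
    field_simp
  rw [h5]
  have h6 : x ^ (m + 1 + j) / ((m + 1).factorial * j.factorial) ≤ y ^ (m + 1 + J) / (m + 1).factorial := by
    have hf1 : (1 : ℝ) ≤ j.factorial := by exact_mod_cast Nat.factorial_pos j
    have hf2 : (0 : ℝ) < (m + 1).factorial := by exact_mod_cast Nat.factorial_pos (m + 1)
    apply div_le_div₀ (by positivity) _ hf2 (by nlinarith)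
    calc x ^ (m + 1 + j) ≤ y ^ (m + 1 + j) := pow_le_pow_left₀ hx (hxx.trans hyx) _
      _ ≤ y ^ (m + 1 + J) := pow_le_pow_right₀ hy1 (by omega)
  have h7 : 1 + Real.exp x ≤ 1 + Real.exp Λ := by
    have := Real.exp_le_exp.2 hxx
    linarith
  calc G * (x ^ (m + 1 + j) / ((m + 1).factorial * j.factorial) * (1 + Real.exp x)) ≤
      G * (y ^ (m + 1 + J) / (m + 1).factorial * (1 + Real.exp Λ)) := by
        apply mul_le_mul_of_nonneg_left _ hG
        apply mul_le_mul h6 h7 (by positivity) (by positivity)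
    _ = _ := by
      rw [pow_add]
      ring

variable {τ : Type*} [Fintype τ] [DecidableEq τ]

/-- indicator or binomial coefficient -/
noncomputable def fac (T : Finset τ) (t : τ) (j v : ℕ) : ℝ :=
  if t ∈ T then (if v = j then 1 else 0) else (v.choose j : ℝ)

/-- Poisson weight or moment -/
noncomputable def tg (T : Finset τ) (t : τ) (j : ℕ) (x : ℝ) : ℝ :=
  if t ∈ T then Real.exp (-x) * x ^ j / j.factorial else x ^ j / j.factorial

lemma fac_nonneg (T : Finset τ) (t : τ) (j v : ℕ) : 0 ≤ fac T t j v := by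
  unfold fac
  split_ifs <;> positivity

lemma tg_nonneg (T : Finset τ) (t : τ) (j : ℕ) (x : ℝ) (hx : 0 ≤ x) : 0 ≤ tg T t j x := by
  unfold tg
  split_ifs <;> positivity

lemma tg_le (T : Finset τ) (t : τ) (j J : ℕ) (hj : j ≤ J) (x Λ : ℝ) (hx : 0 ≤ x) (hxΛ : x ≤ Λ) :
    tg T t j x ≤ (1 + Λ) ^ J := by
  have hf1 : (1 : ℝ) ≤ j.factorial := by exact_mod_cast Nat.factorial_pos j
  have h1 : x ^ j / j.factorial ≤ (1 + Λ) ^ J := by
    calc x ^ j / j.factorial ≤ x ^ j := div_le_self (by positivity) hf1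
      _ ≤ (1 + Λ) ^ j := pow_le_pow_left₀ hx (by linarith) j
      _ ≤ (1 + Λ) ^ J := pow_le_pow_right₀ (by linarith) hj
  unfold tg
  split_ifs
  · refine le_trans ?_ h1
    have h2 : Real.exp (-x) ≤ 1 := Real.exp_le_one_iff.2 (by linarith)
    have h3 : 0 ≤ x ^ j / (j.factorial : ℝ) := by positivity
    calc Real.exp (-x) * x ^ j / j.factorial = Real.exp (-x) * (x ^ j / j.factorial) := by ring
      _ ≤ 1 * (x ^ j / j.factorial) := mul_le_mul_of_nonneg_right h2 h3
      _ = _ := one_mul _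
  · exact h1

/-- the hypothesis on the joint moments -/
def Mom (R : ℕ) (η : ℝ) (Om : Finset ℕ) (N : τ → ℕ → ℕ) (x : τ → ℝ) : Prop :=
  ∀ k : τ → ℕ, (∀ t, k t ≤ R) → |∑ n ∈ Om, ∏ t, ((N t n).choose (k t) : ℝ) -
    Om.card * ∏ t, (x t ^ k t / (k t).factorial)| ≤ η * Om.card

/-- from moments to indicators, type after type -/
theorem convert_law (Λ : ℝ) (hΛ : 0 ≤ Λ) (T : Finset τ) : ∀ (J : ℕ) (δ : ℝ), 0 < δ → ∃ (R : ℕ) (η : ℝ), 0 < η ∧
    ∀ (Om : Finset ℕ) (N : τ → ℕ → ℕ) (x : τ → ℝ), (∀ t, 0 ≤ x t) → (∀ t, x t ≤ Λ) → Mom R η Om N x →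
    ∀ k : τ → ℕ, (∀ t, k t ≤ J) → |∑ n ∈ Om, ∏ t, fac T t (k t) (N t n) -
      Om.card * ∏ t, tg T t (k t) (x t)| ≤ δ * Om.card := by
  induction T using Finset.induction_on with
  | empty =>
    intro J δ hδ
    refine ⟨J, δ, hδ, ?_⟩
    intro Om N x hx hxΛ h k hk
    have h1 := h k hk
    simpa [fac, tg] using h1
  | insert a T ha ih =>
    intro J δ hδ
    obtain ⟨G, hG⟩ : ∃ G : ℝ, G = ∏ _t : τ, (1 + Λ) ^ J := ⟨_, rfl⟩
    have hG1 : 1 ≤ G := by
      rw [hG]
      apply Finset.one_le_prod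
      intro t _
      exact one_le_pow₀ (by linarith)
    obtain ⟨m, hm⟩ := step_small Λ G (δ / 2) hΛ (by linarith) (by positivity) J
    obtain ⟨Cs, hCs⟩ : ∃ C : ℝ, C = ∑ j ∈ range (J + 1), ∑ i ∈ range (m + 2), ((i + j).choose j : ℝ) := ⟨_, rfl⟩
    have hCs0 : 0 ≤ Cs := by
      rw [hCs]
      exact Finset.sum_nonneg fun _ _ => Finset.sum_nonneg fun _ _ => Nat.cast_nonneg _
    obtain ⟨R, η, hη, hlaw⟩ := ih (m + 1 + J) (δ / (2 * (Cs + 1))) (by positivity)
    refine ⟨R, η, hη, ?_⟩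
    intro Om N x hx hxΛ h k hk
    have hOm : (0 : ℝ) ≤ Om.card := Nat.cast_nonneg _
    obtain ⟨c0, hc0⟩ : ∃ c0 : ℝ, c0 = Om.card * ∏ t ∈ univ.erase a, tg T t (k t) (x t) := ⟨_, rfl⟩
    have hP0 : 0 ≤ ∏ t ∈ univ.erase a, tg T t (k t) (x t) :=
      Finset.prod_nonneg fun t _ => tg_nonneg T t (k t) (x t) (hx t)
    have hPG : ∏ t ∈ univ.erase a, tg T t (k t) (x t) ≤ G := by
      calc ∏ t ∈ univ.erase a, tg T t (k t) (x t) ≤ ∏ _t ∈ univ.erase a, (1 + Λ) ^ J :=
            Finset.prod_le_prod (fun t _ => tg_nonneg T t (k t) (x t) (hx t))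
              (fun t _ => tg_le T t (k t) J (hk t) (x t) Λ (hx t) (hxΛ t))
        _ ≤ ∏ _t : τ, (1 + Λ) ^ J := by
            apply Finset.prod_le_prod_of_subset_of_one_le (subset_univ _)
            · intro t _; positivity
            · intro t _ _
              exact one_le_pow₀ (by linarith)
        _ = G := hG.symm
    have hc00 : 0 ≤ c0 := by rw [hc0]; positivity
    have hmom : ∀ κ ≤ m + 1 + k a, |∑ n ∈ Om, (∏ t ∈ univ.erase a, fac T t (k t) (N t n)) *
        ((N a n).choose κ : ℝ) - c0 * (x a ^ κ / κ.factorial)| ≤ δ / (2 * (Cs + 1)) * Om.card := by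
      intro κ hκ
      have h1 := hlaw Om N x hx hxΛ h (Function.update k a κ) (by
        intro t
        by_cases hta : t = a
        · rw [hta, Function.update_self]
          have := hk a
          omega
        · rw [Function.update_of_ne hta]
          have := hk t
          omega)
      have e1 : ∀ n, ∏ t, fac T t (Function.update k a κ t) (N t n) =
          (∏ t ∈ univ.erase a, fac T t (k t) (N t n)) * ((N a n).choose κ : ℝ) := by
        intro n
        rw [← Finset.mul_prod_erase univ _ (mem_univ a), Function.update_self, mul_comm]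
        congr 1
        · apply Finset.prod_congr rfl
          intro t ht
          rw [Function.update_of_ne (ne_of_mem_erase ht)]
        · unfold fac
          rw [if_neg ha]
      have e2 : ∏ t, tg T t (Function.update k a κ t) (x t) =
          (∏ t ∈ univ.erase a, tg T t (k t) (x t)) * (x a ^ κ / κ.factorial) := by
        rw [← Finset.mul_prod_erase univ _ (mem_univ a), Function.update_self, mul_comm]
        congr 1
        · apply Finset.prod_congr rfl
          intro t ht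
          rw [Function.update_of_ne (ne_of_mem_erase ht)]
        · unfold tg
          rw [if_neg ha]
      rw [Finset.sum_congr rfl (fun n _ => e1 n), e2] at h1
      rw [hc0]
      have e3 : (Om.card : ℝ) * ((∏ t ∈ univ.erase a, tg T t (k t) (x t)) * (x a ^ κ / κ.factorial)) =
          Om.card * (∏ t ∈ univ.erase a, tg T t (k t) (x t)) * (x a ^ κ / κ.factorial) := by ring
      rw [e3] at h1
      exact h1
    have hmain := law_w Om (fun n => ∏ t ∈ univ.erase a, fac T t (k t) (N t n))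
      (fun n => Finset.prod_nonneg fun t _ => fac_nonneg T t (k t) (N t n)) (N a) (x a)
      (δ / (2 * (Cs + 1)) * Om.card) c0 (hx a) hc00 (k a) m hmom
    have e4 : ∀ n, ∏ t, fac (insert a T) t (k t) (N t n) =
        (∏ t ∈ univ.erase a, fac T t (k t) (N t n)) * (if N a n = k a then (1 : ℝ) else 0) := by
      intro n
      rw [← Finset.mul_prod_erase univ _ (mem_univ a), mul_comm]
      congr 1
      · apply Finset.prod_congr rfl
        intro t ht
        have h1 : t ∈ insert a T ↔ t ∈ T := by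
          rw [mem_insert]
          exact or_iff_right (ne_of_mem_erase ht)
        unfold fac
        by_cases ht2 : t ∈ T
        · rw [if_pos (h1.2 ht2), if_pos ht2]
        · rw [if_neg (fun h => ht2 (h1.1 h)), if_neg ht2]
      · unfold fac
        rw [if_pos (mem_insert_self _ _)]
    have e5 : ∏ t, tg (insert a T) t (k t) (x t) =
        (∏ t ∈ univ.erase a, tg T t (k t) (x t)) * (Real.exp (-x a) * x a ^ k a / (k a).factorial) := by
      rw [← Finset.mul_prod_erase univ _ (mem_univ a), mul_comm]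
      congr 1
      · apply Finset.prod_congr rfl
        intro t ht
        have h1 : t ∈ insert a T ↔ t ∈ T := by
          rw [mem_insert]
          exact or_iff_right (ne_of_mem_erase ht)
        unfold tg
        by_cases ht2 : t ∈ T
        · rw [if_pos (h1.2 ht2), if_pos ht2]
        · rw [if_neg (fun h => ht2 (h1.1 h)), if_neg ht2]
      · unfold tg
        rw [if_pos (mem_insert_self _ _)]
    rw [Finset.sum_congr rfl (fun n _ => e4 n), e5, ← mul_assoc, ← hc0]
    refine hmain.trans ?_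
    have h1 : c0 * (((m + 1 + k a).choose (k a) : ℝ) * (x a ^ (m + 1 + k a) / (m + 1 + k a).factorial) *
        (1 + Real.exp (x a))) ≤ δ / 2 * Om.card := by
      have hx' := hx a
      have hnn : 0 ≤ ((m + 1 + k a).choose (k a) : ℝ) * (x a ^ (m + 1 + k a) / (m + 1 + k a).factorial) *
        (1 + Real.exp (x a)) := by positivity
      have h2 := hm (k a) (hk a) (x a) (hx a) (hxΛ a)
      have h3 := (mul_le_mul_of_nonneg_right hPG hnn).trans h2
      rw [hc0]
      nlinarith
    have h2 : ∑ i ∈ range (m + 2), ((i + k a).choose (k a) : ℝ) ≤ Cs := by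
      rw [hCs]
      exact Finset.single_le_sum (f := fun j => ∑ i ∈ range (m + 2), ((i + j).choose j : ℝ))
        (fun j _ => Finset.sum_nonneg fun i _ => Nat.cast_nonneg _)
        (mem_range.2 (Nat.lt_succ_of_le (hk a)))
    have h3 : δ / (2 * (Cs + 1)) * Om.card * ∑ i ∈ range (m + 2), ((i + k a).choose (k a) : ℝ) ≤
        δ / 2 * Om.card := by
      calc δ / (2 * (Cs + 1)) * Om.card * ∑ i ∈ range (m + 2), ((i + k a).choose (k a) : ℝ) ≤
          δ / (2 * (Cs + 1)) * Om.card * (Cs + 1) := mul_le_mul_of_nonneg_left (by linarith) (by positivity)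
        _ = δ / 2 * Om.card := by field_simp
    linarith

/-- the joint Poisson weight of a finite set -/
noncomputable def PoJ (x : τ → ℝ) (A : Finset (τ → ℕ)) : ℝ :=
  ∑ j ∈ A, ∏ t, (Real.exp (-x t) * x t ^ j t / (j t).factorial)

lemma PoJ_nonneg (x : τ → ℝ) (hx : ∀ t, 0 ≤ x t) (A : Finset (τ → ℕ)) : 0 ≤ PoJ x A := by
  unfold PoJ
  apply Finset.sum_nonneg
  intro j _
  apply Finset.prod_nonneg
  intro t _
  have := hx t
  positivity

lemma PoJ_pi (x : τ → ℝ) (B : τ → Finset ℕ) : PoJ x (Fintype.piFinset B) = ∏ t, Po (x t) (B t) := by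
  unfold PoJ Po
  rw [Finset.prod_univ_sum]

lemma PoJ_mono (x : τ → ℝ) (hx : ∀ t, 0 ≤ x t) (A B : Finset (τ → ℕ)) (h : A ⊆ B) : PoJ x A ≤ PoJ x B := by
  unfold PoJ
  apply Finset.sum_le_sum_of_subset_of_nonneg h
  intro j _ _
  apply Finset.prod_nonneg
  intro t _
  have := hx t
  positivity

lemma PoJ_le_one (x : τ → ℝ) (hx : ∀ t, 0 ≤ x t) (A : Finset (τ → ℕ)) : PoJ x A ≤ 1 := by
  have h1 : A ⊆ Fintype.piFinset (fun t => A.image (fun j => j t)) := by
    intro j hj
    rw [Fintype.mem_piFinset]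
    intro t
    exact mem_image_of_mem (fun j => j t) hj
  refine (PoJ_mono x hx _ _ h1).trans ?_
  rw [PoJ_pi]
  apply Finset.prod_le_one
  · intro t _
    exact Po_nonneg _ (hx t) _
  · intro t _
    exact Po_le_one _ (hx t) _

/-- the joint tail -/
lemma PoJ_tail (x : τ → ℝ) (hx : ∀ t, 0 ≤ x t) (A : Finset (τ → ℕ)) (J : ℕ) (hA : ∀ j ∈ A, ∃ t, J ≤ j t) :
    PoJ x A ≤ ∑ t, x t ^ J / J.factorial := by
  have h1 : PoJ x A ≤ ∑ t, PoJ x (A.filter (fun j => J ≤ j t)) := by
    unfold PoJ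
    have h2 : ∀ t : τ, ∑ j ∈ A.filter (fun j => J ≤ j t), ∏ t, (Real.exp (-x t) * x t ^ j t / (j t).factorial) =
        ∑ j ∈ A, if J ≤ j t then ∏ t, (Real.exp (-x t) * x t ^ j t / (j t).factorial) else 0 := by
      intro t
      rw [Finset.sum_filter]
    rw [Finset.sum_congr rfl (fun t _ => h2 t), Finset.sum_comm]
    apply Finset.sum_le_sum
    intro j hj
    obtain ⟨t, ht⟩ := hA j hj
    have hnn : 0 ≤ ∏ t, (Real.exp (-x t) * x t ^ j t / (j t).factorial) := by
      apply Finset.prod_nonneg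
      intro t _
      have := hx t
      positivity
    refine le_trans ?_ (Finset.single_le_sum (f := fun t => if J ≤ j t then
      ∏ t, (Real.exp (-x t) * x t ^ j t / (j t).factorial) else 0) (fun t _ => ?_) (mem_univ t))
    · rw [if_pos ht]
    · split_ifs
      · exact hnn
      · exact le_rfl
  refine h1.trans ?_
  apply Finset.sum_le_sum
  intro t _
  obtain ⟨B, hB⟩ : ∃ B : τ → Finset ℕ, B = fun u => (A.filter (fun j => J ≤ j t)).image (fun j => j u) := ⟨_, rfl⟩
  have h2 : A.filter (fun j => J ≤ j t) ⊆ Fintype.piFinset B := by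
    intro j hj
    rw [Fintype.mem_piFinset]
    intro u
    rw [hB]
    exact mem_image_of_mem (fun j => j u) hj
  refine (PoJ_mono x hx _ _ h2).trans ?_
  rw [PoJ_pi, ← Finset.mul_prod_erase univ _ (mem_univ t)]
  have h3 : Po (x t) (B t) ≤ x t ^ J / J.factorial := by
    unfold Po
    apply poisson_tail (x t) (hx t) J
    intro i hi
    rw [hB, mem_image] at hi
    obtain ⟨j, hj, rfl⟩ := hi
    rw [mem_filter] at hj
    exact hj.2
  have h4 : ∏ u ∈ univ.erase t, Po (x u) (B u) ≤ 1 := by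
    apply Finset.prod_le_one
    · intro u _
      exact Po_nonneg _ (hx u) _
    · intro u _
      exact Po_le_one _ (hx u) _
  have h5 : 0 ≤ Po (x t) (B t) := Po_nonneg _ (hx t) _
  calc Po (x t) (B t) * ∏ u ∈ univ.erase t, Po (x u) (B u) ≤ Po (x t) (B t) * 1 :=
        mul_le_mul_of_nonneg_left h4 h5
    _ = Po (x t) (B t) := mul_one _
    _ ≤ _ := h3

/-- the first moments -/
lemma first (R : ℕ) (hR : 1 ≤ R) (η : ℝ) (hη : η ≤ 1) (Om : Finset ℕ) (N : τ → ℕ → ℕ) (x : τ → ℝ) (Λ : ℝ)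
    (hxΛ : ∀ t, x t ≤ Λ) (h : Mom R η Om N x) (t : τ) : ∑ n ∈ Om, (N t n : ℝ) ≤ (Λ + 1) * Om.card := by
  have h1 := h (Pi.single t 1) (by
    intro u
    by_cases hu : u = t
    · rw [hu, Pi.single_eq_same]
      exact hR
    · rw [Pi.single_eq_of_ne hu]
      omega)
  have e1 : ∀ n, ∏ u, ((N u n).choose ((Pi.single t 1 : τ → ℕ) u) : ℝ) = N t n := by
    intro n
    rw [← Finset.mul_prod_erase univ _ (mem_univ t), Pi.single_eq_same, Nat.choose_one_right]
    rw [Finset.prod_eq_one, mul_one]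
    intro u hu
    rw [Pi.single_eq_of_ne (ne_of_mem_erase hu), Nat.choose_zero_right, Nat.cast_one]
  have e2 : ∏ u, (x u ^ ((Pi.single t 1 : τ → ℕ) u) / (((Pi.single t 1 : τ → ℕ) u).factorial : ℝ)) = x t := by
    rw [← Finset.mul_prod_erase univ _ (mem_univ t), Pi.single_eq_same, pow_one, Nat.factorial_one,
      Nat.cast_one, div_one]
    rw [Finset.prod_eq_one, mul_one]
    intro u hu
    rw [Pi.single_eq_of_ne (ne_of_mem_erase hu), pow_zero, Nat.factorial_zero, Nat.cast_one, div_one]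
  rw [Finset.sum_congr rfl (fun n _ => e1 n), e2] at h1
  have hOm : (0 : ℝ) ≤ Om.card := Nat.cast_nonneg _
  have h2 := (abs_le.1 h1).2
  have h3 : (Om.card : ℝ) * x t ≤ Om.card * Λ := mul_le_mul_of_nonneg_left (hxΛ t) hOm
  nlinarith

open Classical in
/-- **From joint moments to the joint law**: total variation distance. -/
theorem law_joint (Λ ε : ℝ) (hΛ : 0 ≤ Λ) (hε : 0 < ε) : ∃ (R : ℕ) (η : ℝ), 0 < η ∧
    ∀ (Om : Finset ℕ) (N : τ → ℕ → ℕ) (x : τ → ℝ), (∀ t, 0 ≤ x t) → (∀ t, x t ≤ Λ) → Mom R η Om N x →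
    ∀ A : Finset (τ → ℕ), |((Om.filter (fun n => (fun t => N t n) ∈ A)).card : ℝ) -
      Om.card * PoJ x A| ≤ ε * Om.card := by
  obtain ⟨s, hs⟩ : ∃ s : ℝ, s = (Fintype.card τ : ℝ) := ⟨_, rfl⟩
  have hs0 : 0 ≤ s := by rw [hs]; exact Nat.cast_nonneg _
  obtain ⟨J1, hJ1⟩ := exists_small Λ s (ε / 4) (by positivity)
  obtain ⟨J2, hJ2⟩ : ∃ J : ℕ, s * (Λ + 1) / (ε / 4) ≤ J := exists_nat_ge _
  obtain ⟨J, hJ⟩ : ∃ J : ℕ, J = max (max J1 J2) 1 := ⟨_, rfl⟩
  have hJ0 : 1 ≤ J := by omega
  have hJr : (0 : ℝ) < J := by exact_mod_cast hJ0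
  have hJr2 : s * (Λ + 1) ≤ ε / 4 * J := by
    have h1 : s * (Λ + 1) / (ε / 4) ≤ J := hJ2.trans (by exact_mod_cast (by omega : J2 ≤ J))
    rw [div_le_iff₀ (by positivity)] at h1
    linarith
  have hJr1 : s * (Λ ^ J / J.factorial) ≤ ε / 4 := hJ1 J (by omega)
  obtain ⟨box, hbox⟩ : ∃ box : Finset (τ → ℕ), box = Fintype.piFinset (fun _ => range J) := ⟨_, rfl⟩
  obtain ⟨R, η, hη, hlaw⟩ := convert_law (τ := τ) Λ hΛ univ J (ε / (4 * (box.card + 1))) (by positivity)
  refine ⟨max R 1, min η 1, by positivity, ?_⟩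
  intro Om N x hx hxΛ hM A
  have hOm : (0 : ℝ) ≤ Om.card := Nat.cast_nonneg _
  have hMR : Mom R η Om N x := by
    intro k hk
    refine (hM k (fun t => (hk t).trans (le_max_left _ _))).trans ?_
    exact mul_le_mul_of_nonneg_right (min_le_left _ _) hOm
  obtain ⟨A1, hA1⟩ : ∃ A1, A1 = A.filter (fun j => ∀ t, j t < J) := ⟨_, rfl⟩
  obtain ⟨A2, hA2⟩ : ∃ A2, A2 = A.filter (fun j => ¬ ∀ t, j t < J) := ⟨_, rfl⟩
  have hA1box : A1 ⊆ box := by
    intro j hj
    rw [hA1, mem_filter] at hj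
    rw [hbox, Fintype.mem_piFinset]
    intro t
    exact mem_range.2 (hj.2 t)
  -- one value
  have hone : ∀ j ∈ A1, |((Om.filter (fun n => (fun t => N t n) = j)).card : ℝ) -
      Om.card * ∏ t, (Real.exp (-x t) * x t ^ j t / (j t).factorial)| ≤ ε / (4 * (box.card + 1)) * Om.card := by
    intro j hj
    have hjJ : ∀ t, j t ≤ J := by
      rw [hA1, mem_filter] at hj
      exact fun t => (hj.2 t).le
    have h1 := hlaw Om N x hx hxΛ hMR j hjJ
    have e1 : ((Om.filter (fun n => (fun t => N t n) = j)).card : ℝ) = ∑ n ∈ Om, ∏ t, fac univ t (j t) (N t n) := by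
      have h2 : ∀ n ∈ Om, ∏ t, fac univ t (j t) (N t n) = if (fun t => N t n) = j then (1 : ℝ) else 0 := by
        intro n _
        by_cases h3 : (fun t => N t n) = j
        · rw [if_pos h3]
          apply Finset.prod_eq_one
          intro t _
          unfold fac
          rw [if_pos (mem_univ t), if_pos (congrFun h3 t)]
        · rw [if_neg h3]
          obtain ⟨t, ht⟩ : ∃ t, N t n ≠ j t := by
            by_contra hcon
            push Not at hcon
            exact h3 (funext hcon)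
          apply Finset.prod_eq_zero (mem_univ t)
          unfold fac
          rw [if_pos (mem_univ t), if_neg ht]
      rw [Finset.sum_congr rfl h2, Finset.sum_ite, Finset.sum_const_zero, add_zero, Finset.sum_const,
        nsmul_eq_mul, mul_one]
    have e2 : ∏ t, tg univ t (j t) (x t) = ∏ t, (Real.exp (-x t) * x t ^ j t / (j t).factorial) := by
      apply Finset.prod_congr rfl
      intro t _
      unfold tg
      rw [if_pos (mem_univ t)]
    rw [e1, ← e2]
    exact h1
  have hsmall : |((Om.filter (fun n => (fun t => N t n) ∈ A1)).card : ℝ) - Om.card * PoJ x A1| ≤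
      ε / 4 * Om.card := by
    have e1 : ((Om.filter (fun n => (fun t => N t n) ∈ A1)).card : ℝ) =
        ∑ j ∈ A1, ((Om.filter (fun n => (fun t => N t n) = j)).card : ℝ) := by
      have : (Om.filter (fun n => (fun t => N t n) ∈ A1)).card =
          ∑ j ∈ A1, (Om.filter (fun n => (fun t => N t n) = j)).card := by
        rw [Finset.card_eq_sum_card_fiberwise (f := fun n => (fun t => N t n)) (t := A1)]
        · apply Finset.sum_congr rfl
          intro j hj
          congr 1
          ext n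
          rw [mem_filter, mem_filter, mem_filter]
          constructor
          · rintro ⟨⟨a1, _⟩, a3⟩
            exact ⟨a1, a3⟩
          · rintro ⟨a1, a3⟩
            exact ⟨⟨a1, by rw [a3]; exact hj⟩, a3⟩
        · intro n hn
          rw [mem_coe, mem_filter] at hn
          exact hn.2
      rw [this]
      push_cast
      rfl
    rw [e1]
    unfold PoJ
    rw [Finset.mul_sum, ← Finset.sum_sub_distrib]
    refine (Finset.abs_sum_le_sum_abs _ _).trans ((Finset.sum_le_sum hone).trans ?_)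
    rw [Finset.sum_const, nsmul_eq_mul]
    have h2 : (A1.card : ℝ) ≤ box.card + 1 := by
      have : A1.card ≤ box.card := card_le_card hA1box
      have h3 : (A1.card : ℝ) ≤ box.card := by exact_mod_cast this
      linarith
    calc (A1.card : ℝ) * (ε / (4 * (box.card + 1)) * Om.card) ≤
        (box.card + 1) * (ε / (4 * (box.card + 1)) * Om.card) := mul_le_mul_of_nonneg_right h2 (by positivity)
      _ = ε / 4 * Om.card := by field_simp
  have hbig : ((Om.filter (fun n => (fun t => N t n) ∈ A2)).card : ℝ) ≤ ε / 4 * Om.card := by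
    have h1 : (Om.filter (fun n => (fun t => N t n) ∈ A2)).card ≤
        ∑ t : τ, (Om.filter (fun n => J ≤ N t n)).card := by
      refine le_trans (card_le_card (t := univ.biUnion (fun t => Om.filter (fun n => J ≤ N t n))) ?_)
        card_biUnion_le
      intro n hn
      rw [mem_filter, hA2, mem_filter] at hn
      obtain ⟨h2, h3, h4⟩ := hn
      push Not at h4
      obtain ⟨t, ht⟩ := h4
      rw [mem_biUnion]
      exact ⟨t, mem_univ t, mem_filter.2 ⟨h2, ht⟩⟩
    have h2 : ∀ t : τ, ((Om.filter (fun n => J ≤ N t n)).card : ℝ) * J ≤ (Λ + 1) * Om.card := fun t =>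
      markov Om (N t) J _ (first (max R 1) (le_max_right _ _) (min η 1) (min_le_right _ _) Om N x Λ hxΛ hM t)
    have h3 : ((Om.filter (fun n => (fun t => N t n) ∈ A2)).card : ℝ) * J ≤ s * ((Λ + 1) * Om.card) := by
      have h4 : ((Om.filter (fun n => (fun t => N t n) ∈ A2)).card : ℝ) ≤
          ∑ t : τ, ((Om.filter (fun n => J ≤ N t n)).card : ℝ) := by exact_mod_cast h1
      calc ((Om.filter (fun n => (fun t => N t n) ∈ A2)).card : ℝ) * J ≤
          (∑ t : τ, ((Om.filter (fun n => J ≤ N t n)).card : ℝ)) * J := mul_le_mul_of_nonneg_right h4 hJr.le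
        _ = ∑ t : τ, ((Om.filter (fun n => J ≤ N t n)).card : ℝ) * J := Finset.sum_mul _ _ _
        _ ≤ ∑ _t : τ, (Λ + 1) * (Om.card : ℝ) := Finset.sum_le_sum fun t _ => h2 t
        _ = s * ((Λ + 1) * Om.card) := by
          rw [Finset.sum_const, Finset.card_univ, nsmul_eq_mul, hs]
    have h4 : s * ((Λ + 1) * Om.card) ≤ ε / 4 * Om.card * J := by
      calc s * ((Λ + 1) * Om.card) = s * (Λ + 1) * Om.card := by ring
        _ ≤ ε / 4 * J * Om.card := mul_le_mul_of_nonneg_right hJr2 hOm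
        _ = _ := by ring
    exact le_of_mul_le_mul_right (h3.trans h4) hJr
  have htail : PoJ x A2 ≤ ε / 4 := by
    refine (PoJ_tail x hx A2 J (by
      intro j hj
      rw [hA2, mem_filter] at hj
      have h4 := hj.2
      push Not at h4
      exact h4)).trans ?_
    calc ∑ t, x t ^ J / (J.factorial : ℝ) ≤ ∑ _t : τ, Λ ^ J / (J.factorial : ℝ) := by
          apply Finset.sum_le_sum
          intro t _
          apply div_le_div_of_nonneg_right _ (by positivity)
          exact pow_le_pow_left₀ (hx t) (hxΛ t) J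
      _ = s * (Λ ^ J / J.factorial) := by
          rw [Finset.sum_const, Finset.card_univ, nsmul_eq_mul, hs]
      _ ≤ ε / 4 := hJr1
  have htail0 := PoJ_nonneg x hx A2
  -- combine
  have e1 : ((Om.filter (fun n => (fun t => N t n) ∈ A)).card : ℝ) =
      ((Om.filter (fun n => (fun t => N t n) ∈ A1)).card : ℝ) +
        ((Om.filter (fun n => (fun t => N t n) ∈ A2)).card : ℝ) := by
    rw [← Nat.cast_add, ← card_union_of_disjoint]
    · congr 2
      ext n
      rw [mem_union, mem_filter, mem_filter, mem_filter, hA1, hA2, mem_filter, mem_filter]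
      tauto
    · rw [Finset.disjoint_left]
      intro n hn hn'
      rw [mem_filter, hA1, mem_filter] at hn
      rw [mem_filter, hA2, mem_filter] at hn'
      exact hn'.2.2 hn.2.2
  have e2 : PoJ x A = PoJ x A1 + PoJ x A2 := by
    unfold PoJ
    rw [hA1, hA2, Finset.sum_filter_add_sum_filter_not]
  have hbig0 : (0 : ℝ) ≤ ((Om.filter (fun n => (fun t => N t n) ∈ A2)).card : ℝ) := Nat.cast_nonneg _
  have h5 : Om.card * PoJ x A2 ≤ Om.card * (ε / 4) := mul_le_mul_of_nonneg_left htail hOm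
  have h6 : 0 ≤ Om.card * PoJ x A2 := mul_nonneg hOm htail0
  have h7 := abs_le.1 hsmall
  have h8 : 0 ≤ ε * Om.card := by positivity
  rw [e1, e2, abs_le]
  constructor
  · linarith [h7.1]
  · linarith [h7.2]

end Pool.Agent.Q236.UL
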