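import Pool.Agent.Q236.UL.Fsum
import Pool.Agent.Q236.UL.Multi

set_option autoImplicit false

/-!
# Sets of conditions with prescribed numbers of elements of each type, and the contribution of the bad points
-/

namespace Pool.Agent.Q236.UL

open Finset Pool.Agent.H373R2.T7 Pool.Agent.W123.RP Pool.Agent.W123.RU Pool.Agent.TH464.PO

variable {ι : Type*} [DecidableEq ι] {τ : Type*} [Fintype τ] [DecidableEq τ]

/-- all indices -/
def Al (T : τ → Finset ι) : Finset ι := univ.biUnion T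

/-- the sets with `k t` elements of type `t` -/
def Ty (T : τ → Finset ι) (k : τ → ℕ) : Finset (Finset ι) :=
  (Al T).powerset.filter (fun J => ∀ t, (J ∩ T t).card = k t)

lemma sub_Al (T : τ → Finset ι) (t : τ) : T t ⊆ Al T := fun _ hi => mem_biUnion.2 ⟨t, mem_univ t, hi⟩

lemma union_inter (T : τ → Finset ι) (J : Finset ι) (hJ : J ⊆ Al T) : univ.biUnion (fun t => J ∩ T t) = J := by
  ext i
  rw [mem_biUnion]
  constructor
  · rintro ⟨t, _, hi⟩
    exact (mem_inter.1 hi).1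
  · intro hi
    have := hJ hi
    unfold Al at this
    rw [mem_biUnion] at this
    obtain ⟨t, _, ht⟩ := this
    exact ⟨t, mem_univ t, mem_inter.2 ⟨hi, ht⟩⟩

lemma inter_union (T : τ → Finset ι) (hT : ∀ t u, t ≠ u → Disjoint (T t) (T u)) (J : τ → Finset ι)
    (hJ : ∀ t, J t ⊆ T t) (t : τ) : univ.biUnion J ∩ T t = J t := by
  ext i
  rw [mem_inter, mem_biUnion]
  constructor
  · rintro ⟨⟨u, _, hu⟩, ht⟩
    by_cases htu : t = u
    · rw [htu]
      exact hu
    · exact absurd (hJ u hu) (Finset.disjoint_left.1 (hT t u htu) ht)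
  · intro hi
    exact ⟨⟨t, mem_univ t, hi⟩, hJ t hi⟩

lemma prod_typed (T : τ → Finset ι) (hT : ∀ t u, t ≠ u → Disjoint (T t) (T u)) (f : ι → ℝ) (J : Finset ι)
    (hJ : J ⊆ Al T) : ∏ i ∈ J, f i = ∏ t, ∏ i ∈ J ∩ T t, f i := by
  nth_rewrite 1 [← union_inter T J hJ]
  rw [prod_biUnion]
  intro t _ u _ htu
  exact (hT t u htu).mono inter_subset_right inter_subset_right

/-- sums over typed sets -/
lemma typed_sum (T : τ → Finset ι) (hT : ∀ t u, t ≠ u → Disjoint (T t) (T u)) (k : τ → ℕ) (f : ι → ℝ) :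
    ∑ J ∈ Ty T k, ∏ i ∈ J, f i = ∏ t, ∑ J ∈ powersetCard (k t) (T t), ∏ i ∈ J, f i := by
  rw [Finset.prod_univ_sum]
  apply Finset.sum_nbij' (fun J t => J ∩ T t) (fun J => univ.biUnion J)
  · intro J hJ
    unfold Ty at hJ
    rw [mem_filter] at hJ
    rw [Fintype.mem_piFinset]
    intro t
    rw [mem_powersetCard]
    exact ⟨inter_subset_right, hJ.2 t⟩
  · intro J hJ
    rw [Fintype.mem_piFinset] at hJ
    have h1 : ∀ t, J t ⊆ T t := fun t => (mem_powersetCard.1 (hJ t)).1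
    unfold Ty
    rw [mem_filter, mem_powerset]
    constructor
    · intro i hi
      rw [mem_biUnion] at hi
      obtain ⟨t, _, ht⟩ := hi
      exact sub_Al T t (h1 t ht)
    · intro t
      rw [inter_union T hT J h1 t]
      exact (mem_powersetCard.1 (hJ t)).2
  · intro J hJ
    unfold Ty at hJ
    rw [mem_filter, mem_powerset] at hJ
    exact union_inter T J hJ.1
  · intro J hJ
    rw [Fintype.mem_piFinset] at hJ
    funext t
    exact inter_union T hT J (fun t => (mem_powersetCard.1 (hJ t)).1) t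
  · intro J hJ
    unfold Ty at hJ
    rw [mem_filter, mem_powerset] at hJ
    exact prod_typed T hT f J hJ.1

open Classical in
/-- the present conditions of one type -/
noncomputable def Nt (E : ι → ℕ → ℕ → Prop) (w y : ℕ) (T : Finset ι) (n : ℕ) : ℕ :=
  (T.filter (fun i => Sl (E i) w y n)).card

open Classical in
lemma prod_ind (E : ι → ℕ → ℕ → Prop) (w y n : ℕ) (J : Finset ι) :
    ∏ i ∈ J, (if Sl (E i) w y n then (1 : ℝ) else 0) = if Sl (EH E J) w y n then (1 : ℝ) else 0 := by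
  by_cases h : Sl (EH E J) w y n
  · rw [if_pos h]
    rw [sl_EH] at h
    exact prod_eq_one fun i hi => if_pos (h i hi)
  · rw [if_neg h]
    rw [sl_EH] at h
    push Not at h
    obtain ⟨i, hi, h2⟩ := h
    exact prod_eq_zero hi (if_neg h2)

open Classical in
lemma choose_ind (E : ι → ℕ → ℕ → Prop) (w y n k : ℕ) (T : Finset ι) :
    ∑ J ∈ powersetCard k T, ∏ i ∈ J, (if Sl (E i) w y n then (1 : ℝ) else 0) = ((Nt E w y T n).choose k : ℝ) := by
  rw [Finset.sum_congr rfl (fun J _ => prod_ind E w y n J), Finset.sum_ite, Finset.sum_const_zero, add_zero,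
    Finset.sum_const, nsmul_eq_mul, mul_one]
  unfold Nt
  rw [← Finset.card_powersetCard]
  congr 2
  ext J
  rw [mem_filter, mem_powersetCard, mem_powersetCard, sl_EH]
  constructor
  · rintro ⟨⟨h1, h2⟩, h3⟩
    exact ⟨fun i hi => mem_filter.2 ⟨h1 hi, h3 i hi⟩, h2⟩
  · rintro ⟨h1, h2⟩
    exact ⟨⟨fun i hi => (mem_filter.1 (h1 hi)).1, h2⟩, fun i hi => (mem_filter.1 (h1 hi)).2⟩

open Classical in
/-- the joint binomial coefficients -/
lemma typed_choose (T : τ → Finset ι) (hT : ∀ t u, t ≠ u → Disjoint (T t) (T u)) (k : τ → ℕ)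
    (E : ι → ℕ → ℕ → Prop) (w y n : ℕ) :
    ∏ t, ((Nt E w y (T t) n).choose (k t) : ℝ) = ∑ J ∈ Ty T k, if Sl (EH E J) w y n then (1 : ℝ) else 0 := by
  rw [Finset.sum_congr rfl (fun J _ => (prod_ind E w y n J).symm), typed_sum T hT k]
  apply prod_congr rfl
  intro t _
  rw [choose_ind]

open Classical in
lemma cn_sum (E : ι → ℕ → ℕ → Prop) (w y : ℕ) (Om : Finset ℕ) (J : Finset ι) :
    (cn E w y Om J : ℝ) = ∑ n ∈ Om, if Sl (EH E J) w y n then (1 : ℝ) else 0 := by
  unfold cn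
  rw [Finset.sum_ite, Finset.sum_const_zero, add_zero, Finset.sum_const, nsmul_eq_mul, mul_one]

/-- a power of a sum -/
lemma pow_sum_le (D m : ℕ) (a : Fin D → ℝ) (ha : ∀ i, 0 ≤ a i) (hD : 0 < D) :
    (∑ i, a i) ^ m ≤ (D : ℝ) ^ m * ∑ i, a i ^ m := by
  obtain ⟨j, _, hj⟩ := Finset.exists_max_image univ a ⟨⟨0, hD⟩, mem_univ _⟩
  have h1 : ∑ i, a i ≤ D * a j := by
    calc ∑ i, a i ≤ ∑ _i : Fin D, a j := Finset.sum_le_sum fun i hi => hj i hi
      _ = D * a j := by rw [Finset.sum_const, Finset.card_univ, Fintype.card_fin, nsmul_eq_mul]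
  calc (∑ i, a i) ^ m ≤ (D * a j) ^ m := pow_le_pow_left₀ (Finset.sum_nonneg fun i _ => ha i) h1 m
    _ = (D : ℝ) ^ m * a j ^ m := mul_pow _ _ _
    _ ≤ (D : ℝ) ^ m * ∑ i, a i ^ m := by
        apply mul_le_mul_of_nonneg_left _ (by positivity)
        exact Finset.single_le_sum (f := fun i => a i ^ m) (fun i _ => pow_nonneg (ha i) m) (mem_univ j)

section bad

variable {E : ι → ℕ → ℕ → Prop} {c : ℕ} {o : ι} {w y : ℕ} {S : Finset ι} {ex : ι × ι → Prop}
  {Om : Finset ℕ} {R : ℕ} {η rem : ℝ}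

open Classical in
/-- high moments of the number of present conditions -/
lemma high_moment (h : Data E c o w y S ex Om R η rem) (hη1 : η ≤ 1) (D : ℕ) (hD : 0 < D) (col : ι → Fin D)
    (hcol : ∀ x, ex x → col x.1 ≠ col x.2) (m : ℕ) (hm : m ≤ R) (Ls : ℝ)
    (hLs : ∑ i ∈ S, Vt (E i) w y ≤ Ls) :
    ∑ n ∈ Om, (1 + (Nt E w y S n : ℝ)) ^ m ≤
      (D : ℝ) ^ m * (D * (((2 * m + 1 : ℕ) : ℝ) ^ m + 2 ^ m * m.factorial * (8 * Real.exp Ls))) * Om.card := by
  have h1 : ∀ n ∈ Om, (1 + (Nt E w y S n : ℝ)) ^ m ≤ (D : ℝ) ^ m * ∑ j : Fin D,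
      (((2 * m + 1 : ℕ) : ℝ) ^ m + 2 ^ m * m.factorial *
        ((Nt E w y (S.filter (fun i => col i = j)) n).choose m : ℝ)) := by
    intro n _
    have h2 : (1 : ℝ) + Nt E w y S n ≤ ∑ j : Fin D, ((1 + Nt E w y (S.filter (fun i => col i = j)) n : ℕ) : ℝ) := by
      have h3 : 1 + Nt E w y S n ≤ ∑ j : Fin D, (1 + Nt E w y (S.filter (fun i => col i = j)) n) := by
        rw [Finset.sum_add_distrib, Finset.sum_const, Finset.card_univ, Fintype.card_fin, smul_eq_mul, mul_one]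
        have h4 : Nt E w y S n = ∑ j : Fin D, Nt E w y (S.filter (fun i => col i = j)) n := by
          unfold Nt
          rw [Finset.card_eq_sum_card_fiberwise (f := col) (t := univ) (fun _ _ => mem_coe.2 (mem_univ _))]
          apply Finset.sum_congr rfl
          intro j _
          rw [Finset.filter_filter, Finset.filter_filter]
          congr 1
          apply Finset.filter_congr
          intro i _
          exact and_comm
        rw [h4]
        omega
      exact_mod_cast h3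
    calc (1 + (Nt E w y S n : ℝ)) ^ m ≤
        (∑ j : Fin D, ((1 + Nt E w y (S.filter (fun i => col i = j)) n : ℕ) : ℝ)) ^ m :=
          pow_le_pow_left₀ (by positivity) h2 m
      _ ≤ (D : ℝ) ^ m * ∑ j : Fin D, ((1 + Nt E w y (S.filter (fun i => col i = j)) n : ℕ) : ℝ) ^ m :=
          pow_sum_le D m _ (fun j => Nat.cast_nonneg _) hD
      _ ≤ _ := by
          apply mul_le_mul_of_nonneg_left _ (by positivity)
          exact Finset.sum_le_sum fun j _ => pow_le_choose' _ m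
  refine (Finset.sum_le_sum h1).trans ?_
  rw [← Finset.mul_sum, Finset.sum_comm, mul_assoc]
  apply mul_le_mul_of_nonneg_left _ (by positivity)
  have h2 : ∀ j : Fin D, ∑ n ∈ Om, (((2 * m + 1 : ℕ) : ℝ) ^ m + 2 ^ m * m.factorial *
      ((Nt E w y (S.filter (fun i => col i = j)) n).choose m : ℝ)) ≤
      (((2 * m + 1 : ℕ) : ℝ) ^ m + 2 ^ m * m.factorial * (8 * Real.exp Ls)) * Om.card := by
    intro j
    rw [Finset.sum_add_distrib, Finset.sum_const, nsmul_eq_mul, ← Finset.mul_sum]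
    have h3 : ∑ n ∈ Om, ((Nt E w y (S.filter (fun i => col i = j)) n).choose m : ℝ) =
        ∑ J ∈ powersetCard m (S.filter (fun i => col i = j)), (cn E w y Om J : ℝ) := by
      rw [Finset.sum_congr rfl (fun J _ => cn_sum E w y Om J), Finset.sum_comm]
      apply Finset.sum_congr rfl
      intro n _
      rw [← choose_ind]
      exact Finset.sum_congr rfl (fun J _ => prod_ind E w y n J)
    have h4 := fam_sum_le h hη1 (powersetCard m (S.filter (fun i => col i = j))) (by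
      intro J hJ
      rw [mem_powersetCard] at hJ
      refine ⟨hJ.1.trans (filter_subset _ _), by rw [hJ.2]; exact hm, ?_⟩
      intro x hx hxe
      rw [mem_offDiag] at hx
      have a1 := (mem_filter.1 (hJ.1 hx.1)).2
      have a2 := (mem_filter.1 (hJ.1 hx.2.1)).2
      exact hcol x hxe (a1.trans a2.symm)) Ls hLs
    rw [h3]
    have h5 : (0 : ℝ) ≤ 2 ^ m * m.factorial := by positivity
    have h6 := mul_le_mul_of_nonneg_left h4 h5
    linarith
  refine (Finset.sum_le_sum fun j _ => h2 j).trans (le_of_eq ?_)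
  rw [Finset.sum_const, Finset.card_univ, Fintype.card_fin, nsmul_eq_mul]
  ring

open Classical in
/-- the contribution of the sets with exceptional pairs -/
lemma nonfree_sum (h : Data E c o w y S ex Om R η rem) (hη1 : η ≤ 1) (D : ℕ) (hD : 0 < D) (col : ι → Fin D)
    (hcol : ∀ x, ex x → col x.1 ≠ col x.2) (K : ℕ) (hK : 2 * K ≤ R) (Ls : ℝ)
    (hLs : ∑ i ∈ S, Vt (E i) w y ≤ Ls) (δ : ℝ) (hδ : 0 < δ) (f : ℕ → ℝ)
    (hf1 : ∀ n ∈ Om, f n ≤ (1 + (Nt E w y S n : ℝ)) ^ K) :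
    ∑ n ∈ Om.filter (fun n => ∃ x ∈ S.offDiag, ex x ∧ Sl (E x.1) w y n ∧ Sl (E x.2) w y n), f n ≤
      (δ * ((D : ℝ) ^ (2 * K) * (D * (((2 * (2 * K) + 1 : ℕ) : ℝ) ^ (2 * K) +
        2 ^ (2 * K) * (2 * K).factorial * (8 * Real.exp Ls)))) + η / (4 * δ)) * Om.card := by
  obtain ⟨B, hB⟩ : ∃ B, B = Om.filter (fun n => ∃ x ∈ S.offDiag, ex x ∧ Sl (E x.1) w y n ∧ Sl (E x.2) w y n) :=
    ⟨_, rfl⟩
  have hbad := h.bad
  rw [← hB] at hbad ⊢
  have h1 : ∀ n ∈ B, f n ≤ δ * (1 + (Nt E w y S n : ℝ)) ^ (2 * K) + 1 / (4 * δ) := by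
    intro n hn
    have hn' : n ∈ Om := by
      rw [hB] at hn
      exact (mem_filter.1 hn).1
    refine (hf1 n hn').trans ?_
    obtain ⟨u, hu⟩ : ∃ u : ℝ, u = (1 + (Nt E w y S n : ℝ)) ^ K := ⟨_, rfl⟩
    have e : (1 + (Nt E w y S n : ℝ)) ^ (2 * K) = u ^ 2 := by
      rw [hu, ← pow_mul, mul_comm 2 K]
    rw [e, ← hu]
    have h2 : δ * u ^ 2 + 1 / (4 * δ) - u = (2 * δ * u - 1) ^ 2 / (4 * δ) := by
      field_simp
      ring
    have h3 : 0 ≤ (2 * δ * u - 1) ^ 2 / (4 * δ) := by positivity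
    linarith
  refine (Finset.sum_le_sum h1).trans ?_
  rw [Finset.sum_add_distrib, ← Finset.mul_sum, Finset.sum_const, nsmul_eq_mul]
  have h2 : ∑ n ∈ B, (1 + (Nt E w y S n : ℝ)) ^ (2 * K) ≤ ∑ n ∈ Om, (1 + (Nt E w y S n : ℝ)) ^ (2 * K) := by
    apply Finset.sum_le_sum_of_subset_of_nonneg
    · rw [hB]
      exact filter_subset _ _
    · intro n _ _
      positivity
  have h3 := mul_le_mul_of_nonneg_left (h2.trans (high_moment h hη1 D hD col hcol (2 * K) hK Ls hLs)) hδ.le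
  have h4 : (B.card : ℝ) * (1 / (4 * δ)) ≤ η * Om.card * (1 / (4 * δ)) :=
    mul_le_mul_of_nonneg_right hbad (by positivity)
  calc _ ≤ δ * ((D : ℝ) ^ (2 * K) * (D * (((2 * (2 * K) + 1 : ℕ) : ℝ) ^ (2 * K) +
        2 ^ (2 * K) * (2 * K).factorial * (8 * Real.exp Ls))) * Om.card) + η * Om.card * (1 / (4 * δ)) :=
        add_le_add h3 h4
    _ = _ := by ring

end bad

end Pool.Agent.Q236.UL
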