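import Pool.Agent.Q236.UL.Typed

set_option autoImplicit false

/-!
# The abstract joint Poisson law
-/

namespace Pool.Agent.Q236.UL

open Finset Pool.Agent.H373R2.T7 Pool.Agent.W123.RP Pool.Agent.W123.RU Pool.Agent.TH464.PO

variable {ι : Type*} [DecidableEq ι] {τ : Type*} [Fintype τ] [DecidableEq τ]

open Classical in
/-- the products over sets with an exceptional pair -/
lemma nonfree_prod (S : Finset ι) (V : ι → ℝ) (hV : ∀ i ∈ S, 0 ≤ V i) (ex : ι × ι → Prop)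
    (𝒥 : Finset (Finset ι)) (h𝒥 : ∀ J ∈ 𝒥, J ⊆ S ∧ ¬ Free ex J) :
    ∑ J ∈ 𝒥, ∏ i ∈ J, V i ≤ (∏ i ∈ S, (1 + V i)) * ∑ x ∈ S.offDiag.filter (fun x => ex x), V x.1 * V x.2 := by
  have h1 : ∀ J ∈ 𝒥, ∏ i ∈ J, V i ≤ ∑ x ∈ S.offDiag.filter (fun x => ex x),
      if x.1 ∈ J ∧ x.2 ∈ J then ∏ i ∈ J, V i else 0 := by
    intro J hJ
    obtain ⟨h2, h3⟩ := h𝒥 J hJ
    have hP : 0 ≤ ∏ i ∈ J, V i := prod_nonneg fun i hi => hV i (h2 hi)
    unfold Free at h3
    push Not at h3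
    obtain ⟨x, hx, hex⟩ := h3
    rw [mem_offDiag] at hx
    have h4 := Finset.single_le_sum (f := fun x : ι × ι => if x.1 ∈ J ∧ x.2 ∈ J then ∏ i ∈ J, V i else 0)
      (s := S.offDiag.filter (fun x => ex x)) (fun x _ => by
        split_ifs
        · exact hP
        · exact le_rfl) (mem_filter.2 ⟨mem_offDiag.2 ⟨h2 hx.1, h2 hx.2.1, hx.2.2⟩, hex⟩ : x ∈ _)
    simp only [if_pos (⟨hx.1, hx.2.1⟩ : x.1 ∈ J ∧ x.2 ∈ J)] at h4
    exact h4
  refine (Finset.sum_le_sum h1).trans ?_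
  rw [Finset.sum_comm, Finset.mul_sum]
  apply Finset.sum_le_sum
  intro x hx
  rw [mem_filter, mem_offDiag] at hx
  have h2 := sum_pair S V hV x.1 x.2 hx.1.1 hx.1.2.1 hx.1.2.2
  rw [← Finset.sum_filter]
  have h3 : ∑ J ∈ 𝒥.filter (fun J => x.1 ∈ J ∧ x.2 ∈ J), ∏ i ∈ J, V i ≤
      ∑ J ∈ S.powerset.filter (fun J => x.1 ∈ J ∧ x.2 ∈ J), ∏ i ∈ J, V i := by
    apply Finset.sum_le_sum_of_subset_of_nonneg
    · apply Finset.filter_subset_filter
      intro J hJ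
      exact mem_powerset.2 (h𝒥 J hJ).1
    · intro J hJ _
      rw [mem_filter, mem_powerset] at hJ
      exact Finset.prod_nonneg fun i hi => hV i (hJ.1 hi)
  refine h3.trans (h2.trans (le_of_eq ?_))
  ring

lemma Nt_mono (E : ι → ℕ → ℕ → Prop) (w y n : ℕ) (T T' : Finset ι) (h : T ⊆ T') : Nt E w y T n ≤ Nt E w y T' n := by
  classical
  unfold Nt
  apply card_le_card
  exact Finset.filter_subset_filter _ h

lemma Ty_card (T : τ → Finset ι) (k : τ → ℕ) (R1 : ℕ) (hk : ∀ t, k t ≤ R1) (J : Finset ι) (hJ : J ∈ Ty T k) :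
    J.card ≤ Fintype.card τ * R1 := by
  unfold Ty at hJ
  rw [mem_filter, mem_powerset] at hJ
  rw [← union_inter T J hJ.1]
  refine card_biUnion_le.trans ?_
  calc ∑ t, (J ∩ T t).card ≤ ∑ _t : τ, R1 := Finset.sum_le_sum fun t _ => by rw [hJ.2 t]; exact hk t
    _ = _ := by rw [Finset.sum_const, Finset.card_univ, smul_eq_mul]

open Classical in
/-- **The abstract joint Poisson law**. -/
theorem abs_law (c D : ℕ) (hD : 0 < D) (Λ ε : ℝ) (hΛ : 0 ≤ Λ) (hε : 0 < ε) : ∃ (R : ℕ) (η : ℝ), 0 < η ∧ η ≤ 1 ∧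
    2 ≤ R ∧
    ∀ (E : ι → ℕ → ℕ → Prop) (o : ι) (w y : ℕ) (T : τ → Finset ι) (ex : ι × ι → Prop) (col : ι → Fin D)
      (Om : Finset ℕ) (rem : ℝ) (x : τ → ℝ), (∀ t u, t ≠ u → Disjoint (T t) (T u)) →
      (∀ x, ex x → col x.1 ≠ col x.2) → Data E c o w y (Al T) ex Om R η rem → (∀ t, 0 ≤ x t) →
      (∀ t, x t ≤ Λ) → (∀ t, |∑ i ∈ T t, Vt (E i) w y - x t| ≤ η) →
      ∀ A : Finset (τ → ℕ), |((Om.filter (fun n => (fun t => Nt E w y (T t) n) ∈ A)).card : ℝ) -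
        Om.card * PoJ x A| ≤ ε * Om.card := by
  obtain ⟨R1, η1, hη1, hlaw⟩ := law_joint (τ := τ) Λ ε hΛ hε
  obtain ⟨s, hs⟩ : ∃ s, s = Fintype.card τ := ⟨_, rfl⟩
  obtain ⟨K, hK⟩ : ∃ K, K = s * R1 := ⟨_, rfl⟩
  obtain ⟨Ls, hLs⟩ : ∃ Ls : ℝ, Ls = s * (Λ + 1) := ⟨_, rfl⟩
  have he0 : 0 < Real.exp Ls := Real.exp_pos _
  obtain ⟨C1, hC1⟩ : ∃ C1 : ℝ, C1 = (D : ℝ) ^ (2 * K) * (D * (((2 * (2 * K) + 1 : ℕ) : ℝ) ^ (2 * K) +
        2 ^ (2 * K) * (2 * K).factorial * (8 * Real.exp Ls))) := ⟨_, rfl⟩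
  have hC10 : 0 ≤ C1 := by rw [hC1]; positivity
  obtain ⟨δ, hδ⟩ : ∃ δ : ℝ, δ = η1 / (4 * (C1 + 1)) := ⟨_, rfl⟩
  have hδ0 : 0 < δ := by rw [hδ]; positivity
  have hδC : δ * C1 ≤ η1 / 4 := by
    rw [hδ, div_mul_eq_mul_div, div_le_div_iff₀ (by positivity) (by norm_num)]
    nlinarith
  obtain ⟨G0, hG0⟩ : ∃ G0 : ℝ, G0 = (2 + Λ) ^ (R1 + 1) := ⟨_, rfl⟩
  have hG01 : 1 ≤ G0 := by rw [hG0]; exact one_le_pow₀ (by linarith)
  obtain ⟨G, hG⟩ : ∃ G : ℝ, G = G0 * (2 + R1) := ⟨_, rfl⟩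
  have hR10 : (0 : ℝ) ≤ R1 := Nat.cast_nonneg _
  have hGG0 : G0 ≤ G := by rw [hG]; nlinarith
  have hG1 : 1 ≤ G := hG01.trans hGG0
  obtain ⟨M, hM⟩ : ∃ M : ℝ, M = 8 * Real.exp Ls + 1 / (4 * δ) + s * G ^ s * (G0 * (1 + R1)) + 1 := ⟨_, rfl⟩
  have hM0 : 0 < M := by rw [hM]; positivity
  refine ⟨2 * K + 2, min 1 (η1 / (4 * M)), by positivity, min_le_left _ _, by omega, ?_⟩
  obtain ⟨η, hη⟩ : ∃ η : ℝ, η = min 1 (η1 / (4 * M)) := ⟨_, rfl⟩
  rw [← hη]
  have hη0 : 0 < η := by rw [hη]; positivity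
  have hηle : η ≤ 1 := by rw [hη]; exact min_le_left _ _
  have hηM : η * M ≤ η1 / 4 := by
    have h1 : η ≤ η1 / (4 * M) := by rw [hη]; exact min_le_right _ _
    calc η * M ≤ η1 / (4 * M) * M := mul_le_mul_of_nonneg_right h1 hM0.le
      _ = η1 / 4 := by field_simp
  intro E o w y T ex col Om rem x hT hcol hdata hx hxΛ hxη A
  apply hlaw Om (fun t => Nt E w y (T t)) x hx hxΛ
  intro k hk
  have hOm : (0 : ℝ) ≤ Om.card := Nat.cast_nonneg _
  have hVnn : ∀ i, 0 ≤ Vt (E i) w y := fun i => Vt_nonneg (E i) w y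
  have hsumT : ∀ t, ∑ i ∈ T t, Vt (E i) w y ≤ Λ + 1 := by
    intro t
    have := (abs_le.1 (hxη t)).2
    have := hxΛ t
    linarith
  have hLsum : ∑ i ∈ Al T, Vt (E i) w y ≤ Ls := by
    unfold Al
    rw [Finset.sum_biUnion (fun t _ u _ htu => hT t u htu)]
    calc ∑ t, ∑ i ∈ T t, Vt (E i) w y ≤ ∑ _t : τ, (Λ + 1) := Finset.sum_le_sum fun t _ => hsumT t
      _ = Ls := by rw [Finset.sum_const, Finset.card_univ, nsmul_eq_mul, hLs, hs]
  have hexp : ∏ i ∈ Al T, (1 + Vt (E i) w y) ≤ Real.exp Ls :=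
    (prod_one_add_le_exp (Al T) _ (fun i _ => hVnn i)).trans (Real.exp_le_exp.2 hLsum)
  -- the typed sets
  obtain ⟨F, hF⟩ : ∃ F, F = (Ty T k).filter (fun J => Free ex J) := ⟨_, rfl⟩
  obtain ⟨F', hF'⟩ : ∃ F', F' = (Ty T k).filter (fun J => ¬ Free ex J) := ⟨_, rfl⟩
  have hsplit : ∀ g : Finset ι → ℝ, ∑ J ∈ Ty T k, g J = ∑ J ∈ F, g J + ∑ J ∈ F', g J := by
    intro g
    rw [hF, hF', Finset.sum_filter_add_sum_filter_not]
  have hTyS : ∀ J ∈ Ty T k, J ⊆ Al T := fun J hJ => by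
    unfold Ty at hJ
    rw [mem_filter, mem_powerset] at hJ
    exact hJ.1
  have hcard : ∀ J ∈ Ty T k, J.card ≤ K := fun J hJ => by
    rw [hK, hs]
    exact Ty_card T k R1 hk J hJ
  have hmain := fam_sum hdata hηle F (by
    intro J hJ
    rw [hF, mem_filter] at hJ
    exact ⟨hTyS J hJ.1, by have := hcard J hJ.1; omega, hJ.2⟩) Ls hLsum
  -- the sum of the binomial coefficients
  have hprodle : ∀ n, ∏ t, ((Nt E w y (T t) n).choose (k t) : ℝ) ≤ (1 + (Nt E w y (Al T) n : ℝ)) ^ K := by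
    intro n
    have h1 : ∀ t, ((Nt E w y (T t) n).choose (k t) : ℝ) ≤ (1 + (Nt E w y (Al T) n : ℝ)) ^ k t := by
      intro t
      have h2 := Nat.choose_le_pow (Nt E w y (T t) n) (k t)
      have h3 := Nt_mono E w y n (T t) (Al T) (sub_Al T t)
      calc ((Nt E w y (T t) n).choose (k t) : ℝ) ≤ ((Nt E w y (T t) n : ℕ) : ℝ) ^ k t := by exact_mod_cast h2
        _ ≤ (1 + (Nt E w y (Al T) n : ℝ)) ^ k t := by
            apply pow_le_pow_left₀ (Nat.cast_nonneg _)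
            have : ((Nt E w y (T t) n : ℕ) : ℝ) ≤ (Nt E w y (Al T) n : ℕ) := by exact_mod_cast h3
            linarith
    have h0 : (1 : ℝ) ≤ 1 + (Nt E w y (Al T) n : ℝ) := by
      have : (0 : ℝ) ≤ (Nt E w y (Al T) n : ℝ) := Nat.cast_nonneg _
      linarith
    calc ∏ t, ((Nt E w y (T t) n).choose (k t) : ℝ) ≤ ∏ t, (1 + (Nt E w y (Al T) n : ℝ)) ^ k t :=
          Finset.prod_le_prod (fun t _ => Nat.cast_nonneg _) (fun t _ => h1 t)
      _ = (1 + (Nt E w y (Al T) n : ℝ)) ^ (∑ t, k t) := by rw [Finset.prod_pow_eq_pow_sum]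
      _ ≤ _ := by
          apply pow_le_pow_right₀ h0
          rw [hK, hs]
          calc ∑ t, k t ≤ ∑ _t : τ, R1 := Finset.sum_le_sum fun t _ => hk t
            _ = _ := by rw [Finset.sum_const, Finset.card_univ, smul_eq_mul]
  have hsum : ∑ n ∈ Om, ∏ t, ((Nt E w y (T t) n).choose (k t) : ℝ) =
      ∑ J ∈ F, (cn E w y Om J : ℝ) + ∑ J ∈ F', (cn E w y Om J : ℝ) := by
    rw [← hsplit, Finset.sum_congr rfl (fun J _ => cn_sum E w y Om J), Finset.sum_comm]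
    apply Finset.sum_congr rfl
    intro n _
    exact typed_choose T hT k E w y n
  have hnon : ∑ J ∈ F', (cn E w y Om J : ℝ) ≤ (δ * C1 + η / (4 * δ)) * Om.card := by
    rw [Finset.sum_congr rfl (fun J _ => cn_sum E w y Om J), Finset.sum_comm]
    have h1 := nonfree_sum hdata hηle D hD col hcol K (by omega) Ls hLsum δ hδ0
      (fun n => ∑ J ∈ F', if Sl (EH E J) w y n then (1 : ℝ) else 0) (by
        intro n _
        refine le_trans ?_ (hprodle n)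
        rw [typed_choose T hT k E w y n]
        apply Finset.sum_le_sum_of_subset_of_nonneg
        · rw [hF']
          exact filter_subset _ _
        · intro J _ _
          split_ifs <;> norm_num)
    rw [← hC1] at h1
    refine le_trans (le_of_eq ?_) h1
    symm
    apply Finset.sum_subset (filter_subset _ _)
    intro n hn hn'
    apply Finset.sum_eq_zero
    intro J hJ
    rw [if_neg]
    intro hsl
    rw [hF', mem_filter] at hJ
    obtain ⟨hJ1, hJ2⟩ := hJ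
    unfold Free at hJ2
    push Not at hJ2
    obtain ⟨x, hx, hex⟩ := hJ2
    rw [mem_offDiag] at hx
    rw [sl_EH] at hsl
    apply hn'
    rw [mem_filter]
    exact ⟨hn, x, mem_offDiag.2 ⟨hTyS J hJ1 hx.1, hTyS J hJ1 hx.2.1, hx.2.2⟩, hex, hsl _ hx.1, hsl _ hx.2.1⟩
  have hnon0 : 0 ≤ ∑ J ∈ F', (cn E w y Om J : ℝ) := Finset.sum_nonneg fun J _ => Nat.cast_nonneg _
  -- the products
  have hVF' : ∑ J ∈ F', ∏ i ∈ J, Vt (E i) w y ≤ Real.exp Ls * η := by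
    have h1 := nonfree_prod (Al T) (fun i => Vt (E i) w y) (fun i _ => hVnn i) ex F' (by
      intro J hJ
      rw [hF', mem_filter] at hJ
      exact ⟨hTyS J hJ.1, hJ.2⟩)
    refine h1.trans ?_
    have h2 : 0 ≤ ∑ x ∈ (Al T).offDiag.filter (fun x => ex x), Vt (E x.1) w y * Vt (E x.2) w y :=
      Finset.sum_nonneg fun x _ => mul_nonneg (hVnn _) (hVnn _)
    calc _ ≤ Real.exp Ls * ∑ x ∈ (Al T).offDiag.filter (fun x => ex x), Vt (E x.1) w y * Vt (E x.2) w y :=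
          mul_le_mul_of_nonneg_right hexp h2
      _ ≤ _ := mul_le_mul_of_nonneg_left hdata.expair he0.le
  have hVF'0 : 0 ≤ ∑ J ∈ F', ∏ i ∈ J, Vt (E i) w y :=
    Finset.sum_nonneg fun J _ => prod_nonneg fun i _ => hVnn i
  have hVall : ∑ J ∈ F, ∏ i ∈ J, Vt (E i) w y + ∑ J ∈ F', ∏ i ∈ J, Vt (E i) w y =
      ∏ t, es (k t) (T t) (fun i => Vt (E i) w y) := by
    rw [← hsplit, typed_sum T hT k]
    rfl
  -- the elementary symmetric functions
  have hclose : ∀ t, |es (k t) (T t) (fun i => Vt (E i) w y) - x t ^ k t / (k t).factorial| ≤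
      G0 * (1 + R1) * η := by
    intro t
    have h1 := es_close (k t) (T t) (fun i => Vt (E i) w y) (fun i _ => hVnn i) η (Λ + 1) (x t) hη0.le
      (fun i hi => hdata.small i (sub_Al T t hi)) (hsumT t) (hx t) (by have := hxΛ t; linarith)
    refine h1.trans ?_
    have h2 : (1 + (Λ + 1)) ^ (k t + 1) ≤ G0 := by
      rw [hG0]
      calc (1 + (Λ + 1)) ^ (k t + 1) = (2 + Λ) ^ (k t + 1) := by ring
        _ ≤ (2 + Λ) ^ (R1 + 1) := pow_le_pow_right₀ (by linarith) (by have := hk t; omega)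
    have h3 : η + (k t : ℝ) * |∑ i ∈ T t, Vt (E i) w y - x t| ≤ (1 + R1) * η := by
      have h4 : (k t : ℝ) ≤ R1 := by exact_mod_cast hk t
      have h5 := mul_le_mul h4 (hxη t) (abs_nonneg _) hR10
      linarith
    calc _ ≤ G0 * ((1 + R1) * η) := mul_le_mul h2 h3 (by positivity) (by linarith)
      _ = _ := by ring
  have hxk : ∀ t, |x t ^ k t / ((k t).factorial : ℝ)| ≤ G0 := by
    intro t
    have hx0 := hx t
    rw [abs_of_nonneg (by positivity)]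
    have hf1 : (1 : ℝ) ≤ (k t).factorial := by exact_mod_cast Nat.factorial_pos (k t)
    calc x t ^ k t / ((k t).factorial : ℝ) ≤ x t ^ k t := div_le_self (by positivity) hf1
      _ ≤ (2 + Λ) ^ k t := pow_le_pow_left₀ hx0 (by have := hxΛ t; linarith) _
      _ ≤ G0 := by
        rw [hG0]
        exact pow_le_pow_right₀ (by linarith) (by have := hk t; omega)
  have hesk : ∀ t, |es (k t) (T t) (fun i => Vt (E i) w y)| ≤ G := by
    intro t
    have h1 := abs_sub_abs_le_abs_sub (es (k t) (T t) (fun i => Vt (E i) w y)) (x t ^ k t / (k t).factorial)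
    have h2 : G0 * (1 + R1) * η ≤ G0 * (1 + R1) * 1 := mul_le_mul_of_nonneg_left hηle (by positivity)
    have h3 : G0 * (1 + R1) * 1 + G0 = G := by rw [hG]; ring
    have := hclose t
    have := hxk t
    linarith
  have hprod : |∏ t, es (k t) (T t) (fun i => Vt (E i) w y) - ∏ t, (x t ^ k t / ((k t).factorial : ℝ))| ≤
      s * G ^ s * (G0 * (1 + R1) * η) := by
    have h1 := prod_close univ (fun t => es (k t) (T t) (fun i => Vt (E i) w y))
      (fun t => x t ^ k t / ((k t).factorial : ℝ)) G (G0 * (1 + R1) * η) hG1 (fun t _ => hesk t)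
      (fun t _ => (hxk t).trans hGG0) (fun t _ => hclose t)
    rw [Finset.card_univ, ← hs] at h1
    exact h1
  -- combine
  obtain ⟨N, hN⟩ : ∃ N : ℝ, N = Om.card := ⟨_, rfl⟩
  rw [hsum]
  rw [← hN] at hmain hnon hOm ⊢
  have hP := mul_le_mul_of_nonneg_left hprod hOm
  have hF'N := mul_le_mul_of_nonneg_left hVF' hOm
  have hF'N0 := mul_nonneg hOm hVF'0
  have h1 := abs_le.1 hmain
  have h2 : N * |∏ t, es (k t) (T t) (fun i => Vt (E i) w y) - ∏ t, (x t ^ k t / ((k t).factorial : ℝ))| =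
      |N * ∏ t, es (k t) (T t) (fun i => Vt (E i) w y) - N * ∏ t, (x t ^ k t / ((k t).factorial : ℝ))| := by
    rw [← mul_sub, abs_mul, abs_of_nonneg hOm]
  rw [h2] at hP
  have h3 := abs_le.1 hP
  have h4 : N * ∏ t, es (k t) (T t) (fun i => Vt (E i) w y) =
      N * ∑ J ∈ F, ∏ i ∈ J, Vt (E i) w y + N * ∑ J ∈ F', ∏ i ∈ J, Vt (E i) w y := by
    rw [← hVall, mul_add]
  have h5 : η / (4 * δ) = η * (1 / (4 * δ)) := by ring
  have htot : 8 * Real.exp Ls * η * N + (δ * C1 + η / (4 * δ)) * N + N * (s * G ^ s * (G0 * (1 + R1) * η)) ≤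
      η1 * N := by
    have h6 : 8 * Real.exp Ls * η + (δ * C1 + η / (4 * δ)) + s * G ^ s * (G0 * (1 + R1) * η) ≤ η1 := by
      have h7 : 8 * Real.exp Ls * η + η * (1 / (4 * δ)) + s * G ^ s * (G0 * (1 + R1) * η) ≤ η * M := by
        rw [hM]
        have : 0 ≤ η := hη0.le
        nlinarith
      rw [h5]
      linarith
    calc _ = (8 * Real.exp Ls * η + (δ * C1 + η / (4 * δ)) + s * G ^ s * (G0 * (1 + R1) * η)) * N := by ring
      _ ≤ η1 * N := mul_le_mul_of_nonneg_right h6 hOm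
  have h8 : N * (Real.exp Ls * η) = Real.exp Ls * η * N := by ring
  have h9 : 7 * Real.exp Ls * η * N + Real.exp Ls * η * N = 8 * Real.exp Ls * η * N := by ring
  rw [abs_le]
  constructor
  · linarith [h1.1, h3.1]
  · linarith [h1.2, h3.2]

end Pool.Agent.Q236.UL
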