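import Pool.Agent.Q236.UL.Palm

set_option autoImplicit false

/-!
# Consecutive points of several systems
-/

namespace Pool.Agent.Q236.UL

open Polynomial Finset Filter
open Pool.Agent.W123.RP Pool.Agent.H373R2.T7 Pool.Agent.W123.RU Pool.Agent.W123.RU.Poly
open Pool.Agent.TH464.PW Pool.Agent.TH464.PO Pool.Agent.Y879.GL Pool.Agent.Q236.CP Pool.Agent.Q236.GW
open Pool.Agent.H474R2.PG

open Classical in
/-- **The gaps and types of consecutive points of several systems.** -/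
theorem shp_law (ι : Type) [Fintype ι] [DecidableEq ι] (k D J : ℕ) (Λ ε : ℝ) (hΛ : 0 ≤ Λ) (hε : 0 < ε) (θ : ℝ)
    (hθ : 0 < θ) : ∃ r0 : ℕ, 2 ≤ r0 ∧ ∀ r : ℕ, r0 ≤ r → ∀ S : ι → Finset ℤ[X], (∀ i, AS k D (S i)) →
      (∀ i j, i ≠ j → ∀ h : ℕ, S i ≠ sh h (S j)) → ∀ᶠ X : ℕ in atTop, ∀ (i0 : ι) (a : Fin J → ι) (T : Fin J → ℕ),
      (∀ j, T j * (∑ i, Vq (QS (S i)) ⌊(X : ℝ) ^ (1 / (r : ℝ))⌋₊) ≤ Λ) → ∀ Z Y : ℕ, (X : ℝ) ^ θ ≤ Y →
      |(((Ioc Z (Z + Y)).filter (fun m => Sf (QS (S i0)) ⌊(X : ℝ) ^ (1 / (r : ℝ))⌋₊ m ∧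
          FollowT (fun i m => Sf (QS (S i)) ⌊(X : ℝ) ^ (1 / (r : ℝ))⌋₊ m) a T m)).card : ℝ) -
        Y * Vq (QS (S i0)) ⌊(X : ℝ) ^ (1 / (r : ℝ))⌋₊ *
          ((∏ j, (Vq (QS (S (a j))) ⌊(X : ℝ) ^ (1 / (r : ℝ))⌋₊ /
            ∑ i, Vq (QS (S i)) ⌊(X : ℝ) ^ (1 / (r : ℝ))⌋₊)) *
          Real.exp (-∑ j, T j * ∑ i, Vq (QS (S i)) ⌊(X : ℝ) ^ (1 / (r : ℝ))⌋₊))| ≤
        ε * (Y * ∑ i, Vq (QS (S i)) ⌊(X : ℝ) ^ (1 / (r : ℝ))⌋₊) := by
  obtain ⟨ε0, hε0⟩ : ∃ ε0 : ℝ, ε0 = min 1 ε := ⟨_, rfl⟩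
  have hε00 : 0 < ε0 := by rw [hε0]; positivity
  have hε01 : ε0 ≤ 1 := by rw [hε0]; exact min_le_left _ _
  have hε02 : ε0 ≤ ε := by rw [hε0]; exact min_le_right _ _
  obtain ⟨κ, N, hκ0, hκ1, hκε, hN, hconv⟩ := marks_conv2 J Λ (ε0 / 16) hΛ (by positivity)
  have hNr : (1 : ℝ) ≤ N := by exact_mod_cast hN
  obtain ⟨G, hG⟩ : ∃ G : ℝ, G = (N * Fintype.card ι + N) ^ J := ⟨_, rfl⟩
  have hG1 : 1 ≤ G := by
    rw [hG]
    apply one_le_pow₀
    have : (0 : ℝ) ≤ N * Fintype.card ι := by positivity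
    linarith
  obtain ⟨e, he⟩ : ∃ e : ℝ, e = ε0 * κ / (64 * G) := ⟨_, rfl⟩
  have he0 : 0 < e := by rw [he]; positivity
  have heG : e * G = ε0 * κ / 64 := by
    rw [he]
    field_simp
  have he1 : e ≤ ε0 * κ / 64 := by
    rw [← heG]
    exact le_mul_of_one_le_right he0.le hG1
  obtain ⟨r0, hr0, hlaw⟩ := fix_law (τ := Fin (J * N + 1) × ι) k D (((J * N + 1 : ℕ) : ℝ) * κ) e (by positivity) he0
    θ hθ
  obtain ⟨K0, x0, hK0, hfund⟩ := fund_OmY (k * D + 1) (by omega) (ε0 / 16) (by positivity)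
  obtain ⟨R1, hR1⟩ : ∃ R1 : ℕ, (K0 : ℝ) / θ ≤ R1 := exists_nat_ge _
  refine ⟨max r0 R1, hr0.trans (le_max_left _ _), ?_⟩
  intro r hr S hS hne
  have hr0' : r0 ≤ r := (le_max_left _ _).trans hr
  have hr2 : 2 ≤ r := hr0.trans hr0'
  have hrpos : (0 : ℝ) < r := by exact_mod_cast (by omega : 0 < r)
  have hrK : (K0 : ℝ) ≤ θ * r := by
    have h1 : (K0 : ℝ) / θ ≤ r := hR1.trans (by exact_mod_cast (le_max_right _ _).trans hr)
    rw [div_le_iff₀ (by positivity)] at h1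
    linarith
  choose v0 C0 hv0 hC0 hV using fun i => as_V (hS i)
  obtain ⟨CV, hCV⟩ : ∃ CV : ℝ, CV = ∑ i, C0 i + 1 := ⟨_, rfl⟩
  have hCV0 : 0 < CV := by
    have : 0 ≤ ∑ i, C0 i := Finset.sum_nonneg fun i _ => (hC0 i).le
    linarith
  obtain ⟨BV, hBV⟩ : ∃ BV : ℝ, BV = ∑ i, 1 / v0 i + 1 := ⟨_, rfl⟩
  have hBV0 : 0 < BV := by
    have : 0 ≤ ∑ i, 1 / v0 i := Finset.sum_nonneg fun i _ => by have := hv0 i; positivity
    linarith
  obtain ⟨cc, hcc⟩ : ∃ cc : ℝ, cc = ε0 * κ / 24 := ⟨_, rfl⟩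
  have hcc0 : 0 < cc := by rw [hcc]; positivity
  have hcc1 : cc ≤ 1 := by
    rw [hcc]
    have : ε0 * κ ≤ 1 * 1 := mul_le_mul hε01 hκ1 hκ0.le (by norm_num)
    linarith
  have hpow : Tendsto (fun X : ℕ => (X : ℝ) ^ (1 / (2 * r : ℝ))) atTop atTop :=
    (tendsto_rpow_atTop (by positivity)).comp tendsto_natCast_atTop_atTop
  have hlogX : Tendsto (fun X : ℕ => Real.log (X : ℝ)) atTop atTop :=
    Real.tendsto_log_atTop.comp tendsto_natCast_atTop_atTop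
  filter_upwards [hlaw r hr0' ι S hS hne, hpow.eventually_ge_atTop ((x0 : ℝ) + 3), eventually_ge_atTop 16,
    hlogX.eventually_ge_atTop (2 * r * (2 * CV / κ + 1)),
    logpow_rpow k (BV * κ / cc) (θ / 2) (by positivity) (by positivity)] with X hX hpw hX16 hX6 hlogp
  intro i0 a T hT Z Y hXY
  have hXr : (16 : ℝ) ≤ X := by exact_mod_cast hX16
  have hXpos : (0 : ℝ) < X := by linarith
  have hX1 : (1 : ℝ) ≤ X := by linarith
  obtain ⟨hy1, hy2, hy3, _⟩ := level_low r hr2 X (by omega) (by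
    have : (0 : ℝ) ≤ x0 := by positivity
    linarith)
  obtain ⟨y, hy⟩ : ∃ y, y = ⌊(X : ℝ) ^ (1 / (r : ℝ))⌋₊ := ⟨_, rfl⟩
  have hX' := hX Z Y hXY
  have hyf : (y : ℝ) ≤ (X : ℝ) ^ (1 / (r : ℝ)) := by
    rw [hy]
    exact Nat.floor_le (by positivity)
  rw [← hy] at hy1 hy2 hy3 hT hX' ⊢
  have hx0y : x0 + 3 ≤ y := by
    have : ((x0 + 3 : ℕ) : ℝ) ≤ y := by
      push_cast
      linarith
    exact_mod_cast this
  have hy3' : 3 ≤ y := by omega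
  have hlogy1 : 2 * CV / κ + 1 ≤ Real.log y := by
    refine le_trans ?_ hy2
    rw [le_div_iff₀ (by positivity)]
    linarith
  have hlogy : 1 ≤ Real.log y := by
    have : 0 < 2 * CV / κ := by positivity
    linarith
  have hlogy0 : 0 < Real.log y := by linarith
  obtain ⟨WW, hWW⟩ : ∃ WW : ℝ, WW = ∑ i, Vq (QS (S i)) y := ⟨_, rfl⟩
  rw [← hWW] at hT ⊢
  have hVW : ∀ i, Vq (QS (S i)) y ≤ WW := fun i => by
    rw [hWW]
    exact Finset.single_le_sum (f := fun i => Vq (QS (S i)) y) (fun i _ => Vq_nonneg _ _) (mem_univ i)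
  have hWW0 : 0 < WW := (Vq_pos _ (as_adm (hS i0)) y).trans_le (hVW i0)
  have hWWup : WW ≤ CV / Real.log y := by
    rw [hWW, hCV]
    have h1 : ∑ i, Vq (QS (S i)) y ≤ ∑ i, C0 i / Real.log y := by
      apply Finset.sum_le_sum
      intro i _
      refine (hV i y hy3').2.trans ?_
      apply div_le_div_of_nonneg_left (hC0 _).le hlogy0
      have h3 : 1 ≤ (S i).card := (hS i).ne.card_pos
      calc Real.log y = Real.log y ^ 1 := (pow_one _).symm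
        _ ≤ Real.log y ^ (S i).card := pow_le_pow_right₀ hlogy h3
    refine h1.trans ?_
    rw [← Finset.sum_div]
    exact div_le_div_of_nonneg_right (by linarith) hlogy0.le
  have hWWκ : 2 * WW ≤ κ := by
    have h1 : CV / Real.log y ≤ κ / 2 := by
      rw [div_le_div_iff₀ hlogy0 (by norm_num)]
      have h2 : 2 * CV / κ ≤ Real.log y := by linarith
      rw [div_le_iff₀ hκ0] at h2
      linarith
    linarith
  -- the cells
  obtain ⟨Δ, hΔ⟩ : ∃ Δ, Δ = ⌊κ / WW⌋₊ := ⟨_, rfl⟩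
  have hΔ1 : (Δ : ℝ) * WW ≤ κ := by
    rw [hΔ]
    have := Nat.floor_le (show 0 ≤ κ / WW by positivity)
    rwa [le_div_iff₀ hWW0] at this
  have hΔ2 : κ / 2 ≤ (Δ : ℝ) * WW := by
    have h1 := Nat.lt_floor_add_one (κ / WW)
    rw [← hΔ, div_lt_iff₀ hWW0] at h1
    nlinarith
  have hΔpos : 1 ≤ Δ := by
    by_contra hcon
    have : Δ = 0 := by omega
    rw [this] at hΔ2
    simp at hΔ2
    linarith
  have hΔr : (1 : ℝ) ≤ Δ := by exact_mod_cast hΔpos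
  have hΔ0 : (0 : ℝ) < Δ := by linarith
  obtain ⟨ym, hym⟩ : ∃ ym : ℝ, ym = Δ * WW := ⟨_, rfl⟩
  rw [← hym] at hΔ1 hΔ2
  have hym0 : 0 < ym := by linarith
  have hymsum : ∑ s, (Δ : ℝ) * Vq (QS (S s)) y = ym := by
    rw [← Finset.mul_sum, ← hWW, hym]
  have hY0 : (0 : ℝ) ≤ Y := Nat.cast_nonneg _
  -- the law of the configurations
  have hEv : ∀ l : List (ℕ × ι), tot l ≤ J * N + 1 →
      |(((Ioc Z (Z + Y)).filter (fun n => Ev (cnu (fun s => QS (S s)) y Δ n) 0 l)).card : ℝ) -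
        Y * wt (fun s => Δ * Vq (QS (S s)) y) l| ≤ e * Y := by
    intro l hl
    refine ev_law (J * N + 1) (fun s => QS (S s)) (Ioc Z (Z + Y)) y Δ (e * Y) Y ?_ l hl
    intro u v huv hvN hdis A
    refine hX' (fun t => t.2) u v huv (fun t => ?_) hdis A
    have h1 : (v t : ℝ) ≤ ((J * N + 1 : ℕ) : ℝ) * Δ := by exact_mod_cast hvN t
    calc (v t : ℝ) * Vq (QS (S t.2)) y ≤ (((J * N + 1 : ℕ) : ℝ) * Δ) * WW :=
          mul_le_mul h1 (hVW _) (Vq_nonneg _ _) (by positivity)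
      _ = ((J * N + 1 : ℕ) : ℝ) * ym := by rw [hym]; ring
      _ ≤ _ := mul_le_mul_of_nonneg_left hΔ1 (by positivity)
  -- the thresholds
  obtain ⟨t, ht⟩ : ∃ t : Fin J → ℝ, t = fun j => T j * WW := ⟨_, rfl⟩
  have ht0 : ∀ j, 0 ≤ t j := fun j => by rw [ht]; positivity
  have htΛ : ∀ j, t j ≤ Λ := fun j => by
    rw [ht]
    exact hT j
  obtain ⟨Dp, hDp⟩ : ∃ Dp : Fin J → ℕ, Dp = fun j => ⌈(T j : ℝ) / Δ⌉₊ := ⟨_, rfl⟩
  obtain ⟨Dm, hDm⟩ : ∃ Dm : Fin J → ℕ, Dm = fun j => ⌊(T j : ℝ) / Δ⌋₊ - 2 := ⟨_, rfl⟩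
  have hyT : ∀ j, ym * ((T j : ℝ) / Δ) = t j := by
    intro j
    rw [hym, ht]
    field_simp
  have hTq0 : ∀ j, 0 ≤ (T j : ℝ) / Δ := fun j => by positivity
  have c1 : ∀ l, ym * Dp l ≤ t l + κ := by
    intro l
    have h1 : (Dp l : ℝ) ≤ (T l : ℝ) / Δ + 1 := by
      rw [hDp]
      exact (Nat.ceil_lt_add_one (hTq0 l)).le
    calc ym * Dp l ≤ ym * ((T l : ℝ) / Δ + 1) := mul_le_mul_of_nonneg_left h1 hym0.le
      _ = t l + ym := by rw [mul_add, hyT, mul_one]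
      _ ≤ _ := by linarith
  have c2 : ∀ l, t l - κ ≤ ym * Dp l := by
    intro l
    have h1 : (T l : ℝ) / Δ ≤ Dp l := by
      rw [hDp]
      exact Nat.le_ceil _
    have h2 := mul_le_mul_of_nonneg_left h1 hym0.le
    rw [hyT] at h2
    linarith
  have c3 : ∀ l, t l - 3 * κ ≤ ym * Dm l := by
    intro l
    have h1 : (T l : ℝ) / Δ - 3 ≤ Dm l := by
      have h2 := (Nat.lt_floor_add_one ((T l : ℝ) / Δ)).le
      have h3 : ⌊(T l : ℝ) / Δ⌋₊ ≤ Dm l + 2 := by rw [hDm]; simp only; omega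
      have h4 : ((⌊(T l : ℝ) / Δ⌋₊ : ℕ) : ℝ) ≤ Dm l + 2 := by exact_mod_cast h3
      linarith
    have h2 := mul_le_mul_of_nonneg_left h1 hym0.le
    rw [mul_sub, hyT] at h2
    linarith
  have c4 : ∀ l, ym * Dm l ≤ t l := by
    intro l
    have h1 : (Dm l : ℝ) ≤ (T l : ℝ) / Δ := by
      have h2 := Nat.floor_le (hTq0 l)
      have h3 : Dm l ≤ ⌊(T l : ℝ) / Δ⌋₊ := by rw [hDm]; simp only; omega
      have h4 : (Dm l : ℝ) ≤ ((⌊(T l : ℝ) / Δ⌋₊ : ℕ) : ℝ) := by exact_mod_cast h3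
      linarith
    have h2 := mul_le_mul_of_nonneg_left h1 hym0.le
    rwa [hyT] at h2
  obtain ⟨d1, d2, d3, d4⟩ := hconv ym t Dm Dp hΔ2 hΔ1 ht0 htΛ c1 c2 c3 c4
  have hyK : y ^ K0 ≤ Y := by
    have h3 : ((y ^ K0 : ℕ) : ℝ) ≤ Y := by
      push_cast
      calc (y : ℝ) ^ K0 ≤ ((X : ℝ) ^ (1 / (r : ℝ))) ^ K0 := pow_le_pow_left₀ (Nat.cast_nonneg _) hyf _
        _ = (X : ℝ) ^ (1 / (r : ℝ) * K0) := by
            rw [Real.rpow_mul hXpos.le, Real.rpow_natCast]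
        _ ≤ (X : ℝ) ^ θ := by
            apply Real.rpow_le_rpow_of_exponent_le hX1
            rw [one_div, inv_mul_eq_div, div_le_iff₀ hrpos]
            exact hrK
        _ ≤ Y := hXY
    exact_mod_cast h3
  have hex0 : 0 ≤ Real.exp (-∑ l, t l) := (Real.exp_pos _).le
  have hex1 : Real.exp (-∑ l, t l) ≤ 1 := by
    rw [Real.exp_le_one_iff]
    have : 0 ≤ ∑ l, t l := Finset.sum_nonneg fun l _ => ht0 l
    linarith
  have hfun := hfund (QS (S i0)) y Z Y (as_perB (hS i0)) (by omega) hyK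
  have hpalm := palm_abs J N (fun s => QS (S s)) y Z Y Δ e he0.le hN hEv i0 (ε0 / 16) (by positivity) hfun a T ym
    hymsum hym0 (hΔ1.trans hκ1) Dm Dp d1 (by
      intro l d hd
      have h1 : (T l : ℝ) / Δ ≤ d := by
        refine (Nat.le_ceil _).trans ?_
        rw [hDp] at hd
        exact_mod_cast hd
      rw [div_le_iff₀ hΔ0] at h1
      exact_mod_cast h1) (by
      intro l d hd
      rw [hDm] at hd
      simp only at hd
      have h1 : ((d + 3 : ℕ) : ℝ) ≤ (T l : ℝ) / Δ := by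
        refine le_trans ?_ (Nat.floor_le (hTq0 l))
        exact_mod_cast (by omega : d + 3 ≤ ⌊(T l : ℝ) / Δ⌋₊)
      rw [le_div_iff₀ hΔ0] at h1
      have h2 : (d + 3) * Δ ≤ T l := by exact_mod_cast h1
      nlinarith) (ε0 / 16) (Real.exp (-∑ l, t l)) (by positivity) hex0 hex1 d2 d3 d4
  rw [← hG] at hpalm
  -- the numbers
  have hsumT : ∑ j, (T j : ℝ) * WW = ∑ l, t l := by rw [ht]
  rw [hsumT]
  obtain ⟨ex, hex⟩ : ∃ ex : ℝ, ex = Real.exp (-∑ l, t l) := ⟨_, rfl⟩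
  rw [← hex] at hpalm ⊢
  obtain ⟨N1, hN1⟩ : ∃ N1 : ℝ, N1 = (((Ioc Z (Z + Y)).filter (fun m => Sf (QS (S i0)) y m ∧
          FollowT (fun i m => Sf (QS (S i)) y m) a T m)).card : ℝ) := ⟨_, rfl⟩
  rw [← hN1] at hpalm ⊢
  have hβ : ∏ j, ((Δ : ℝ) * Vq (QS (S (a j))) y / ym) = ∏ j, (Vq (QS (S (a j))) y / WW) := by
    apply Finset.prod_congr rfl
    intro j _
    rw [hym]
    field_simp
  rw [hβ] at hpalm
  obtain ⟨β, hβe⟩ : ∃ β : ℝ, β = ∏ j, (Vq (QS (S (a j))) y / WW) := ⟨_, rfl⟩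
  rw [← hβe] at hpalm ⊢
  obtain ⟨V, hVe⟩ : ∃ V : ℝ, V = Vq (QS (S i0)) y := ⟨_, rfl⟩
  rw [← hVe] at hpalm ⊢
  -- the size of the cells
  have hΔs : (Δ : ℝ) ≤ cc * √(Y : ℝ) := by
    have h1 : (Δ : ℝ) ≤ κ / WW := by
      rw [hΔ]
      exact Nat.floor_le (by positivity)
    have h2 : 1 / WW ≤ BV * Real.log y ^ k := by
      have h3 : 1 / WW ≤ 1 / Vq (QS (S i0)) y :=
        one_div_le_one_div_of_le (Vq_pos _ (as_adm (hS i0)) y) (hVW i0)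
      have h4 : 1 / Vq (QS (S i0)) y ≤ 1 / (v0 i0 / Real.log y ^ (S i0).card) := by
        apply one_div_le_one_div_of_le _ (hV i0 y hy3').1
        have := hv0 i0
        positivity
      have h5 : 1 / (v0 i0 / Real.log y ^ (S i0).card) = 1 / v0 i0 * Real.log y ^ (S i0).card := by
        rw [one_div_div, div_eq_mul_one_div, mul_comm]
      have h6 : 1 / v0 i0 ≤ BV := by
        rw [hBV]
        have := Finset.single_le_sum (f := fun i => 1 / v0 i) (fun i _ => by have := hv0 i; positivity)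
          (mem_univ i0)
        linarith
      have h7 : Real.log y ^ (S i0).card ≤ Real.log y ^ k := pow_le_pow_right₀ hlogy (hS i0).card
      calc 1 / WW ≤ 1 / v0 i0 * Real.log y ^ (S i0).card := by rw [← h5]; exact h3.trans h4
        _ ≤ BV * Real.log y ^ k := mul_le_mul h6 h7 (by positivity) hBV0.le
    have h3 : Real.log y ^ k ≤ Real.log X ^ k := pow_le_pow_left₀ hlogy0.le hy3 _
    have h4 : (X : ℝ) ^ (θ / 2) ≤ √(Y : ℝ) := by
      rw [← Real.sqrt_sq (by positivity : 0 ≤ (X : ℝ) ^ (θ / 2))]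
      apply Real.sqrt_le_sqrt
      rw [sq, ← Real.rpow_add hXpos]
      refine le_trans (le_of_eq ?_) hXY
      congr 1
      ring
    have h5 : BV * κ / cc * Real.log X ^ k ≤ √(Y : ℝ) := hlogp.trans h4
    calc (Δ : ℝ) ≤ κ / WW := h1
      _ = κ * (1 / WW) := by ring
      _ ≤ κ * (BV * Real.log X ^ k) :=
          mul_le_mul_of_nonneg_left (h2.trans (mul_le_mul_of_nonneg_left h3 hBV0.le)) hκ0.le
      _ = cc * (BV * κ / cc * Real.log X ^ k) := by field_simp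
      _ ≤ cc * √(Y : ℝ) := mul_le_mul_of_nonneg_left h5 hcc0.le
  have hsY0 : 0 ≤ √(Y : ℝ) := Real.sqrt_nonneg _
  have hsY : √(Y : ℝ) * √(Y : ℝ) = Y := Real.mul_self_sqrt hY0
  have hsm : 2 * ((Δ : ℝ) * Δ) + Δ * √(Y : ℝ) ≤ ε0 / 4 * (Y * ym) := by
    have h1 : (Δ : ℝ) * Δ ≤ cc * Y := by
      calc (Δ : ℝ) * Δ ≤ (cc * √(Y : ℝ)) * (cc * √(Y : ℝ)) := mul_le_mul hΔs hΔs hΔ0.le (by positivity)
        _ = cc * (cc * (√(Y : ℝ) * √(Y : ℝ))) := by ring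
        _ = cc * (cc * Y) := by rw [hsY]
        _ ≤ 1 * (cc * Y) := mul_le_mul_of_nonneg_right hcc1 (by positivity)
        _ = cc * Y := one_mul _
    have h2 : (Δ : ℝ) * √(Y : ℝ) ≤ cc * Y := by
      calc (Δ : ℝ) * √(Y : ℝ) ≤ (cc * √(Y : ℝ)) * √(Y : ℝ) := mul_le_mul_of_nonneg_right hΔs hsY0
        _ = cc * (√(Y : ℝ) * √(Y : ℝ)) := by ring
        _ = cc * Y := by rw [hsY]
    have h3 : 3 * (cc * Y) ≤ ε0 / 4 * (Y * ym) := by
      have h4 : ε0 / 4 * (Y * (κ / 2)) ≤ ε0 / 4 * (Y * ym) :=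
        mul_le_mul_of_nonneg_left (mul_le_mul_of_nonneg_left hΔ2 hY0) (by positivity)
      have h5 : 3 * (cc * Y) = ε0 / 4 * (Y * (κ / 2)) := by
        rw [hcc]
        ring
      linarith
    linarith
  have hYym : 0 ≤ (Y : ℝ) * ym := by positivity
  have hYκ : (Y : ℝ) * κ ≤ 2 * (Y * ym) := by nlinarith
  have t1 : 2 * ((Y : ℝ) * ym * ym) ≤ ε0 / 8 * (Y * ym) := by
    have : (Y : ℝ) * ym * ym ≤ Y * ym * (ε0 / 16) := mul_le_mul_of_nonneg_left (hΔ1.trans hκε) hYym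
    linarith
  have t2 : e * Y ≤ ε0 / 32 * (Y * ym) := by
    calc e * Y ≤ (ε0 * κ / 64) * Y := mul_le_mul_of_nonneg_right he1 hY0
      _ = ε0 / 64 * (Y * κ) := by ring
      _ ≤ ε0 / 64 * (2 * (Y * ym)) := mul_le_mul_of_nonneg_left hYκ (by positivity)
      _ = _ := by ring
  have t2' : e * Y ≤ Y * ym := by
    refine t2.trans ?_
    have : ε0 / 32 * (Y * ym) ≤ 1 * (Y * ym) := mul_le_mul_of_nonneg_right (by linarith) hYym
    linarith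
  have t3 : 2 * (ε0 / 16) * (Y * ym + e * Y) ≤ ε0 / 4 * (Y * ym) := by
    have : 2 * (ε0 / 16) * (Y * ym + e * Y) ≤ 2 * (ε0 / 16) * (Y * ym + Y * ym) :=
      mul_le_mul_of_nonneg_left (by linarith) (by positivity)
    linarith
  have t4 : 4 * (e * Y) * G ≤ ε0 / 8 * (Y * ym) := by
    calc 4 * (e * Y) * G = 4 * (e * G) * Y := by ring
      _ = 4 * (ε0 * κ / 64) * Y := by rw [heG]
      _ = ε0 / 16 * (Y * κ) := by ring
      _ ≤ ε0 / 16 * (2 * (Y * ym)) := mul_le_mul_of_nonneg_left hYκ (by positivity)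
      _ = _ := by ring
  have htot : |(Δ : ℝ) * N1 - Y * (Δ * V) * (β * ex)| ≤ ε0 * (Y * ym) := by
    refine hpalm.trans ?_
    have h0 : 0 ≤ ε0 * (Y * ym) := by positivity
    linarith
  have e1 : (Δ : ℝ) * N1 - Y * (Δ * V) * (β * ex) = Δ * (N1 - Y * V * (β * ex)) := by ring
  rw [e1, abs_mul, abs_of_pos hΔ0] at htot
  have e2 : ε0 * (Y * ym) = Δ * (ε0 * (Y * WW)) := by rw [hym]; ring
  rw [e2] at htot
  have h3 := le_of_mul_le_mul_left htot hΔ0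
  refine h3.trans ?_
  exact mul_le_mul_of_nonneg_right hε02 (by positivity)

end Pool.Agent.Q236.UL
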