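import Pool.Agent.Q236.UL.Iter
import Pool.Agent.Q236.UL.ShpLaw

set_option autoImplicit false

/-!
# The number of the points of one system between consecutive points of a larger system
-/

namespace Pool.Agent.Q236.UL

open Polynomial Finset Filter
open Pool.Agent.W123.RP Pool.Agent.H373R2.T7 Pool.Agent.W123.RU Pool.Agent.W123.RU.Poly
open Pool.Agent.TH464.PW Pool.Agent.TH464.PO Pool.Agent.Y879.GL Pool.Agent.Q236.CP Pool.Agent.Q236.GW
open Pool.Agent.H474R2.PG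

lemma exists_nx (G : ℕ → Prop) (h : ∀ m, ∃ m', m < m' ∧ G m') : ∃ nx : ℕ → ℕ, ∀ m, Nx G m (nx m) := by
  classical
  refine ⟨fun m => Nat.find (h m), fun m => ?_⟩
  have h1 := Nat.find_spec (h m)
  refine ⟨h1.1, h1.2, ?_⟩
  intro c hc1 hc2 hc3
  exact Nat.find_min (h m) hc2 ⟨hc1, hc3⟩

lemma one_law (x : ℝ) (m0 : ℕ) : PoJ (fun _ : Unit => x) ((range m0).image (fun (j : ℕ) (_ : Unit) => j)) =
    ∑ j ∈ range m0, Real.exp (-x) * x ^ j / (j.factorial : ℝ) := by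
  unfold PoJ
  rw [Finset.sum_image (fun a _ b _ h => congrFun h ())]
  apply Finset.sum_congr rfl
  intro j _
  simp

open Classical in
/-- the windows with few points -/
lemma low_count (k D : ℕ) (δ e : ℝ) (hδ0 : 0 < δ) (hδ1 : δ < 1) (he : 0 < e) (θ : ℝ) (hθ : 0 < θ) :
    ∃ (Λ1 : ℝ) (r0 : ℕ), 1 ≤ Λ1 ∧ 2 ≤ r0 ∧ ∀ r : ℕ, r0 ≤ r → ∀ S : Finset ℤ[X], AS k D S → ∀ᶠ X : ℕ in atTop,
      ∀ Z Y : ℕ, (X : ℝ) ^ θ ≤ Y → ∀ h : ℕ, Λ1 ≤ h * Vq (QS S) ⌊(X : ℝ) ^ (1 / (r : ℝ))⌋₊ →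
        h * Vq (QS S) ⌊(X : ℝ) ^ (1 / (r : ℝ))⌋₊ ≤ Λ1 + 1 → ∃ m0 : ℕ,
        (1 - δ) * (h * Vq (QS S) ⌊(X : ℝ) ^ (1 / (r : ℝ))⌋₊) ≤ m0 ∧
        (((Ioc Z (Z + Y)).filter (fun x => ((Ioc x (x + h)).filter
          (Sf (QS S) ⌊(X : ℝ) ^ (1 / (r : ℝ))⌋₊)).card < m0)).card : ℝ) ≤ e * Y := by
  obtain ⟨Λ0, hΛ0, hpo⟩ := poisson_low (δ / 2) (by linarith) (by linarith) (e / 2) (by linarith)
  obtain ⟨Λ1, hΛ1⟩ : ∃ Λ1 : ℝ, Λ1 = max Λ0 (2 / δ) := ⟨_, rfl⟩
  have hΛ10 : Λ0 ≤ Λ1 := by rw [hΛ1]; exact le_max_left _ _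
  have hΛ1δ : 2 / δ ≤ Λ1 := by rw [hΛ1]; exact le_max_right _ _
  obtain ⟨r0, hr0, hlaw⟩ := fix_law (τ := Unit) k D (Λ1 + 1) (e / 2) (by linarith) (by linarith) θ hθ
  refine ⟨Λ1, r0, hΛ0.trans hΛ10, hr0, ?_⟩
  intro r hr S hS
  filter_upwards [hlaw r hr Unit (fun _ => S) (fun _ => hS) (fun i j hij => absurd (Subsingleton.elim i j) hij)]
    with X hX
  intro Z Y hXY h h1 h2
  obtain ⟨y, hy⟩ : ∃ y, y = ⌊(X : ℝ) ^ (1 / (r : ℝ))⌋₊ := ⟨_, rfl⟩
  have hX' := hX Z Y hXY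
  rw [← hy] at hX' h1 h2 ⊢
  obtain ⟨x, hx⟩ : ∃ x : ℝ, x = h * Vq (QS S) y := ⟨_, rfl⟩
  rw [← hx] at h1 h2 ⊢
  have hx0 : 0 < x := by linarith
  obtain ⟨m0, hm0⟩ : ∃ m0 : ℕ, m0 = ⌈(1 - δ) * x⌉₊ := ⟨_, rfl⟩
  have hm1 : (1 - δ) * x ≤ m0 := by rw [hm0]; exact Nat.le_ceil _
  have hm2 : (m0 : ℝ) ≤ (1 - δ / 2) * x := by
    have h3 : (m0 : ℝ) < (1 - δ) * x + 1 := by
      rw [hm0]
      exact Nat.ceil_lt_add_one (mul_nonneg (by linarith) hx0.le)
    have h4 : 2 / δ ≤ x := hΛ1δ.trans h1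
    rw [div_le_iff₀ hδ0] at h4
    nlinarith
  refine ⟨m0, hm1, ?_⟩
  have h5 := hpo x m0 (hΛ10.trans h1) hm2
  have h6 := hX' (fun _ => ()) (fun _ => 0) (fun _ => h) (fun _ => Nat.zero_le _) (fun _ => by
    rw [← hx]
    linarith) (fun s t hst => absurd (Subsingleton.elim s t) hst) ((range m0).image (fun (j : ℕ) (_ : Unit) => j))
  have e1 : (fun _ : Unit => (((h : ℕ) : ℝ) - ((0 : ℕ) : ℝ)) * Vq (QS S) y) = fun _ => x := by
    funext _
    rw [Nat.cast_zero, sub_zero, hx]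
  rw [e1, one_law] at h6
  have h7 := (abs_le.1 h6).2
  have h8 : (Ioc Z (Z + Y)).filter (fun x => ((Ioc x (x + h)).filter (Sf (QS S) y)).card < m0) =
      (Ioc Z (Z + Y)).filter (fun n => (fun _ : Unit => NB (QS S) y (Ioc 0 h) n) ∈
        (range m0).image (fun (j : ℕ) (_ : Unit) => j)) := by
    apply Finset.filter_congr
    intro n _
    have h9 : ((Ioc n (n + h)).filter (Sf (QS S) y)).card = NB (QS S) y (Ioc 0 h) n := by
      unfold NB
      symm
      apply Finset.card_bij (fun b _ => n + b)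
      · intro b hb
        rw [mem_filter, mem_Ioc] at hb ⊢
        exact ⟨by omega, hb.2⟩
      · intro a _ b _ hab
        omega
      · intro b hb
        rw [mem_filter, mem_Ioc] at hb
        have e : n + (b - n) = b := by omega
        refine ⟨b - n, ?_, e⟩
        rw [mem_filter, mem_Ioc, e]
        exact ⟨by omega, hb.2⟩
    rw [h9, mem_image]
    constructor
    · intro h10
      exact ⟨_, mem_range.2 h10, rfl⟩
    · rintro ⟨j, hj, hje⟩
      have h11 : j = NB (QS S) y (Ioc 0 h) n := congrFun hje ()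
      rw [← h11]
      exact mem_range.1 hj
  rw [h8]
  have hY0 : (0 : ℝ) ≤ Y := Nat.cast_nonneg _
  have h10 : (Y : ℝ) * ∑ j ∈ range m0, Real.exp (-x) * x ^ j / (j.factorial : ℝ) ≤ Y * (e / 2) :=
    mul_le_mul_of_nonneg_left h5 hY0
  linarith

open Classical in
/-- the number of the points between consecutive points -/
noncomputable def Kb (w : ℕ → Prop) (a b : ℕ) : ℕ := ((Ioo a b).filter w).card

/-- the numbers of the `w`-points in the next `J` gaps are large -/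
def Btw (G w : ℕ → Prop) {J : ℕ} (t : Fin J → ℝ) (n : ℕ) : Prop :=
  ∃ x : ℕ → ℕ, x 0 = n ∧ ∀ j : Fin J, Nx G (x j) (x (j + 1)) ∧ t j < Kb w (x j) (x (j + 1))

lemma btw_iff (G w : ℕ → Prop) (nx : ℕ → ℕ) (hnx : ∀ m, Nx G m (nx m)) {J : ℕ} (t : Fin J → ℝ) (n : ℕ) :
    Btw G w t n ↔ ∀ j : Fin J, t j < Kb w (nx^[j] n) (nx^[j + 1] n) := by
  constructor
  · rintro ⟨x, hx0, hx⟩ j
    have h := iter_unique G nx hnx J x n hx0 (fun j => (hx j).1)
    rw [← h j j.isLt.le, ← h (j + 1) j.isLt]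
    exact (hx j).2
  · intro h
    refine ⟨fun j => nx^[j] n, rfl, ?_⟩
    intro j
    refine ⟨?_, h j⟩
    change Nx G (nx^[j] n) (nx^[j + 1] n)
    rw [Function.iterate_succ_apply']
    exact hnx _

lemma follow_iff (G : ℕ → Prop) (nx : ℕ → ℕ) (hnx : ∀ m, Nx G m (nx m)) {J : ℕ} (T : Fin J → ℕ) (n : ℕ) :
    FollowT (fun (_ : Unit) m => G m) (fun _ => ()) T n ↔ ∀ j : Fin J, nx^[j] n + T j < nx^[j + 1] n := by
  have hany : AnyT (fun (_ : Unit) m => G m) = G := by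
    funext m
    apply propext
    exact ⟨fun ⟨_, h⟩ => h, fun h => ⟨(), h⟩⟩
  unfold FollowT
  rw [hany]
  constructor
  · rintro ⟨x, hx0, hx⟩ j
    have h := iter_unique G nx hnx J x n hx0 (fun j => (hx j).1)
    rw [← h j j.isLt.le, ← h (j + 1) j.isLt]
    exact (hx j).2.2
  · intro h
    refine ⟨fun j => nx^[j] n, rfl, ?_⟩
    intro j
    have h1 : Nx G (nx^[j] n) (nx^[j + 1] n) := by
      rw [Function.iterate_succ_apply']
      exact hnx _
    exact ⟨h1, h1.2.1, h j⟩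

open Classical in
/-- the comparison of the numbers of points with the lengths of the gaps -/
lemma btw_sandwich (G w : ℕ → Prop) (nx : ℕ → ℕ) (hnx : ∀ m, Nx G m (nx m)) {J : ℕ} (t : Fin J → ℝ)
    (ht : ∀ j, 0 ≤ t j) (Z W : ℕ) (V v η : ℝ) (hV : 0 < V) (hv : 0 < v) (hη : 0 ≤ η) (B : ℕ)
    (hB : ((Ioc Z W).filter (fun n => G n ∧ nx n ≤ W ∧
      η * v / V < |v * ((nx n : ℝ) - n) - (Kb w n (nx n) : ℝ)|)).card ≤ B) :
    (((Ioc Z W).filter (fun n => G n ∧ Btw G w (fun j => t j * (v / V)) n)).card : ℝ) ≤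
      (((Ioc Z W).filter (fun n => G n ∧ FollowT (fun (_ : Unit) m => G m) (fun _ => ())
        (fun j => ⌊(t j - η) / V⌋₊) n)).card : ℝ) + (J + J * B) ∧
    (((Ioc Z W).filter (fun n => G n ∧ FollowT (fun (_ : Unit) m => G m) (fun _ => ())
        (fun j => ⌊(t j + η) / V⌋₊) n)).card : ℝ) ≤
      (((Ioc Z W).filter (fun n => G n ∧ Btw G w (fun j => t j * (v / V)) n)).card : ℝ) + (J + J * B) := by
  obtain ⟨bad, hbad⟩ : ∃ bad : ℕ → Prop, bad = fun n => η * v / V < |v * ((nx n : ℝ) - n) - (Kb w n (nx n) : ℝ)| :=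
    ⟨_, rfl⟩
  have hbadn : ∀ n, bad n ↔ η * v / V < |v * ((nx n : ℝ) - n) - (Kb w n (nx n) : ℝ)| := fun n => by rw [hbad]
  have hBJ := card_badJ G nx hnx Z W J bad
  have hB' : ((Ioc Z W).filter (fun n => G n ∧ nx n ≤ W ∧ bad n)).card ≤ B := by
    refine le_trans (le_of_eq ?_) hB
    congr 1
    apply Finset.filter_congr
    intro n _
    rw [hbadn]
  have hBJ' : ((Ioc Z W).filter (fun n => G n ∧ ∃ j < J, bad (nx^[j] n))).card ≤ J + J * B := by
    refine hBJ.trans ?_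
    have := Nat.mul_le_mul_left J hB'
    omega
  have hBr : (((Ioc Z W).filter (fun n => G n ∧ ∃ j < J, bad (nx^[j] n))).card : ℝ) ≤ J + J * B := by
    exact_mod_cast hBJ'
  have key : ∀ n, ¬ (∃ j < J, bad (nx^[j] n)) → ∀ j : Fin J,
      |v * ((nx^[j + 1] n : ℕ) - (nx^[j] n : ℕ) : ℝ) - (Kb w (nx^[j] n) (nx^[j + 1] n) : ℝ)| ≤ η * v / V := by
    intro n hn j
    push Not at hn
    have h1 := hn j j.isLt
    rw [hbadn, not_lt] at h1
    rw [Function.iterate_succ_apply']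
    exact h1
  have hηv : η * v / V = η * (v / V) := mul_div_assoc _ _ _
  constructor
  · have h1 : (Ioc Z W).filter (fun n => G n ∧ Btw G w (fun j => t j * (v / V)) n) ⊆
        (Ioc Z W).filter (fun n => G n ∧ FollowT (fun (_ : Unit) m => G m) (fun _ => ())
          (fun j => ⌊(t j - η) / V⌋₊) n) ∪
        (Ioc Z W).filter (fun n => G n ∧ ∃ j < J, bad (nx^[j] n)) := by
      intro n hn
      rw [mem_filter] at hn
      rw [mem_union, mem_filter, mem_filter]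
      by_cases hb : ∃ j < J, bad (nx^[j] n)
      · exact Or.inr ⟨hn.1, hn.2.1, hb⟩
      · left
        refine ⟨hn.1, hn.2.1, ?_⟩
        rw [follow_iff G nx hnx]
        intro j
        have h2 := (btw_iff G w nx hnx _ n).1 hn.2.2 j
        have h3 := (abs_le.1 (key n hb j)).1
        rw [hηv] at h3
        have h4 : nx^[j] n < nx^[j + 1] n := by
          rw [Function.iterate_succ_apply']
          exact (hnx _).1
        obtain ⟨a, ha⟩ : ∃ a, a = nx^[j] n := ⟨_, rfl⟩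
        obtain ⟨b, hb'⟩ : ∃ b, b = nx^[j + 1] n := ⟨_, rfl⟩
        rw [← ha, ← hb'] at h2 h3 h4 ⊢
        have h5 : (t j - η) / V < (b : ℝ) - a := by
          have h6 : v * ((t j - η) / V) < v * ((b : ℝ) - a) := by
            have e1 : v * ((t j - η) / V) = t j * (v / V) - η * (v / V) := by ring
            rw [e1]
            linarith
          exact lt_of_mul_lt_mul_left h6 hv.le
        have h6 : ((⌊(t j - η) / V⌋₊ : ℕ) : ℝ) < (b : ℝ) - a := by
          rcases le_total 0 ((t j - η) / V) with h7 | h7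
          · exact (Nat.floor_le h7).trans_lt h5
          · rw [Nat.floor_of_nonpos h7, Nat.cast_zero]
            have : (a : ℝ) < b := by exact_mod_cast h4
            linarith
        have h7 : ((a + ⌊(t j - η) / V⌋₊ : ℕ) : ℝ) < b := by
          push_cast
          linarith
        exact_mod_cast h7
    have h2 := (card_le_card h1).trans (card_union_le _ _)
    have h3 : (((Ioc Z W).filter (fun n => G n ∧ Btw G w (fun j => t j * (v / V)) n)).card : ℝ) ≤
        (((Ioc Z W).filter (fun n => G n ∧ FollowT (fun (_ : Unit) m => G m) (fun _ => ())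
          (fun j => ⌊(t j - η) / V⌋₊) n)).card : ℝ) +
        (((Ioc Z W).filter (fun n => G n ∧ ∃ j < J, bad (nx^[j] n))).card : ℝ) := by exact_mod_cast h2
    linarith
  · have h1 : (Ioc Z W).filter (fun n => G n ∧ FollowT (fun (_ : Unit) m => G m) (fun _ => ())
          (fun j => ⌊(t j + η) / V⌋₊) n) ⊆
        (Ioc Z W).filter (fun n => G n ∧ Btw G w (fun j => t j * (v / V)) n) ∪
        (Ioc Z W).filter (fun n => G n ∧ ∃ j < J, bad (nx^[j] n)) := by
      intro n hn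
      rw [mem_filter] at hn
      rw [mem_union, mem_filter, mem_filter]
      by_cases hb : ∃ j < J, bad (nx^[j] n)
      · exact Or.inr ⟨hn.1, hn.2.1, hb⟩
      · left
        refine ⟨hn.1, hn.2.1, ?_⟩
        rw [btw_iff G w nx hnx]
        intro j
        have h2 := (follow_iff G nx hnx _ n).1 hn.2.2 j
        have h3 := (abs_le.1 (key n hb j)).2
        rw [hηv] at h3
        obtain ⟨a, ha⟩ : ∃ a, a = nx^[j] n := ⟨_, rfl⟩
        obtain ⟨b, hb'⟩ : ∃ b, b = nx^[j + 1] n := ⟨_, rfl⟩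
        rw [← ha, ← hb'] at h2 h3 ⊢
        have h5 : (t j + η) / V < (b : ℝ) - a := by
          have h6 := Nat.lt_floor_add_one ((t j + η) / V)
          have h7 : ((a + ⌊(t j + η) / V⌋₊ + 1 : ℕ) : ℝ) ≤ b := by exact_mod_cast h2
          push_cast at h7
          linarith
        have h6 : v * ((t j + η) / V) < v * ((b : ℝ) - a) := mul_lt_mul_of_pos_left h5 hv
        have e1 : v * ((t j + η) / V) = t j * (v / V) + η * (v / V) := by ring
        rw [e1] at h6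
        linarith
    have h2 := (card_le_card h1).trans (card_union_le _ _)
    have h3 : (((Ioc Z W).filter (fun n => G n ∧ FollowT (fun (_ : Unit) m => G m) (fun _ => ())
          (fun j => ⌊(t j + η) / V⌋₊) n)).card : ℝ) ≤
        (((Ioc Z W).filter (fun n => G n ∧ Btw G w (fun j => t j * (v / V)) n)).card : ℝ) +
        (((Ioc Z W).filter (fun n => G n ∧ ∃ j < J, bad (nx^[j] n))).card : ℝ) := by exact_mod_cast h2
    linarith

end Pool.Agent.Q236.UL
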