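import Pool.Agent.Q236.UL.Between

set_option autoImplicit false

/-!
# The number of the points of one system between consecutive points of a larger system: the law
-/

namespace Pool.Agent.Q236.UL

open Polynomial Finset Filter
open Pool.Agent.W123.RP Pool.Agent.H373R2.T7 Pool.Agent.W123.RU Pool.Agent.W123.RU.Poly
open Pool.Agent.TH464.PW Pool.Agent.TH464.PO Pool.Agent.Y879.GL Pool.Agent.Q236.CP Pool.Agent.Q236.GW
open Pool.Agent.H474R2.PG

/-- the sizes -/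
lemma btw_num (η Yr V v h Pc L W la fi B E sq : ℝ) (hη0 : 0 < η) (_hη1 : η ≤ 1) (hY : 0 < Yr) (hV : 0 < V)
    (hv : 0 < v) (hE : E = η * v / V) (hh : 0 ≤ h) (hhV : h * V ≤ η ^ 2 / 32)
    (hP : Pc ≤ 2 * (Yr * V)) (hL : L ≤ η ^ 2 / 16 * Yr) (hla : Yr - 2 * (η ^ 2 / 32 * Yr) ≤ la - fi)
    (hW : W ≤ Yr * v + η ^ 2 / 32 * (Yr * v) + sq) (hsq : sq ≤ η ^ 2 / 32 * (Yr * v))
    (hB : B * E ≤ 2 * (v * (η ^ 2 / 16 * Yr + h * Pc + L)) - v * (la - fi) + W) :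
    B ≤ η * (Yr * V) := by
  have hYv : 0 < Yr * v := mul_pos hY hv
  have h1 : h * Pc ≤ η ^ 2 / 16 * Yr := by
    calc h * Pc ≤ h * (2 * (Yr * V)) := mul_le_mul_of_nonneg_left hP hh
      _ = 2 * (h * V) * Yr := by ring
      _ ≤ 2 * (η ^ 2 / 32) * Yr := mul_le_mul_of_nonneg_right (by linarith) hY.le
      _ = _ := by ring
  have h2 : v * (η ^ 2 / 16 * Yr + h * Pc + L) ≤ v * (3 * (η ^ 2 / 16 * Yr)) :=
    mul_le_mul_of_nonneg_left (by linarith) hv.le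
  have h3 : v * (Yr - 2 * (η ^ 2 / 32 * Yr)) ≤ v * (la - fi) := mul_le_mul_of_nonneg_left hla hv.le
  have h4 : B * E ≤ η ^ 2 * (Yr * v) := by
    have h5 : 0 ≤ η ^ 2 * (Yr * v) := by positivity
    nlinarith
  have hE0 : 0 < E := by rw [hE]; positivity
  have h5 : η ^ 2 * (Yr * v) = η * (Yr * V) * E := by
    rw [hE]
    field_simp
  rw [h5] at h4
  exact le_of_mul_le_mul_right h4 hE0

open Classical in
/-- **The number of the points of one system between consecutive points of a larger system.** -/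
theorem between_law (k D J : ℕ) (Λ ε : ℝ) (hΛ : 0 ≤ Λ) (hε : 0 < ε) (θ : ℝ) (hθ : 0 < θ) :
    ∃ r0 : ℕ, 2 ≤ r0 ∧ ∀ r : ℕ, r0 ≤ r → ∀ S S' : Finset ℤ[X], AS k D S → AS k D S' → S'.card < S.card →
      ∀ᶠ X : ℕ in atTop, ∀ Z Y : ℕ, (X : ℝ) ^ θ ≤ Y → ∀ t : Fin J → ℝ, (∀ j, 0 ≤ t j ∧ t j ≤ Λ) →
      |(((Ioc Z (Z + Y)).filter (fun n => Sf (QS S) ⌊(X : ℝ) ^ (1 / (r : ℝ))⌋₊ n ∧
          Btw (Sf (QS S) ⌊(X : ℝ) ^ (1 / (r : ℝ))⌋₊) (Sf (QS S') ⌊(X : ℝ) ^ (1 / (r : ℝ))⌋₊)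
            (fun j => t j * (Vq (QS S') ⌊(X : ℝ) ^ (1 / (r : ℝ))⌋₊ / Vq (QS S) ⌊(X : ℝ) ^ (1 / (r : ℝ))⌋₊))
            n)).card : ℝ) -
        Y * Vq (QS S) ⌊(X : ℝ) ^ (1 / (r : ℝ))⌋₊ * Real.exp (-∑ j, t j)| ≤
        ε * (Y * Vq (QS S) ⌊(X : ℝ) ^ (1 / (r : ℝ))⌋₊) := by
  obtain ⟨ε0, hε0⟩ : ∃ ε0 : ℝ, ε0 = min 1 ε := ⟨_, rfl⟩
  have hε00 : 0 < ε0 := by rw [hε0]; positivity
  have hε01 : ε0 ≤ 1 := by rw [hε0]; exact min_le_left _ _
  have hε02 : ε0 ≤ ε := by rw [hε0]; exact min_le_right _ _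
  have hJ0 : (0 : ℝ) ≤ J := Nat.cast_nonneg _
  obtain ⟨η, hη⟩ : ∃ η : ℝ, η = ε0 / (16 * (J + 1)) := ⟨_, rfl⟩
  have hη0 : 0 < η := by rw [hη]; positivity
  have hηJ : (J : ℝ) * η ≤ ε0 / 16 := by
    rw [hη, ← mul_div_assoc, div_le_div_iff₀ (by positivity) (by norm_num)]
    nlinarith
  have hη1 : η ≤ 1 := by
    rw [hη, div_le_one (by positivity)]
    linarith
  obtain ⟨δ, hδ⟩ : ∃ δ : ℝ, δ = η ^ 2 / 16 := ⟨_, rfl⟩
  have hδ0 : 0 < δ := by rw [hδ]; positivity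
  have hδ1 : δ < 1 := by
    rw [hδ]
    nlinarith
  obtain ⟨r1, hr1, hgap⟩ := shp_law Unit k D J (Λ + 1) (ε0 / 16) (by linarith) (by positivity) θ hθ
  obtain ⟨Λ1, r2, hΛ1, hr2, hlow⟩ := low_count k D δ (η ^ 2 / 16) hδ0 hδ1 (by positivity) θ hθ
  obtain ⟨K0, x0, hK0, hfund⟩ := fund_OmY (k * D + 1) (by omega) (η ^ 2 / 32) (by positivity)
  obtain ⟨R1, hR1⟩ : ∃ R1 : ℕ, (K0 : ℝ) / (θ / 2) ≤ R1 := exists_nat_ge _
  refine ⟨max (max r1 r2) R1, hr1.trans ((le_max_left _ _).trans (le_max_left _ _)), ?_⟩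
  intro r hr S S' hS hS' hcard
  have hr1' : r1 ≤ r := ((le_max_left _ _).trans (le_max_left _ _)).trans hr
  have hr2' : r2 ≤ r := ((le_max_right _ _).trans (le_max_left _ _)).trans hr
  have hr2 : 2 ≤ r := hr1.trans hr1'
  have hrpos : (0 : ℝ) < r := by exact_mod_cast (by omega : 0 < r)
  have hrK : (K0 : ℝ) ≤ θ / 2 * r := by
    have h1 : (K0 : ℝ) / (θ / 2) ≤ r := hR1.trans (by exact_mod_cast (le_max_right _ _).trans hr)
    rw [div_le_iff₀ (by positivity)] at h1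
    linarith
  obtain ⟨c, C, hc, hC, hV⟩ := as_V hS
  obtain ⟨c', C', hc', hC', hV'⟩ := as_V hS'
  have hpow : Tendsto (fun X : ℕ => (X : ℝ) ^ (1 / (2 * r : ℝ))) atTop atTop :=
    (tendsto_rpow_atTop (by positivity)).comp tendsto_natCast_atTop_atTop
  have hpowθ : Tendsto (fun X : ℕ => (X : ℝ) ^ (θ / 2)) atTop atTop :=
    (tendsto_rpow_atTop (by positivity)).comp tendsto_natCast_atTop_atTop
  have hlogX : Tendsto (fun X : ℕ => Real.log (X : ℝ)) atTop atTop :=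
    Real.tendsto_log_atTop.comp tendsto_natCast_atTop_atTop
  -- the constants
  obtain ⟨G1, hG1⟩ : ∃ G1 : ℝ, G1 = (Λ1 + 1) * C * 32 / (c' * η ^ 2) + C / η + 1 := ⟨_, rfl⟩
  obtain ⟨G2, hG2⟩ : ∃ G2 : ℝ, G2 = (32 / (c' * η ^ 2)) + (16 * (J + 1) / (ε0 * c)) + 4 * 32 / (c * η ^ 2) + 1 := ⟨_, rfl⟩
  have hG20 : 0 < G2 := by rw [hG2]; positivity
  filter_upwards [hgap r hr1' (fun _ => S) (fun _ => hS) (fun i j hij => absurd (Subsingleton.elim i j) hij),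
    hlow r hr2' S' hS', hpow.eventually_ge_atTop ((x0 : ℝ) + 3), eventually_ge_atTop 16,
    hlogX.eventually_ge_atTop (2 * r * G1), logpow_rpow k G2 (θ / 4) hG20 (by positivity),
    hpowθ.eventually_ge_atTop (64 / η ^ 2)] with X hX hXlow hpw hX16 hX6 hlogp hpwθ
  intro Z Y hXY t ht
  have hXr : (16 : ℝ) ≤ X := by exact_mod_cast hX16
  have hXpos : (0 : ℝ) < X := by linarith
  have hX1 : (1 : ℝ) ≤ X := by linarith
  obtain ⟨hy1, hy2, hy3, _⟩ := level_low r hr2 X (by omega) (by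
    have : (0 : ℝ) ≤ x0 := by positivity
    linarith)
  obtain ⟨y, hy⟩ : ∃ y, y = ⌊(X : ℝ) ^ (1 / (r : ℝ))⌋₊ := ⟨_, rfl⟩
  have hyf : (y : ℝ) ≤ (X : ℝ) ^ (1 / (r : ℝ)) := by
    rw [hy]
    exact Nat.floor_le (by positivity)
  have hXgap := hX
  have hXlow' := hXlow Z Y hXY
  rw [← hy] at hy1 hy2 hy3 hXgap hXlow' ⊢
  have hx0y : x0 + 3 ≤ y := by
    have : ((x0 + 3 : ℕ) : ℝ) ≤ y := by
      push_cast
      linarith
    exact_mod_cast this
  have hy3' : 3 ≤ y := by omega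
  have hlogy1 : G1 ≤ Real.log y := by
    refine le_trans ?_ hy2
    rw [le_div_iff₀ (by positivity)]
    linarith
  have hG11 : (Λ1 + 1) * C * 32 / (c' * η ^ 2) ≤ Real.log y := by
    have : 0 < C / η := by positivity
    rw [hG1] at hlogy1
    linarith
  have hG12 : C / η ≤ Real.log y := by
    have : 0 ≤ (Λ1 + 1) * C * 32 / (c' * η ^ 2) := by positivity
    rw [hG1] at hlogy1
    linarith
  have hlogy : 1 ≤ Real.log y := by
    have h1 : 0 < C / η := by positivity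
    have h2 : 0 ≤ (Λ1 + 1) * C * 32 / (c' * η ^ 2) := by positivity
    rw [hG1] at hlogy1
    linarith
  have hlogy0 : 0 < Real.log y := by linarith
  obtain ⟨V, hVe⟩ : ∃ V : ℝ, V = Vq (QS S) y := ⟨_, rfl⟩
  obtain ⟨v, hve⟩ : ∃ v : ℝ, v = Vq (QS S') y := ⟨_, rfl⟩
  have hVb := hV y hy3'
  have hvb := hV' y hy3'
  have hV0 : 0 < V := by rw [hVe]; exact Vq_pos _ (as_adm hS) y
  have hv0 : 0 < v := by rw [hve]; exact Vq_pos _ (as_adm hS') y
  have hV1 : V ≤ 1 := by rw [hVe]; exact Vq_le_one' _ _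
  have hv1 : v ≤ 1 := by rw [hve]; exact Vq_le_one' _ _
  have hfS := fun Z Y h => hfund (QS S) y Z Y (as_perB hS) (by omega) h
  have hfS' := hfund (QS S') y Z Y (as_perB hS') (by omega)
  rw [← hVe] at hVb ⊢
  rw [← hve] at hvb hXlow' hfS' ⊢
  simp only [← hVe] at hXgap hfS
  -- the interval
  have hθ2 : (X : ℝ) ^ θ = (X : ℝ) ^ (θ / 2) * (X : ℝ) ^ (θ / 2) := by
    rw [← Real.rpow_add hXpos]
    congr 1
    ring
  have hθ4 : (X : ℝ) ^ (θ / 2) = (X : ℝ) ^ (θ / 4) * (X : ℝ) ^ (θ / 4) := by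
    rw [← Real.rpow_add hXpos]
    congr 1
    ring
  have hXθ1 : 1 ≤ (X : ℝ) ^ (θ / 2) := Real.one_le_rpow hX1 (by positivity)
  have hyKθ : ∀ Y' : ℕ, (X : ℝ) ^ (θ / 2) ≤ Y' → y ^ K0 ≤ Y' := by
    intro Y' hY'
    have h3 : ((y ^ K0 : ℕ) : ℝ) ≤ Y' := by
      push_cast
      calc (y : ℝ) ^ K0 ≤ ((X : ℝ) ^ (1 / (r : ℝ))) ^ K0 := pow_le_pow_left₀ (Nat.cast_nonneg _) hyf _
        _ = (X : ℝ) ^ (1 / (r : ℝ) * K0) := by
            rw [Real.rpow_mul hXpos.le, Real.rpow_natCast]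
        _ ≤ (X : ℝ) ^ (θ / 2) := by
            apply Real.rpow_le_rpow_of_exponent_le hX1
            rw [one_div, inv_mul_eq_div, div_le_iff₀ hrpos]
            exact hrK
        _ ≤ Y' := hY'
    exact_mod_cast h3
  have hXY2 : (X : ℝ) ^ (θ / 2) ≤ Y := by
    refine le_trans ?_ hXY
    rw [hθ2]
    exact le_mul_of_one_le_left (by linarith) hXθ1
  have hYr1 : (1 : ℝ) ≤ Y := hXθ1.trans hXY2
  have hYr0 : (0 : ℝ) < Y := by linarith
  -- the densities against the powers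
  have hlow : ∀ (c0 : ℝ) (s : ℕ) (V0 : ℝ), 0 < c0 → s ≤ k → c0 / Real.log y ^ s ≤ V0 → ∀ M : ℝ, 0 ≤ M →
      M / c0 ≤ G2 → M ≤ (X : ℝ) ^ (θ / 4) * V0 := by
    intro c0 s V0 hc0 hs hV0' M hM hMG
    have h1 : M / c0 * Real.log X ^ k ≤ (X : ℝ) ^ (θ / 4) :=
      (mul_le_mul_of_nonneg_right hMG (by
        have : 0 ≤ Real.log X := Real.log_nonneg hX1
        positivity)).trans hlogp
    have h2 : Real.log y ^ s ≤ Real.log X ^ k :=
      (pow_le_pow_right₀ hlogy hs).trans (pow_le_pow_left₀ hlogy0.le hy3 _)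
    calc M = M / c0 * Real.log y ^ s * (c0 / Real.log y ^ s) := by field_simp
      _ ≤ (X : ℝ) ^ (θ / 4) * V0 := by
          apply mul_le_mul _ hV0' (by positivity) (by positivity)
          exact (mul_le_mul_of_nonneg_left h2 (by positivity)).trans h1
  have hsqY : ∀ Y' : ℕ, (X : ℝ) ^ (θ / 2) ≤ Y' → (X : ℝ) ^ (θ / 4) ≤ √(Y' : ℝ) := by
    intro Y' hY'
    rw [← Real.sqrt_sq (by positivity : 0 ≤ (X : ℝ) ^ (θ / 4))]
    apply Real.sqrt_le_sqrt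
    rw [sq, ← hθ4]
    exact hY'
  have hGa : 32 / η ^ 2 / c' ≤ G2 := by
    have h1 : 32 / η ^ 2 / c' = 32 / (c' * η ^ 2) := by field_simp
    have h2 : 0 ≤ 16 * ((J : ℝ) + 1) / (ε0 * c) := by positivity
    have h3 : 0 ≤ 4 * 32 / (c * η ^ 2) := by positivity
    rw [h1, hG2]
    linarith
  have hGb : 16 * ((J : ℝ) + 1) / ε0 / c ≤ G2 := by
    have h1 : 16 * ((J : ℝ) + 1) / ε0 / c = 16 * ((J : ℝ) + 1) / (ε0 * c) := by field_simp
    have h2 : 0 ≤ 32 / (c' * η ^ 2) := by positivity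
    have h3 : 0 ≤ 4 * 32 / (c * η ^ 2) := by positivity
    rw [h1, hG2]
    linarith
  have hGc : 4 * 32 / η ^ 2 / c ≤ G2 := by
    have h1 : 4 * 32 / η ^ 2 / c = 4 * 32 / (c * η ^ 2) := by field_simp
    have h2 : 0 ≤ 32 / (c' * η ^ 2) := by positivity
    have h3 : 0 ≤ 16 * ((J : ℝ) + 1) / (ε0 * c) := by positivity
    rw [h1, hG2]
    linarith
  have hsv : 32 / η ^ 2 ≤ √(Y : ℝ) * v := by
    have h1 := hlow c' S'.card v hc' hS'.card hvb.1 (32 / η ^ 2) (by positivity) hGa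
    exact h1.trans (mul_le_mul_of_nonneg_right (hsqY Y hXY2) hv0.le)
  have hJYV : (J : ℝ) ≤ ε0 / 16 * (Y * V) := by
    have h1 := hlow c S.card V hc hS.card hVb.1 (16 * ((J : ℝ) + 1) / ε0) (by positivity) hGb
    have h2 : (X : ℝ) ^ (θ / 4) ≤ Y := by
      refine le_trans ?_ hXY2
      rw [hθ4]
      exact le_mul_of_one_le_left (by positivity) (Real.one_le_rpow hX1 (by positivity))
    have h3 : 16 * ((J : ℝ) + 1) / ε0 ≤ Y * V := h1.trans (mul_le_mul_of_nonneg_right h2 hV0.le)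
    have h4 : ε0 / 16 * (16 * ((J : ℝ) + 1) / ε0) ≤ ε0 / 16 * (Y * V) := mul_le_mul_of_nonneg_left h3 (by positivity)
    have h5 : ε0 / 16 * (16 * ((J : ℝ) + 1) / ε0) = J + 1 := by field_simp
    linarith
  have hη2 : η ^ 2 ≤ 1 := pow_le_one₀ hη0.le hη1
  -- points in intervals
  have hpts : ∀ Z' Y' : ℕ, (X : ℝ) ^ (θ / 2) ≤ Y' → ∃ m, Z' < m ∧ m ≤ Z' + Y' ∧ Sf (QS S) y m := by
    intro Z' Y' hY'
    have h1 := (abs_le.1 (hfS Z' Y' (hyKθ Y' hY'))).1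
    have h2 := hlow c S.card V hc hS.card hVb.1 (4 * 32 / η ^ 2) (by positivity) hGc
    have h3 : 4 * 32 / η ^ 2 ≤ √(Y' : ℝ) * V := h2.trans (mul_le_mul_of_nonneg_right (hsqY Y' hY') hV0.le)
    have h4 : (4 : ℝ) ≤ 4 * 32 / η ^ 2 := by
      rw [le_div_iff₀ (by positivity)]
      linarith
    have h5 : 4 * √(Y' : ℝ) ≤ Y' * V := by
      calc 4 * √(Y' : ℝ) ≤ (√(Y' : ℝ) * V) * √(Y' : ℝ) :=
            mul_le_mul_of_nonneg_right (h4.trans h3) (Real.sqrt_nonneg _)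
        _ = (√(Y' : ℝ) * √(Y' : ℝ)) * V := by ring
        _ = Y' * V := by rw [Real.mul_self_sqrt (Nat.cast_nonneg _)]
    have h6 : (1 : ℝ) ≤ √(Y' : ℝ) := by
      refine le_trans ?_ (hsqY Y' hY')
      exact Real.one_le_rpow hX1 (by positivity)
    have h7 : (0 : ℝ) < (OmY (QS S) y Z' Y').card := by
      have : η ^ 2 / 32 * (Y' * V) ≤ 1 / 32 * (Y' * V) :=
        mul_le_mul_of_nonneg_right (by linarith) (by positivity)
      linarith
    have h8 : 0 < (OmY (QS S) y Z' Y').card := by exact_mod_cast h7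
    obtain ⟨m, hm⟩ := card_pos.1 h8
    unfold OmY at hm
    rw [mem_filter, mem_Ioc] at hm
    exact ⟨m, hm.1.1, hm.1.2, hm.2⟩
  obtain ⟨nx, hnx⟩ := exists_nx (Sf (QS S) y) (fun m => by
    obtain ⟨m', h1, _, h2⟩ := hpts m Y hXY2
    exact ⟨m', h1, h2⟩)
  -- the sparse points
  obtain ⟨P, hP⟩ : ∃ P : Finset ℕ, P = (Ioc Z (Z + Y)).filter (fun n => Sf (QS S) y n) := ⟨_, rfl⟩
  have hPcard : (P.card : ℝ) ≤ 2 * (Y * V) := by
    have h1 := (abs_le.1 (hfS Z Y (hyKθ Y hXY2))).2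
    have h2 : OmY (QS S) y Z Y = P := by rw [hP]; rfl
    rw [h2] at h1
    have h3 := hlow c S.card V hc hS.card hVb.1 (4 * 32 / η ^ 2) (by positivity) hGc
    have h4 : (4 : ℝ) ≤ 4 * 32 / η ^ 2 := by
      rw [le_div_iff₀ (by positivity)]
      linarith
    have h5 : 4 * √(Y : ℝ) ≤ Y * V := by
      calc 4 * √(Y : ℝ) ≤ (√(Y : ℝ) * V) * √(Y : ℝ) :=
            mul_le_mul_of_nonneg_right (h4.trans (h3.trans (mul_le_mul_of_nonneg_right (hsqY Y hXY2) hV0.le)))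
              (Real.sqrt_nonneg _)
        _ = (√(Y : ℝ) * √(Y : ℝ)) * V := by ring
        _ = Y * V := by rw [Real.mul_self_sqrt hYr0.le]
    have h6 : η ^ 2 / 32 * (Y * V) ≤ 1 / 32 * (Y * V) :=
      mul_le_mul_of_nonneg_right (by linarith) (by positivity)
    have h7 : 0 ≤ (Y : ℝ) * V := by positivity
    linarith
  -- the ends
  obtain ⟨Y1, hY1⟩ : ∃ Y1 : ℕ, Y1 = ⌊η ^ 2 / 32 * Y⌋₊ := ⟨_, rfl⟩
  have hY1le : (Y1 : ℝ) ≤ η ^ 2 / 32 * Y := by
    rw [hY1]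
    exact Nat.floor_le (by positivity)
  have hY1Y : Y1 ≤ Y := by
    have : (Y1 : ℝ) ≤ Y := by
      have : η ^ 2 / 32 * (Y : ℝ) ≤ 1 * Y := mul_le_mul_of_nonneg_right (by linarith) hYr0.le
      linarith
    exact_mod_cast this
  have hY1low : (X : ℝ) ^ (θ / 2) ≤ Y1 := by
    have h1 : η ^ 2 / 32 * (Y : ℝ) - 1 ≤ Y1 := by
      rw [hY1]
      exact (Nat.sub_one_lt_floor _).le
    have h2 : 64 / η ^ 2 * (X : ℝ) ^ (θ / 2) ≤ Y := by
      refine le_trans ?_ hXY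
      rw [hθ2]
      exact mul_le_mul_of_nonneg_right hpwθ (by positivity)
    have h3 : η ^ 2 / 32 * (64 / η ^ 2 * (X : ℝ) ^ (θ / 2)) ≤ η ^ 2 / 32 * Y :=
      mul_le_mul_of_nonneg_left h2 (by positivity)
    have h4 : η ^ 2 / 32 * (64 / η ^ 2 * (X : ℝ) ^ (θ / 2)) = 2 * (X : ℝ) ^ (θ / 2) := by field_simp; norm_num
    linarith
  obtain ⟨f1, hf1, hf2, hf3⟩ := hpts Z Y1 hY1low
  obtain ⟨l1, hl1, hl2, hl3⟩ := hpts (Z + Y - Y1) Y1 hY1low
  have hf1P : f1 ∈ P := by rw [hP, mem_filter, mem_Ioc]; exact ⟨⟨hf1, by omega⟩, hf3⟩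
  have hl1P : l1 ∈ P := by rw [hP, mem_filter, mem_Ioc]; exact ⟨⟨by omega, by omega⟩, hl3⟩
  have hPne : P.Nonempty := ⟨f1, hf1P⟩
  obtain ⟨fi, hfi⟩ : ∃ fi, fi = P.min' hPne := ⟨_, rfl⟩
  obtain ⟨la, hla⟩ : ∃ la, la = P.max' hPne := ⟨_, rfl⟩
  have hfiP : fi ∈ P := by rw [hfi]; exact P.min'_mem hPne
  have hlaP : la ∈ P := by rw [hla]; exact P.max'_mem hPne
  have hfi' : ∀ q ∈ P, fi ≤ q := fun q hq => by rw [hfi]; exact P.min'_le q hq
  have hla' : ∀ q ∈ P, q ≤ la := fun q hq => by rw [hla]; exact P.le_max' q hq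
  have hlafi : (Y : ℝ) - 2 * (η ^ 2 / 32 * Y) ≤ (la : ℝ) - fi := by
    have h1 := hfi' f1 hf1P
    have h2 := hla' l1 hl1P
    have h3 : Y + fi ≤ la + 2 * Y1 := by omega
    have h4 : (Y : ℝ) + fi ≤ la + 2 * Y1 := by exact_mod_cast h3
    linarith
  have hnxP : ∀ p ∈ P, p < la → nx p ∈ P ∧ p < nx p ∧ ∀ q ∈ P, p < q → nx p ≤ q := by
    intro p hp hpla
    have h1 := hnx p
    have h2 : ∀ q ∈ P, p < q → nx p ≤ q := by
      intro q hq hpq
      by_contra hcon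
      rw [hP, mem_filter] at hq
      exact h1.2.2 q hpq (by omega) hq.2
    refine ⟨?_, h1.1, h2⟩
    have h3 := h2 la hlaP hpla
    have h4 := hlaP
    rw [hP, mem_filter, mem_Ioc] at hp h4 ⊢
    exact ⟨⟨by have := h1.1; omega, by omega⟩, h1.2.1⟩
  -- the windows
  obtain ⟨h, hh⟩ : ∃ h, h = ⌊(Λ1 + 1) / v⌋₊ := ⟨_, rfl⟩
  have hh1 : (h : ℝ) * v ≤ Λ1 + 1 := by
    rw [hh]
    have := Nat.floor_le (show 0 ≤ (Λ1 + 1) / v by positivity)
    rwa [le_div_iff₀ hv0] at this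
  have hh2 : Λ1 ≤ (h : ℝ) * v := by
    have h1 := Nat.lt_floor_add_one ((Λ1 + 1) / v)
    rw [← hh, div_lt_iff₀ hv0] at h1
    nlinarith
  have hhpos : 1 ≤ h := by
    by_contra hcon
    have : h = 0 := by omega
    rw [this] at hh2
    simp at hh2
    linarith
  have hhV : (h : ℝ) * V ≤ η ^ 2 / 32 := by
    have h1 : (h : ℝ) ≤ (Λ1 + 1) / v := by
      rw [hh]
      exact Nat.floor_le (by positivity)
    have h2 : V / v ≤ C / c' / Real.log y := by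
      rw [div_le_iff₀ hv0]
      have h3 : C / Real.log y ^ S.card ≤ C / c' / Real.log y * (c' / Real.log y ^ S'.card) := by
        have e1 : C / c' / Real.log y * (c' / Real.log y ^ S'.card) = C / Real.log y ^ (S'.card + 1) := by
          rw [pow_succ]
          field_simp
        rw [e1]
        apply div_le_div_of_nonneg_left hC.le (by positivity)
        exact pow_le_pow_right₀ hlogy (by omega)
      exact hVb.2.trans (h3.trans (mul_le_mul_of_nonneg_left hvb.1 (by positivity)))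
    calc (h : ℝ) * V ≤ (Λ1 + 1) / v * V := mul_le_mul_of_nonneg_right h1 hV0.le
      _ = (Λ1 + 1) * (V / v) := by ring
      _ ≤ (Λ1 + 1) * (C / c' / Real.log y) := mul_le_mul_of_nonneg_left h2 (by linarith)
      _ ≤ η ^ 2 / 32 := by
          rw [div_le_iff₀ (by positivity)] at hG11
          have e1 : (Λ1 + 1) * (C / c' / Real.log y) = (Λ1 + 1) * C / (c' * Real.log y) := by
            field_simp
          rw [e1, div_le_iff₀ (by positivity)]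
          nlinarith
  obtain ⟨m0, hm0, hL⟩ := hXlow' h hh2 hh1
  -- the bad gaps
  obtain ⟨E, hE⟩ : ∃ E : ℝ, E = η * v / V := ⟨_, rfl⟩
  have hE0 : 0 < E := by rw [hE]; positivity
  have hlln := lln_abs P (Sf (QS S') y) Z Y h m0 fi la nx v δ E (by rw [hP]; exact filter_subset _ _) hfiP hlaP
    hfi' hla' hnxP hv0.le hδ0.le hhpos hm0 hE0.le
  obtain ⟨B, hB⟩ : ∃ B : ℕ, B = ((P.filter (fun p => p < la)).filter (fun p =>
      E < |v * ((nx p : ℝ) - p) - (((Ioo p (nx p)).filter (Sf (QS S') y)).card : ℝ)|)).card := ⟨_, rfl⟩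
  rw [← hB] at hlln
  have hWt : (((Ioc Z (Z + Y)).filter (Sf (QS S') y)).card : ℝ) ≤ Y * v + η ^ 2 / 32 * (Y * v) + √(Y : ℝ) := by
    have h1 := (abs_le.1 (hfS' (hyKθ Y hXY2))).2
    unfold OmY at h1
    linarith
  have hsq : √(Y : ℝ) ≤ η ^ 2 / 32 * (Y * v) := by
    have h1 : √(Y : ℝ) * (32 / η ^ 2) ≤ √(Y : ℝ) * (√(Y : ℝ) * v) :=
      mul_le_mul_of_nonneg_left hsv (Real.sqrt_nonneg _)
    have h2 : √(Y : ℝ) * (√(Y : ℝ) * v) = Y * v := by
      rw [← mul_assoc, Real.mul_self_sqrt hYr0.le]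
    rw [h2, mul_div_assoc', div_le_iff₀ (by positivity)] at h1
    linarith
  rw [hδ] at hlln
  have hBle : (B : ℝ) ≤ η * (Y * V) := btw_num η Y V v h P.card _ _ la fi B E (√(Y : ℝ)) hη0 hη1 hYr0 hV0 hv0 hE
    (Nat.cast_nonneg _) hhV hPcard hL hlafi hWt hsq hlln
  obtain ⟨sw1, sw2⟩ := btw_sandwich (Sf (QS S) y) (Sf (QS S') y) nx hnx t (fun j => (ht j).1) Z (Z + Y) V v η hV0 hv0
    hη0.le B (by
      rw [hB]
      apply card_le_card
      intro n hn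
      rw [mem_filter, mem_Ioc] at hn
      have h1 : n ∈ P := by rw [hP, mem_filter, mem_Ioc]; exact ⟨hn.1, hn.2.1⟩
      have h2 : nx n ∈ P := by
        rw [hP, mem_filter, mem_Ioc]
        have h3 := (hnx n).1
        exact ⟨⟨by omega, hn.2.2.1⟩, (hnx n).2.1⟩
      have h3 := (hnx n).1
      have h4 := hla' _ h2
      rw [mem_filter, mem_filter, hE]
      exact ⟨⟨h1, by omega⟩, hn.2.2.2⟩)
  -- the gap laws
  have hVη : V ≤ η := by
    have h1 : V ≤ C / Real.log y := by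
      refine hVb.2.trans ?_
      apply div_le_div_of_nonneg_left hC.le hlogy0
      have h3 : 1 ≤ S.card := hS.ne.card_pos
      calc Real.log y = Real.log y ^ 1 := (pow_one _).symm
        _ ≤ Real.log y ^ S.card := pow_le_pow_right₀ hlogy h3
    refine h1.trans ?_
    rw [div_le_iff₀ hlogy0]
    rw [div_le_iff₀ hη0] at hG12
    linarith
  have hYV : 0 ≤ (Y : ℝ) * V := by positivity
  have hgapT : ∀ T : Fin J → ℕ, (∀ j, (T j : ℝ) * V ≤ Λ + 1) → (∀ j, |(T j : ℝ) * V - t j| ≤ 2 * η) →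
      |(((Ioc Z (Z + Y)).filter (fun n => Sf (QS S) y n ∧ FollowT (fun (_ : Unit) m => Sf (QS S) y m) (fun _ => ())
        T n)).card : ℝ) - Y * V * Real.exp (-∑ j, t j)| ≤ 3 * ε0 / 16 * (Y * V) := by
    intro T hT1 hT2
    have h1 := hXgap () (fun _ => ()) T (fun j => by
      rw [Finset.sum_const, Finset.card_univ, Fintype.card_unit, one_smul]
      exact hT1 j) Z Y hXY
    rw [Finset.sum_const, Finset.card_univ, Fintype.card_unit, one_smul, div_self hV0.ne', Finset.prod_const_one,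
      one_mul] at h1
    have h2 : |Real.exp (-∑ j, (T j : ℝ) * V) - Real.exp (-∑ j, t j)| ≤ ε0 / 8 := by
      refine (exp_abs_sub _ _ (Finset.sum_nonneg fun j _ => by positivity)
        (Finset.sum_nonneg fun j _ => (ht j).1)).trans ?_
      rw [← Finset.sum_sub_distrib]
      refine (Finset.abs_sum_le_sum_abs _ _).trans ?_
      refine (Finset.sum_le_card_nsmul _ _ (2 * η) (fun j _ => hT2 j)).trans ?_
      rw [card_univ, Fintype.card_fin, nsmul_eq_mul]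
      linarith
    have h3 : |Y * V * Real.exp (-∑ j, (T j : ℝ) * V) - Y * V * Real.exp (-∑ j, t j)| ≤ ε0 / 8 * (Y * V) := by
      rw [← mul_sub, abs_mul, abs_of_nonneg hYV, mul_comm]
      exact mul_le_mul_of_nonneg_right h2 hYV
    have h4 := abs_sub_le (((Ioc Z (Z + Y)).filter (fun n => Sf (QS S) y n ∧
      FollowT (fun (_ : Unit) m => Sf (QS S) y m) (fun _ => ()) T n)).card : ℝ)
      (Y * V * Real.exp (-∑ j, (T j : ℝ) * V)) (Y * V * Real.exp (-∑ j, t j))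
    linarith
  have hfl : ∀ (a : ℝ) (j : Fin J), |a| ≤ η → (((⌊(t j + a) / V⌋₊ : ℕ) : ℝ) * V ≤ Λ + 1) ∧
      |((⌊(t j + a) / V⌋₊ : ℕ) : ℝ) * V - t j| ≤ 2 * η := by
    intro a j ha
    have ha' := abs_le.1 ha
    have ht' := ht j
    rcases le_total 0 ((t j + a) / V) with h1 | h1
    · have h2 := Nat.floor_le h1
      have h3 := Nat.lt_floor_add_one ((t j + a) / V)
      rw [le_div_iff₀ hV0] at h2
      rw [div_lt_iff₀ hV0] at h3
      refine ⟨by linarith, ?_⟩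
      rw [abs_le]
      constructor <;> linarith
    · have h2 : t j + a ≤ 0 := by
        by_contra hcon
        have : 0 < (t j + a) / V := div_pos (not_le.1 hcon) hV0
        linarith
      rw [Nat.floor_of_nonpos h1, Nat.cast_zero, zero_mul, zero_sub, abs_neg, abs_of_nonneg ht'.1]
      exact ⟨by linarith, by linarith⟩
  have g1 := hgapT (fun j => ⌊(t j - η) / V⌋₊) (fun j => (hfl (-η) j (by rw [abs_neg, abs_of_pos hη0])).1)
    (fun j => (hfl (-η) j (by rw [abs_neg, abs_of_pos hη0])).2)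
  have g2 := hgapT (fun j => ⌊(t j + η) / V⌋₊) (fun j => (hfl η j (by rw [abs_of_pos hη0])).1)
    (fun j => (hfl η j (by rw [abs_of_pos hη0])).2)
  have g1' := abs_le.1 g1
  have g2' := abs_le.1 g2
  have hJB : (J : ℝ) + J * B ≤ ε0 / 8 * (Y * V) := by
    have h1 : (J : ℝ) * B ≤ J * (η * (Y * V)) := mul_le_mul_of_nonneg_left hBle hJ0
    have h2 : (J : ℝ) * (η * (Y * V)) = (J * η) * (Y * V) := by ring
    have h3 : (J * η) * (Y * V) ≤ ε0 / 16 * (Y * V) := mul_le_mul_of_nonneg_right hηJ hYV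
    linarith
  have hfin : ε0 * (Y * V) ≤ ε * (Y * V) := mul_le_mul_of_nonneg_right hε02 hYV
  have hpos : 0 ≤ ε0 * (Y * V) := by positivity
  rw [abs_le]
  constructor
  · linarith
  · linarith

end Pool.Agent.Q236.UL
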