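import Pool.Agent.Q236.UL.Multi

set_option autoImplicit false

/-!
# Marked points in cells: the law of the gaps and marks of the next points
-/

namespace Pool.Agent.Q236.UL

open Finset

variable {σ : Type*} [Fintype σ] [DecidableEq σ]

/-- the cells from `i` on, up to the last point of the list, are occupied as prescribed by the list of the
(numbers of the empty cells, marks) -/
def Ev (c : ℕ → σ → ℕ) : ℕ → List (ℕ × σ) → Prop
  | _, [] => True
  | i, x :: l => (∀ j < x.1, ∀ s, c (i + j) s = 0) ∧ (∀ s, c (i + x.1) s = if s = x.2 then 1 else 0) ∧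
      Ev c (i + x.1 + 1) l

lemma Ev_unique (c : ℕ → σ → ℕ) : ∀ (l l' : List (ℕ × σ)) (i : ℕ), l.length = l'.length → Ev c i l →
    Ev c i l' → l = l' := by
  intro l
  induction l with
  | nil =>
    intro l' i h _ _
    exact (List.length_eq_zero_iff.1 h.symm).symm
  | cons x l ih =>
    intro l' i h h1 h2
    rcases l' with _ | ⟨y, l'⟩
    · simp at h
    · obtain ⟨a1, a2, a3⟩ := h1
      obtain ⟨b1, b2, b3⟩ := h2
      have hd : x.1 = y.1 := by
        rcases lt_trichotomy x.1 y.1 with h3 | h3 | h3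
        · have h4 := b1 x.1 h3 x.2
          rw [a2 x.2, if_pos rfl] at h4
          omega
        · exact h3
        · have h4 := a1 y.1 h3 y.2
          rw [b2 y.2, if_pos rfl] at h4
          omega
      have hs : x.2 = y.2 := by
        by_contra hne
        have h4 := a2 x.2
        rw [hd, b2 x.2, if_neg hne, if_pos rfl] at h4
        omega
      have hxy : x = y := Prod.ext hd hs
      rw [hxy] at a3 ⊢
      rw [ih l' (i + y.1 + 1) (by simpa using h) a3 b3]

/-- the configuration of a list -/
def conf : List (ℕ × σ) → ℕ → σ → ℕ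
  | [], _, _ => 0
  | x :: l, i, s => if i < x.1 then 0 else if i = x.1 then (if s = x.2 then 1 else 0) else conf l (i - (x.1 + 1)) s

/-- the number of the cells of a list -/
def tot : List (ℕ × σ) → ℕ
  | [] => 0
  | x :: l => x.1 + 1 + tot l

omit [Fintype σ] in
lemma Ev_iff (c : ℕ → σ → ℕ) : ∀ (l : List (ℕ × σ)) (i : ℕ),
    Ev c i l ↔ ∀ j < tot l, ∀ s, c (i + j) s = conf l j s := by
  intro l
  induction l with
  | nil =>
    intro i
    unfold Ev tot
    simp
  | cons x l ih =>
    intro i
    unfold Ev tot conf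
    rw [ih]
    constructor
    · rintro ⟨h1, h2, h3⟩ j hj s
      by_cases hj1 : j < x.1
      · rw [if_pos hj1]
        exact h1 j hj1 s
      · rw [if_neg hj1]
        by_cases hj2 : j = x.1
        · rw [if_pos hj2, hj2]
          exact h2 s
        · rw [if_neg hj2]
          have h4 := h3 (j - (x.1 + 1)) (by omega) s
          rw [show i + x.1 + 1 + (j - (x.1 + 1)) = i + j by omega] at h4
          exact h4
    · intro h
      refine ⟨fun j hj s => ?_, fun s => ?_, fun j hj s => ?_⟩
      · have h4 := h j (by omega) s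
        rwa [if_pos hj] at h4
      · have h4 := h x.1 (by omega) s
        rwa [if_neg (lt_irrefl _), if_pos rfl] at h4
      · have h4 := h (x.1 + 1 + j) (by omega) s
        rw [if_neg (by omega), if_neg (by omega), show x.1 + 1 + j - (x.1 + 1) = j by omega] at h4
        rw [← h4]
        congr 1
        omega

/-- the weight of a list -/
noncomputable def wt (x : σ → ℝ) (l : List (ℕ × σ)) : ℝ :=
  (l.map (fun y => Real.exp (-((∑ s, x s) * (y.1 + 1))) * x y.2)).prod

lemma wt_nonneg (x : σ → ℝ) (hx : ∀ s, 0 ≤ x s) (l : List (ℕ × σ)) : 0 ≤ wt x l := by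
  unfold wt
  apply List.prod_nonneg
  intro a ha
  rw [List.mem_map] at ha
  obtain ⟨y, _, rfl⟩ := ha
  have := hx y.2
  positivity

/-- the weight is the Poisson probability of the configuration -/
lemma wt_conf (x : σ → ℝ) : ∀ l : List (ℕ × σ),
    ∏ i ∈ range (tot l), ∏ s, (Real.exp (-x s) * x s ^ conf l i s / ((conf l i s).factorial : ℝ)) = wt x l := by
  intro l
  induction l with
  | nil => simp [tot, wt]
  | cons y l ih =>
    have e1 : wt x (y :: l) = Real.exp (-((∑ s, x s) * (y.1 + 1))) * x y.2 * wt x l := by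
      unfold wt
      rw [List.map_cons, List.prod_cons]
    rw [e1, ← ih]
    change ∏ i ∈ range (y.1 + 1 + tot l), _ = _
    rw [Finset.prod_range_add, Finset.prod_range_succ]
    have h0 : ∏ i ∈ range y.1, ∏ s, (Real.exp (-x s) * x s ^ conf (y :: l) i s /
        ((conf (y :: l) i s).factorial : ℝ)) = Real.exp (-((∑ s, x s) * y.1)) := by
      have h1 : ∀ i ∈ range y.1, ∏ s, (Real.exp (-x s) * x s ^ conf (y :: l) i s /
          ((conf (y :: l) i s).factorial : ℝ)) = Real.exp (-∑ s, x s) := by
        intro i hi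
        rw [mem_range] at hi
        rw [← Finset.sum_neg_distrib, Real.exp_sum]
        apply Finset.prod_congr rfl
        intro s _
        unfold conf
        rw [if_pos hi]
        simp
      rw [Finset.prod_congr rfl h1, Finset.prod_const, card_range, ← Real.exp_nat_mul]
      congr 1
      ring
    have h2 : ∏ s, (Real.exp (-x s) * x s ^ conf (y :: l) y.1 s / ((conf (y :: l) y.1 s).factorial : ℝ)) =
        Real.exp (-∑ s, x s) * x y.2 := by
      have h3 : ∀ s, Real.exp (-x s) * x s ^ conf (y :: l) y.1 s / ((conf (y :: l) y.1 s).factorial : ℝ) =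
          Real.exp (-x s) * (if s = y.2 then x s else 1) := by
        intro s
        unfold conf
        rw [if_neg (lt_irrefl _), if_pos rfl]
        split_ifs <;> simp
      rw [Finset.prod_congr rfl (fun s _ => h3 s), Finset.prod_mul_distrib, ← Finset.sum_neg_distrib,
        Real.exp_sum, Finset.prod_ite_eq']
      simp
    have h3 : ∀ i s, conf (y :: l) (y.1 + 1 + i) s = conf l i s := by
      intro i s
      change (if y.1 + 1 + i < y.1 then 0 else if y.1 + 1 + i = y.1 then (if s = y.2 then 1 else 0)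
        else conf l (y.1 + 1 + i - (y.1 + 1)) s) = _
      rw [if_neg (by omega), if_neg (by omega), show y.1 + 1 + i - (y.1 + 1) = i by omega]
    rw [h0, h2]
    simp only [h3]
    rw [show -((∑ s, x s) * ((y.1 : ℝ) + 1)) = -((∑ s, x s) * y.1) + -∑ s, x s by ring, Real.exp_add]
    ring

/-- the list of the empty cells and marks -/
def lst {J : ℕ} (d : Fin J → ℕ) (w : Fin J → σ) : List (ℕ × σ) := List.ofFn (fun l => (d l, w l))

omit [Fintype σ] [DecidableEq σ] in
lemma lst_inj {J : ℕ} (d d' : Fin J → ℕ) (w w' : Fin J → σ) (h : lst d w = lst d' w') : d = d' ∧ w = w' := by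
  have h1 := List.ofFn_injective h
  constructor
  · funext l
    exact congrArg Prod.fst (congrFun h1 l)
  · funext l
    exact congrArg Prod.snd (congrFun h1 l)

omit [Fintype σ] [DecidableEq σ] in
lemma lst_length {J : ℕ} (d : Fin J → ℕ) (w : Fin J → σ) : (lst d w).length = J := by
  unfold lst
  rw [List.length_ofFn]

lemma wt_lst {J : ℕ} (x : σ → ℝ) (d : Fin J → ℕ) (w : Fin J → σ) :
    wt x (lst d w) = ∏ l, (Real.exp (-((∑ s, x s) * (d l + 1))) * x (w l)) := by
  unfold wt lst
  rw [List.map_ofFn, List.prod_ofFn]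
  rfl

lemma sum_wt {J : ℕ} (x : σ → ℝ) (w : Fin J → σ) (I : Fin J → Finset ℕ) :
    ∑ d ∈ Fintype.piFinset I, wt x (lst d w) =
      ∏ l, (x (w l) * ∑ d ∈ I l, Real.exp (-((∑ s, x s) * ((d : ℝ) + 1)))) := by
  have h1 : ∀ l : Fin J, x (w l) * ∑ d ∈ I l, Real.exp (-((∑ s, x s) * ((d : ℝ) + 1))) =
      ∑ d ∈ I l, (Real.exp (-((∑ s, x s) * ((d : ℝ) + 1))) * x (w l)) := by
    intro l
    rw [Finset.mul_sum]
    exact Finset.sum_congr rfl fun d _ => mul_comm _ _
  rw [Finset.prod_congr rfl (fun l _ => h1 l), Finset.prod_univ_sum]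
  exact Finset.sum_congr rfl fun d _ => wt_lst x d w

/-- telescoping bounds -/
lemma geo_lo (y : ℝ) (hy : 0 ≤ y) (hy1 : y ≤ 1) (D N : ℕ) (h : D ≤ N) :
    (1 - y) * (Real.exp (-(y * D)) - Real.exp (-(y * N))) ≤ y * ∑ d ∈ Ico D N, Real.exp (-(y * ((d : ℝ) + 1))) := by
  induction N, h using Nat.le_induction with
  | base => simp
  | succ N hN ih =>
    rw [Finset.sum_Ico_succ_top hN, mul_add]
    push_cast
    have h1 : Real.exp (-(y * ((N : ℝ) + 1))) = Real.exp (-(y * N)) * Real.exp (-y) := by
      rw [← Real.exp_add]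
      congr 1
      ring
    have h2 : 1 - y ≤ Real.exp (-y) := by
      have := Real.add_one_le_exp (-y)
      linarith
    have h3 : 0 < Real.exp (-(y * N)) := Real.exp_pos _
    rw [h1]
    have h4 : (1 - y) * (Real.exp (-(y * N)) - Real.exp (-(y * N)) * Real.exp (-y)) ≤
        y * (Real.exp (-(y * N)) * Real.exp (-y)) := by
      have h5 : (1 - y) * (1 - Real.exp (-y)) ≤ y * Real.exp (-y) := by nlinarith
      calc (1 - y) * (Real.exp (-(y * N)) - Real.exp (-(y * N)) * Real.exp (-y)) =
          Real.exp (-(y * N)) * ((1 - y) * (1 - Real.exp (-y))) := by ring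
        _ ≤ Real.exp (-(y * N)) * (y * Real.exp (-y)) := mul_le_mul_of_nonneg_left h5 h3.le
        _ = _ := by ring
    linarith

lemma geo_up (y : ℝ) (hy : 0 ≤ y) (D N : ℕ) :
    y * ∑ d ∈ Ico D N, Real.exp (-(y * ((d : ℝ) + 1))) ≤ Real.exp (-(y * D)) := by
  rcases le_total N D with h | h
  · rw [Finset.Ico_eq_empty (by omega), Finset.sum_empty, mul_zero]
    positivity
  · have : y * ∑ d ∈ Ico D N, Real.exp (-(y * ((d : ℝ) + 1))) ≤ Real.exp (-(y * D)) - Real.exp (-(y * N)) := by
      induction N, h using Nat.le_induction with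
      | base => simp
      | succ N hN ih =>
        rw [Finset.sum_Ico_succ_top hN, mul_add]
        push_cast
        have h1 : Real.exp (-(y * ((N : ℝ) + 1))) = Real.exp (-(y * N)) * Real.exp (-y) := by
          rw [← Real.exp_add]
          congr 1
          ring
        have h3 : 0 < Real.exp (-(y * N)) := Real.exp_pos _
        rw [h1]
        have h4 : y * Real.exp (-y) ≤ 1 - Real.exp (-y) := by
          have h5 := Real.add_one_le_exp y
          have h6 : Real.exp (-y) * Real.exp y = 1 := by rw [← Real.exp_add]; simp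
          have h7 : 0 < Real.exp (-y) := Real.exp_pos _
          nlinarith
        nlinarith
    have h2 : 0 < Real.exp (-(y * N)) := Real.exp_pos _
    linarith

open Classical in
/-- **The law of the gaps and marks of the next points**, from the law of single configurations. -/
theorem marks_law (J N : ℕ) (Om : Finset ℕ) (c : ℕ → ℕ → σ → ℕ) (x : σ → ℝ) (hx : ∀ s, 0 ≤ x s)
    (y : ℝ) (hy : ∑ s, x s = y) (hy0 : 0 < y) (hy1 : y ≤ 1) (e : ℝ)
    (hEv : ∀ (d : Fin J → ℕ) (w : Fin J → σ), (∀ l, d l < N) →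
      |((Om.filter (fun n => Ev (c n) 0 (lst d w))).card : ℝ) - Om.card * wt x (lst d w)| ≤ e * Om.card)
    (Ch : ℕ → Prop) (w : Fin J → σ) (Dm Dp : Fin J → ℕ) (hDp : ∀ l, Dp l ≤ N)
    (hlow : ∀ n ∈ Om, ∀ d : Fin J → ℕ, (∀ l, Dp l ≤ d l) → (∀ l, d l < N) → Ev (c n) 0 (lst d w) → Ch n)
    (hup : ∀ n ∈ Om, ∀ (d : Fin J → ℕ) (w' : Fin J → σ), (∀ l, d l < N) → (w' ≠ w ∨ ∃ l, d l < Dm l) →
      Ev (c n) 0 (lst d w') → ¬ Ch n) :
    Om.card * (∏ l, (x (w l) / y * ((1 - y) * (Real.exp (-(y * Dp l)) - Real.exp (-(y * N)))))) -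
        e * N ^ J * Om.card ≤ (Om.filter Ch).card ∧
      ((Om.filter Ch).card : ℝ) ≤ Om.card * (1 - ((1 - y) * (1 - Real.exp (-(y * N)))) ^ J) +
        Om.card * ∏ l, (x (w l) / y * Real.exp (-(y * Dm l))) +
        2 * e * (N * Fintype.card σ + N) ^ J * Om.card := by
  obtain ⟨cE, hcE⟩ : ∃ cE : (Fin J → ℕ) → (Fin J → σ) → Finset ℕ,
    cE = fun d w => Om.filter (fun n => Ev (c n) 0 (lst d w)) := ⟨_, rfl⟩
  have hdis : ∀ d w d' w', (d ≠ d' ∨ w ≠ w') → Disjoint (cE d w) (cE d' w') := by
    intro d w d' w' h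
    rw [hcE, Finset.disjoint_left]
    intro n hn hn'
    simp only [mem_filter] at hn hn'
    have h1 := Ev_unique (c n) _ _ 0 (by rw [lst_length, lst_length]) hn.2 hn'.2
    obtain ⟨h2, h3⟩ := lst_inj d d' w w' h1
    rcases h with h | h
    · exact h h2
    · exact h h3
  have hOm0 : (0 : ℝ) ≤ Om.card := Nat.cast_nonneg _
  have hcl : ∀ d w, (∀ l, d l < N) → Om.card * wt x (lst d w) - e * Om.card ≤ (cE d w).card := by
    intro d w hd
    have := (abs_le.1 (hEv d w hd)).1
    rw [hcE]
    simp only
    linarith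
  have hcu : ∀ d w, (∀ l, d l < N) → ((cE d w).card : ℝ) ≤ Om.card * wt x (lst d w) + e * Om.card := by
    intro d w hd
    have := (abs_le.1 (hEv d w hd)).2
    rw [hcE]
    simp only
    linarith
  have he0 : 0 ≤ e * Om.card ∨ J = 0 ∨ N = 0 := by
    by_cases hJ : J = 0
    · exact Or.inr (Or.inl hJ)
    by_cases hN : N = 0
    · exact Or.inr (Or.inr hN)
    left
    exact (abs_nonneg _).trans (hEv (fun _ => 0) w (fun _ => by omega))
  have hpiI : ∀ (I : Fin J → Finset ℕ) (d : Fin J → ℕ), (∀ l, I l ⊆ range N) → d ∈ Fintype.piFinset I →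
      ∀ l, d l < N := by
    intro I d hI hd l
    rw [Fintype.mem_piFinset] at hd
    exact mem_range.1 (hI l (hd l))
  have hcardI : ∀ (I : Fin J → Finset ℕ), (∀ l, I l ⊆ range N) → (Fintype.piFinset I).card ≤ N ^ J := by
    intro I hI
    rw [Fintype.card_piFinset]
    calc ∏ l, (I l).card ≤ ∏ _l : Fin J, N := Finset.prod_le_prod' fun l _ => by
          have := card_le_card (hI l)
          rwa [card_range] at this
      _ = N ^ J := by rw [Finset.prod_const, card_univ, Fintype.card_fin]
  -- the sums of the weights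
  have hsw : ∀ (I : Fin J → Finset ℕ) (w : Fin J → σ), ∑ d ∈ Fintype.piFinset I, wt x (lst d w) =
      ∏ l, (x (w l) / y * (y * ∑ d ∈ I l, Real.exp (-(y * ((d : ℝ) + 1))))) := by
    intro I w
    rw [sum_wt, hy]
    apply Finset.prod_congr rfl
    intro l _
    field_simp
  -- the sign of the error term
  have heN : ∀ (M : ℕ) (c1 : ℝ), (M : ℝ) ≤ c1 → (J = 0 → M ≤ 1) → (J ≠ 0 → N = 0 → M = 0) → 0 ≤ e →
      (M : ℝ) * (e * Om.card) ≤ c1 * (e * Om.card) := by
    intro M c1 h1 _ _ h4
    exact mul_le_mul_of_nonneg_right h1 (by positivity)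
  have he : 0 ≤ e ∨ Om.card = 0 ∨ (J ≠ 0 ∧ N = 0) := by
    by_cases hOm : Om.card = 0
    · exact Or.inr (Or.inl hOm)
    · by_cases hJN : J ≠ 0 ∧ N = 0
      · exact Or.inr (Or.inr hJN)
      · left
        have hpos : (0 : ℝ) < Om.card := by exact_mod_cast Nat.pos_of_ne_zero hOm
        have h1 := (abs_nonneg _).trans (hEv (fun _ => 0) w (fun l => by
          by_contra hN
          have hJ : J ≠ 0 := fun hJ => by subst hJ; exact l.elim0
          exact hJN ⟨hJ, by omega⟩))
        by_contra hneg
        rw [not_le] at hneg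
        have : e * Om.card < 0 := mul_neg_of_neg_of_pos hneg hpos
        linarith
  constructor
  · -- the lower bound
    obtain ⟨I, hI⟩ : ∃ I : Fin J → Finset ℕ, I = fun l => Ico (Dp l) N := ⟨_, rfl⟩
    have hIN : ∀ l, I l ⊆ range N := by
      intro l d hd
      rw [hI, mem_Ico] at hd
      exact mem_range.2 hd.2
    have h1 : (Fintype.piFinset I).biUnion (fun d => cE d w) ⊆ Om.filter Ch := by
      intro n hn
      rw [mem_biUnion] at hn
      obtain ⟨d, hd, hn⟩ := hn
      rw [hcE] at hn
      simp only [mem_filter] at hn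
      have hdN := hpiI I d hIN hd
      rw [Fintype.mem_piFinset] at hd
      rw [mem_filter]
      refine ⟨hn.1, hlow n hn.1 d (fun l => ?_) hdN hn.2⟩
      have := hd l
      rw [hI, mem_Ico] at this
      exact this.1
    have h2 := card_le_card h1
    rw [card_biUnion (fun d _ d' _ hdd => hdis d w d' w (Or.inl hdd))] at h2
    have h3 : (∑ d ∈ Fintype.piFinset I, ((cE d w).card : ℝ)) ≤ (Om.filter Ch).card := by exact_mod_cast h2
    refine le_trans ?_ h3
    have h4 : Om.card * (∑ d ∈ Fintype.piFinset I, wt x (lst d w)) - (Fintype.piFinset I).card * (e * Om.card) ≤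
        ∑ d ∈ Fintype.piFinset I, ((cE d w).card : ℝ) := by
      have h5 := Finset.sum_le_sum fun d (hd : d ∈ Fintype.piFinset I) => hcl d w (hpiI I d hIN hd)
      rw [Finset.sum_sub_distrib, ← Finset.mul_sum, Finset.sum_const, nsmul_eq_mul] at h5
      exact h5
    refine le_trans ?_ h4
    have h6 : ∏ l, (x (w l) / y * ((1 - y) * (Real.exp (-(y * Dp l)) - Real.exp (-(y * N))))) ≤
        ∑ d ∈ Fintype.piFinset I, wt x (lst d w) := by
      rw [hsw I w]
      apply Finset.prod_le_prod
      · intro l _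
        apply mul_nonneg (div_nonneg (hx _) hy0.le)
        apply mul_nonneg (by linarith)
        have : Real.exp (-(y * N)) ≤ Real.exp (-(y * Dp l)) := by
          apply Real.exp_le_exp.2
          have : (Dp l : ℝ) ≤ N := by exact_mod_cast hDp l
          nlinarith
        linarith
      · intro l _
        apply mul_le_mul_of_nonneg_left _ (div_nonneg (hx _) hy0.le)
        rw [hI]
        exact geo_lo y hy0.le hy1 (Dp l) N (hDp l)
    have h7 : ((Fintype.piFinset I).card : ℝ) * (e * Om.card) ≤ e * N ^ J * Om.card := by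
      have h8 : ((Fintype.piFinset I).card : ℝ) ≤ (N : ℝ) ^ J := by exact_mod_cast hcardI I hIN
      rcases he with he | he | ⟨hJ, hN⟩
      · calc ((Fintype.piFinset I).card : ℝ) * (e * Om.card) ≤ (N : ℝ) ^ J * (e * Om.card) :=
              mul_le_mul_of_nonneg_right h8 (by positivity)
          _ = _ := by ring
      · rw [he]
        simp
      · have h9 : (Fintype.piFinset I).card = 0 := by
          have := hcardI I hIN
          rw [hN, zero_pow hJ] at this
          omega
        rw [h9, hN]
        push_cast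
        rw [zero_pow hJ]
        simp
    have h8 := mul_le_mul_of_nonneg_left h6 hOm0
    linarith
  · -- the upper bound
    obtain ⟨I0, hI0⟩ : ∃ I0 : Fin J → Finset ℕ, I0 = fun _ => Ico 0 N := ⟨_, rfl⟩
    have hI0N : ∀ l, I0 l ⊆ range N := by
      intro l d hd
      rw [hI0, mem_Ico] at hd
      exact mem_range.2 hd.2
    obtain ⟨I1, hI1⟩ : ∃ I1 : Fin J → Finset ℕ, I1 = fun l => Ico (Dm l) N := ⟨_, rfl⟩
    have hI1N : ∀ l, I1 l ⊆ range N := by
      intro l d hd
      rw [hI1, mem_Ico] at hd
      exact mem_range.2 hd.2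
    obtain ⟨P, hP⟩ : ∃ P : Finset ((Fin J → ℕ) × (Fin J → σ)), P = Fintype.piFinset I0 ×ˢ univ := ⟨_, rfl⟩
    obtain ⟨P1, hP1⟩ : ∃ P1 : Finset ((Fin J → ℕ) × (Fin J → σ)), P1 = Fintype.piFinset I1 ×ˢ {w} := ⟨_, rfl⟩
    have hP1P : P1 ⊆ P := by
      intro z hz
      rw [hP1, mem_product, Fintype.mem_piFinset] at hz
      rw [hP, mem_product, Fintype.mem_piFinset]
      refine ⟨fun l => ?_, mem_univ _⟩
      have := hz.1 l
      rw [hI1, mem_Ico] at this
      rw [hI0, mem_Ico]
      omega
    -- the union of the bad events is disjoint from `Ch`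
    have h1 : Disjoint ((P \ P1).biUnion (fun z => cE z.1 z.2)) (Om.filter Ch) := by
      rw [Finset.disjoint_left]
      intro n hn hn'
      rw [mem_biUnion] at hn
      obtain ⟨z, hz, hn⟩ := hn
      rw [hcE] at hn
      simp only [mem_filter] at hn hn'
      rw [Finset.mem_sdiff, hP, hP1, mem_product, mem_product, mem_singleton] at hz
      have hdN := hpiI I0 z.1 hI0N hz.1.1
      refine hup n hn.1 z.1 z.2 hdN ?_ hn.2 hn'.2
      by_contra hcon
      push Not at hcon
      apply hz.2
      refine ⟨?_, hcon.1⟩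
      rw [Fintype.mem_piFinset]
      intro l
      rw [hI1, mem_Ico]
      exact ⟨hcon.2 l, hdN l⟩
    have h2 : ((P \ P1).biUnion (fun z => cE z.1 z.2)).card + (Om.filter Ch).card ≤ Om.card := by
      rw [← card_union_of_disjoint h1]
      apply card_le_card
      intro n hn
      rw [mem_union, mem_biUnion] at hn
      rcases hn with ⟨z, _, hn⟩ | hn
      · rw [hcE] at hn
        exact (mem_filter.1 hn).1
      · exact (mem_filter.1 hn).1
    rw [card_biUnion (fun z _ z' _ hzz => hdis z.1 z.2 z'.1 z'.2 (by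
      by_contra hcon
      push Not at hcon
      exact hzz (Prod.ext hcon.1 hcon.2)))] at h2
    have h3 : (∑ z ∈ P \ P1, ((cE z.1 z.2).card : ℝ)) + (Om.filter Ch).card ≤ Om.card := by exact_mod_cast h2
    have h4 : ∑ z ∈ P \ P1, ((cE z.1 z.2).card : ℝ) =
        ∑ z ∈ P, ((cE z.1 z.2).card : ℝ) - ∑ z ∈ P1, ((cE z.1 z.2).card : ℝ) := by
      rw [← Finset.sum_sdiff hP1P]
      ring
    have h5 : Om.card * ((1 - y) * (1 - Real.exp (-(y * N)))) ^ J - P.card * (e * Om.card) ≤
        ∑ z ∈ P, ((cE z.1 z.2).card : ℝ) := by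
      have h6 := Finset.sum_le_sum fun z (hz : z ∈ P) => hcl z.1 z.2 (by
        rw [hP, mem_product] at hz
        exact hpiI I0 z.1 hI0N hz.1)
      rw [Finset.sum_sub_distrib, ← Finset.mul_sum, Finset.sum_const, nsmul_eq_mul] at h6
      refine le_trans ?_ h6
      have h7 : ((1 - y) * (1 - Real.exp (-(y * N)))) ^ J ≤ ∑ z ∈ P, wt x (lst z.1 z.2) := by
        rw [hP, Finset.sum_product_right]
        have h8 : ∑ w : Fin J → σ, ∑ d ∈ Fintype.piFinset I0, wt x (lst d w) =
            ∏ _l : Fin J, ∑ s, (x s / y * (y * ∑ d ∈ Ico 0 N, Real.exp (-(y * ((d : ℝ) + 1))))) := by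
          rw [Finset.prod_univ_sum]
          rw [Fintype.piFinset_univ]
          apply Finset.sum_congr rfl
          intro w _
          rw [hsw I0 w, hI0]
        rw [h8, Finset.prod_const, card_univ, Fintype.card_fin]
        have h9 : ∑ s, (x s / y * (y * ∑ d ∈ Ico 0 N, Real.exp (-(y * ((d : ℝ) + 1))))) =
            y * ∑ d ∈ Ico 0 N, Real.exp (-(y * ((d : ℝ) + 1))) := by
          rw [← Finset.sum_mul, ← Finset.sum_div, hy, div_self hy0.ne', one_mul]
        rw [h9]
        apply pow_le_pow_left₀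
        · apply mul_nonneg (by linarith)
          have : Real.exp (-(y * N)) ≤ 1 := by
            rw [Real.exp_le_one_iff]
            have : (0 : ℝ) ≤ y * N := by positivity
            linarith
          linarith
        · have := geo_lo y hy0.le hy1 0 N (Nat.zero_le _)
          simpa using this
      have h8 := mul_le_mul_of_nonneg_left h7 hOm0
      linarith
    have h6 : ∑ z ∈ P1, ((cE z.1 z.2).card : ℝ) ≤
        Om.card * ∏ l, (x (w l) / y * Real.exp (-(y * Dm l))) + P1.card * (e * Om.card) := by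
      have h7 := Finset.sum_le_sum fun z (hz : z ∈ P1) => hcu z.1 z.2 (by
        rw [hP1, mem_product] at hz
        exact hpiI I1 z.1 hI1N hz.1)
      rw [Finset.sum_add_distrib, ← Finset.mul_sum, Finset.sum_const, nsmul_eq_mul] at h7
      refine h7.trans ?_
      have h8 : ∑ z ∈ P1, wt x (lst z.1 z.2) ≤ ∏ l, (x (w l) / y * Real.exp (-(y * Dm l))) := by
        rw [hP1, Finset.sum_product_right, Finset.sum_singleton, hsw I1 w]
        apply Finset.prod_le_prod
        · intro l _
          apply mul_nonneg (div_nonneg (hx _) hy0.le)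
          apply mul_nonneg hy0.le
          exact Finset.sum_nonneg fun _ _ => (Real.exp_pos _).le
        · intro l _
          apply mul_le_mul_of_nonneg_left _ (div_nonneg (hx _) hy0.le)
          rw [hI1]
          exact geo_up y hy0.le (Dm l) N
      have h9 := mul_le_mul_of_nonneg_left h8 hOm0
      linarith
    have h7 : ((P.card : ℝ) + P1.card) * (e * Om.card) ≤ 2 * e * (N * Fintype.card σ + N) ^ J * Om.card := by
      have hPc : P.card ≤ (N * Fintype.card σ + N) ^ J := by
        rw [hP, card_product, card_univ, Fintype.card_fun, Fintype.card_fin]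
        calc (Fintype.piFinset I0).card * Fintype.card σ ^ J ≤ N ^ J * Fintype.card σ ^ J :=
              Nat.mul_le_mul_right _ (hcardI I0 hI0N)
          _ = (N * Fintype.card σ) ^ J := by rw [mul_pow]
          _ ≤ _ := Nat.pow_le_pow_left (by omega) J
      have hPc1 : P1.card ≤ (N * Fintype.card σ + N) ^ J := by
        rw [hP1, card_product, card_singleton, mul_one]
        exact (hcardI I1 hI1N).trans (Nat.pow_le_pow_left (by nlinarith) J)
      have hPr : (P.card : ℝ) ≤ (N * Fintype.card σ + N) ^ J := by exact_mod_cast hPc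
      have hPr1 : (P1.card : ℝ) ≤ (N * Fintype.card σ + N) ^ J := by exact_mod_cast hPc1
      rcases he with he | he | ⟨hJ, hN⟩
      · calc ((P.card : ℝ) + P1.card) * (e * Om.card) ≤
            ((N * Fintype.card σ + N) ^ J + (N * Fintype.card σ + N) ^ J) * (e * Om.card) :=
              mul_le_mul_of_nonneg_right (by linarith) (by positivity)
          _ = _ := by ring
      · rw [he]
        simp
      · rw [hN] at hPc hPc1
        simp only [zero_mul, add_zero, zero_pow hJ] at hPc hPc1
        have h10 : P.card = 0 := by omega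
        have h11 : P1.card = 0 := by omega
        rw [h10, h11, hN]
        push_cast
        simp only [zero_mul, add_zero, zero_pow hJ]
        simp
    have h8 : ((P.card : ℝ) + P1.card) * (e * Om.card) = P.card * (e * Om.card) + P1.card * (e * Om.card) := by ring
    have h9 : (Om.card : ℝ) * (1 - ((1 - y) * (1 - Real.exp (-(y * N)))) ^ J) =
        Om.card - Om.card * ((1 - y) * (1 - Real.exp (-(y * N)))) ^ J := by ring
    rw [h9]
    linarith

end Pool.Agent.Q236.UL
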