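import Pool.Agent.Q236.UL.Gen2
import Pool.Agent.Q236.UL.Cells

set_option autoImplicit false

/-!
# The joint law of the cells, for shifted conditions with marks: few exceptional differences
-/

namespace Pool.Agent.Q236.UL

open Finset Filter Pool.Agent.H373R2.T7 Pool.Agent.W123.RP Pool.Agent.W123.RU Pool.Agent.TH464.PO
open Pool.Agent.TH464.PW Pool.Agent.Y879.AP Pool.Agent.Y879.GL Pool.Agent.Q236.GW
open Pool.Agent.Q236.CP Pool.Agent.Q236.ML

variable {σ : Type*} [Fintype σ] [DecidableEq σ]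

open Classical in
/-- **The joint law of the cells.** -/
theorem cells_law2 (N' c M : ℕ) (Λ ε : ℝ) (hΛ : 0 ≤ Λ) (hε : 0 < ε) (A δ θ : ℝ) (hA : 0 < A) (hδ : 0 < δ)
    (hθ : 0 < θ) : ∃ (w : ℕ) (κ : ℝ) (r0 : ℕ), 1 ≤ w ∧ 0 < κ ∧ 2 ≤ r0 ∧ ∀ r : ℕ, r0 ≤ r → ∀ Cv : ℝ, 0 < Cv →
      ∀ᶠ X : ℕ in atTop, ∀ (P0 : ℕ → ℕ → Prop) (Q : σ → ℕ → ℕ → Prop) (Xc : σ → σ → Finset ℕ) (S : Finset σ)
        (Δ Z Y : ℕ), PerB P0 c → (∀ t, PerB (Q t) c) → (∀ p : ℕ, p.Prime → nuB P0 p < p) →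
      (∀ t, ∀ p : ℕ, p.Prime → nuB (Q t) p < p) →
      (∀ t, Vq (Q t) ⌊(X : ℝ) ^ (1 / (r : ℝ))⌋₊ ≤ Cv / Real.log X) →
      (∀ t, ((N' * Δ : ℕ) : ℝ) * Vq (Q t) ⌊(X : ℝ) ^ (1 / (r : ℝ))⌋₊ ≤ Λ) →
      (∀ s t, (Xc s t).card ≤ M) → (∀ s, 0 ∉ Xc s s) →
      (∀ s t, ∃ g : ℝ, 0 ≤ g ∧ ((N' * Δ : ℕ) : ℝ) * g ≤ κ ∧ ∀ b b', Ex Xc (some (s, b), some (t, b')) →
        rh (Es P0 Q) none w ⌊(X : ℝ) ^ (1 / (r : ℝ))⌋₊ {some (s, b), some (t, b')} ≤ g) →
      RM P0 Q Xc ((X : ℝ) ^ A) ((X : ℝ) ^ δ) → (X : ℝ) ^ θ ≤ Y →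
      ∀ l : List (ℕ × σ), tot l ≤ N' →
        |(((OmY P0 ⌊(X : ℝ) ^ (1 / (r : ℝ))⌋₊ Z Y).filter
          (fun n => Ev (cnt Q S ⌊(X : ℝ) ^ (1 / (r : ℝ))⌋₊ Δ n) 0 l)).card : ℝ) -
          (OmY P0 ⌊(X : ℝ) ^ (1 / (r : ℝ))⌋₊ Z Y).card *
            wt (xc Q S ⌊(X : ℝ) ^ (1 / (r : ℝ))⌋₊ Δ) l| ≤
          ε * (OmY P0 ⌊(X : ℝ) ^ (1 / (r : ℝ))⌋₊ Z Y).card := by
  obtain ⟨w, κ, r0, hw, hκ, hr0, hlaw⟩ := gen_law2 (τ := Fin N' × σ) c M Λ ε hΛ hε A δ θ hA hδ hθ
  refine ⟨w, κ, r0, hw, hκ, hr0, ?_⟩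
  intro r hr Cv hCv
  filter_upwards [hlaw r hr Cv hCv] with X hX
  intro P0 Q Xc S Δ Z Y hP0 hQ hadm0 hadm hVup hNΛ hXM hX0 hrh hRM hXY l hl
  obtain ⟨y, hy⟩ : ∃ y, y = ⌊(X : ℝ) ^ (1 / (r : ℝ))⌋₊ := ⟨_, rfl⟩
  rw [← hy] at hVup hNΛ hrh ⊢
  have hcS : ∀ n i s, s ∉ S → cnt Q S y Δ n i s = 0 := by
    intro n i s hs
    unfold cnt
    rw [if_neg hs]
  by_cases hlS : ∀ z ∈ l, z.2 ∈ S
  swap
  · -- a mark outside `S`
    push Not at hlS
    have h1 : (OmY P0 y Z Y).filter (fun n => Ev (cnt Q S y Δ n) 0 l) = ∅ := by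
      apply Finset.filter_false_of_mem
      intro n _ hn
      obtain ⟨z, hz, hzS⟩ := hlS
      exact hzS (Ev_mark _ S (hcS n) l 0 hn z hz)
    have h2 : wt (xc Q S y Δ) l = 0 := wt_mark _ S (fun s hs => by unfold xc; rw [if_neg hs]) l hlS
    rw [h1, h2, card_empty]
    simp only [Nat.cast_zero, mul_zero, sub_zero, abs_zero]
    positivity
  obtain ⟨u, hu⟩ : ∃ u : Fin N' × σ → ℕ, u = fun t => if (t.1 : ℕ) < tot l ∧ t.2 ∈ S then t.1 * Δ else 0 :=
    ⟨_, rfl⟩
  obtain ⟨v, hv⟩ : ∃ v : Fin N' × σ → ℕ, v = fun t => if (t.1 : ℕ) < tot l ∧ t.2 ∈ S then (t.1 + 1) * Δ else 0 :=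
    ⟨_, rfl⟩
  have huv : ∀ t, u t ≤ v t := by
    intro t
    rw [hu, hv]
    simp only
    split_ifs
    · exact Nat.mul_le_mul_right _ (by omega)
    · exact le_rfl
  have hvN : ∀ t, v t ≤ N' * Δ := by
    intro t
    rw [hv]
    simp only
    split_ifs
    · exact Nat.mul_le_mul_right _ (by omega)
    · exact Nat.zero_le _
  have hvr : ∀ t, (v t : ℝ) ≤ ((N' * Δ : ℕ) : ℝ) := fun t => by exact_mod_cast hvN t
  have hdisj : ∀ s t : Fin N' × σ, s ≠ t → s.2 = t.2 → Disjoint (Ioc (u s) (v s)) (Ioc (u t) (v t)) := by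
    intro s t hst h2
    rw [Finset.disjoint_left]
    intro b hb hb'
    rw [hu, hv] at hb hb'
    simp only at hb hb'
    split_ifs at hb hb' with h3 h4 h4
    · rw [mem_Ioc] at hb hb'
      have h5 : (s.1 : ℕ) ≠ t.1 := fun h => hst (Prod.ext (Fin.ext h) h2)
      rcases lt_or_gt_of_ne h5 with h6 | h6
      · have := Nat.mul_le_mul_right Δ (show (s.1 : ℕ) + 1 ≤ t.1 by omega)
        omega
      · have := Nat.mul_le_mul_right Δ (show (t.1 : ℕ) + 1 ≤ s.1 by omega)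
        omega
    · simp at hb'
    · simp at hb
    · simp at hb
  have hEH : ∀ (s t : Fin N' × σ) b b', EH (Es P0 (fun t : Fin N' × σ => Q t.2)) (insert none {some (s, b), some (t, b')}) =
      EH (Es P0 Q) (insert none {some (s.2, b), some (t.2, b')}) := by
    intro s t b b'
    funext p n
    unfold EH
    apply propext
    simp [Es]
  -- the singleton
  obtain ⟨j0, hj0⟩ : ∃ j0 : Fin N' × σ → ℕ, j0 = fun t => if (t.1 : ℕ) < tot l then conf l t.1 t.2 else 0 :=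
    ⟨_, rfl⟩
  have hmain := hX P0 (fun t : Fin N' × σ => Q t.2) (fun a a' => Xc a.2 a'.2) u v Z Y hP0 (fun t => hQ t.2)
    hadm0 (fun t => hadm t.2) (fun t => by rw [← hy]; exact hVup t.2) huv (fun t => by
      rw [← hy]
      refine le_trans ?_ (hNΛ t.2)
      exact mul_le_mul_of_nonneg_right (hvr t) (Vq_nonneg _ _)) (fun s t => hXM _ _) (fun t => hX0 _)
    (fun s t => by
      obtain ⟨g, hg0, hg1, hg2⟩ := hrh s.2 t.2
      rw [← hy]
      refine ⟨g, hg0, Or.inl ((mul_le_mul_of_nonneg_right (hvr s) hg0).trans hg1), fun b b' he => ?_⟩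
      have h1 := hg2 b b' (by
        rw [ex_iff] at he ⊢
        refine ⟨fun h => ?_, he.2⟩
        rw [Prod.mk.injEq] at h
        rcases he.2 with h2 | h2
        · rw [h.1, h.2, Nat.sub_self] at h2
          exact hX0 _ h2.2
        · rw [h.1, h.2, Nat.sub_self] at h2
          exact hX0 _ h2.2)
      refine le_trans (le_of_eq ?_) h1
      unfold rh
      rw [hEH]
      rfl) ⟨fun t d h1 h2 => hRM.base t.2 d h1 h2, ?_⟩ hXY {j0}
  · -- the conclusion
    rw [← hy] at hmain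
    have e1 : (OmY P0 y Z Y).filter (fun n => Ev (cnt Q S y Δ n) 0 l) =
        (OmY P0 y Z Y).filter (fun n => (fun t : Fin N' × σ => NB (Q t.2) y (Ioc (u t) (v t)) n) ∈
          ({j0} : Finset (Fin N' × σ → ℕ))) := by
      apply Finset.filter_congr
      intro n _
      rw [mem_singleton, Ev_iff]
      constructor
      · intro h
        funext t
        rw [hu, hv, hj0]
        simp only
        by_cases h1 : (t.1 : ℕ) < tot l
        · rw [if_pos h1]
          have h2 := h t.1 h1 t.2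
          rw [Nat.zero_add] at h2
          by_cases h3 : t.2 ∈ S
          · rw [if_pos ⟨h1, h3⟩, if_pos ⟨h1, h3⟩]
            unfold cnt at h2
            rw [if_pos h3] at h2
            exact h2
          · rw [if_neg (fun h4 => h3 h4.2), if_neg (fun h4 => h3 h4.2), conf_zero S l hlS _ _ h3]
            unfold NB
            simp
        · rw [if_neg h1, if_neg (fun h4 => h1 h4.1), if_neg (fun h4 => h1 h4.1)]
          unfold NB
          simp
      · intro h j hj s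
        rw [Nat.zero_add]
        have h2 := congrFun h (⟨j, by omega⟩, s)
        rw [hu, hv, hj0] at h2
        simp only at h2
        rw [if_pos hj] at h2
        by_cases h3 : s ∈ S
        · rw [if_pos ⟨hj, h3⟩, if_pos ⟨hj, h3⟩] at h2
          unfold cnt
          rw [if_pos h3]
          exact h2
        · unfold cnt
          rw [if_neg h3, conf_zero S l hlS _ _ h3]
    have e2 : PoJ (fun t : Fin N' × σ => ((v t : ℝ) - u t) * Vq (Q t.2) y) {j0} = wt (xc Q S y Δ) l := by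
      unfold PoJ
      rw [Finset.sum_singleton, Fintype.prod_prod_type, ← wt_conf]
      have h1 : ∏ i : Fin N', ∏ s, (Real.exp (-(((v (i, s) : ℝ) - u (i, s)) * Vq (Q s) y)) *
          (((v (i, s) : ℝ) - u (i, s)) * Vq (Q s) y) ^ j0 (i, s) / ((j0 (i, s)).factorial : ℝ)) =
          ∏ i : Fin N', (fun i : ℕ => if i < tot l then ∏ s, (Real.exp (-xc Q S y Δ s) *
            xc Q S y Δ s ^ conf l i s / ((conf l i s).factorial : ℝ)) else 1) i := by
        apply Finset.prod_congr rfl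
        intro i _
        simp only
        split_ifs with h1
        · apply Finset.prod_congr rfl
          intro s _
          rw [hu, hv, hj0]
          simp only
          rw [if_pos h1]
          unfold xc
          by_cases h3 : s ∈ S
          · rw [if_pos ⟨h1, h3⟩, if_pos ⟨h1, h3⟩, if_pos h3]
            have : ((((i : ℕ) + 1) * Δ : ℕ) : ℝ) - (((i : ℕ) * Δ : ℕ) : ℝ) = Δ := by
              push_cast
              ring
            rw [this]
          · rw [if_neg (fun h4 => h3 h4.2), if_neg (fun h4 => h3 h4.2), if_neg h3]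
            simp
        · apply Finset.prod_eq_one
          intro s _
          rw [hu, hv, hj0]
          simp only
          rw [if_neg h1, if_neg (fun h4 => h1 h4.1), if_neg (fun h4 => h1 h4.1)]
          simp
      refine h1.trans ?_
      rw [Fin.prod_univ_eq_prod_range (fun i : ℕ => if i < tot l then ∏ s, (Real.exp (-xc Q S y Δ s) *
            xc Q S y Δ s ^ conf l i s / ((conf l i s).factorial : ℝ)) else 1) N']
      rw [← Finset.prod_subset (Finset.range_subset_range.2 hl) (fun i _ hi => by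
        rw [mem_range] at hi
        rw [if_neg hi])]
      apply Finset.prod_congr rfl
      intro i hi
      rw [mem_range] at hi
      rw [if_pos hi]
    rw [e2] at hmain
    rw [e1]
    exact hmain
  · intro s t d hd hdX hor
    refine hRM.pair s.2 t.2 d hd hdX ?_
    rcases hor with h1 | ⟨h1, h2⟩
    · exact Or.inl h1
    · right
      intro h3
      exact h2 (hdisj s t h1 h3)

end Pool.Agent.Q236.UL
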