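import Pool.Agent.Q236.UL.Mark

set_option autoImplicit false

/-!
# Consecutive elements of a set of integers, from the occupation of the cells
-/

namespace Pool.Agent.Q236.UL

open Finset

/-- `g'` is the next element of `S` after `g` -/
def Nx (S : ℕ → Prop) (g g' : ℕ) : Prop := g < g' ∧ S g' ∧ ∀ c, g < c → c < g' → ¬ S c

lemma Nx_unique {S : ℕ → Prop} {g a b : ℕ} (ha : Nx S g a) (hb : Nx S g b) : a = b := by
  rcases lt_trichotomy a b with h | h | h
  · exact absurd ha.2.1 (hb.2.2 a ha.1 h)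
  · exact h
  · exact absurd hb.2.1 (ha.2.2 b hb.1 h)

/-- the position in its cell and class -/
lemma code (q m0 t : ℕ) (hq : 1 ≤ q) (ht : m0 < t) : ∃ (b : ℕ) (s : Fin q), 1 ≤ b ∧ t + (s : ℕ) = m0 + q * b := by
  have h1 := Nat.div_add_mod (t - m0 - 1) q
  have h2 := Nat.mod_lt (t - m0 - 1) (by omega : 0 < q)
  refine ⟨(t - m0 - 1) / q + 1, ⟨q - 1 - (t - m0 - 1) % q, by omega⟩, Nat.le_add_left _ _, ?_⟩
  simp only
  rw [mul_add, mul_one]
  omega

open Classical in
/-- the trace of the occupation of the cells -/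
lemma trace (S : ℕ → Prop) (m0 q Δ : ℕ) (hq : 1 ≤ q) (c : ℕ → Fin q → ℕ)
    (hc : ∀ i s, c i s = ((Ioc (i * Δ) ((i + 1) * Δ)).filter (fun b => S (m0 + q * b - s))).card) :
    ∀ (l : List (ℕ × Fin q)) (i b m : ℕ), m ≤ m0 + q * b → m0 + q * b < m + q → b ≤ i * Δ → i * Δ ≤ b + Δ →
      (∀ t, m < t → S t → m0 + q * (i * Δ) < t) → Ev c i l → ∃ g : ℕ → ℕ, g 0 = m ∧ ∀ (j : ℕ) (hj : j < l.length),
        Nx S (g j) (g (j + 1)) ∧ (∃ b', g (j + 1) + ((l[j]).2 : ℕ) = m0 + q * b') ∧
        g j + q * ((l[j]).1 * Δ) < g (j + 1) ∧ g (j + 1) ≤ g j + (q * (((l[j]).1 + 2) * Δ) + q) := by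
  intro l
  induction l with
  | nil =>
    intro i b m _ _ _ _ _ _
    exact ⟨fun _ => m, rfl, fun j hj => absurd hj (Nat.not_lt_zero _)⟩
  | cons x l ih =>
    intro i b m hm1 hm2 hb1 hb2 hinv hEv
    obtain ⟨h1, h2, h3⟩ := hEv
    -- the new point
    have h4 := h2 x.2
    rw [if_pos rfl, hc, card_eq_one] at h4
    obtain ⟨b', hb'⟩ := h4
    have hb'm : b' ∈ (Ioc ((i + x.1) * Δ) ((i + x.1 + 1) * Δ)).filter (fun b => S (m0 + q * b - x.2)) := by
      rw [hb']
      exact mem_singleton_self _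
    rw [mem_filter, mem_Ioc] at hb'm
    obtain ⟨⟨hb'1, hb'2⟩, hb'S⟩ := hb'm
    obtain ⟨m', hm'⟩ : ∃ m', m' = m0 + q * b' - x.2 := ⟨_, rfl⟩
    rw [← hm'] at hb'S
    have hxq := x.2.isLt
    have hb'0 : 1 ≤ b' := by omega
    have hqb' : q ≤ q * b' := Nat.le_mul_of_pos_right q hb'0
    have hm'e : m' + (x.2 : ℕ) = m0 + q * b' := by omega
    have e1 : (i + x.1) * Δ = i * Δ + x.1 * Δ := by ring
    have e2 : (i + x.1 + 1) * Δ = i * Δ + x.1 * Δ + Δ := by ring
    have e3 : (x.1 + 2) * Δ = x.1 * Δ + Δ + Δ := by ring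
    rw [e1] at hb'1
    rw [e2] at hb'2
    have hlow : m + q * (x.1 * Δ) < m' := by
      have h5 : q * (b + x.1 * Δ + 1) ≤ q * b' := Nat.mul_le_mul_left q (by omega)
      have h6 : q * (b + x.1 * Δ + 1) = q * b + q * (x.1 * Δ) + q := by ring
      omega
    have hupp : m' ≤ m + (q * ((x.1 + 2) * Δ) + q) := by
      have h5 : q * b' ≤ q * (b + (x.1 + 2) * Δ) := Nat.mul_le_mul_left q (by omega)
      have h6 : q * (b + (x.1 + 2) * Δ) = q * b + q * ((x.1 + 2) * Δ) := by ring
      omega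
    have hcell : ∀ t, m < t → S t → t ≤ m0 + q * ((i + x.1 + 1) * Δ) → t = m' := by
      intro t ht1 ht2 ht3
      have ht4 := hinv t ht1 ht2
      obtain ⟨bt, st, hbt, hcode⟩ := code q m0 t hq (by omega)
      have hst := st.isLt
      have hbt1 : i * Δ < bt := by
        by_contra hcon
        have := Nat.mul_le_mul_left q (not_lt.1 hcon)
        omega
      have hbt2 : bt ≤ (i + x.1 + 1) * Δ := by
        by_contra hcon
        have h5 : q * ((i + x.1 + 1) * Δ + 1) ≤ q * bt := Nat.mul_le_mul_left q (by omega)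
        rw [mul_add, mul_one] at h5
        omega
      have hSt : S (m0 + q * bt - st) := by
        rw [← hcode, Nat.add_sub_cancel]
        exact ht2
      -- the cell of `t`
      by_cases hlast : (i + x.1) * Δ < bt
      · have h5 : bt ∈ (Ioc ((i + x.1) * Δ) ((i + x.1 + 1) * Δ)).filter (fun b => S (m0 + q * b - st)) := by
          rw [mem_filter, mem_Ioc]
          exact ⟨⟨hlast, hbt2⟩, hSt⟩
        have h6 := h2 st
        rw [hc] at h6
        by_cases hs : st = x.2
        · rw [hs, hb'] at h5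
          rw [mem_singleton] at h5
          rw [hs, h5] at hcode
          omega
        · rw [if_neg hs, card_eq_zero] at h6
          rw [h6] at h5
          exact absurd h5 (notMem_empty _)
      · rw [not_lt, e1] at hlast
        exfalso
        -- the cell index
        have hΔ : 1 ≤ Δ := by
          by_contra hcon
          have : Δ = 0 := by omega
          subst this
          simp at hbt2
          omega
        obtain ⟨k, hk⟩ : ∃ k, k = (bt - i * Δ - 1) / Δ := ⟨_, rfl⟩
        have h5 := Nat.div_add_mod (bt - i * Δ - 1) Δ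
        have h6 := Nat.mod_lt (bt - i * Δ - 1) (by omega : 0 < Δ)
        rw [← hk] at h5
        have e4 : (i + k) * Δ = i * Δ + Δ * k := by ring
        have e5 : (i + k + 1) * Δ = i * Δ + Δ * k + Δ := by ring
        have hkx : k < x.1 := by
          by_contra hcon
          have h7 : Δ * x.1 ≤ Δ * k := Nat.mul_le_mul_left Δ (not_lt.1 hcon)
          have h8 : Δ * x.1 = x.1 * Δ := mul_comm _ _
          omega
        have h7 : bt ∈ (Ioc ((i + k) * Δ) ((i + k + 1) * Δ)).filter (fun b => S (m0 + q * b - st)) := by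
          rw [mem_filter, mem_Ioc, e4, e5]
          exact ⟨⟨by omega, by omega⟩, hSt⟩
        have h8 := h1 k hkx st
        rw [hc, card_eq_zero] at h8
        rw [h8] at h7
        exact absurd h7 (notMem_empty _)
    have hm'0 : m < m' := by omega
    have hm'cell : m' ≤ m0 + q * ((i + x.1 + 1) * Δ) := by
      have := Nat.mul_le_mul_left q hb'2
      rw [← e2] at this
      omega
    have hNx : Nx S m m' := by
      refine ⟨hm'0, hb'S, ?_⟩
      intro t ht1 ht2 ht3
      have := hcell t ht1 ht3 (by omega)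
      omega
    obtain ⟨g, hg0, hg⟩ := ih (i + x.1 + 1) b' m' (by omega) (by omega) (by rw [e2]; omega) (by rw [e2]; omega)
      (by
        intro t ht1 ht2
        by_contra hcon
        have := hcell t (by omega) ht2 (by omega)
        omega) h3
    refine ⟨fun j => if j = 0 then m else g (j - 1), by simp, ?_⟩
    intro j hj
    rcases j with _ | j
    · simp only [if_true, Nat.zero_add, one_ne_zero, if_false, Nat.sub_self, List.getElem_cons_zero]
      rw [hg0]
      exact ⟨hNx, ⟨b', hm'e⟩, hlow, hupp⟩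
    · have h5 := hg j (by simpa using hj)
      simp only [Nat.add_one_ne_zero, if_false, Nat.add_sub_cancel, List.getElem_cons_succ]
      exact h5

/-- the next elements of `S` after `m` exist, lie in the prescribed classes modulo `q`, and the gaps are larger than
prescribed -/
def Follow (S : ℕ → Prop) (q : ℕ) {J : ℕ} (a T : Fin J → ℕ) (m : ℕ) : Prop :=
  ∃ g : ℕ → ℕ, g 0 = m ∧ ∀ j : Fin J, Nx S (g j) (g (j + 1)) ∧ g (j + 1) ≡ a j [MOD q] ∧ g j + T j < g (j + 1)

open Classical in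
/-- from the cells to the classes and gaps -/
lemma follow_low (S : ℕ → Prop) (q Δ m0 : ℕ) (hq : 1 ≤ q) (c : ℕ → Fin q → ℕ) 
    (hc : ∀ i s, c i s = ((Ioc (i * Δ) ((i + 1) * Δ)).filter (fun b => S (m0 + q * b - s))).card)
    {J : ℕ} (a T : Fin J → ℕ) (w : Fin J → Fin q) (hw : ∀ j, a j + (w j : ℕ) ≡ m0 [MOD q])
    (d : Fin J → ℕ) (hd : ∀ j, T j ≤ q * (d j * Δ)) (hEv : Ev c 0 (lst d w)) : Follow S q a T m0 := by
  obtain ⟨g, hg0, hg⟩ := trace S m0 q Δ hq c hc (lst d w) 0 0 m0 (by simp) (by simp; omega) (by simp) (by simp)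
    (by intro t ht _; simpa using ht) hEv
  refine ⟨g, hg0, ?_⟩
  intro j
  obtain ⟨h1, ⟨b', h2⟩, h3, _⟩ := hg j (by rw [lst_length]; exact j.isLt)
  have e : (lst d w)[(j : ℕ)]'(by rw [lst_length]; exact j.isLt) = (d j, w j) := by
    unfold lst
    rw [List.getElem_ofFn]
  rw [e] at h2 h3
  refine ⟨h1, ?_, ?_⟩
  · have h4 : g (j + 1) + (w j : ℕ) ≡ a j + (w j : ℕ) [MOD q] := by
      refine Nat.ModEq.trans ?_ (hw j).symm
      have h5 : g (j + 1) + (w j : ℕ) = m0 + q * b' := h2
      rw [h5]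
      unfold Nat.ModEq
      simp
    exact Nat.ModEq.add_right_cancel' _ h4
  · have := hd j
    simp only at h3
    omega

open Classical in
lemma follow_up (S : ℕ → Prop) (q Δ m0 : ℕ) (hq : 1 ≤ q) (c : ℕ → Fin q → ℕ) 
    (hc : ∀ i s, c i s = ((Ioc (i * Δ) ((i + 1) * Δ)).filter (fun b => S (m0 + q * b - s))).card)
    {J : ℕ} (a T : Fin J → ℕ) (w w' : Fin J → Fin q) (hw : ∀ j, a j + (w j : ℕ) ≡ m0 [MOD q])
    (d : Fin J → ℕ) (hd : w' ≠ w ∨ ∃ j, q * ((d j + 2) * Δ) + q ≤ T j) (hEv : Ev c 0 (lst d w')) :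
    ¬ Follow S q a T m0 := by
  rintro ⟨g', hg'0, hg'⟩
  obtain ⟨g, hg0, hg⟩ := trace S m0 q Δ hq c hc (lst d w') 0 0 m0 (by simp) (by simp; omega) (by simp) (by simp)
    (by intro t ht _; simpa using ht) hEv
  have hgg : ∀ j : ℕ, j ≤ J → g j = g' j := by
    intro j
    induction j with
    | zero =>
      intro _
      rw [hg0, hg'0]
    | succ j ih =>
      intro hj
      have h1 := (hg j (by rw [lst_length]; omega)).1
      have h2 := (hg' ⟨j, by omega⟩).1
      rw [ih (by omega)] at h1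
      exact Nx_unique h1 h2
  have hall : ∀ j : Fin J, w' j = w j ∧ T j < q * ((d j + 2) * Δ) + q := by
    intro j
    obtain ⟨h1, ⟨b', h2⟩, _, h4⟩ := hg j (by rw [lst_length]; exact j.isLt)
    obtain ⟨k1, k2, k3⟩ := hg' j
    have e : (lst d w')[(j : ℕ)]'(by rw [lst_length]; exact j.isLt) = (d j, w' j) := by
      unfold lst
      rw [List.getElem_ofFn]
    rw [e] at h2 h4
    simp only at h2 h4
    rw [← hgg j j.isLt.le, ← hgg (j + 1) j.isLt] at k3
    rw [← hgg (j + 1) j.isLt] at k2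
    constructor
    · have h5 : a j + (w' j : ℕ) ≡ m0 [MOD q] := by
        refine Nat.ModEq.trans (Nat.ModEq.add_right _ k2.symm) ?_
        rw [h2]
        unfold Nat.ModEq
        simp
      have h6 : a j + (w' j : ℕ) ≡ a j + (w j : ℕ) [MOD q] := h5.trans (hw j).symm
      have h7 := Nat.ModEq.add_left_cancel' _ h6
      apply Fin.ext
      unfold Nat.ModEq at h7
      rwa [Nat.mod_eq_of_lt (w' j).isLt, Nat.mod_eq_of_lt (w j).isLt] at h7
    · omega
  rcases hd with h | ⟨j, hj⟩
  · exact h (funext fun j => (hall j).1)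
  · have := (hall j).2
    omega

end Pool.Agent.Q236.UL
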