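import Pool.Agent.Q236.UL.Sys
import Pool.Agent.Q236.UL.Cells
import Pool.Agent.Q236.UL.Trace

set_option autoImplicit false

/-!
# Systems of polynomials in residue classes
-/

namespace Pool.Agent.Q236.UL

open Polynomial Finset Filter
open Pool.Agent.W123.RP Pool.Agent.H373R2.T7 Pool.Agent.W123.RU Pool.Agent.W123.RU.Poly
open Pool.Agent.TH464.PW Pool.Agent.TH464.PO Pool.Agent.Y879.GL Pool.Agent.Q236.CP Pool.Agent.Q236.GW

variable {k : ℕ}

/-- the sieve conditions for the values of the polynomials at `q n + e`, at the primes not dividing `q` -/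
def QL (F : Fin k → ℤ[X]) (q : ℕ) (e : ℤ) (p n : ℕ) : Prop := ¬ p ∣ q ∧ ∃ i, (p : ℤ) ∣ (F i).eval ((q : ℤ) * n + e)

lemma dvd_eval_congr (f : ℤ[X]) (p : ℕ) (a b : ℤ) (h : (p : ℤ) ∣ a - b) :
    (p : ℤ) ∣ f.eval a ↔ (p : ℤ) ∣ f.eval b := by
  have h1 : (p : ℤ) ∣ f.eval a - f.eval b := h.trans (Polynomial.sub_dvd_eval_sub a b f)
  exact (dvd_iff_dvd_of_dvd_sub h1)

lemma QL_per (F : Fin k → ℤ[X]) (q : ℕ) (e : ℤ) (p n : ℕ) : QL F q e p n ↔ QL F q e p (n % p) := by
  unfold QL
  apply and_congr_right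
  intro _
  apply exists_congr
  intro i
  apply dvd_eval_congr
  have h1 : (q : ℤ) * n + e - ((q : ℤ) * ((n % p : ℕ) : ℤ) + e) = q * ((n : ℤ) - ((n % p : ℕ) : ℤ)) := by ring
  rw [h1]
  apply Dvd.dvd.mul_left
  have h2 := Nat.div_add_mod n p
  refine ⟨(n / p : ℕ), ?_⟩
  have h3 : ((p * (n / p) + n % p : ℕ) : ℤ) = n := by exact_mod_cast h2
  push_cast at h3 ⊢
  linarith

lemma QL_Q (F : Fin k → ℤ[X]) (q : ℕ) (e : ℤ) (p n m : ℕ) (hm : (m : ℤ) = q * n + e) :
    QL F q e p n ↔ ¬ p ∣ q ∧ Q F p m := by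
  unfold QL Q
  rw [hm]

open Classical in
lemma card_zmod (p : ℕ) [NeZero p] (R : ZMod p → Prop) :
    ((range p).filter (fun n : ℕ => R (n : ZMod p))).card = (univ.filter R).card := by
  apply Finset.card_bij (fun (n : ℕ) _ => (n : ZMod p))
  · intro n hn
    rw [mem_filter] at hn ⊢
    exact ⟨mem_univ _, hn.2⟩
  · intro a ha b hb hab
    rw [mem_filter, mem_range] at ha hb
    rw [ZMod.natCast_eq_natCast_iff'] at hab
    rwa [Nat.mod_eq_of_lt ha.1, Nat.mod_eq_of_lt hb.1] at hab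
  · intro z hz
    rw [mem_filter] at hz
    refine ⟨z.val, ?_, ZMod.natCast_zmod_val z⟩
    rw [mem_filter, mem_range, ZMod.natCast_zmod_val]
    exact ⟨ZMod.val_lt z, hz.2⟩

lemma dvd_eval_zmod (f : ℤ[X]) (p : ℕ) (a : ℤ) :
    (p : ℤ) ∣ f.eval a ↔ (f.map (Int.castRingHom (ZMod p))).eval (a : ZMod p) = 0 := by
  have h1 := eval_intCast_map (Int.castRingHom (ZMod p)) f a
  rw [h1, eq_intCast, ZMod.intCast_zmod_eq_zero_iff_dvd, Int.cast_id]

open Classical in
lemma nuB_QL (F : Fin k → ℤ[X]) (q : ℕ) (e : ℤ) (p : ℕ) (hp : p.Prime) :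
    nuB (QL F q e) p = if p ∣ q then 0 else nuB (Q F) p := by
  split_ifs with h
  · unfold nuB
    rw [card_eq_zero]
    apply Finset.filter_false_of_mem
    intro n _ hn
    exact hn.1 h
  · have : NeZero p := ⟨hp.ne_zero⟩
    have : Fact p.Prime := ⟨hp⟩
    obtain ⟨R, hR⟩ : ∃ R : ZMod p → Prop, R = fun z => ∃ i, ((F i).map (Int.castRingHom (ZMod p))).eval z = 0 :=
      ⟨_, rfl⟩
    have h1 : nuB (Q F) p = (univ.filter R).card := by
      rw [← card_zmod]
      unfold nuB
      congr 1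
      ext n
      rw [mem_filter, mem_filter]
      apply and_congr_right
      intro _
      unfold Q
      rw [hR]
      apply exists_congr
      intro i
      rw [dvd_eval_zmod]
      push_cast
      rfl
    have h2 : nuB (QL F q e) p = (univ.filter (fun z => R (q * z + e))).card := by
      rw [← card_zmod]
      unfold nuB
      congr 1
      ext n
      rw [mem_filter, mem_filter]
      apply and_congr_right
      intro _
      unfold QL
      rw [hR]
      constructor
      · rintro ⟨_, i, hi⟩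
        refine ⟨i, ?_⟩
        rw [dvd_eval_zmod] at hi
        push_cast at hi
        exact hi
      · rintro ⟨i, hi⟩
        refine ⟨h, i, ?_⟩
        rw [dvd_eval_zmod]
        push_cast
        exact hi
    rw [h1, h2]
    have hq : (q : ZMod p) ≠ 0 := by
      intro h3
      exact h ((ZMod.natCast_eq_zero_iff _ _).1 h3)
    apply Finset.card_bij (fun z _ => (q : ZMod p) * z + e)
    · intro z hz
      rw [mem_filter] at hz ⊢
      exact ⟨mem_univ _, hz.2⟩
    · intro a _ b _ hab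
      have := add_right_cancel hab
      exact mul_left_cancel₀ hq this
    · intro z hz
      rw [mem_filter] at hz
      refine ⟨(q : ZMod p)⁻¹ * (z - e), ?_, ?_⟩
      · rw [mem_filter]
        refine ⟨mem_univ _, ?_⟩
        rw [mul_inv_cancel_left₀ hq, sub_add_cancel]
        exact hz.2
      · rw [mul_inv_cancel_left₀ hq, sub_add_cancel]

lemma perB_QL (F : Fin k → ℤ[X]) (c : ℕ) (hF : PerB (Q F) c) (q : ℕ) (e : ℤ) : PerB (QL F q e) c := by
  refine ⟨QL_per F q e, ?_⟩
  intro p hp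
  rw [nuB_QL F q e p hp]
  split_ifs
  · exact Nat.zero_le _
  · exact hF.few p hp

lemma adm_QL (F : Fin k → ℤ[X]) (hF : ∀ p : ℕ, p.Prime → nuB (Q F) p < p) (q : ℕ) (e : ℤ) (p : ℕ)
    (hp : p.Prime) : nuB (QL F q e) p < p := by
  rw [nuB_QL F q e p hp]
  split_ifs
  · exact hp.pos
  · exact hF p hp

/-- the density of the numbers in a class -/
lemma Vq_QL (F : Fin k → ℤ[X]) (q : ℕ) (e e' : ℤ) (y : ℕ) : Vq (QL F q e) y = Vq (QL F q e') y := by
  unfold Vq
  apply Finset.prod_congr rfl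
  intro p hp
  rw [nuB_QL F q e p (mem_pz.1 hp).2, nuB_QL F q e' p (mem_pz.1 hp).2]

/-- the condition at the primes dividing `q` -/
def QR (F : Fin k → ℤ[X]) (q : ℕ) (p n : ℕ) : Prop := p ∣ q ∧ Q F p n

/-- the admissible classes -/
def AC (F : Fin k → ℤ[X]) (q a : ℕ) : Prop := ∀ p : ℕ, p.Prime → p ∣ q → ¬ Q F p a

open Classical in
/-- the number of the admissible classes -/
noncomputable def gq (F : Fin k → ℤ[X]) (q : ℕ) : ℕ := ((range q).filter (fun a => AC F q a)).card

lemma AC_iff (F : Fin k → ℤ[X]) (q y a : ℕ) (hq : 1 ≤ q) (hqy : q ≤ y) : AC F q a ↔ Sf (QR F q) y a := by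
  constructor
  · rintro h p hp ⟨h1, h2⟩
    exact h p (mem_pz.1 hp).2 h1 h2
  · intro h p hp hpq h2
    exact h p (mem_pz.2 ⟨(Nat.le_of_dvd hq hpq).trans hqy, hp⟩) ⟨hpq, h2⟩

lemma AC_periodic (F : Fin k → ℤ[X]) (q : ℕ) : Function.Periodic (fun a => AC F q a) q := by
  intro a
  apply propext
  unfold AC
  apply forall_congr'
  intro p
  apply forall_congr'
  intro _
  apply forall_congr'
  intro hpq
  apply not_congr
  unfold Q
  apply exists_congr
  intro i
  apply dvd_eval_congr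
  push_cast
  have : (a : ℤ) + q - a = q := by ring
  rw [this]
  exact_mod_cast hpq

lemma perB_QR (F : Fin k → ℤ[X]) (c : ℕ) (hF : PerB (Q F) c) (q : ℕ) : PerB (QR F q) c := by
  refine ⟨fun p n => ?_, ?_⟩
  · unfold QR
    rw [hF.per p n]
  · intro p hp
    classical
    refine le_trans ?_ (hF.few p hp)
    unfold nuB
    apply card_le_card
    intro n hn
    rw [mem_filter] at hn ⊢
    exact ⟨hn.1, hn.2.2⟩

open Classical in
/-- the number of the admissible classes and the densities -/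
lemma gq_eq (F : Fin k → ℤ[X]) (c : ℕ) (hF : PerB (Q F) c) (q y : ℕ) (e : ℤ) (hq : 1 ≤ q) (hqy : q ≤ y) :
    (q : ℝ) * Vq (Q F) y = gq F q * Vq (QL F q e) y := by
  have hex := exact (QR F q) c (perB_QR F c hF q) y
  have hper : Function.Periodic (fun a => Sf (QR F q) y a) q := by
    intro a
    apply propext
    have := AC_periodic F q a
    simp only at this
    change Sf (QR F q) y (a + q) ↔ Sf (QR F q) y a
    rw [← AC_iff F q y a hq hqy, ← AC_iff F q y (a + q) hq hqy, this]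
  have h1 := count_mul (fun a => Sf (QR F q) y a) (Mw y) (sf_periodic (QR F q) c (perB_QR F c hF q) y) 0 q
  have h2 := count_mul (fun a => Sf (QR F q) y a) q hper 0 (Mw y)
  rw [mul_comm (Mw y) q] at h1
  rw [h1] at h2
  have h3 : gq F q = ((range q).filter (fun a => Sf (QR F q) y a)).card := by
    unfold gq
    congr 1
    apply Finset.filter_congr
    intro a _
    exact AC_iff F q y a hq hqy
  rw [← h3] at h2
  have hM : (0 : ℝ) < Mw y := by exact_mod_cast Mw_pos y
  have h4 : (q : ℝ) * (Mw y * Vq (QR F q) y) = Mw y * gq F q := by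
    rw [← hex]
    exact_mod_cast h2
  have h5 : (q : ℝ) * Vq (QR F q) y = gq F q := by
    have h6 : (Mw y : ℝ) * ((q : ℝ) * Vq (QR F q) y) = Mw y * gq F q := by linarith
    exact mul_left_cancel₀ hM.ne' h6
  rw [← h5, mul_assoc]
  congr 1
  unfold Vq
  rw [← Finset.prod_mul_distrib]
  apply Finset.prod_congr rfl
  intro p hp
  have hpp := (mem_pz.1 hp).2
  rw [nuB_QL F q e p hpp]
  by_cases h : p ∣ q
  · have h6 : nuB (QR F q) p = nuB (Q F) p := by
      unfold nuB
      congr 1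
      ext n
      rw [mem_filter, mem_filter]
      unfold QR
      tauto
    rw [if_pos h, h6]
    simp
  · have h6 : nuB (QR F q) p = 0 := by
      unfold nuB
      rw [card_eq_zero]
      apply Finset.filter_false_of_mem
      intro n _ hn
      exact h hn.1
    rw [if_neg h, h6]
    simp

/-- good numbers in a class -/
lemma sf_QL (F : Fin k → ℤ[X]) (q : ℕ) (e : ℤ) (y n m : ℕ) (hm : (m : ℤ) = q * n + e) (hq : 1 ≤ q) (hqy : q ≤ y)
    (a : ℤ) (ha : (q : ℤ) ∣ e - a) (hadm : ∀ p : ℕ, p.Prime → p ∣ q → ∀ i, ¬ (p : ℤ) ∣ (F i).eval a) :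
    Sf (QL F q e) y n ↔ Sf (Q F) y m := by
  constructor
  · rintro h p hp ⟨i, hi⟩
    by_cases hpq : p ∣ q
    · have h1 : (p : ℤ) ∣ (m : ℤ) - a := by
        rw [hm]
        have h2 : (q : ℤ) * n + e - a = q * n + (e - a) := by ring
        rw [h2]
        have hpq' : (p : ℤ) ∣ q := by exact_mod_cast hpq
        exact dvd_add (hpq'.mul_right _) (hpq'.trans ha)
      exact hadm p (mem_pz.1 hp).2 hpq i ((dvd_eval_congr (F i) p m a h1).1 hi)
    · exact h p hp ((QL_Q F q e p n m hm).2 ⟨hpq, i, hi⟩)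
  · intro h p hp h1
    exact h p hp ((QL_Q F q e p n m hm).1 h1).2

end Pool.Agent.Q236.UL
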