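import Pool.Agent.Q236.UL.ClsLaw

set_option autoImplicit false

/-!
# Gaps and residue classes of consecutive almost prime points: the numbers
-/

namespace Pool.Agent.Q236.UL

open Finset Filter
open Pool.Agent.W123.RP Pool.Agent.H373R2.T7 Pool.Agent.W123.RU Pool.Agent.W123.RU.Poly
open Pool.Agent.TH464.PW Pool.Agent.TH464.PO Pool.Agent.Y879.GL Pool.Agent.Q236.CP Pool.Agent.Q236.GW

/-- the arguments in a class -/
lemma class_interval (q a0 Z Y : ℕ) (hq : 1 ≤ q) (ha0 : a0 < q) (hY : 2 * q ≤ Y) :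
    ∃ Z' Y' : ℕ, q * Y' ≤ Y + 2 * q ∧ Y ≤ q * Y' + 2 * q ∧
      (∀ n, n ∈ Ioc Z' (Z' + Y') → q * n + a0 ∈ Ioc Z (Z + Y)) ∧
      (∀ m, m ∈ Ioc Z (Z + Y) → m ≡ a0 [MOD q] → m ≠ a0 → ∃ n ∈ Ioc Z' (Z' + Y'), m = q * n + a0) := by
  obtain ⟨Z1, hZ1⟩ : ∃ Z1, Z1 = (Z - a0) / q := ⟨_, rfl⟩
  obtain ⟨Z2, hZ2⟩ : ∃ Z2, Z2 = (Z + Y - a0) / q := ⟨_, rfl⟩
  have h1 : q * Z1 ≤ Z - a0 := by rw [hZ1]; exact Nat.mul_div_le _ _
  have h2 : Z - a0 < q * Z1 + q := by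
    rw [hZ1]
    have := Nat.lt_mul_div_succ (Z - a0) (by omega : 0 < q)
    rwa [mul_add, mul_one] at this
  have h3 : q * Z2 ≤ Z + Y - a0 := by rw [hZ2]; exact Nat.mul_div_le _ _
  have h4 : Z + Y - a0 < q * Z2 + q := by
    rw [hZ2]
    have := Nat.lt_mul_div_succ (Z + Y - a0) (by omega : 0 < q)
    rwa [mul_add, mul_one] at this
  have hZZ : Z1 ≤ Z2 := by
    rw [hZ1, hZ2]
    exact Nat.div_le_div_right (by omega)
  have h5 : q * (Z2 - Z1) = q * Z2 - q * Z1 := Nat.mul_sub q Z2 Z1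
  have h6 : q * Z1 ≤ q * Z2 := Nat.mul_le_mul_left q hZZ
  refine ⟨Z1, Z2 - Z1, by omega, by omega, ?_, ?_⟩
  · intro n hn
    rw [mem_Ioc] at hn ⊢
    have h7 : q * (Z1 + 1) ≤ q * n := Nat.mul_le_mul_left q (by omega)
    have h8 : q * n ≤ q * Z2 := Nat.mul_le_mul_left q (by omega)
    rw [mul_add, mul_one] at h7
    omega
  · intro m hm hmod hne
    rw [mem_Ioc] at hm
    have hma : a0 ≤ m := by
      by_contra hcon
      unfold Nat.ModEq at hmod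
      rw [Nat.mod_eq_of_lt (by omega : m < q), Nat.mod_eq_of_lt ha0] at hmod
      exact hne hmod
    have hd : q ∣ m - a0 := (Nat.modEq_iff_dvd' hma).1 hmod.symm
    obtain ⟨n, hn⟩ := hd
    refine ⟨n, ?_, by omega⟩
    rw [mem_Ioc]
    have hn0 : n ≠ 0 := by
      intro h
      rw [h, mul_zero] at hn
      omega
    constructor
    · by_contra hcon
      have h7 : q * n ≤ q * Z1 := Nat.mul_le_mul_left q (by omega)
      have h8 : q * 1 ≤ q * n := Nat.mul_le_mul_left q (by omega)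
      omega
    · by_contra hcon
      have h7 : q * (Z2 + 1) ≤ q * n := Nat.mul_le_mul_left q (by omega)
      rw [mul_add, mul_one] at h7
      omega

/-- the sizes -/
lemma final_num (e q sY YV B W P sq' N1 N2 gJ : ℝ) (he : 0 < e) (he1 : e ≤ 1) (hq : 1 ≤ q) (hsY : 1 ≤ sY)
    (hsmall : (16 + 8 * q) * sY ≤ e * YV) (hB0 : 0 ≤ B) (hB : B ≤ YV) (hP : |P - B| ≤ 2 * q)
    (hW : |W - P| ≤ e * P + sq') (hsq : sq' ≤ 2 * sY) (hN : |N1 - W * gJ| ≤ e * W) (hN12 : N1 ≤ N2)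
    (hN21 : N2 ≤ N1 + 1) (hg0 : 0 ≤ gJ) (hg1 : gJ ≤ 1) : |N2 - B * gJ| ≤ 16 * e * YV := by
  have hP' := abs_le.1 hP
  have hW' := abs_le.1 hW
  have hqs : q ≤ q * sY := le_mul_of_one_le_right (by linarith) hsY
  have h8 : 16 * sY + 8 * (q * sY) ≤ e * YV := by linarith [hsmall]
  have hYV : 0 ≤ YV := hB0.trans hB
  have heYV : e * YV ≤ YV := mul_le_of_le_one_left hYV he1
  have hPup : P ≤ YV + 2 * q := by linarith [hP'.2]
  have h1 : e * P ≤ e * YV + 2 * q := by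
    have h2 : e * P ≤ e * (YV + 2 * q) := mul_le_mul_of_nonneg_left hPup he.le
    have h3 : e * (2 * q) ≤ 1 * (2 * q) := mul_le_mul_of_nonneg_right he1 (by linarith)
    linarith
  have hWB : |W - B| ≤ 3 * e * YV := by
    rw [abs_le]
    constructor
    · linarith [hP'.1, hW'.1]
    · linarith [hP'.2, hW'.2]
  have hWup : W ≤ 4 * YV := by
    have h2 := (abs_le.1 hWB).2
    have h3 : 3 * e * YV = 3 * (e * YV) := by ring
    linarith
  have e2 : N2 - B * gJ = (N1 - W * gJ) + (N2 - N1) + (W - B) * gJ := by ring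
  rw [e2]
  have h3 : |(W - B) * gJ| ≤ 3 * e * YV := by
    rw [abs_mul, abs_of_nonneg hg0]
    calc |W - B| * gJ ≤ |W - B| * 1 := mul_le_mul_of_nonneg_left hg1 (abs_nonneg _)
      _ ≤ _ := by rw [mul_one]; exact hWB
  have h4 : |N2 - N1| ≤ 1 := by
    rw [abs_le]
    constructor <;> linarith
  have h5 : e * W ≤ e * (4 * YV) := mul_le_mul_of_nonneg_left hWup he.le
  have h6 := abs_add_le ((N1 - W * gJ) + (N2 - N1)) ((W - B) * gJ)
  have h7 := abs_add_le (N1 - W * gJ) (N2 - N1)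
  have h9 : 3 * e * YV = 3 * (e * YV) := by ring
  have h10 : 16 * e * YV = 16 * (e * YV) := by ring
  have h11 : e * (4 * YV) = 4 * (e * YV) := by ring
  have h12 : 0 ≤ e * YV := by positivity
  linarith

open Classical in
/-- **Gaps and residue classes of consecutive almost prime points.** -/
theorem cls_abs (k D q J : ℕ) (hq : 1 ≤ q) (Λ ε : ℝ) (hΛ : 0 ≤ Λ) (hε : 0 < ε) (E η θ : ℝ) (hE : 0 < E)
    (hη : 0 < η) (hθ : 0 < θ) : ∃ r0 : ℕ, 2 ≤ r0 ∧ ∀ r : ℕ, r0 ≤ r → ∀ Cv : ℝ, 0 < Cv → ∀ᶠ X : ℕ in atTop,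
      ∀ F : Fin k → Polynomial ℤ, US k D ((X : ℝ) ^ E) ((X : ℝ) ^ η) F → Vq (Q F) X ≤ Cv / Real.log X →
      ∀ a0 : ℕ, a0 < q → AC F q a0 → ∀ a T : Fin J → ℕ, (∀ j, AC F q (a j)) →
      (∀ j, T j * Vq (Q F) ⌊(X : ℝ) ^ (1 / (r : ℝ))⌋₊ ≤ Λ) → ∀ Z Y : ℕ, (X : ℝ) ^ θ ≤ Y →
      |(((Ioc Z (Z + Y)).filter (fun m => Sf (Q F) ⌊(X : ℝ) ^ (1 / (r : ℝ))⌋₊ m ∧ m ≡ a0 [MOD q] ∧
          Follow (Sf (Q F) ⌊(X : ℝ) ^ (1 / (r : ℝ))⌋₊) q a T m)).card : ℝ) -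
        Y * Vq (Q F) ⌊(X : ℝ) ^ (1 / (r : ℝ))⌋₊ *
          (Real.exp (-∑ j, T j * Vq (Q F) ⌊(X : ℝ) ^ (1 / (r : ℝ))⌋₊) / (gq F q : ℝ) ^ (J + 1))| ≤
        ε * (Y * Vq (Q F) ⌊(X : ℝ) ^ (1 / (r : ℝ))⌋₊) := by
  obtain ⟨ε1, hε1⟩ : ∃ ε1 : ℝ, ε1 = min 1 (ε / 16) := ⟨_, rfl⟩
  have hε10 : 0 < ε1 := by rw [hε1]; positivity
  have hε11 : ε1 ≤ 1 := by rw [hε1]; exact min_le_left _ _
  have hε12 : ε1 ≤ ε / 16 := by rw [hε1]; exact min_le_right _ _
  have hqr : (1 : ℝ) ≤ q := by exact_mod_cast hq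
  obtain ⟨r0, hr0, hlaw⟩ := cls_rel k D q J hq Λ ε1 hΛ hε10 E η (θ / 2) hE hη (by positivity)
  obtain ⟨K0, x0, hK0, hfund⟩ := fund_OmY (k * D + 1) (by omega) ε1 hε10
  obtain ⟨v0, hv0, hV⟩ := V_lower_unif (k * D + 1)
  obtain ⟨R1, hR1⟩ : ∃ R1 : ℕ, (K0 : ℝ) / (θ / 2) ≤ R1 := exists_nat_ge _
  refine ⟨max r0 R1, hr0.trans (le_max_left _ _), ?_⟩
  intro r hr Cv hCv
  have hr0' : r0 ≤ r := (le_max_left _ _).trans hr
  have hr2 : 2 ≤ r := hr0.trans hr0'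
  have hrpos : (0 : ℝ) < r := by exact_mod_cast (by omega : 0 < r)
  have hrK : (K0 : ℝ) ≤ θ / 2 * r := by
    have h1 : (K0 : ℝ) / (θ / 2) ≤ r := hR1.trans (by exact_mod_cast (le_max_right _ _).trans hr)
    rw [div_le_iff₀ (by positivity)] at h1
    linarith
  have hpow : Tendsto (fun X : ℕ => (X : ℝ) ^ (1 / (2 * r : ℝ))) atTop atTop :=
    (tendsto_rpow_atTop (by positivity)).comp tendsto_natCast_atTop_atTop
  have hpowθ : Tendsto (fun X : ℕ => (X : ℝ) ^ (θ / 2)) atTop atTop :=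
    (tendsto_rpow_atTop (by positivity)).comp tendsto_natCast_atTop_atTop
  obtain ⟨G, hG⟩ : ∃ G : ℝ, G = (16 + 8 * q) / (ε1 * v0) := ⟨_, rfl⟩
  have hG0 : 0 < G := by rw [hG]; positivity
  filter_upwards [hlaw r hr0' Cv hCv, hpow.eventually_ge_atTop ((q : ℝ) + x0 + 3),
    hpowθ.eventually_ge_atTop (4 * (q : ℝ) + 2), eventually_ge_atTop 16,
    logpow_rpow (k * D + 1) G (θ / 2) hG0 (by positivity)] with X hX hpw hpwθ hX16 hlogp
  intro F hF hVX a0 ha0 hAC0 a T hACa hT Z Y hXY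
  have hXr : (16 : ℝ) ≤ X := by exact_mod_cast hX16
  have hXpos : (0 : ℝ) < X := by linarith
  have hX1 : (1 : ℝ) ≤ X := by linarith
  obtain ⟨y, hy⟩ : ∃ y, y = ⌊(X : ℝ) ^ (1 / (r : ℝ))⌋₊ := ⟨_, rfl⟩
  obtain ⟨hy1, hy2, hy3, _⟩ := level_low r hr2 X (by omega) (by
    have : (0 : ℝ) ≤ q := by positivity
    have : (0 : ℝ) ≤ x0 := by positivity
    linarith)
  rw [← hy] at hy1 hy2 hy3
  have hqy : q ≤ y := by
    have : (0 : ℝ) ≤ x0 := by positivity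
    have : (q : ℝ) ≤ y := by linarith
    exact_mod_cast this
  have hx0y : x0 ≤ y := by
    have : (0 : ℝ) ≤ q := by positivity
    have : (x0 : ℝ) ≤ y := by linarith
    exact_mod_cast this
  have hy2' : 2 ≤ y := by
    have h1 : (0 : ℝ) ≤ q := by positivity
    have h2 : (0 : ℝ) ≤ x0 := by positivity
    have : (2 : ℝ) ≤ y := by linarith
    exact_mod_cast this
  have hlogy : 0 < Real.log y := Real.log_pos (by exact_mod_cast (by omega : 1 < y))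
  have hper := us_perB hF
  have hadm := us_adm hF
  have hVlow : v0 / Real.log X ^ (k * D + 1) ≤ Vq (Q F) y := by
    refine le_trans ?_ (hV (Q F) hper hadm y hy2')
    apply div_le_div_of_nonneg_left hv0.le (by positivity)
    exact pow_le_pow_left₀ hlogy.le hy3 _
  have hrel := hX F hF hVX a0 ha0 hAC0 a T hACa hT
  rw [← hy] at hrel hT ⊢
  obtain ⟨V, hVe⟩ : ∃ V, V = Vq (Q F) y := ⟨_, rfl⟩
  obtain ⟨VL, hVL⟩ : ∃ VL, VL = Vq (QL F q a0) y := ⟨_, rfl⟩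
  have hV0 : 0 < V := by rw [hVe]; exact Vq_pos _ hadm y
  have hV1 : V ≤ 1 := by rw [hVe]; exact Vq_le_one' _ _
  have hVL0 : 0 < VL := by rw [hVL]; exact Vq_pos _ (adm_QL F hadm q a0) y
  have hg : (q : ℝ) * V = gq F q * VL := by
    rw [hVe, hVL]
    exact gq_eq F _ hper q y a0 hq hqy
  have hg1 : 1 ≤ gq F q := by
    unfold gq
    exact card_pos.2 ⟨a0, by rw [mem_filter, mem_range]; exact ⟨ha0, hAC0⟩⟩
  have hg1r : (1 : ℝ) ≤ gq F q := by exact_mod_cast hg1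
  -- the interval
  have hθ2 : (X : ℝ) ^ θ = (X : ℝ) ^ (θ / 2) * (X : ℝ) ^ (θ / 2) := by
    rw [← Real.rpow_add hXpos]
    congr 1
    ring
  have hYbig : (4 * (q : ℝ) + 2) * (X : ℝ) ^ (θ / 2) ≤ Y := by
    refine le_trans ?_ hXY
    rw [hθ2]
    exact mul_le_mul_of_nonneg_right hpwθ (by positivity)
  have hXθ1 : 1 ≤ (X : ℝ) ^ (θ / 2) := by linarith
  have hY2q : 4 * q ≤ Y := by
    have : (4 : ℝ) * q ≤ Y := by nlinarith
    exact_mod_cast this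
  obtain ⟨Z', Y', i1, i2, i3, i4⟩ := class_interval q a0 Z Y hq ha0 (by omega)
  have i1r : (q : ℝ) * Y' ≤ Y + 2 * q := by exact_mod_cast i1
  have i2r : (Y : ℝ) ≤ q * Y' + 2 * q := by exact_mod_cast i2
  have hY'low : (X : ℝ) ^ (θ / 2) ≤ Y' := by
    have h1 : (q : ℝ) * (X : ℝ) ^ (θ / 2) ≤ q * Y' := by nlinarith
    exact le_of_mul_le_mul_left h1 (by linarith)
  have hyK : y ^ K0 ≤ Y' := by
    have h3 : ((y ^ K0 : ℕ) : ℝ) ≤ Y' := by
      push_cast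
      calc (y : ℝ) ^ K0 ≤ ((X : ℝ) ^ (1 / (r : ℝ))) ^ K0 := by
            apply pow_le_pow_left₀ (Nat.cast_nonneg _)
            rw [hy]
            exact Nat.floor_le (by positivity)
        _ = (X : ℝ) ^ (1 / (r : ℝ) * K0) := by
            rw [Real.rpow_mul hXpos.le, Real.rpow_natCast]
        _ ≤ (X : ℝ) ^ (θ / 2) := by
            apply Real.rpow_le_rpow_of_exponent_le hX1
            rw [one_div, inv_mul_eq_div, div_le_iff₀ hrpos]
            exact hrK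
        _ ≤ Y' := hY'low
    exact_mod_cast h3
  have hrel' := hrel Z' Y' hY'low
  have hfun := hfund (QL F q a0) y Z' Y' (perB_QL F _ hper q a0) hx0y hyK
  rw [← hVL] at hfun
  -- the two countings
  obtain ⟨Om, hOm⟩ : ∃ Om, Om = OmY (QL F q a0) y Z' Y' := ⟨_, rfl⟩
  rw [← hOm] at hrel' hfun
  obtain ⟨N1, hN1⟩ : ∃ N1, N1 = (Om.filter (fun n => Follow (Sf (Q F) y) q a T (q * n + a0))).card := ⟨_, rfl⟩
  obtain ⟨N2, hN2⟩ : ∃ N2, N2 = ((Ioc Z (Z + Y)).filter (fun m => Sf (Q F) y m ∧ m ≡ a0 [MOD q] ∧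
          Follow (Sf (Q F) y) q a T m)).card := ⟨_, rfl⟩
  have hsf : ∀ n, Sf (QL F q a0) y n ↔ Sf (Q F) y (q * n + a0) := by
    intro n
    refine sf_QL F q a0 y n (q * n + a0) (by push_cast; ring) hq hqy a0 (by simp) ?_
    intro p hp hpq i hi
    exact hAC0 p hp hpq ⟨i, hi⟩
  have hinj : ∀ n n' : ℕ, q * n + a0 = q * n' + a0 → n = n' := by
    intro n n' h
    have : q * n = q * n' := by omega
    exact Nat.eq_of_mul_eq_mul_left (by omega) this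
  have hN12 : N1 ≤ N2 := by
    rw [hN1, hN2]
    apply Finset.card_le_card_of_injOn (fun n => q * n + a0)
    · intro n hn
      rw [Finset.mem_coe, mem_filter, hOm] at hn
      unfold OmY at hn
      rw [mem_filter] at hn
      rw [Finset.mem_coe, mem_filter]
      refine ⟨i3 n hn.1.1, (hsf n).1 hn.1.2, ?_, hn.2⟩
      unfold Nat.ModEq
      simp
    · intro n _ n' _ h
      exact hinj n n' h
  have hN21 : N2 ≤ N1 + 1 := by
    rw [hN1, hN2]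
    have h1 : (Ioc Z (Z + Y)).filter (fun m => Sf (Q F) y m ∧ m ≡ a0 [MOD q] ∧
          Follow (Sf (Q F) y) q a T m) ⊆
        insert a0 ((Om.filter (fun n => Follow (Sf (Q F) y) q a T (q * n + a0))).image (fun n => q * n + a0)) := by
      intro m hm
      rw [mem_filter] at hm
      rw [mem_insert, mem_image]
      by_cases hma : m = a0
      · exact Or.inl hma
      · right
        obtain ⟨n, hn, hmn⟩ := i4 m hm.1 hm.2.2.1 hma
        refine ⟨n, ?_, hmn.symm⟩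
        rw [mem_filter, hOm]
        unfold OmY
        rw [mem_filter, hsf, ← hmn]
        exact ⟨⟨hn, hm.2.1⟩, hm.2.2.2⟩
    refine (card_le_card h1).trans ((card_insert_le _ _).trans ?_)
    have := card_image_le (s := Om.filter (fun n => Follow (Sf (Q F) y) q a T (q * n + a0)))
      (f := fun n => q * n + a0)
    omega
  rw [← hN1] at hrel'
  rw [← hN2, ← hVe]
  have hN12r : (N1 : ℝ) ≤ N2 := by exact_mod_cast hN12
  have hN21r : (N2 : ℝ) ≤ N1 + 1 := by exact_mod_cast hN21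
  rw [← hVe] at hrel'
  obtain ⟨ex, hex⟩ : ∃ ex : ℝ, ex = Real.exp (-∑ j, (T j : ℝ) * V) := ⟨_, rfl⟩
  rw [← hex] at hrel' ⊢
  have hex0 : 0 ≤ ex := by rw [hex]; positivity
  have hex1 : ex ≤ 1 := by
    rw [hex, Real.exp_le_one_iff]
    have : 0 ≤ ∑ j, (T j : ℝ) * V := Finset.sum_nonneg fun j _ => by positivity
    linarith
  obtain ⟨gJ, hgJ⟩ : ∃ gJ : ℝ, gJ = ex / (gq F q : ℝ) ^ J := ⟨_, rfl⟩
  have hgJ0 : 0 ≤ gJ := by rw [hgJ]; positivity
  have hgJ1 : gJ ≤ 1 := by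
    rw [hgJ, div_le_one (by positivity)]
    exact hex1.trans (one_le_pow₀ hg1r)
  rw [← hgJ] at hrel'
  have e1 : (Y : ℝ) * V * (ex / (gq F q : ℝ) ^ (J + 1)) = Y * V / gq F q * gJ := by
    rw [hgJ, pow_succ]
    field_simp
  rw [e1]
  obtain ⟨W, hW⟩ : ∃ W : ℝ, W = Om.card := ⟨_, rfl⟩
  rw [← hW] at hrel' hfun
  have hW0 : 0 ≤ W := by rw [hW]; positivity
  -- the sizes
  have hY0 : (0 : ℝ) ≤ Y := Nat.cast_nonneg _
  have hYV : 0 ≤ (Y : ℝ) * V := by positivity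
  have hsq : √(Y' : ℝ) ≤ 2 * √(Y : ℝ) := by
    have h1 : (Y' : ℝ) ≤ 4 * Y := by
      have h2 : (Y' : ℝ) ≤ q * Y' := by nlinarith [Nat.cast_nonneg (α := ℝ) Y']
      have h3 : (4 : ℝ) * q ≤ Y := by exact_mod_cast hY2q
      linarith
    calc √(Y' : ℝ) ≤ √(4 * Y) := Real.sqrt_le_sqrt h1
      _ = 2 * √(Y : ℝ) := by
          rw [Real.sqrt_mul (by norm_num), show (4 : ℝ) = 2 ^ 2 by norm_num, Real.sqrt_sq (by norm_num)]
  have hsq1 : (X : ℝ) ^ (θ / 2) ≤ √(Y : ℝ) := by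
    rw [← Real.sqrt_sq (by positivity : 0 ≤ (X : ℝ) ^ (θ / 2))]
    apply Real.sqrt_le_sqrt
    rw [sq, ← hθ2]
    exact hXY
  have hsmall : (16 + 8 * q) * √(Y : ℝ) ≤ ε1 * (Y * V) := by
    have hlog0 : 0 < Real.log X := Real.log_pos (by linarith)
    have h1 : G * Real.log X ^ (k * D + 1) ≤ √(Y : ℝ) := hlogp.trans hsq1
    have h2 : 16 + 8 * (q : ℝ) ≤ ε1 * (√(Y : ℝ) * V) := by
      have h3 : G * Real.log X ^ (k * D + 1) * (v0 / Real.log X ^ (k * D + 1)) ≤ √(Y : ℝ) * V := by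
        apply mul_le_mul h1 (by rw [hVe]; exact hVlow) (by positivity) (Real.sqrt_nonneg _)
      have h4 : G * Real.log X ^ (k * D + 1) * (v0 / Real.log X ^ (k * D + 1)) = G * v0 := by
        field_simp
      rw [h4] at h3
      have h5 : ε1 * (G * v0) = 16 + 8 * q := by
        rw [hG]
        field_simp
      rw [← h5]
      exact mul_le_mul_of_nonneg_left h3 hε10.le
    calc (16 + 8 * q) * √(Y : ℝ) ≤ ε1 * (√(Y : ℝ) * V) * √(Y : ℝ) :=
          mul_le_mul_of_nonneg_right h2 (Real.sqrt_nonneg _)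
      _ = ε1 * ((√(Y : ℝ) * √(Y : ℝ)) * V) := by ring
      _ = ε1 * (Y * V) := by rw [Real.mul_self_sqrt hY0]
  have hsqY1 : 1 ≤ √(Y : ℝ) := hXθ1.trans hsq1
  -- `Y' VL`
  have hYVL : (Y' : ℝ) * VL = q * Y' * V / gq F q := by
    have : VL = q * V / gq F q := by
      rw [eq_div_iff (by linarith : (gq F q : ℝ) ≠ 0), hg]
      ring
    rw [this]
    ring
  have hd1 : |(Y' : ℝ) * VL - Y * V / gq F q| ≤ 2 * q := by
    rw [hYVL, ← sub_div, abs_div, abs_of_pos (by linarith : (0 : ℝ) < gq F q), div_le_iff₀ (by linarith)]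
    have h1 : |(q : ℝ) * Y' * V - Y * V| ≤ 2 * q := by
      rw [← sub_mul, abs_mul, abs_of_pos hV0]
      have h2 : |(q : ℝ) * Y' - Y| ≤ 2 * q := by
        rw [abs_le]
        constructor <;> linarith
      nlinarith [abs_nonneg ((q : ℝ) * Y' - Y)]
    refine h1.trans ?_
    nlinarith
  have hYVg : (Y : ℝ) * V / gq F q ≤ Y * V := div_le_self hYV hg1r
  have hYVg0 : 0 ≤ (Y : ℝ) * V / gq F q := by positivity
  obtain ⟨B, hB⟩ : ∃ B : ℝ, B = Y * V / gq F q := ⟨_, rfl⟩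
  rw [← hB] at hd1 hYVg hYVg0 ⊢
  have hfin := final_num ε1 q (√(Y : ℝ)) (Y * V) B W (Y' * VL) (√(Y' : ℝ)) N1 N2 gJ hε10 hε11 hqr hsqY1
    hsmall hYVg0 hYVg hd1 hfun hsq hrel' hN12r hN21r hgJ0 hgJ1
  refine hfin.trans ?_
  apply mul_le_mul_of_nonneg_right _ hYV
  linarith

end Pool.Agent.Q236.UL
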