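import Mathlib

set_option autoImplicit false

/-!
# The limits in the law of the gaps and marks
-/

namespace Pool.Agent.Q236.UL

open Finset

lemma prod_diff {ι : Type*} (s : Finset ι) (a b : ι → ℝ) (δ : ℝ) (ha : ∀ i ∈ s, 0 ≤ a i ∧ a i ≤ 1)
    (hb : ∀ i ∈ s, 0 ≤ b i ∧ b i ≤ 1) (h : ∀ i ∈ s, |a i - b i| ≤ δ) :
    |∏ i ∈ s, a i - ∏ i ∈ s, b i| ≤ s.card * δ := by
  classical
  induction s using Finset.induction_on with
  | empty => simp
  | insert i s hi ih =>
    rw [Finset.prod_insert hi, Finset.prod_insert hi, card_insert_of_notMem hi]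
    have h1 := ih (fun j hj => ha j (mem_insert_of_mem hj)) (fun j hj => hb j (mem_insert_of_mem hj))
      (fun j hj => h j (mem_insert_of_mem hj))
    have h2 := ha i (mem_insert_self i s)
    have h3 := h i (mem_insert_self i s)
    have h4 : |∏ j ∈ s, b j| ≤ 1 := by
      rw [abs_of_nonneg (Finset.prod_nonneg fun j hj => (hb j (mem_insert_of_mem hj)).1)]
      exact Finset.prod_le_one (fun j hj => (hb j (mem_insert_of_mem hj)).1)
        (fun j hj => (hb j (mem_insert_of_mem hj)).2)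
    have e : a i * ∏ j ∈ s, a j - b i * ∏ j ∈ s, b j =
        a i * (∏ j ∈ s, a j - ∏ j ∈ s, b j) + (a i - b i) * ∏ j ∈ s, b j := by ring
    rw [e]
    refine (abs_add_le _ _).trans ?_
    rw [abs_mul, abs_mul, abs_of_nonneg h2.1]
    have h5 : a i * |∏ j ∈ s, a j - ∏ j ∈ s, b j| ≤ 1 * (s.card * δ) := by
      apply mul_le_mul h2.2 h1 (abs_nonneg _) (by norm_num)
    have h6 : |a i - b i| * |∏ j ∈ s, b j| ≤ δ * 1 := by
      apply mul_le_mul h3 h4 (abs_nonneg _) ((abs_nonneg _).trans h3)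
    push_cast
    linarith

lemma exp_sub_le (a b : ℝ) (ha : 0 ≤ a) (h : a ≤ b) : Real.exp (-a) - Real.exp (-b) ≤ b - a := by
  have h1 : Real.exp (-a) ≤ 1 := by
    rw [Real.exp_le_one_iff]
    linarith
  have h2 : Real.exp (-b) = Real.exp (-a) * Real.exp (-(b - a)) := by
    rw [← Real.exp_add]
    congr 1
    ring
  have h3 := Real.add_one_le_exp (-(b - a))
  have h4 : 0 < Real.exp (-a) := Real.exp_pos _
  rw [h2]
  nlinarith

lemma exp_abs_sub (a b : ℝ) (ha : 0 ≤ a) (hb : 0 ≤ b) : |Real.exp (-a) - Real.exp (-b)| ≤ |a - b| := by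
  rcases le_total a b with h | h
  · rw [abs_of_nonneg (sub_nonneg.2 (Real.exp_le_exp.2 (by linarith))), abs_of_nonpos (by linarith)]
    have := exp_sub_le a b ha h
    linarith
  · rw [abs_of_nonpos (sub_nonpos.2 (Real.exp_le_exp.2 (by linarith))), abs_of_nonneg (by linarith)]
    have := exp_sub_le b a hb h
    linarith

lemma prod_exp {J : ℕ} (t : Fin J → ℝ) : ∏ l, Real.exp (-t l) = Real.exp (-∑ l, t l) := by
  rw [← Finset.sum_neg_distrib, Real.exp_sum]

/-- the limit -/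
theorem marks_conv (J : ℕ) (Λ ε : ℝ) (hΛ : 0 ≤ Λ) (hε : 0 < ε) : ∃ (κ : ℝ) (N : ℕ), 0 < κ ∧ κ ≤ 1 ∧ 1 ≤ N ∧
    ∀ (y : ℝ) (t : Fin J → ℝ) (Dm Dp : Fin J → ℕ), κ / 2 ≤ y → y ≤ κ → (∀ l, 0 ≤ t l) → (∀ l, t l ≤ Λ) →
      (∀ l, y * Dp l ≤ t l + κ) → (∀ l, t l - κ ≤ y * Dp l) → (∀ l, t l - 3 * κ ≤ y * Dm l) →
      (∀ l, y * Dm l ≤ t l) → (∀ l, Dp l ≤ N) ∧
      Real.exp (-∑ l, t l) - ε ≤ ∏ l, ((1 - y) * (Real.exp (-(y * Dp l)) - Real.exp (-(y * N)))) ∧
      1 - ((1 - y) * (1 - Real.exp (-(y * N)))) ^ J ≤ ε ∧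
      ∏ l, Real.exp (-(y * Dm l)) ≤ Real.exp (-∑ l, t l) + ε := by
  obtain ⟨κ, hκ⟩ : ∃ κ : ℝ, κ = min 1 (ε / (4 * (J + 1))) := ⟨_, rfl⟩
  have hκ0 : 0 < κ := by rw [hκ]; positivity
  have hκ1 : κ ≤ 1 := by rw [hκ]; exact min_le_left _ _
  have hκε : 4 * (J + 1) * κ ≤ ε := by
    have h1 : κ ≤ ε / (4 * (J + 1)) := by rw [hκ]; exact min_le_right _ _
    rw [le_div_iff₀ (by positivity)] at h1
    linarith
  have hlim : Filter.Tendsto (fun N : ℕ => Real.exp (-(κ / 2 * N))) Filter.atTop (nhds 0) := by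
    apply Real.tendsto_exp_atBot.comp
    apply Filter.tendsto_neg_atTop_atBot.comp
    exact (tendsto_natCast_atTop_atTop).const_mul_atTop (by positivity)
  obtain ⟨N, hN1, hN2, hN3⟩ := ((hlim.eventually_le_const (show (0 : ℝ) < κ from hκ0)).and
    ((Filter.eventually_ge_atTop ⌈2 * (Λ + 1) / κ⌉₊).and (Filter.eventually_ge_atTop 1))).exists
  have hNr : 2 * (Λ + 1) / κ ≤ N := (Nat.le_ceil _).trans (by exact_mod_cast hN2)
  rw [div_le_iff₀ hκ0] at hNr
  refine ⟨κ, N, hκ0, hκ1, hN3, ?_⟩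
  intro y t Dm Dp hy1 hy2 ht0 htΛ hDp hDp' hDm hDm'
  have hy0 : 0 < y := by linarith
  have hJ : (0 : ℝ) ≤ J := Nat.cast_nonneg _
  have hyN : Λ + 1 ≤ y * N := by nlinarith
  have hexpN : Real.exp (-(y * N)) ≤ κ := by
    refine le_trans (Real.exp_le_exp.2 ?_) hN1
    have : κ / 2 * N ≤ y * N := mul_le_mul_of_nonneg_right hy1 (Nat.cast_nonneg _)
    linarith
  have hexpN0 : 0 < Real.exp (-(y * N)) := Real.exp_pos _
  refine ⟨?_, ?_, ?_, ?_⟩
  · intro l
    have h1 : y * Dp l ≤ y * N := (hDp l).trans (by linarith [htΛ l])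
    have h2 : (Dp l : ℝ) ≤ N := le_of_mul_le_mul_left h1 hy0
    exact_mod_cast h2
  · have h1 : ∀ l, |(1 - y) * (Real.exp (-(y * Dp l)) - Real.exp (-(y * N))) - Real.exp (-t l)| ≤ 3 * κ := by
      intro l
      have h2 := exp_abs_sub (y * Dp l) (t l) (by positivity) (ht0 l)
      have h3 : |y * Dp l - t l| ≤ κ := by
        rw [abs_le]
        constructor <;> linarith [hDp l, hDp' l]
      have h4 : 0 < Real.exp (-(y * Dp l)) := Real.exp_pos _
      have h5 : Real.exp (-(y * Dp l)) ≤ 1 := by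
        rw [Real.exp_le_one_iff]
        have : 0 ≤ y * (Dp l : ℝ) := by positivity
        linarith
      have h6 := abs_le.1 (h2.trans h3)
      rw [abs_le]
      constructor
      · nlinarith
      · nlinarith
    have h2 := prod_diff (univ : Finset (Fin J))
      (fun l => (1 - y) * (Real.exp (-(y * Dp l)) - Real.exp (-(y * N)))) (fun l => Real.exp (-t l)) (3 * κ)
      (fun l _ => by
        have h4 : Real.exp (-(y * N)) ≤ Real.exp (-(y * Dp l)) := by
          apply Real.exp_le_exp.2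
          have : y * Dp l ≤ y * N := (hDp l).trans (by linarith [htΛ l])
          linarith
        have h5 : Real.exp (-(y * Dp l)) ≤ 1 := by
          rw [Real.exp_le_one_iff]
          have : 0 ≤ y * (Dp l : ℝ) := by positivity
          linarith
        constructor
        · apply mul_nonneg (by linarith) (by linarith)
        · have : 0 ≤ Real.exp (-(y * Dp l)) - Real.exp (-(y * N)) := by linarith
          nlinarith) (fun l _ => ⟨(Real.exp_pos _).le, by
        rw [Real.exp_le_one_iff]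
        have := ht0 l
        linarith⟩) (fun l _ => h1 l)
    rw [prod_exp t, card_univ, Fintype.card_fin] at h2
    have h3 := (abs_le.1 h2).1
    nlinarith
  · have h2 := prod_diff (univ : Finset (Fin J)) (fun _ => (1 - y) * (1 - Real.exp (-(y * N)))) (fun _ => 1)
      (2 * κ) (fun l _ => by
        constructor
        · apply mul_nonneg (by linarith) (by linarith)
        · nlinarith) (fun l _ => ⟨by norm_num, le_rfl⟩) (fun l _ => by
        rw [abs_le]
        constructor <;> nlinarith)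
    rw [Finset.prod_const, Finset.prod_const, one_pow, card_univ, Fintype.card_fin] at h2
    have h3 := (abs_le.1 h2).1
    nlinarith
  · have h1 : ∀ l, |Real.exp (-(y * Dm l)) - Real.exp (-t l)| ≤ 3 * κ := by
      intro l
      refine (exp_abs_sub (y * Dm l) (t l) (by positivity) (ht0 l)).trans ?_
      rw [abs_le]
      constructor <;> linarith [hDm l, hDm' l]
    have h2 := prod_diff (univ : Finset (Fin J)) (fun l => Real.exp (-(y * Dm l))) (fun l => Real.exp (-t l))
      (3 * κ) (fun l _ => ⟨(Real.exp_pos _).le, by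
        rw [Real.exp_le_one_iff]
        have : 0 ≤ y * (Dm l : ℝ) := by positivity
        linarith⟩) (fun l _ => ⟨(Real.exp_pos _).le, by
        rw [Real.exp_le_one_iff]
        have := ht0 l
        linarith⟩) (fun l _ => h1 l)
    rw [prod_exp t, card_univ, Fintype.card_fin] at h2
    have h3 := (abs_le.1 h2).2
    have h4 : 0 ≤ (J : ℝ) * κ := by positivity
    have h5 : ∏ l, Real.exp (-(y * Dm l)) - Real.exp (-∑ l, t l) ≤ J * (3 * κ) := h3
    have h6 : (J : ℝ) * (3 * κ) ≤ ε := by nlinarith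
    linarith

end Pool.Agent.Q236.UL
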