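import Pool.Agent.Q236.UL.ClsPrep
import Pool.Agent.Q236.UL.Conv

set_option autoImplicit false

/-!
# Gaps and residue classes of consecutive almost prime points
-/

namespace Pool.Agent.Q236.UL

open Finset Filter
open Pool.Agent.W123.RP Pool.Agent.H373R2.T7 Pool.Agent.W123.RU Pool.Agent.W123.RU.Poly
open Pool.Agent.TH464.PW Pool.Agent.TH464.PO Pool.Agent.Y879.GL Pool.Agent.Q236.CP Pool.Agent.Q236.GW

lemma tot_le {σ : Type*} (N : ℕ) : ∀ l : List (ℕ × σ), (∀ y ∈ l, y.1 < N) → tot l ≤ l.length * N := by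
  intro l
  induction l with
  | nil =>
    intro _
    exact Nat.zero_le _
  | cons x l ih =>
    intro h
    have h1 := ih (fun y hy => h y (by simp [hy]))
    have h2 := h x (by simp)
    have h3 : (x :: l).length * N = l.length * N + N := by
      rw [List.length_cons]
      ring
    rw [h3]
    change x.1 + 1 + tot l ≤ _
    omega

lemma tot_lst {σ : Type*} {J : ℕ} (N : ℕ) (d : Fin J → ℕ) (w : Fin J → σ) (hd : ∀ l, d l < N) :
    tot (lst d w) ≤ J * N := by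
  have h1 := tot_le N (lst d w) (by
    intro y hy
    unfold lst at hy
    rw [List.mem_ofFn] at hy
    obtain ⟨i, rfl⟩ := hy
    exact hd i)
  rwa [lst_length] at h1

open Classical in
/-- **Gaps and residue classes of consecutive almost prime points**, relative to the points in one class. -/
theorem cls_rel (k D q J : ℕ) (hq : 1 ≤ q) (Λ ε : ℝ) (hΛ : 0 ≤ Λ) (hε : 0 < ε) (E η θ : ℝ) (hE : 0 < E)
    (hη : 0 < η) (hθ : 0 < θ) : ∃ r0 : ℕ, 2 ≤ r0 ∧ ∀ r : ℕ, r0 ≤ r → ∀ Cv : ℝ, 0 < Cv → ∀ᶠ X : ℕ in atTop,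
      ∀ F : Fin k → Polynomial ℤ, US k D ((X : ℝ) ^ E) ((X : ℝ) ^ η) F → Vq (Q F) X ≤ Cv / Real.log X →
      ∀ a0 : ℕ, a0 < q → AC F q a0 → ∀ a T : Fin J → ℕ, (∀ j, AC F q (a j)) →
      (∀ j, T j * Vq (Q F) ⌊(X : ℝ) ^ (1 / (r : ℝ))⌋₊ ≤ Λ) → ∀ Z Y : ℕ, (X : ℝ) ^ θ ≤ Y →
      |(((OmY (QL F q a0) ⌊(X : ℝ) ^ (1 / (r : ℝ))⌋₊ Z Y).filter
          (fun n => Follow (Sf (Q F) ⌊(X : ℝ) ^ (1 / (r : ℝ))⌋₊) q a T (q * n + a0))).card : ℝ) -
        (OmY (QL F q a0) ⌊(X : ℝ) ^ (1 / (r : ℝ))⌋₊ Z Y).card *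
          (Real.exp (-∑ j, T j * Vq (Q F) ⌊(X : ℝ) ^ (1 / (r : ℝ))⌋₊) / (gq F q : ℝ) ^ J)| ≤
        ε * (OmY (QL F q a0) ⌊(X : ℝ) ^ (1 / (r : ℝ))⌋₊ Z Y).card := by
  obtain ⟨κ, N, hκ0, hκ1, hN, hconv⟩ := marks_conv J Λ (ε / 8) hΛ (by positivity)
  have hNr : (1 : ℝ) ≤ N := by exact_mod_cast hN
  have hqr : (1 : ℝ) ≤ q := by exact_mod_cast hq
  obtain ⟨G, hG⟩ : ∃ G : ℝ, G = (N * q + N) ^ J := ⟨_, rfl⟩
  have hG1 : 1 ≤ G := by
    rw [hG]
    apply one_le_pow₀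
    nlinarith
  have hNG : (N : ℝ) ^ J ≤ G := by
    rw [hG]
    apply pow_le_pow_left₀ (by positivity)
    nlinarith
  obtain ⟨e, he⟩ : ∃ e : ℝ, e = ε / (8 * G) := ⟨_, rfl⟩
  have he0 : 0 < e := by rw [he]; positivity
  have heG : e * G = ε / 8 := by
    rw [he]
    field_simp
  obtain ⟨A, hA, hres⟩ := resz k D E η hE hη
  obtain ⟨w0, κ', r0, _, hκ', hr0, hlaw⟩ := cells_law (σ := Fin q) (J * N) (k * D + 1) 0 (J * N * κ) e
    (by positivity) he0 A (η / 2) θ hA (by positivity) hθ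
  refine ⟨r0, hr0, ?_⟩
  intro r hr Cv hCv
  have hr2 : 2 ≤ r := hr0.trans hr
  obtain ⟨C, hC, hlev⟩ := Vq_level (k * D + 1) r hr2
  have hlogX : Tendsto (fun X : ℕ => Real.log (X : ℝ)) atTop atTop :=
    Real.tendsto_log_atTop.comp tendsto_natCast_atTop_atTop
  have hpow : Tendsto (fun X : ℕ => (X : ℝ) ^ (1 / (2 * r : ℝ))) atTop atTop :=
    (tendsto_rpow_atTop (by positivity)).comp tendsto_natCast_atTop_atTop
  have hpowη : Tendsto (fun X : ℕ => (X : ℝ) ^ (η / 2)) atTop atTop :=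
    (tendsto_rpow_atTop (by positivity)).comp tendsto_natCast_atTop_atTop
  filter_upwards [hlaw r hr (q * (C * Cv)) (by positivity), hlev, hres, hlogX.eventually_ge_atTop 1,
    hlogX.eventually_ge_atTop (2 * q * (C * Cv) / κ), hpow.eventually_ge_atTop ((q : ℝ) + 1),
    hpowη.eventually_ge_atTop (2 * (q : ℝ)), eventually_ge_atTop 16] with X hX hlX hresX hlog1 hlog2 hpw hpwη hX16
  intro F hF hV a0 ha0 hAC0 a T hACa hT Z Y hXY
  have hXr : (16 : ℝ) ≤ X := by exact_mod_cast hX16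
  have hXpos : (0 : ℝ) < X := by linarith
  obtain ⟨y, hy⟩ : ∃ y, y = ⌊(X : ℝ) ^ (1 / (r : ℝ))⌋₊ := ⟨_, rfl⟩
  have hqy : q ≤ y := by
    obtain ⟨h1, _⟩ := level_low r hr2 X (by omega) (by linarith)
    rw [← hy] at h1
    have : (q : ℝ) ≤ y := by linarith
    exact_mod_cast this
  rw [← hy] at hT ⊢
  have hper := us_perB hF
  have hadm := us_adm hF
  have hl0 : 0 < Real.log X := by linarith
  -- the densities
  obtain ⟨V, hVe⟩ : ∃ V, V = Vq (Q F) y := ⟨_, rfl⟩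
  obtain ⟨VL, hVL⟩ : ∃ VL, VL = Vq (QL F q a0) y := ⟨_, rfl⟩
  have hVup : V ≤ C * Cv / Real.log X := by
    rw [hVe, hy]
    refine (hlX (Q F) hper hadm).2.trans ?_
    rw [mul_div_assoc]
    exact mul_le_mul_of_nonneg_left hV hC.le
  have hV0 : 0 < V := by rw [hVe]; exact Vq_pos _ hadm y
  have hVL0 : 0 < VL := by rw [hVL]; exact Vq_pos _ (adm_QL F hadm q a0) y
  have hg : (q : ℝ) * V = gq F q * VL := by
    rw [hVe, hVL]
    exact gq_eq F _ hper q y a0 hq hqy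
  have hg1 : 1 ≤ gq F q := by
    unfold gq
    exact card_pos.2 ⟨a0, by rw [mem_filter, mem_range]; exact ⟨ha0, hAC0⟩⟩
  have hg1r : (1 : ℝ) ≤ gq F q := by exact_mod_cast hg1
  have hVLup : VL ≤ q * V := by
    rw [hg]
    nlinarith
  have hqV : q * V ≤ κ / 2 := by
    have h1 : q * V ≤ q * (C * Cv / Real.log X) := mul_le_mul_of_nonneg_left hVup (by positivity)
    refine h1.trans ?_
    rw [div_le_iff₀ hκ0] at hlog2
    rw [mul_div_assoc', div_le_iff₀ hl0]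
    nlinarith
  have hVLq : ∀ s : Fin q, Vq (QL F q ((a0 : ℤ) - (s : ℕ))) y = VL := fun s => by
    rw [hVL]
    exact Vq_QL F q _ _ y
  -- the cells
  obtain ⟨Δ, hΔ⟩ : ∃ Δ : ℕ, Δ = ⌊κ / (q * V)⌋₊ := ⟨_, rfl⟩
  have hqV0 : 0 < q * V := by positivity
  have hΔ1 : (Δ : ℝ) * (q * V) ≤ κ := by
    have h1 : (Δ : ℝ) ≤ κ / (q * V) := by
      rw [hΔ]
      exact Nat.floor_le (by positivity)
    rwa [le_div_iff₀ hqV0] at h1
  have hΔ2 : κ / 2 ≤ Δ * (q * V) := by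
    have h1 : κ / (q * V) < Δ + 1 := by
      rw [hΔ]
      exact Nat.lt_floor_add_one _
    rw [div_lt_iff₀ hqV0] at h1
    nlinarith
  have hΔpos : 1 ≤ Δ := by
    rw [hΔ]
    apply Nat.le_floor
    push_cast
    rw [le_div_iff₀ hqV0]
    linarith
  have hΔr : (1 : ℝ) ≤ Δ := by exact_mod_cast hΔpos
  obtain ⟨ym, hym⟩ : ∃ ym : ℝ, ym = Δ * (q * V) := ⟨_, rfl⟩
  rw [← hym] at hΔ1 hΔ2
  have hym0 : 0 < ym := by linarith
  have hyme : ym = gq F q * (Δ * VL) := by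
    rw [hym, hg]
    ring
  -- the marks
  choose w hw using fun j : Fin J => exists_mark q a0 (a j) hq
  have hwS : ∀ j, w j ∈ SA F q a0 := fun j => (SA_class F q a0 (a j) (w j) (hw j)).2 (hACa j)
  -- the law of the cells
  have hcells := hX (QL F q a0) (fun s : Fin q => QL F q ((a0 : ℤ) - (s : ℕ))) (fun _ _ => ∅) (SA F q a0)
    Δ Z Y (perB_QL F _ hper q a0) (fun s => perB_QL F _ hper q _) (fun p hp => adm_QL F hadm q a0 p hp)
    (fun s p hp => adm_QL F hadm q _ p hp) (fun s => by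
      rw [← hy, hVLq s]
      refine hVLup.trans ?_
      rw [mul_div_assoc]
      exact mul_le_mul_of_nonneg_left hVup (by positivity)) (fun s => by
      rw [← hy, hVLq s]
      have h1 : Δ * VL ≤ κ := by
        refine le_trans ?_ hΔ1
        rw [hyme]
        have : 0 ≤ Δ * VL := by positivity
        nlinarith
      push_cast
      calc (J : ℝ) * N * Δ * VL = J * N * (Δ * VL) := by ring
        _ ≤ J * N * κ := mul_le_mul_of_nonneg_left h1 (by positivity))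
    (fun _ _ => by simp) (fun _ _ d hd => by simp at hd) (fun _ => by simp) (fun s t =>
      ⟨0, le_rfl, by rw [mul_zero]; exact hκ'.le, fun b b' hex => by
        exfalso
        rw [ex_iff] at hex
        rcases hex.2 with h | h
        · simp at h
        · simp at h⟩)
    (rm_cls hF q a0 hq (by
      have h1 : (X : ℝ) ^ η = (X : ℝ) ^ (η / 2) * (X : ℝ) ^ (η / 2) := by
        rw [← Real.rpow_add hXpos]
        congr 1
        ring
      have h3 : 1 ≤ (X : ℝ) ^ (η / 2) := by linarith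
      rw [h1]
      nlinarith) (fun h hh hn => hresX F F ⟨hF.irr, hF.deg, hF.degD, hF.hgt⟩
        ⟨hF.irr, hF.deg, hF.degD, hF.hgt⟩ h hh hn)) hXY
  rw [← hy] at hcells
  -- the thresholds
  obtain ⟨t, ht⟩ : ∃ t : Fin J → ℝ, t = fun j => T j * V := ⟨_, rfl⟩
  have ht0 : ∀ j, 0 ≤ t j := fun j => by rw [ht]; positivity
  have htΛ : ∀ j, t j ≤ Λ := fun j => by
    rw [ht]
    simp only
    rw [hVe]
    exact hT j
  have hqΔ : (0 : ℝ) < q * Δ := by positivity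
  obtain ⟨Dp, hDp⟩ : ∃ Dp : Fin J → ℕ, Dp = fun j => ⌈(T j : ℝ) / (q * Δ)⌉₊ := ⟨_, rfl⟩
  obtain ⟨Dm, hDm⟩ : ∃ Dm : Fin J → ℕ, Dm = fun j => ⌊(T j : ℝ) / (q * Δ)⌋₊ - 2 := ⟨_, rfl⟩
  have hyT : ∀ j, ym * ((T j : ℝ) / (q * Δ)) = t j := by
    intro j
    rw [hym, ht]
    field_simp
  have hTq0 : ∀ j, 0 ≤ (T j : ℝ) / (q * Δ) := fun j => by positivity
  have c1 : ∀ l, ym * Dp l ≤ t l + κ := by
    intro l
    have h1 : (Dp l : ℝ) ≤ (T l : ℝ) / (q * Δ) + 1 := by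
      rw [hDp]
      exact (Nat.ceil_lt_add_one (hTq0 l)).le
    calc ym * Dp l ≤ ym * ((T l : ℝ) / (q * Δ) + 1) := mul_le_mul_of_nonneg_left h1 hym0.le
      _ = t l + ym := by rw [mul_add, hyT, mul_one]
      _ ≤ _ := by linarith
  have c2 : ∀ l, t l - κ ≤ ym * Dp l := by
    intro l
    have h1 : (T l : ℝ) / (q * Δ) ≤ Dp l := by
      rw [hDp]
      exact Nat.le_ceil _
    have h2 := mul_le_mul_of_nonneg_left h1 hym0.le
    rw [hyT] at h2
    linarith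
  have c3 : ∀ l, t l - 3 * κ ≤ ym * Dm l := by
    intro l
    have h1 : (T l : ℝ) / (q * Δ) - 3 ≤ Dm l := by
      have h2 := (Nat.lt_floor_add_one ((T l : ℝ) / (q * Δ))).le
      have h3 : ⌊(T l : ℝ) / (q * Δ)⌋₊ ≤ Dm l + 2 := by rw [hDm]; simp only; omega
      have h4 : ((⌊(T l : ℝ) / (q * Δ)⌋₊ : ℕ) : ℝ) ≤ Dm l + 2 := by exact_mod_cast h3
      linarith
    have h2 := mul_le_mul_of_nonneg_left h1 hym0.le
    rw [mul_sub, hyT] at h2
    linarith
  have c4 : ∀ l, ym * Dm l ≤ t l := by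
    intro l
    have h1 : (Dm l : ℝ) ≤ (T l : ℝ) / (q * Δ) := by
      have h2 := Nat.floor_le (hTq0 l)
      have h3 : Dm l ≤ ⌊(T l : ℝ) / (q * Δ)⌋₊ := by rw [hDm]; simp only; omega
      have h4 : (Dm l : ℝ) ≤ ((⌊(T l : ℝ) / (q * Δ)⌋₊ : ℕ) : ℝ) := by exact_mod_cast h3
      linarith
    have h2 := mul_le_mul_of_nonneg_left h1 hym0.le
    rwa [hyT] at h2
  obtain ⟨d1, d2, d3, d4⟩ := hconv ym t Dm Dp hΔ2 hΔ1 ht0 htΛ c1 c2 c3 c4
  -- the law of the marks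
  have hmod : ∀ n j, a j + (w j : ℕ) ≡ q * n + a0 [MOD q] := by
    intro n j
    refine (hw j).trans ?_
    unfold Nat.ModEq
    simp
  have hml := marks_law J N (OmY (QL F q a0) y Z Y)
    (cnt (fun s : Fin q => QL F q ((a0 : ℤ) - (s : ℕ))) (SA F q a0) y Δ)
    (xc (fun s : Fin q => QL F q ((a0 : ℤ) - (s : ℕ))) (SA F q a0) y Δ) (fun s => by
      unfold xc
      split_ifs
      · exact mul_nonneg (by positivity) (Vq_nonneg _ _)
      · exact le_rfl) ym (by rw [sum_xc F q y Δ a0 hq, ← hVL, hyme]) hym0 (hΔ1.trans hκ1) e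
    (fun d w hd => hcells (lst d w) (tot_lst N d w hd))
    (fun n => Follow (Sf (Q F) y) q a T (q * n + a0)) w Dm Dp d1 (by
      intro n _ d hd _ hEv
      refine follow_low (Sf (Q F) y) q Δ (q * n + a0) hq _ (fun i s => cnt_eq F q y Δ a0 n hq hqy i s) a T w
        (hmod n) d (fun j => ?_) hEv
      have h1 : (T j : ℝ) / (q * Δ) ≤ d j := by
        refine (Nat.le_ceil _).trans ?_
        have := hd j
        rw [hDp] at this
        exact_mod_cast this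
      rw [div_le_iff₀ hqΔ] at h1
      have h2 : (T j : ℝ) ≤ ((q * (d j * Δ) : ℕ) : ℝ) := by
        push_cast
        linarith
      exact_mod_cast h2) (by
      intro n _ d w' _ hor hEv
      refine follow_up (Sf (Q F) y) q Δ (q * n + a0) hq _ (fun i s => cnt_eq F q y Δ a0 n hq hqy i s) a T w w'
        (hmod n) d ?_ hEv
      rcases hor with h | ⟨j, hj⟩
      · exact Or.inl h
      · right
        refine ⟨j, ?_⟩
        rw [hDm] at hj
        simp only at hj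
        have h1 : ((d j + 3 : ℕ) : ℝ) ≤ (T j : ℝ) / (q * Δ) := by
          refine le_trans ?_ (Nat.floor_le (hTq0 j))
          exact_mod_cast (by omega : d j + 3 ≤ ⌊(T j : ℝ) / (q * Δ)⌋₊)
        rw [le_div_iff₀ hqΔ] at h1
        have h2 : (((d j + 3) * (q * Δ) : ℕ) : ℝ) ≤ T j := by
          push_cast at h1 ⊢
          linarith
        have h3 : (d j + 3) * (q * Δ) ≤ T j := by exact_mod_cast h2
        have h4 : (d j + 3) * (q * Δ) = q * ((d j + 2) * Δ) + q * Δ := by ring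
        have h5 : q ≤ q * Δ := Nat.le_mul_of_pos_right q hΔpos
        omega)
  obtain ⟨lo, hi⟩ := hml
  rw [Fintype.card_fin] at hi
  have hxw : ∀ l, xc (fun s : Fin q => QL F q ((a0 : ℤ) - (s : ℕ))) (SA F q a0) y Δ (w l) / ym =
      1 / gq F q := by
    intro l
    unfold xc
    rw [if_pos (hwS l), hVLq, hyme]
    have : (0 : ℝ) < gq F q := by linarith
    field_simp
  have hprod : ∀ f : Fin J → ℝ, ∏ l, (xc (fun s : Fin q => QL F q ((a0 : ℤ) - (s : ℕ))) (SA F q a0) y Δ (w l) / ym *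
      f l) = (1 / (gq F q : ℝ) ^ J) * ∏ l, f l := by
    intro f
    rw [Finset.prod_mul_distrib, Finset.prod_congr rfl (fun l _ => hxw l), Finset.prod_const, card_univ,
      Fintype.card_fin]
    rw [one_div_pow]
  rw [hprod] at lo hi
  obtain ⟨Om, hOm⟩ : ∃ Om : ℝ, Om = (OmY (QL F q a0) y Z Y).card := ⟨_, rfl⟩
  have hOm0 : 0 ≤ Om := by rw [hOm]; positivity
  rw [← hOm] at lo hi ⊢
  obtain ⟨gJ, hgJ⟩ : ∃ gJ : ℝ, gJ = 1 / (gq F q : ℝ) ^ J := ⟨_, rfl⟩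
  have hgJ0 : 0 ≤ gJ := by rw [hgJ]; positivity
  have hgJ1 : gJ ≤ 1 := by
    rw [hgJ, div_le_one (by positivity)]
    exact one_le_pow₀ hg1r
  rw [← hgJ] at lo hi
  have hsum : ∑ j, (T j : ℝ) * Vq (Q F) y = ∑ l, t l := by rw [ht, hVe]
  rw [hsum]
  obtain ⟨ex, hex⟩ : ∃ ex : ℝ, ex = Real.exp (-∑ l, t l) := ⟨_, rfl⟩
  rw [← hex] at d2 d4 ⊢
  have e1 : Om * (ex / (gq F q : ℝ) ^ J) = Om * (gJ * ex) := by rw [hgJ]; ring
  rw [e1, abs_le]
  have b1 : e * N ^ J * Om ≤ ε / 8 * Om := by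
    apply mul_le_mul_of_nonneg_right _ hOm0
    rw [← heG]
    exact mul_le_mul_of_nonneg_left hNG he0.le
  have b2 : 2 * e * (N * q + N) ^ J * Om = ε / 4 * Om := by
    rw [← hG]
    have : 2 * e * G * Om = 2 * (e * G) * Om := by ring
    rw [this, heG]
    ring
  have b3 : Om * (gJ * (ex - ε / 8)) ≤ Om * (gJ * ∏ l, ((1 - ym) * (Real.exp (-(ym * Dp l)) - Real.exp (-(ym * N))))) :=
    mul_le_mul_of_nonneg_left (mul_le_mul_of_nonneg_left d2 hgJ0) hOm0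
  have b4 : Om * (gJ * ∏ l, Real.exp (-(ym * Dm l))) ≤ Om * (gJ * (ex + ε / 8)) :=
    mul_le_mul_of_nonneg_left (mul_le_mul_of_nonneg_left d4 hgJ0) hOm0
  have b5 : Om * (gJ * (ε / 8)) ≤ Om * (ε / 8) := by
    apply mul_le_mul_of_nonneg_left _ hOm0
    nlinarith
  have b6 : Om * (1 - ((1 - ym) * (1 - Real.exp (-(ym * N)))) ^ J) ≤ Om * (ε / 8) :=
    mul_le_mul_of_nonneg_left d3 hOm0
  rw [b2] at hi
  have b7 : 0 ≤ ε * Om := by positivity
  constructor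
  · nlinarith
  · nlinarith

end Pool.Agent.Q236.UL
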