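import Pool.Agent.Q236.UL.Cls

set_option autoImplicit false

/-!
# Systems of polynomials in residue classes: preparations
-/

namespace Pool.Agent.Q236.UL

open Polynomial Finset Filter
open Pool.Agent.W123.RP Pool.Agent.H373R2.T7 Pool.Agent.W123.RU Pool.Agent.W123.RU.Poly
open Pool.Agent.TH464.PW Pool.Agent.TH464.PO Pool.Agent.Y879.GL Pool.Agent.Q236.CP Pool.Agent.Q236.GW

variable {k : ℕ}

open Classical in
/-- the admissible marks, seen from the class `a0` -/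
noncomputable def SA (F : Fin k → ℤ[X]) (q a0 : ℕ) : Finset (Fin q) :=
  univ.filter (fun s => ∀ p : ℕ, p.Prime → p ∣ q → ∀ i, ¬ (p : ℤ) ∣ (F i).eval ((a0 : ℤ) - (s : ℕ)))

lemma mem_SA (F : Fin k → ℤ[X]) (q a0 : ℕ) (s : Fin q) :
    s ∈ SA F q a0 ↔ ∀ p : ℕ, p.Prime → p ∣ q → ∀ i, ¬ (p : ℤ) ∣ (F i).eval ((a0 : ℤ) - (s : ℕ)) := by
  classical
  unfold SA
  rw [mem_filter]
  exact ⟨fun h => h.2, fun h => ⟨mem_univ _, h⟩⟩

/-- the mark of a class -/
lemma SA_class (F : Fin k → ℤ[X]) (q a0 a : ℕ) (s : Fin q) (h : a + (s : ℕ) ≡ a0 [MOD q]) :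
    s ∈ SA F q a0 ↔ AC F q a := by
  rw [mem_SA]
  unfold AC Q
  apply forall_congr'
  intro p
  apply forall_congr'
  intro _
  apply forall_congr'
  intro hpq
  rw [not_exists]
  apply forall_congr'
  intro i
  apply not_congr
  apply dvd_eval_congr
  have h1 : (q : ℤ) ∣ ((a0 : ℕ) : ℤ) - ((a + (s : ℕ) : ℕ) : ℤ) := (Nat.modEq_iff_dvd).1 h
  have h2 : (p : ℤ) ∣ q := by exact_mod_cast hpq
  have h3 : (a0 : ℤ) - (s : ℕ) - (a : ℤ) = ((a0 : ℕ) : ℤ) - ((a + (s : ℕ) : ℕ) : ℤ) := by push_cast; ring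
  rw [h3]
  exact h2.trans h1

lemma exists_mark (q a0 a : ℕ) (hq : 1 ≤ q) : ∃ s : Fin q, a + (s : ℕ) ≡ a0 [MOD q] := by
  refine ⟨⟨(a0 + (q - a % q)) % q, Nat.mod_lt _ (by omega)⟩, ?_⟩
  simp only
  have h1 : a % q < q := Nat.mod_lt _ (by omega)
  have h2 : a + (a0 + (q - a % q)) % q ≡ a + (a0 + (q - a % q)) [MOD q] :=
    Nat.ModEq.add_left a (Nat.mod_modEq _ _)
  refine h2.trans ?_
  have h3 : a + (a0 + (q - a % q)) ≡ a % q + (a0 + (q - a % q)) [MOD q] :=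
    Nat.ModEq.add_right _ (Nat.mod_modEq _ _).symm
  refine h3.trans ?_
  have h4 : a % q + (a0 + (q - a % q)) = a0 + q := by omega
  rw [h4]
  unfold Nat.ModEq
  simp

lemma mark_unique (q a0 a : ℕ) (s s' : Fin q) (h : a + (s : ℕ) ≡ a0 [MOD q]) (h' : a + (s' : ℕ) ≡ a0 [MOD q]) :
    s = s' := by
  have h1 : a + (s : ℕ) ≡ a + (s' : ℕ) [MOD q] := h.trans h'.symm
  have h2 := Nat.ModEq.add_left_cancel' _ h1
  apply Fin.ext
  unfold Nat.ModEq at h2
  rwa [Nat.mod_eq_of_lt s.isLt, Nat.mod_eq_of_lt s'.isLt] at h2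

lemma card_SA (F : Fin k → ℤ[X]) (q a0 : ℕ) (hq : 1 ≤ q) : (SA F q a0).card = gq F q := by
  classical
  unfold gq
  choose f hf using fun a => exists_mark q a0 a hq
  symm
  apply Finset.card_bij (fun a _ => f a)
  · intro a ha
    rw [mem_filter] at ha
    exact (SA_class F q a0 a (f a) (hf a)).2 ha.2
  · intro a ha b hb hab
    rw [mem_filter, mem_range] at ha hb
    have h1 : a + (f a : ℕ) ≡ b + (f a : ℕ) [MOD q] := by
      refine (hf a).trans ?_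
      rw [hab]
      exact (hf b).symm
    have h2 := Nat.ModEq.add_right_cancel' _ h1
    unfold Nat.ModEq at h2
    rwa [Nat.mod_eq_of_lt ha.1, Nat.mod_eq_of_lt hb.1] at h2
  · intro s hs
    obtain ⟨t, ht⟩ := exists_mark q a0 (s : ℕ) hq
    have h1 : (t : ℕ) + (s : ℕ) ≡ a0 [MOD q] := by rw [add_comm]; exact ht
    have h2 := mark_unique q a0 t (f t) s (hf t) h1
    refine ⟨t, ?_, h2⟩
    rw [mem_filter, mem_range]
    exact ⟨t.isLt, (SA_class F q a0 t s h1).1 hs⟩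

open Classical in
/-- the counts in the cells -/
lemma cnt_eq (F : Fin k → ℤ[X]) (q y Δ a0 n : ℕ) (hq : 1 ≤ q) (hqy : q ≤ y) (i : ℕ) (s : Fin q) :
    cnt (fun s : Fin q => QL F q ((a0 : ℤ) - (s : ℕ))) (SA F q a0) y Δ n i s =
      ((Ioc (i * Δ) ((i + 1) * Δ)).filter (fun b => Sf (Q F) y (q * n + a0 + q * b - s))).card := by
  have hsq := s.isLt
  have hpos : ∀ b ∈ Ioc (i * Δ) ((i + 1) * Δ), q ≤ q * b := by
    intro b hb
    rw [mem_Ioc] at hb
    exact Nat.le_mul_of_pos_right q (by omega)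
  have hcast : ∀ b ∈ Ioc (i * Δ) ((i + 1) * Δ),
      ((q * n + a0 + q * b - s : ℕ) : ℤ) = q * ((n + b : ℕ) : ℤ) + ((a0 : ℤ) - (s : ℕ)) := by
    intro b hb
    have h1 := hpos b hb
    rw [Nat.cast_sub (by omega)]
    push_cast
    ring
  unfold cnt
  split_ifs with hs
  · unfold NB
    congr 1
    apply Finset.filter_congr
    intro b hb
    rw [mem_SA] at hs
    exact sf_QL F q _ y (n + b) _ (hcast b hb) hq hqy ((a0 : ℤ) - (s : ℕ)) (by simp) hs
  · symm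
    rw [card_eq_zero]
    apply Finset.filter_false_of_mem
    intro b hb hSf
    apply hs
    rw [mem_SA]
    intro p hp hpq i hi
    have hpy : p ≤ y := (Nat.le_of_dvd hq hpq).trans hqy
    apply hSf p (mem_pz.2 ⟨hpy, hp⟩)
    refine ⟨i, ?_⟩
    have hpq' : (p : ℤ) ∣ q := by exact_mod_cast hpq
    refine (dvd_eval_congr (F i) p _ _ ?_).2 hi
    rw [hcast b hb]
    have : (q : ℤ) * ((n + b : ℕ) : ℤ) + ((a0 : ℤ) - (s : ℕ)) - ((a0 : ℤ) - (s : ℕ)) =
        q * ((n + b : ℕ) : ℤ) := by ring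
    rw [this]
    exact hpq'.mul_right _

lemma sum_xc (F : Fin k → ℤ[X]) (q y Δ a0 : ℕ) (hq : 1 ≤ q) :
    ∑ s : Fin q, xc (fun s : Fin q => QL F q ((a0 : ℤ) - (s : ℕ))) (SA F q a0) y Δ s =
      gq F q * (Δ * Vq (QL F q a0) y) := by
  unfold xc
  rw [Finset.sum_ite_mem, univ_inter, Finset.sum_congr rfl (fun s _ => by rw [Vq_QL F q _ (a0 : ℤ) y]),
    Finset.sum_const, card_SA F q a0 hq, nsmul_eq_mul]

/-- translates in both directions -/
lemma not_assoc {D : ℕ} {H U : ℝ} {F : Fin k → ℤ[X]} (hF : US k D H U F) (i j : Fin k) (h : ℤ) (h0 : h ≠ 0)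
    (hU : ((|h| : ℤ) : ℝ) ≤ U) : ¬ Associated (F i) ((F j).comp (X + C h)) := by
  rcases lt_or_gt_of_ne h0 with h1 | h1
  · intro hass
    have h2 : Associated (F j) ((F i).comp (X + C (((-h).toNat : ℕ) : ℤ))) := by
      have e : (((-h).toNat : ℕ) : ℤ) = -h := Int.toNat_of_nonneg (by omega)
      rw [e]
      obtain ⟨u, hu⟩ := hass
      obtain ⟨r, hr, hru⟩ := Polynomial.isUnit_iff.1 u.isUnit
      have h3 : (F i * ↑u).comp (X + C (-h)) = F j := by
        rw [hu, comp_assoc]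
        have : (X + C h).comp (X + C (-h)) = (X : ℤ[X]) := by
          rw [add_comp, X_comp, C_comp, C_neg]
          ring
        rw [this, comp_X]
      rw [← hru, mul_comp, C_comp] at h3
      refine (Associated.symm ⟨u, ?_⟩)
      rw [← hru]
      exact h3
    apply hF.tr j i (-h).toNat (by omega) _ h2
    have e : (((-h).toNat : ℕ) : ℝ) = ((|h| : ℤ) : ℝ) := by
      have e1 : (((-h).toNat : ℕ) : ℤ) = |h| := by
        rw [Int.toNat_of_nonneg (by omega), abs_of_neg h1]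
      exact_mod_cast e1
    rw [e]
    exact hU
  · intro hass
    have e1 : ((h.toNat : ℕ) : ℤ) = h := Int.toNat_of_nonneg (by omega)
    rw [← e1] at hass
    apply hF.tr i j h.toNat (by omega) _ hass
    have e : ((h.toNat : ℕ) : ℝ) = ((|h| : ℤ) : ℝ) := by
      have e2 : ((h.toNat : ℕ) : ℤ) = |h| := by rw [e1, abs_of_pos h1]
      exact_mod_cast e2
    rw [e]
    exact hU

/-- the collision primes of the classes -/
lemma rm_cls {D : ℕ} {H U B V : ℝ} {F : Fin k → ℤ[X]} (hF : US k D H U F) (q a0 : ℕ) (hq : 1 ≤ q) (hV : q * (V + 1) ≤ U)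
    (hres : ∀ h : ℤ, ((|h| : ℤ) : ℝ) ≤ U → (∀ i j, ¬ Associated (F i) ((F j).comp (X + C h))) →
      ∃ R : ℕ, 0 < R ∧ (R : ℝ) ≤ B ∧
        ∀ (p : ℕ) (m : ℤ), (∃ i, (p : ℤ) ∣ (F i).eval m) → (∃ j, (p : ℤ) ∣ (F j).eval (m + h)) → p ∣ R) :
    RM (QL F q a0) (fun s : Fin q => QL F q ((a0 : ℤ) - (s : ℕ))) (fun _ _ => ∅) B V := by
  have hqr : (1 : ℝ) ≤ q := by exact_mod_cast hq
  have key : ∀ (e e' : ℤ) (d : ℕ), (d : ℝ) ≤ V → q * (d : ℤ) + e' - e ≠ 0 → |e' - e| ≤ q →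
      ∃ R : ℕ, 0 < R ∧ (R : ℝ) ≤ B ∧ ∀ p : ℕ, p.Prime → d < p → CG (QL F q e) (QL F q e') p d → p ∣ R := by
    intro e e' d hd hne hee
    have hU : ((|(q : ℤ) * (d : ℤ) + e' - e| : ℤ) : ℝ) ≤ U := by
      have h1 : |(q : ℤ) * (d : ℤ) + e' - e| ≤ q * d + q := by
        rw [add_sub_assoc]
        refine (abs_add_le _ _).trans ?_
        rw [abs_of_nonneg (by positivity : (0 : ℤ) ≤ (q : ℤ) * d)]
        linarith
      have h2 : ((|(q : ℤ) * (d : ℤ) + e' - e| : ℤ) : ℝ) ≤ q * d + q := by exact_mod_cast h1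
      refine h2.trans (le_trans ?_ hV)
      nlinarith
    obtain ⟨R, hR0, hRB, hRd⟩ := hres _ hU (fun i j => not_assoc hF i j _ hne hU)
    refine ⟨R, hR0, hRB, ?_⟩
    rintro p _ _ ⟨m, ⟨_, h1⟩, ⟨_, j, h2⟩⟩
    refine hRd p ((q : ℤ) * m + e) h1 ⟨j, ?_⟩
    have : (q : ℤ) * (m : ℤ) + e + (q * (d : ℤ) + e' - e) = q * ((m + d : ℕ) : ℤ) + e' := by
      push_cast
      ring
    rw [this]
    exact h2
  constructor
  · intro s d hd hdV
    have hs := s.isLt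
    apply key (a0 : ℤ) ((a0 : ℤ) - (s : ℕ)) d hdV
    · have h1 : (q : ℤ) ≤ q * d := by
        have : (1 : ℤ) ≤ d := by exact_mod_cast hd
        nlinarith
      have h2 : ((s : ℕ) : ℤ) < q := by exact_mod_cast hs
      have e : (q : ℤ) * (d : ℤ) + ((a0 : ℤ) - (s : ℕ)) - a0 = q * d - (s : ℕ) := by ring
      rw [e]
      omega
    · rw [show (a0 : ℤ) - (s : ℕ) - a0 = -((s : ℕ) : ℤ) by ring, abs_neg, abs_of_nonneg (by positivity)]
      exact_mod_cast hs.le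
  · intro s t d hdV _ hor
    have hs := s.isLt
    have ht := t.isLt
    have hs' : ((s : ℕ) : ℤ) < q := by exact_mod_cast hs
    have ht' : ((t : ℕ) : ℤ) < q := by exact_mod_cast ht
    have hs0 : (0 : ℤ) ≤ ((s : ℕ) : ℤ) := by positivity
    have ht0 : (0 : ℤ) ≤ ((t : ℕ) : ℤ) := by positivity
    apply key ((a0 : ℤ) - (s : ℕ)) ((a0 : ℤ) - (t : ℕ)) d hdV
    · have e : (q : ℤ) * (d : ℤ) + ((a0 : ℤ) - (t : ℕ)) - ((a0 : ℤ) - (s : ℕ)) = q * d + (s : ℕ) - (t : ℕ) := by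
        ring
      rw [e]
      rcases Nat.eq_zero_or_pos d with h1 | h1
      · subst h1
        have h2 : s ≠ t := by
          rcases hor with h | h
          · omega
          · exact h
        intro h3
        apply h2
        apply Fin.ext
        push_cast at h3
        omega
      · have h2 : (q : ℤ) ≤ q * d := by
          have : (1 : ℤ) ≤ d := by exact_mod_cast h1
          nlinarith
        omega
    · rw [show (a0 : ℤ) - (t : ℕ) - ((a0 : ℤ) - (s : ℕ)) = ((s : ℕ) : ℤ) - (t : ℕ) by ring, abs_le]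
      constructor <;> omega

open Classical in
/-- the number of the elements of the sample -/
lemma fund_OmY (c : ℕ) (hc : 1 ≤ c) (η : ℝ) (hη : 0 < η) : ∃ K0 x0 : ℕ, 1 ≤ K0 ∧
    ∀ (P : ℕ → ℕ → Prop) (y Z Y : ℕ), PerB P c → x0 ≤ y → y ^ K0 ≤ Y →
      |((OmY P y Z Y).card : ℝ) - Y * Vq P y| ≤ η * (Y * Vq P y) + √(Y : ℝ) := by
  obtain ⟨K0, x0, hK0, hfund⟩ := sys_fund c hc η hη
  refine ⟨K0, x0, hK0, ?_⟩
  intro P y Z Y hP hy hyY
  have h3 := hfund Y y hy hyY (Qt P Z) (perB_Qt P c hP Z) Y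
  have e1 : ∏ p ∈ pz y, (1 - (nuB (Qt P Z) p : ℝ) / p) = Vq P y := Vq_Qt P c hP Z y
  rw [e1] at h3
  have e2 : (OmY P y Z Y).card = ((Icc 1 Y).filter (fun n : ℕ => ∀ p ∈ pz y, ¬ Qt P Z p n)).card := by
    have h4 := card_OmY P y Z Y (fun _ => True)
    simp only [Finset.filter_true] at h4
    rw [h4]
    unfold OmG Sf
    congr
  rw [e2]
  exact h3

end Pool.Agent.Q236.UL
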