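import Pool.Agent.Q236.UL.Fix3
import Pool.Agent.Q236.UL.Cells
import Pool.Agent.Q236.UL.Conv

set_option autoImplicit false

/-!
# The law of single configurations, from the joint law of windows
-/

namespace Pool.Agent.Q236.UL

open Finset Filter Pool.Agent.H373R2.T7 Pool.Agent.W123.RP Pool.Agent.W123.RU Pool.Agent.TH464.PO
open Pool.Agent.TH464.PW Pool.Agent.Y879.AP Pool.Agent.Y879.GL Pool.Agent.Q236.GW
open Pool.Agent.Q236.CP Pool.Agent.Q236.ML

variable {σ : Type*} [Fintype σ] [DecidableEq σ]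

/-- the numbers of the points in the cells -/
noncomputable def cnu (Q : σ → ℕ → ℕ → Prop) (y Δ n i : ℕ) (s : σ) : ℕ :=
  NB (Q s) y (Ioc (i * Δ) ((i + 1) * Δ)) n

open Classical in
/-- **The law of single configurations**, from the joint law of windows. -/
theorem ev_law (N' : ℕ) (Q : σ → ℕ → ℕ → Prop) (Om : Finset ℕ) (y Δ : ℕ) (e M : ℝ)
    (hlaw : ∀ (u v : Fin N' × σ → ℕ), (∀ t, u t ≤ v t) → (∀ t, v t ≤ N' * Δ) →
      (∀ s t, s ≠ t → s.2 = t.2 → Disjoint (Ioc (u s) (v s)) (Ioc (u t) (v t))) →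
      ∀ A : Finset (Fin N' × σ → ℕ), |((Om.filter
        (fun n => (fun t => NB (Q t.2) y (Ioc (u t) (v t)) n) ∈ A)).card : ℝ) -
        M * PoJ (fun t => ((v t : ℝ) - u t) * Vq (Q t.2) y) A| ≤ e)
    (l : List (ℕ × σ)) (hl : tot l ≤ N') :
    |((Om.filter (fun n => Ev (cnu Q y Δ n) 0 l)).card : ℝ) - M * wt (fun s => Δ * Vq (Q s) y) l| ≤ e := by
  obtain ⟨u, hu⟩ : ∃ u : Fin N' × σ → ℕ, u = fun t => if (t.1 : ℕ) < tot l then t.1 * Δ else 0 :=
    ⟨_, rfl⟩
  obtain ⟨v, hv⟩ : ∃ v : Fin N' × σ → ℕ, v = fun t => if (t.1 : ℕ) < tot l then (t.1 + 1) * Δ else 0 :=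
    ⟨_, rfl⟩
  have huv : ∀ t, u t ≤ v t := by
    intro t
    rw [hu, hv]
    simp only
    split_ifs
    · exact Nat.mul_le_mul_right _ (by omega)
    · exact le_rfl
  have hvN : ∀ t, v t ≤ N' * Δ := by
    intro t
    rw [hv]
    simp only
    split_ifs
    · exact Nat.mul_le_mul_right _ (by omega)
    · exact Nat.zero_le _
  have hdisj : ∀ s t : Fin N' × σ, s ≠ t → s.2 = t.2 → Disjoint (Ioc (u s) (v s)) (Ioc (u t) (v t)) := by
    intro s t hst h2
    rw [Finset.disjoint_left]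
    intro b hb hb'
    rw [hu, hv] at hb hb'
    simp only at hb hb'
    split_ifs at hb hb' with h3 h4 h4
    · rw [mem_Ioc] at hb hb'
      have h5 : (s.1 : ℕ) ≠ t.1 := fun h => hst (Prod.ext (Fin.ext h) h2)
      rcases lt_or_gt_of_ne h5 with h6 | h6
      · have := Nat.mul_le_mul_right Δ (show (s.1 : ℕ) + 1 ≤ t.1 by omega)
        omega
      · have := Nat.mul_le_mul_right Δ (show (t.1 : ℕ) + 1 ≤ s.1 by omega)
        omega
    · simp at hb'
    · simp at hb
    · simp at hb
  -- the singleton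
  obtain ⟨j0, hj0⟩ : ∃ j0 : Fin N' × σ → ℕ, j0 = fun t => if (t.1 : ℕ) < tot l then conf l t.1 t.2 else 0 :=
    ⟨_, rfl⟩
  have hmain := hlaw u v huv hvN hdisj {j0}
  have e1 : Om.filter (fun n => Ev (cnu Q y Δ n) 0 l) =
      Om.filter (fun n => (fun t : Fin N' × σ => NB (Q t.2) y (Ioc (u t) (v t)) n) ∈
        ({j0} : Finset (Fin N' × σ → ℕ))) := by
    apply Finset.filter_congr
    intro n _
    rw [mem_singleton, Ev_iff]
    constructor
    · intro h
      funext t
      rw [hu, hv, hj0]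
      simp only
      by_cases h1 : (t.1 : ℕ) < tot l
      · rw [if_pos h1]
        have h2 := h t.1 h1 t.2
        rw [Nat.zero_add] at h2
        rw [if_pos h1, if_pos h1]
        exact h2
      · rw [if_neg h1, if_neg h1, if_neg h1]
        unfold NB
        simp
    · intro h j hj s
      rw [Nat.zero_add]
      have h2 := congrFun h (⟨j, by omega⟩, s)
      rw [hu, hv, hj0] at h2
      simp only at h2
      rw [if_pos hj, if_pos hj, if_pos hj] at h2
      exact h2
  have e2 : PoJ (fun t : Fin N' × σ => ((v t : ℝ) - u t) * Vq (Q t.2) y) {j0} = wt (fun s => Δ * Vq (Q s) y) l := by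
    unfold PoJ
    rw [Finset.sum_singleton, Fintype.prod_prod_type, ← wt_conf]
    have h1 : ∏ i : Fin N', ∏ s, (Real.exp (-(((v (i, s) : ℝ) - u (i, s)) * Vq (Q s) y)) *
        (((v (i, s) : ℝ) - u (i, s)) * Vq (Q s) y) ^ j0 (i, s) / ((j0 (i, s)).factorial : ℝ)) =
        ∏ i : Fin N', (fun i : ℕ => if i < tot l then ∏ s, (Real.exp (-(Δ * Vq (Q s) y)) *
          (Δ * Vq (Q s) y) ^ conf l i s / ((conf l i s).factorial : ℝ)) else 1) i := by
      apply Finset.prod_congr rfl
      intro i _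
      simp only
      split_ifs with h1
      · apply Finset.prod_congr rfl
        intro s _
        rw [hu, hv, hj0]
        simp only
        rw [if_pos h1, if_pos h1, if_pos h1]
        have : ((((i : ℕ) + 1) * Δ : ℕ) : ℝ) - (((i : ℕ) * Δ : ℕ) : ℝ) = Δ := by
          push_cast
          ring
        rw [this]
      · apply Finset.prod_eq_one
        intro s _
        rw [hu, hv, hj0]
        simp only
        rw [if_neg h1, if_neg h1, if_neg h1]
        simp
    refine h1.trans ?_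
    rw [Fin.prod_univ_eq_prod_range (fun i : ℕ => if i < tot l then ∏ s, (Real.exp (-(Δ * Vq (Q s) y)) *
          (Δ * Vq (Q s) y) ^ conf l i s / ((conf l i s).factorial : ℝ)) else 1) N']
    rw [← Finset.prod_subset (Finset.range_subset_range.2 hl) (fun i _ hi => by
      rw [mem_range] at hi
      rw [if_neg hi])]
    apply Finset.prod_congr rfl
    intro i hi
    rw [mem_range] at hi
    rw [if_pos hi]
  rw [e2] at hmain
  rw [e1]
  exact hmain

/-- the limit, with a small constant -/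
theorem marks_conv2 (J : ℕ) (Λ ε : ℝ) (hΛ : 0 ≤ Λ) (hε : 0 < ε) : ∃ (κ : ℝ) (N : ℕ), 0 < κ ∧ κ ≤ 1 ∧ κ ≤ ε ∧ 1 ≤ N ∧
    ∀ (y : ℝ) (t : Fin J → ℝ) (Dm Dp : Fin J → ℕ), κ / 2 ≤ y → y ≤ κ → (∀ l, 0 ≤ t l) → (∀ l, t l ≤ Λ) →
      (∀ l, y * Dp l ≤ t l + κ) → (∀ l, t l - κ ≤ y * Dp l) → (∀ l, t l - 3 * κ ≤ y * Dm l) →
      (∀ l, y * Dm l ≤ t l) → (∀ l, Dp l ≤ N) ∧
      Real.exp (-∑ l, t l) - ε ≤ ∏ l, ((1 - y) * (Real.exp (-(y * Dp l)) - Real.exp (-(y * N)))) ∧
      1 - ((1 - y) * (1 - Real.exp (-(y * N)))) ^ J ≤ ε ∧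
      ∏ l, Real.exp (-(y * Dm l)) ≤ Real.exp (-∑ l, t l) + ε := by
  obtain ⟨κ, hκ⟩ : ∃ κ : ℝ, κ = min 1 (ε / (4 * (J + 1))) := ⟨_, rfl⟩
  have hκ0 : 0 < κ := by rw [hκ]; positivity
  have hκ1 : κ ≤ 1 := by rw [hκ]; exact min_le_left _ _
  have hκε : 4 * (J + 1) * κ ≤ ε := by
    have h1 : κ ≤ ε / (4 * (J + 1)) := by rw [hκ]; exact min_le_right _ _
    rw [le_div_iff₀ (by positivity)] at h1
    linarith
  have hκε' : κ ≤ ε := by
    have : (0 : ℝ) ≤ J := Nat.cast_nonneg _
    nlinarith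
  have hlim : Filter.Tendsto (fun N : ℕ => Real.exp (-(κ / 2 * N))) Filter.atTop (nhds 0) := by
    apply Real.tendsto_exp_atBot.comp
    apply Filter.tendsto_neg_atTop_atBot.comp
    exact (tendsto_natCast_atTop_atTop).const_mul_atTop (by positivity)
  obtain ⟨N, hN1, hN2, hN3⟩ := ((hlim.eventually_le_const (show (0 : ℝ) < κ from hκ0)).and
    ((Filter.eventually_ge_atTop ⌈2 * (Λ + 1) / κ⌉₊).and (Filter.eventually_ge_atTop 1))).exists
  have hNr : 2 * (Λ + 1) / κ ≤ N := (Nat.le_ceil _).trans (by exact_mod_cast hN2)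
  rw [div_le_iff₀ hκ0] at hNr
  refine ⟨κ, N, hκ0, hκ1, hκε', hN3, ?_⟩
  intro y t Dm Dp hy1 hy2 ht0 htΛ hDp hDp' hDm hDm'
  have hy0 : 0 < y := by linarith
  have hJ : (0 : ℝ) ≤ J := Nat.cast_nonneg _
  have hyN : Λ + 1 ≤ y * N := by nlinarith
  have hexpN : Real.exp (-(y * N)) ≤ κ := by
    refine le_trans (Real.exp_le_exp.2 ?_) hN1
    have : κ / 2 * N ≤ y * N := mul_le_mul_of_nonneg_right hy1 (Nat.cast_nonneg _)
    linarith
  have hexpN0 : 0 < Real.exp (-(y * N)) := Real.exp_pos _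
  refine ⟨?_, ?_, ?_, ?_⟩
  · intro l
    have h1 : y * Dp l ≤ y * N := (hDp l).trans (by linarith [htΛ l])
    have h2 : (Dp l : ℝ) ≤ N := le_of_mul_le_mul_left h1 hy0
    exact_mod_cast h2
  · have h1 : ∀ l, |(1 - y) * (Real.exp (-(y * Dp l)) - Real.exp (-(y * N))) - Real.exp (-t l)| ≤ 3 * κ := by
      intro l
      have h2 := exp_abs_sub (y * Dp l) (t l) (by positivity) (ht0 l)
      have h3 : |y * Dp l - t l| ≤ κ := by
        rw [abs_le]
        constructor <;> linarith [hDp l, hDp' l]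
      have h4 : 0 < Real.exp (-(y * Dp l)) := Real.exp_pos _
      have h5 : Real.exp (-(y * Dp l)) ≤ 1 := by
        rw [Real.exp_le_one_iff]
        have : 0 ≤ y * (Dp l : ℝ) := by positivity
        linarith
      have h6 := abs_le.1 (h2.trans h3)
      rw [abs_le]
      constructor
      · nlinarith
      · nlinarith
    have h2 := prod_diff (univ : Finset (Fin J))
      (fun l => (1 - y) * (Real.exp (-(y * Dp l)) - Real.exp (-(y * N)))) (fun l => Real.exp (-t l)) (3 * κ)
      (fun l _ => by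
        have h4 : Real.exp (-(y * N)) ≤ Real.exp (-(y * Dp l)) := by
          apply Real.exp_le_exp.2
          have : y * Dp l ≤ y * N := (hDp l).trans (by linarith [htΛ l])
          linarith
        have h5 : Real.exp (-(y * Dp l)) ≤ 1 := by
          rw [Real.exp_le_one_iff]
          have : 0 ≤ y * (Dp l : ℝ) := by positivity
          linarith
        constructor
        · apply mul_nonneg (by linarith) (by linarith)
        · have : 0 ≤ Real.exp (-(y * Dp l)) - Real.exp (-(y * N)) := by linarith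
          nlinarith) (fun l _ => ⟨(Real.exp_pos _).le, by
        rw [Real.exp_le_one_iff]
        have := ht0 l
        linarith⟩) (fun l _ => h1 l)
    rw [prod_exp t, card_univ, Fintype.card_fin] at h2
    have h3 := (abs_le.1 h2).1
    nlinarith
  · have h2 := prod_diff (univ : Finset (Fin J)) (fun _ => (1 - y) * (1 - Real.exp (-(y * N)))) (fun _ => 1)
      (2 * κ) (fun l _ => by
        constructor
        · apply mul_nonneg (by linarith) (by linarith)
        · nlinarith) (fun l _ => ⟨by norm_num, le_rfl⟩) (fun l _ => by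
        rw [abs_le]
        constructor <;> nlinarith)
    rw [Finset.prod_const, Finset.prod_const, one_pow, card_univ, Fintype.card_fin] at h2
    have h3 := (abs_le.1 h2).1
    nlinarith
  · have h1 : ∀ l, |Real.exp (-(y * Dm l)) - Real.exp (-t l)| ≤ 3 * κ := by
      intro l
      refine (exp_abs_sub (y * Dm l) (t l) (by positivity) (ht0 l)).trans ?_
      rw [abs_le]
      constructor <;> linarith [hDm l, hDm' l]
    have h2 := prod_diff (univ : Finset (Fin J)) (fun l => Real.exp (-(y * Dm l))) (fun l => Real.exp (-t l))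
      (3 * κ) (fun l _ => ⟨(Real.exp_pos _).le, by
        rw [Real.exp_le_one_iff]
        have : 0 ≤ y * (Dm l : ℝ) := by positivity
        linarith⟩) (fun l _ => ⟨(Real.exp_pos _).le, by
        rw [Real.exp_le_one_iff]
        have := ht0 l
        linarith⟩) (fun l _ => h1 l)
    rw [prod_exp t, card_univ, Fintype.card_fin] at h2
    have h3 := (abs_le.1 h2).2
    have h4 : 0 ≤ (J : ℝ) * κ := by positivity
    have h5 : ∏ l, Real.exp (-(y * Dm l)) - Real.exp (-∑ l, t l) ≤ J * (3 * κ) := h3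
    have h6 : (J : ℝ) * (3 * κ) ≤ ε := by nlinarith
    linarith

end Pool.Agent.Q236.UL
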