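import Pool.Agent.Q236.ML.Law

set_option autoImplicit false

/-!
# Families of sieve conditions: the tails of the singular series
-/

namespace Pool.Agent.Q236.UL

open Finset Pool.Agent.H373R2.T7 Pool.Agent.W123.RP Pool.Agent.W123.RU Pool.Agent.TH464.PO

variable {ι : Type*} [DecidableEq ι]

/-- the union of the conditions with index in `J` -/
def EH (E : ι → ℕ → ℕ → Prop) (J : Finset ι) (p n : ℕ) : Prop := ∃ i ∈ J, E i p n

/-- a collision of two conditions -/
def Col (E : ι → ℕ → ℕ → Prop) (i j : ι) (p : ℕ) : Prop := ∃ n : ℕ, E i p n ∧ E j p n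

/-- a collision in `J` -/
def ClE (E : ι → ℕ → ℕ → Prop) (J : Finset ι) (p : ℕ) : Prop := ∃ i ∈ J, ∃ j ∈ J, i ≠ j ∧ Col E i j p

lemma sf_EH (E : ι → ℕ → ℕ → Prop) (J : Finset ι) (y n : ℕ) : Sf (EH E J) y n ↔ ∀ i ∈ J, Sf (E i) y n := by
  unfold Sf EH
  constructor
  · intro h i hi p hp hE
    exact h p hp ⟨i, hi, hE⟩
  · rintro h p hp ⟨i, hi, hE⟩
    exact h i hi p hp hE

open Classical in
lemma filter_EH (E : ι → ℕ → ℕ → Prop) (J : Finset ι) (p : ℕ) :
    (range p).filter (fun r => EH E J p r) = J.biUnion (fun i => (range p).filter (fun r => E i p r)) := by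
  ext r
  rw [mem_filter, mem_biUnion]
  unfold EH
  constructor
  · rintro ⟨hr1, i, hi, hq⟩
    exact ⟨i, hi, mem_filter.2 ⟨hr1, hq⟩⟩
  · rintro ⟨i, hi, hr⟩
    rw [mem_filter] at hr
    exact ⟨hr.1, i, hi, hr.2⟩

lemma nuB_EH_le (E : ι → ℕ → ℕ → Prop) (J : Finset ι) (p : ℕ) : nuB (EH E J) p ≤ ∑ i ∈ J, nuB (E i) p := by
  classical
  have h1 := card_biUnion_le (s := J) (t := fun i => (range p).filter (fun r => E i p r))
  rw [← filter_EH E J p] at h1
  unfold nuB
  convert h1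

lemma nuB_EH_eq (E : ι → ℕ → ℕ → Prop) (c : ℕ) (hE : ∀ i, PerB (E i) c) (J : Finset ι) (p : ℕ)
    (h : ¬ ClE E J p) : nuB (EH E J) p = ∑ i ∈ J, nuB (E i) p := by
  classical
  have hd : (J : Set ι).PairwiseDisjoint (fun i => (range p).filter (fun r => E i p r)) := by
    intro a ha b hb hab
    rw [Function.onFun, Finset.disjoint_left]
    intro r hr hr'
    rw [mem_filter] at hr hr'
    exact h ⟨a, ha, b, hb, hab, r, hr.2, hr'.2⟩
  have h2 := Finset.card_biUnion hd
  rw [← filter_EH E J p] at h2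
  unfold nuB
  convert h2

lemma perB_EH (E : ι → ℕ → ℕ → Prop) (c : ℕ) (hE : ∀ i, PerB (E i) c) (J : Finset ι) :
    PerB (EH E J) (J.card * c) := by
  constructor
  · intro p n
    unfold EH
    apply exists_congr
    intro i
    apply and_congr_right
    intro _
    exact (hE i).per p n
  · intro p hp
    refine (nuB_EH_le E J p).trans ?_
    refine (sum_le_sum fun i _ => (hE i).few p hp).trans ?_
    rw [sum_const, smul_eq_mul]

/-- a product of numbers `1 - u` -/
lemma prod_one_sub_le {κ : Type*} (s : Finset κ) (u : κ → ℝ) (h0 : ∀ i ∈ s, 0 ≤ u i) (h1 : ∀ i ∈ s, u i ≤ 1) :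
    ∏ i ∈ s, (1 - u i) ≤ 1 - ∑ i ∈ s, u i + (∑ i ∈ s, u i) ^ 2 / 2 := by
  classical
  induction s using Finset.induction_on with
  | empty => simp
  | insert a s ha ih =>
    rw [Finset.sum_insert ha, Finset.prod_insert ha]
    have h2 := ih (fun i hi => h0 i (mem_insert_of_mem hi)) (fun i hi => h1 i (mem_insert_of_mem hi))
    have h3 : 0 ≤ u a := h0 a (mem_insert_self _ _)
    have h4 : u a ≤ 1 := h1 a (mem_insert_self _ _)
    obtain ⟨U, hU⟩ : ∃ U, U = ∑ i ∈ s, u i := ⟨_, rfl⟩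
    rw [← hU] at h2 ⊢
    calc (1 - u a) * ∏ i ∈ s, (1 - u i) ≤ (1 - u a) * (1 - U + U ^ 2 / 2) :=
          mul_le_mul_of_nonneg_left h2 (by linarith)
      _ ≤ 1 - (u a + U) + (u a + U) ^ 2 / 2 := by nlinarith [mul_nonneg h3 (sq_nonneg U), sq_nonneg (u a)]

section factor

variable (E : ι → ℕ → ℕ → Prop) (c : ℕ) (hE : ∀ i, PerB (E i) c) (J : Finset ι) (p : ℕ) (hp : p.Prime)
  (hbig : 2 * (J.card * c) ≤ p)

include hE hp in
lemma sum_u_le : ∑ i ∈ J, (nuB (E i) p : ℝ) / p ≤ ((J.card * c : ℕ) : ℝ) / p := by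
  have hp0 : (0 : ℝ) < p := by exact_mod_cast hp.pos
  rw [← sum_div]
  apply div_le_div_of_nonneg_right _ hp0.le
  push_cast
  calc ∑ i ∈ J, (nuB (E i) p : ℝ) ≤ ∑ _i ∈ J, (c : ℝ) := by
        apply sum_le_sum
        intro i _
        exact_mod_cast (hE i).few p hp
    _ = J.card * c := by rw [sum_const, nsmul_eq_mul]

include hE hp hbig in
open Classical in
/-- upper bound for one factor -/
lemma factor_up : 1 - (nuB (EH E J) p : ℝ) / p ≤
      (∏ i ∈ J, (1 - (nuB (E i) p : ℝ) / p)) *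
        (if ClE E J p then 1 + ((2 * (J.card * c) : ℕ) : ℝ) / p else 1) := by
  have hp0 : (0 : ℝ) < p := by exact_mod_cast hp.pos
  obtain ⟨t, ht⟩ : ∃ t : ℝ, t = ∑ i ∈ J, (nuB (E i) p : ℝ) / p := ⟨_, rfl⟩
  have ht0 : 0 ≤ t := by rw [ht]; positivity
  have htc : t ≤ ((J.card * c : ℕ) : ℝ) / p := by rw [ht]; exact sum_u_le E c hE J p hp
  have hkc : ((J.card * c : ℕ) : ℝ) / p ≤ 1 / 2 := by
    rw [div_le_div_iff₀ hp0 (by norm_num)]
    have : ((2 * (J.card * c) : ℕ) : ℝ) ≤ p := by exact_mod_cast hbig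
    push_cast at this ⊢
    linarith
  have hber : 1 - t ≤ ∏ i ∈ J, (1 - (nuB (E i) p : ℝ) / p) := by
    rw [ht]
    apply prod_one_sub_ge
    · intro i _
      positivity
    · intro i _
      rw [div_le_one hp0]
      exact_mod_cast nuB_le (E i) p
  by_cases h : ClE E J p
  · rw [if_pos h]
    have h1 : 1 - (nuB (EH E J) p : ℝ) / p ≤ 1 := by
      have : (0 : ℝ) ≤ (nuB (EH E J) p : ℝ) / p := by positivity
      linarith
    refine h1.trans ?_
    have h2 : 1 + 2 * t ≤ 1 + ((2 * (J.card * c) : ℕ) : ℝ) / p := by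
      have : ((2 * (J.card * c) : ℕ) : ℝ) / p = 2 * (((J.card * c : ℕ) : ℝ) / p) := by
        push_cast
        ring
      rw [this]
      linarith
    calc (1 : ℝ) ≤ (1 - t) * (1 + 2 * t) := by nlinarith
      _ ≤ _ := by
        apply mul_le_mul hber h2 (by linarith)
        linarith
  · rw [if_neg h, mul_one, nuB_EH_eq E c hE J p h]
    refine le_trans (le_of_eq ?_) hber
    rw [ht]
    push_cast
    rw [sum_div]

include hE hp hbig in
/-- lower bound for one factor -/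
lemma factor_lo :
      (∏ i ∈ J, (1 - (nuB (E i) p : ℝ) / p)) * (1 - ((J.card * c : ℕ) : ℝ) ^ 2 / (p : ℝ) ^ 2) ≤
        1 - (nuB (EH E J) p : ℝ) / p := by
  have hp0 : (0 : ℝ) < p := by exact_mod_cast hp.pos
  obtain ⟨U, hU⟩ : ∃ U : ℝ, U = ∑ i ∈ J, (nuB (E i) p : ℝ) / p := ⟨_, rfl⟩
  have hU0 : 0 ≤ U := by rw [hU]; positivity
  have hUc : U ≤ ((J.card * c : ℕ) : ℝ) / p := by rw [hU]; exact sum_u_le E c hE J p hp
  have hkc : ((J.card * c : ℕ) : ℝ) / p ≤ 1 := by
    rw [div_le_one hp0]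
    have : J.card * c ≤ p := by omega
    exact_mod_cast this
  have hU1 : U ≤ 1 := hUc.trans hkc
  have h2 : ∏ i ∈ J, (1 - (nuB (E i) p : ℝ) / p) ≤ 1 - U + U ^ 2 / 2 := by
    rw [hU]
    apply prod_one_sub_le
    · intro i _
      positivity
    · intro i _
      rw [div_le_one hp0]
      exact_mod_cast nuB_le (E i) p
  have h3 : 0 ≤ ∏ i ∈ J, (1 - (nuB (E i) p : ℝ) / p) := by
    apply prod_nonneg
    intro i _
    exact one_sub_nonneg (E i) p hp
  have hA : U ^ 2 ≤ ((J.card * c : ℕ) : ℝ) ^ 2 / (p : ℝ) ^ 2 := by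
    rw [← div_pow]
    exact pow_le_pow_left₀ hU0 hUc 2
  have h4 : (∏ i ∈ J, (1 - (nuB (E i) p : ℝ) / p)) * (1 - ((J.card * c : ℕ) : ℝ) ^ 2 / (p : ℝ) ^ 2) ≤
      (∏ i ∈ J, (1 - (nuB (E i) p : ℝ) / p)) * (1 - U ^ 2) := mul_le_mul_of_nonneg_left (by linarith) h3
  have h5 : U ^ 2 ≤ 1 := by nlinarith
  have h6 : (∏ i ∈ J, (1 - (nuB (E i) p : ℝ) / p)) * (1 - U ^ 2) ≤ (1 - U + U ^ 2 / 2) * (1 - U ^ 2) :=
    mul_le_mul_of_nonneg_right h2 (by linarith)
  have h7 : (1 - U + U ^ 2 / 2) * (1 - U ^ 2) ≤ 1 - U := by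
    nlinarith [mul_nonneg (sq_nonneg U) (sq_nonneg (1 - U))]
  have h8 : 1 - U ≤ 1 - (nuB (EH E J) p : ℝ) / p := by
    have : (nuB (EH E J) p : ℝ) / p ≤ U := by
      rw [hU, ← sum_div]
      apply div_le_div_of_nonneg_right _ hp0.le
      exact_mod_cast nuB_EH_le E J p
    linarith
  linarith

end factor

open Classical in
/-- the product over the collision primes of two indices -/
noncomputable def Fc (E : ι → ℕ → ℕ → Prop) (K w y : ℕ) (x : ι × ι) : ℝ :=
  ∏ p ∈ (pz y).filter (fun p : ℕ => w < p ∧ Col E x.1 x.2 p), (1 + (K : ℝ) / p)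

open Classical in
lemma Fc_ge (E : ι → ℕ → ℕ → Prop) (K w y : ℕ) (x : ι × ι) : 1 ≤ Fc E K w y x := by
  unfold Fc
  apply Finset.one_le_prod
  intro p _
  have : 0 ≤ (K : ℝ) / p := by positivity
  linarith

open Classical in
lemma Fc_pow (E : ι → ℕ → ℕ → Prop) (K M w y : ℕ) (x : ι × ι) :
    Fc E K w y x ^ M ≤ Fc E ((1 + K) ^ M - 1) w y x := by
  unfold Fc
  rw [← Finset.prod_pow]
  apply Finset.prod_le_prod
  · intro p _
    positivity
  · intro p hp
    rw [mem_filter] at hp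
    have hp1 : (1 : ℝ) ≤ p := by exact_mod_cast (mem_pz.1 hp.1).2.one_lt.le
    have h := pow_factor K M (1 / (p : ℝ)) (by positivity) (by
      rw [div_le_one (by linarith)]
      exact hp1)
    rw [mul_one_div, mul_one_div] at h
    exact h

open Classical in
lemma Fc_mono (E : ι → ℕ → ℕ → Prop) (K K' w y : ℕ) (x : ι × ι) (h : K ≤ K') :
    Fc E K w y x ≤ Fc E K' w y x := by
  unfold Fc
  apply Finset.prod_le_prod
  · intro p _
    positivity
  · intro p hp
    rw [mem_filter] at hp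
    have hp1 : (0 : ℝ) < p := by exact_mod_cast (mem_pz.1 hp.1).2.pos
    have : (K : ℝ) / p ≤ K' / p := by
      apply div_le_div_of_nonneg_right _ hp1.le
      exact_mod_cast h
    linarith

open Classical in
/-- upper bound for the tail -/
lemma tail_up (E : ι → ℕ → ℕ → Prop) (c : ℕ) (hE : ∀ i, PerB (E i) c) (J : Finset ι) (w y R : ℕ)
    (hR : J.card ≤ R) (hbig : 2 * (R * c) ≤ w) :
    Vt (EH E J) w y ≤ (∏ i ∈ J, Vt (E i) w y) *
      (1 + ∑ x ∈ J.offDiag, (Fc E ((1 + 2 * (R * c)) ^ (R ^ 2) - 1) w y x - 1)) := by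
  obtain ⟨K, hK⟩ : ∃ K, K = 2 * (R * c) := ⟨_, rfl⟩
  have hJR : J.card * c ≤ R * c := Nat.mul_le_mul_right _ hR
  have h1 : Vt (EH E J) w y ≤ ∏ p ∈ (pz y).filter (fun p => w < p),
      ((∏ i ∈ J, (1 - (nuB (E i) p : ℝ) / p)) * (if ClE E J p then 1 + (K : ℝ) / p else 1)) := by
    unfold Vt
    apply Finset.prod_le_prod
    · intro p hp
      rw [mem_filter] at hp
      exact one_sub_nonneg _ p (mem_pz.1 hp.1).2
    · intro p hp
      rw [mem_filter] at hp
      have hpp := (mem_pz.1 hp.1).2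
      have hp0 : (0 : ℝ) < p := by exact_mod_cast hpp.pos
      refine (factor_up E c hE J p hpp (by omega)).trans ?_
      apply mul_le_mul_of_nonneg_left
      · split_ifs
        · have : ((2 * (J.card * c) : ℕ) : ℝ) / p ≤ (K : ℝ) / p := by
            apply div_le_div_of_nonneg_right _ hp0.le
            exact_mod_cast (by omega : 2 * (J.card * c) ≤ K)
          linarith
        · exact le_rfl
      · apply prod_nonneg
        intro i _
        exact one_sub_nonneg (E i) p hpp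
  have h2 : ∏ p ∈ (pz y).filter (fun p => w < p), (if ClE E J p then 1 + (K : ℝ) / p else 1) ≤
      ∏ x ∈ J.offDiag, Fc E K w y x := by
    have e : ∏ x ∈ J.offDiag, Fc E K w y x = ∏ p ∈ (pz y).filter (fun p => w < p),
        ∏ x ∈ J.offDiag, (if Col E x.1 x.2 p then 1 + (K : ℝ) / p else 1) := by
      rw [Finset.prod_comm]
      apply Finset.prod_congr rfl
      intro x _
      unfold Fc
      rw [← Finset.filter_filter, Finset.prod_filter]
    rw [e]
    apply Finset.prod_le_prod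
    · intro p _
      split_ifs <;> positivity
    · intro p _
      have hge : ∀ x ∈ J.offDiag, (1 : ℝ) ≤ (if Col E x.1 x.2 p then 1 + (K : ℝ) / p else 1) := by
        intro x _
        have : 0 ≤ (K : ℝ) / p := by positivity
        split_ifs <;> linarith
      split_ifs with h
      · obtain ⟨a, ha, b, hb, hab, hco⟩ := h
        have hmem : (a, b) ∈ J.offDiag := by
          rw [mem_offDiag]
          exact ⟨ha, hb, hab⟩
        have h3 := single_le_prod_one J.offDiag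
          (fun x => if Col E x.1 x.2 p then 1 + (K : ℝ) / p else 1) hge (a, b) hmem
        simp only [if_pos hco] at h3
        exact h3
      · exact Finset.one_le_prod hge
  have hoff : J.offDiag.card ≤ R ^ 2 := by
    rw [offDiag_card]
    calc J.card * J.card - J.card ≤ J.card * J.card := Nat.sub_le _ _
      _ ≤ R * R := Nat.mul_le_mul hR hR
      _ = R ^ 2 := (sq R).symm
  have h3 : ∏ x ∈ J.offDiag, Fc E K w y x - 1 ≤
      ∑ x ∈ J.offDiag, (Fc E ((1 + K) ^ (R ^ 2) - 1) w y x - 1) := by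
    refine (prod_sub_one_le J.offDiag (fun x => Fc E K w y x)
      (fun x _ => Fc_ge E K w y _) (R ^ 2) hoff).trans ?_
    apply Finset.sum_le_sum
    intro x _
    have := Fc_pow E K (R ^ 2) w y x
    linarith
  rw [← hK]
  refine h1.trans ?_
  rw [Finset.prod_mul_distrib]
  have e2 : ∏ p ∈ (pz y).filter (fun p => w < p), ∏ i ∈ J, (1 - (nuB (E i) p : ℝ) / p) =
      ∏ i ∈ J, Vt (E i) w y := by
    rw [Finset.prod_comm]
    rfl
  rw [e2]
  apply mul_le_mul_of_nonneg_left _ (prod_nonneg fun i _ => Vt_nonneg (E i) w y)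
  linarith

/-- lower bound for the tail -/
lemma tail_lo (E : ι → ℕ → ℕ → Prop) (c : ℕ) (hE : ∀ i, PerB (E i) c) (J : Finset ι) (w y R : ℕ)
    (hR : J.card ≤ R) (hw : 1 ≤ w) (hbig : 2 * (R * c) ≤ w) :
    (∏ i ∈ J, Vt (E i) w y) * (1 - ((R * c : ℕ) : ℝ) ^ 2 / w) ≤ Vt (EH E J) w y := by
  have hJR : J.card * c ≤ R * c := Nat.mul_le_mul_right _ hR
  have h1 : ∏ p ∈ (pz y).filter (fun p => w < p),
      ((∏ i ∈ J, (1 - (nuB (E i) p : ℝ) / p)) * (1 - ((R * c : ℕ) : ℝ) ^ 2 / (p : ℝ) ^ 2)) ≤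
      Vt (EH E J) w y := by
    unfold Vt
    apply Finset.prod_le_prod
    · intro p hp
      rw [mem_filter] at hp
      apply mul_nonneg (prod_nonneg fun i _ => one_sub_nonneg (E i) p (mem_pz.1 hp.1).2)
      have hp0 : (0 : ℝ) < p := by exact_mod_cast (mem_pz.1 hp.1).2.pos
      rw [sub_nonneg, div_le_one (by positivity)]
      apply pow_le_pow_left₀ (by positivity)
      have : R * c ≤ p := by omega
      exact_mod_cast this
    · intro p hp
      rw [mem_filter] at hp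
      have hpp := (mem_pz.1 hp.1).2
      have hp0 : (0 : ℝ) < p := by exact_mod_cast hpp.pos
      refine le_trans ?_ (factor_lo E c hE J p hpp (by omega))
      apply mul_le_mul_of_nonneg_left _ (prod_nonneg fun i _ => one_sub_nonneg (E i) p hpp)
      have h2 : ((J.card * c : ℕ) : ℝ) ^ 2 / (p : ℝ) ^ 2 ≤ ((R * c : ℕ) : ℝ) ^ 2 / (p : ℝ) ^ 2 := by
        apply div_le_div_of_nonneg_right _ (by positivity)
        apply pow_le_pow_left₀ (by positivity)
        exact_mod_cast hJR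
      linarith
  refine le_trans ?_ h1
  have e2 : ∏ p ∈ (pz y).filter (fun p => w < p), ∏ i ∈ J, (1 - (nuB (E i) p : ℝ) / p) =
      ∏ i ∈ J, Vt (E i) w y := by
    rw [Finset.prod_comm]
    rfl
  rw [Finset.prod_mul_distrib, e2]
  apply mul_le_mul_of_nonneg_left _ (prod_nonneg fun i _ => Vt_nonneg (E i) w y)
  refine le_trans ?_ (prod_one_sub_ge _ _ (fun p _ => by positivity) ?_)
  · have h2 := sum_inv_sq w y hw
    have h3 : ∑ p ∈ (pz y).filter (fun p => w < p), ((R * c : ℕ) : ℝ) ^ 2 / (p : ℝ) ^ 2 ≤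
        ((R * c : ℕ) : ℝ) ^ 2 * (1 / w) := by
      calc ∑ p ∈ (pz y).filter (fun p => w < p), ((R * c : ℕ) : ℝ) ^ 2 / (p : ℝ) ^ 2 ≤
          ∑ p ∈ (Icc 1 y).filter (fun n => w < n), ((R * c : ℕ) : ℝ) ^ 2 / (p : ℝ) ^ 2 := by
            apply Finset.sum_le_sum_of_subset_of_nonneg
            · intro p hp
              rw [mem_filter, mem_pz] at hp
              rw [mem_filter, mem_Icc]
              exact ⟨⟨hp.1.2.one_lt.le, hp.1.1⟩, hp.2⟩
            · intros; positivity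
        _ = ((R * c : ℕ) : ℝ) ^ 2 * ∑ p ∈ (Icc 1 y).filter (fun n => w < n), 1 / (p : ℝ) ^ 2 := by
            rw [Finset.mul_sum]
            apply Finset.sum_congr rfl
            intros
            ring
        _ ≤ _ := by gcongr
    have h4 : ((R * c : ℕ) : ℝ) ^ 2 * (1 / w) = ((R * c : ℕ) : ℝ) ^ 2 / w := by ring
    linarith
  · intro p hp
    rw [mem_filter] at hp
    have hp0 : (0 : ℝ) < p := by exact_mod_cast (mem_pz.1 hp.1).2.pos
    rw [div_le_one (by positivity)]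
    apply pow_le_pow_left₀ (by positivity)
    have : R * c ≤ p := by omega
    exact_mod_cast this

end Pool.Agent.Q236.UL
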