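import Pool.Agent.Q236.UL.Sys

set_option autoImplicit false

/-!
# Finite sets of irreducible polynomials as systems, sieve products without local conditions
-/

namespace Pool.Agent.Q236.UL

open Polynomial Finset Filter
open Pool.Agent.W123.RP Pool.Agent.H373R2.T7 Pool.Agent.W123.RU Pool.Agent.W123.RU.Poly
open Pool.Agent.TH464.PW Pool.Agent.TH464.PO Pool.Agent.Y879.GL Pool.Agent.Q236.CP Pool.Agent.Q236.GW
open Pool.Agent.H474R2.PG

/-- the condition of a finite set of polynomials -/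
def QS (S : Finset ℤ[X]) : ℕ → ℕ → Prop := Q (fun f : {f // f ∈ S} => (f : ℤ[X]))

lemma QS_iff (S : Finset ℤ[X]) (p n : ℕ) : QS S p n ↔ ∃ f ∈ S, (p : ℤ) ∣ f.eval (n : ℤ) := by
  unfold QS Q
  constructor
  · rintro ⟨⟨f, hf⟩, h⟩
    exact ⟨f, hf, h⟩
  · rintro ⟨f, hf, h⟩
    exact ⟨⟨f, hf⟩, h⟩

/-- the shift of a set of polynomials -/
noncomputable def sh (h : ℤ) (S : Finset ℤ[X]) : Finset ℤ[X] := S.image (fun f => f.comp (X + C h))

lemma sh_inj (h : ℤ) : Function.Injective (fun f : ℤ[X] => f.comp (X + C h)) := by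
  intro f g hfg
  have h1 := congrArg (fun q : ℤ[X] => q.comp (X - C h)) hfg
  simp only [comp_assoc] at h1
  simpa using h1

lemma card_sh (h : ℤ) (S : Finset ℤ[X]) : (sh h S).card = S.card :=
  card_image_of_injective _ (sh_inj h)

lemma QS_sh (h : ℕ) (S : Finset ℤ[X]) (p n : ℕ) : QS (sh h S) p n ↔ QS S p (n + h) := by
  rw [QS_iff, QS_iff]
  constructor
  · rintro ⟨f, hf, hd⟩
    unfold sh at hf
    rw [mem_image] at hf
    obtain ⟨g, hg, rfl⟩ := hf
    refine ⟨g, hg, ?_⟩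
    rw [eval_comp, eval_add, eval_X, eval_C] at hd
    push_cast
    exact hd
  · rintro ⟨g, hg, hd⟩
    refine ⟨g.comp (X + C (h : ℤ)), mem_image_of_mem _ hg, ?_⟩
    rw [eval_comp, eval_add, eval_X, eval_C]
    push_cast at hd
    exact hd

/-- a finite set of irreducible nonconstant polynomials with positive leading coefficients -/
structure PS (S : Finset ℤ[X]) : Prop where
  irr : ∀ f ∈ S, Irreducible f
  deg : ∀ f ∈ S, 0 < f.natDegree
  lead : ∀ f ∈ S, 0 < f.leadingCoeff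

lemma ps_sh {S : Finset ℤ[X]} (hS : PS S) (h : ℤ) : PS (sh h S) := by
  refine ⟨?_, ?_, ?_⟩
  · intro f hf
    unfold sh at hf
    rw [mem_image] at hf
    obtain ⟨g, hg, rfl⟩ := hf
    exact irr_shift _ (hS.irr g hg) _
  · intro f hf
    unfold sh at hf
    rw [mem_image] at hf
    obtain ⟨g, hg, rfl⟩ := hf
    rw [deg_shift]
    exact hS.deg g hg
  · intro f hf
    unfold sh at hf
    rw [mem_image] at hf
    obtain ⟨g, hg, rfl⟩ := hf
    rw [Pool.Agent.W149.CS.comp_lc]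
    exact hS.lead g hg

lemma ps_union {S T : Finset ℤ[X]} (hS : PS S) (hT : PS T) : PS (S ∪ T) := by
  refine ⟨?_, ?_, ?_⟩
  · intro f hf
    rcases mem_union.1 hf with h | h
    · exact hS.irr f h
    · exact hT.irr f h
  · intro f hf
    rcases mem_union.1 hf with h | h
    · exact hS.deg f h
    · exact hT.deg f h
  · intro f hf
    rcases mem_union.1 hf with h | h
    · exact hS.lead f h
    · exact hT.lead f h

/-- distinct polynomials have no common root modulo large primes -/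
lemma exists_ps1 {S : Finset ℤ[X]} (hS : PS S) : ∃ p1 : ℕ, ∀ p : ℕ, p.Prime → p1 < p →
    ∀ i j : {f // f ∈ S}, i ≠ j → ∀ x : ℕ, (p : ℤ) ∣ (i : ℤ[X]).eval (x : ℤ) → ¬ (p : ℤ) ∣ (j : ℤ[X]).eval (x : ℤ) := by
  classical
  choose R hR1 hR2 using fun i j : {f // f ∈ S} => ncolR (i : ℤ[X]) (j : ℤ[X]) (hS.irr i i.2) (hS.irr j j.2)
    (hS.deg i i.2) (hS.deg j j.2) (hS.lead i i.2) (hS.lead j j.2)
  refine ⟨∑ i, ∑ j, ((R i j).eval 0).natAbs, ?_⟩
  intro p hp hp1 i j hij x hi hj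
  have h1 := hR1 i j 0 (by
    intro h
    rw [map_zero, add_zero, comp_X] at h
    exact hij (Subtype.ext h))
  have h2 := hR2 i j 0 x p hi (by rw [add_zero]; exact hj)
  have h3 := Int.natAbs_le_of_dvd_ne_zero h2 h1
  rw [Int.natAbs_natCast] at h3
  have h4 : ((R i j).eval 0).natAbs ≤ ∑ j, ((R i j).eval 0).natAbs :=
    Finset.single_le_sum (f := fun j => ((R i j).eval 0).natAbs) (fun _ _ => Nat.zero_le _) (mem_univ j)
  have h5 : ∑ j, ((R i j).eval 0).natAbs ≤ ∑ i, ∑ j, ((R i j).eval 0).natAbs :=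
    Finset.single_le_sum (f := fun i => ∑ j, ((R i j).eval 0).natAbs) (fun _ _ => Nat.zero_le _)
      (mem_univ i)
  omega

/-- the sum over the primes, from below -/
lemma sum_nuB_low {S : Finset ℤ[X]} (hS : PS S) : ∃ A : ℝ, 0 ≤ A ∧ ∀ y : ℕ, 3 ≤ y →
    (S.card : ℝ) * Real.log (Real.log y) - A ≤ ∑ p ∈ pz y, (nuB (QS S) p : ℝ) / p := by
  classical
  obtain ⟨p1, hp1⟩ := exists_ps1 hS
  choose C hC hM using fun i : {f // f ∈ S} => Pool.Agent.H474R2.GE.mertens_rho (i : ℤ[X]) (hS.irr i i.2) (hS.deg i i.2)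
  obtain ⟨CC, hCC⟩ : ∃ CC : ℝ, CC = ∑ i, C i := ⟨_, rfl⟩
  obtain ⟨M1, hM1⟩ : ∃ M1 : ℝ, M1 = ∑ p ∈ pz p1, ∑ i : {f // f ∈ S}, (rho (i : ℤ[X]) p : ℝ) / p := ⟨_, rfl⟩
  have hCC0 : 0 ≤ CC := by rw [hCC]; exact Finset.sum_nonneg fun i _ => hC i
  have hM10 : 0 ≤ M1 := by
    rw [hM1]
    exact Finset.sum_nonneg fun p _ => Finset.sum_nonneg fun i _ => by positivity
  refine ⟨CC + M1, by linarith, ?_⟩
  intro y hy
  have e : ∑ i : {f // f ∈ S}, ∑ p ∈ pz y, (rho (i : ℤ[X]) p : ℝ) / p - (S.card : ℝ) * Real.log (Real.log y) =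
      ∑ i : {f // f ∈ S}, (∑ p ∈ pz y, (rho (i : ℤ[X]) p : ℝ) / p - Real.log (Real.log y)) := by
    rw [Finset.sum_sub_distrib, Finset.sum_const, Finset.card_univ, nsmul_eq_mul, Fintype.card_coe]
  have h0 : |∑ i : {f // f ∈ S}, ∑ p ∈ pz y, (rho (i : ℤ[X]) p : ℝ) / p - (S.card : ℝ) * Real.log (Real.log y)| ≤ CC := by
    rw [e, hCC]
    refine (Finset.abs_sum_le_sum_abs _ _).trans (Finset.sum_le_sum fun i _ => ?_)
    have := hM i y (by exact_mod_cast hy)
    rwa [Sg_eq] at this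
  have h1 := (abs_le.1 h0).1
  have h2 : ∑ i : {f // f ∈ S}, ∑ p ∈ pz y, (rho (i : ℤ[X]) p : ℝ) / p ≤ ∑ p ∈ pz y, (nuB (QS S) p : ℝ) / p + M1 := by
    rw [Finset.sum_comm, hM1]
    have h3 : ∑ p ∈ pz y, ∑ i : {f // f ∈ S}, (rho (i : ℤ[X]) p : ℝ) / p ≤ ∑ p ∈ pz y, ((nuB (QS S) p : ℝ) / p +
        if p ≤ p1 then ∑ i : {f // f ∈ S}, (rho (i : ℤ[X]) p : ℝ) / p else 0) := by
      apply Finset.sum_le_sum
      intro p hp
      split_ifs with h
      · have : 0 ≤ (nuB (QS S) p : ℝ) / p := by positivity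
        linarith
      · rw [add_zero, ← Finset.sum_div]
        apply div_le_div_of_nonneg_right _ (Nat.cast_nonneg _)
        exact_mod_cast sum_le_nuB (fun f : {f // f ∈ S} => (f : ℤ[X])) p (hp1 p (mem_pz.1 hp).2 (not_le.1 h))
    refine h3.trans ?_
    rw [Finset.sum_add_distrib, ← Finset.sum_filter]
    have h4 : ∑ p ∈ (pz y).filter (fun p => p ≤ p1), ∑ i : {f // f ∈ S}, (rho (i : ℤ[X]) p : ℝ) / p ≤
        ∑ p ∈ pz p1, ∑ i : {f // f ∈ S}, (rho (i : ℤ[X]) p : ℝ) / p := by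
      apply Finset.sum_le_sum_of_subset_of_nonneg
      · intro p hp
        rw [mem_filter, mem_pz] at hp
        exact mem_pz.2 ⟨hp.2, hp.1.2⟩
      · intro p _ _
        exact Finset.sum_nonneg fun i _ => by positivity
    linarith
  linarith

/-- the tail of the sieve product, from above, without local conditions -/
lemma Vt_QS_up {S : Finset ℤ[X]} (hS : PS S) : ∃ A : ℝ, 0 < A ∧ ∀ w y : ℕ, w ≤ y → 3 ≤ y →
    Vt (QS S) w y ≤ A * Real.exp w / Real.log y ^ S.card := by
  classical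
  obtain ⟨A, hA, hsum⟩ := sum_nuB_low hS
  refine ⟨Real.exp A, Real.exp_pos _, ?_⟩
  intro w y hwy hy
  have hlog : 0 < Real.log y := Real.log_pos (by exact_mod_cast (by omega : 1 < y))
  have h1 : Vt (QS S) w y ≤ Real.exp (-(∑ p ∈ (pz y).filter (fun p => w < p), (nuB (QS S) p : ℝ) / p)) := by
    unfold Vt
    rw [← Finset.sum_neg_distrib, Real.exp_sum]
    apply Finset.prod_le_prod
    · intro p hp
      exact one_sub_nonneg _ p (mem_pz.1 (mem_filter.1 hp).1).2
    · intro p _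
      have := Real.add_one_le_exp (-((nuB (QS S) p : ℝ) / p))
      linarith
  refine h1.trans ?_
  have h2 := hsum y hy
  have h3 : ∑ p ∈ pz y, (nuB (QS S) p : ℝ) / p =
      ∑ p ∈ (pz y).filter (fun p => w < p), (nuB (QS S) p : ℝ) / p +
        ∑ p ∈ (pz y).filter (fun p => ¬ w < p), (nuB (QS S) p : ℝ) / p :=
    (Finset.sum_filter_add_sum_filter_not _ _ _).symm
  have h4 : ∑ p ∈ (pz y).filter (fun p => ¬ w < p), (nuB (QS S) p : ℝ) / p ≤ w := by
    have h5 : ∀ p ∈ (pz y).filter (fun p => ¬ w < p), (nuB (QS S) p : ℝ) / p ≤ 1 := by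
      intro p hp
      have := one_sub_nonneg (QS S) p (mem_pz.1 (mem_filter.1 hp).1).2
      linarith
    refine (Finset.sum_le_card_nsmul _ _ 1 h5).trans ?_
    rw [nsmul_eq_mul, mul_one]
    have h6 : (pz y).filter (fun p => ¬ w < p) ⊆ Icc 1 w := by
      intro p hp
      rw [mem_filter, mem_pz] at hp
      rw [mem_Icc]
      exact ⟨hp.1.2.one_lt.le, by omega⟩
    have h7 := card_le_card h6
    rw [Nat.card_Icc, Nat.add_sub_cancel] at h7
    exact_mod_cast h7
  have h5 : Real.exp (-(∑ p ∈ (pz y).filter (fun p => w < p), (nuB (QS S) p : ℝ) / p)) ≤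
      Real.exp (A + w + -((S.card : ℝ) * Real.log (Real.log y))) := by
    apply Real.exp_le_exp.2
    linarith
  refine h5.trans (le_of_eq ?_)
  rw [Real.exp_add, Real.exp_add, Real.exp_neg, mul_comm (S.card : ℝ), Real.exp_mul, Real.exp_log hlog,
    Real.rpow_natCast, div_eq_mul_inv]

/-- a nonempty finite set of nonconstant polynomials is not invariant under a shift -/
lemma sh_ne {S : Finset ℤ[X]} (hS : PS S) (hne : S.Nonempty) (d : ℤ) (hd : d ≠ 0) : sh d S ≠ S := by
  intro h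
  obtain ⟨f, hf⟩ := hne
  have h1 : ∀ n : ℕ, f.comp (X + C ((n : ℤ) * d)) ∈ S := by
    intro n
    induction n with
    | zero => simpa using hf
    | succ n ih =>
      have h2 : (f.comp (X + C ((n : ℤ) * d))).comp (X + C d) ∈ sh d S := mem_image_of_mem _ ih
      rw [h] at h2
      have e : (f.comp (X + C ((n : ℤ) * d))).comp (X + C d) = f.comp (X + C (((n + 1 : ℕ) : ℤ) * d)) := by
        rw [comp_assoc]
        congr 1
        rw [add_comp, X_comp, C_comp, add_assoc, ← C_add]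
        congr 2
        push_cast
        ring
      rwa [e] at h2
  obtain ⟨a, b, hab, he⟩ := Finite.exists_ne_map_eq_of_infinite (fun n : ℕ => (⟨_, h1 n⟩ : {f // f ∈ S}))
  simp only [Subtype.mk.injEq] at he
  have h2 : f.comp (X + C (((b : ℤ) - a) * d)) = f := by
    have h3 := congrArg (fun q : ℤ[X] => q.comp (X - C ((a : ℤ) * d))) he
    simp only [comp_assoc] at h3
    have e1 : (X + C ((a : ℤ) * d)).comp (X - C ((a : ℤ) * d)) = (X : ℤ[X]) := by
      rw [add_comp, X_comp, C_comp, sub_add_cancel]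
    have e2 : (X + C ((b : ℤ) * d)).comp (X - C ((a : ℤ) * d)) = (X + C (((b : ℤ) - a) * d) : ℤ[X]) := by
      rw [add_comp, X_comp, C_comp, sub_mul, C_sub]
      ring
    rw [e1, e2, comp_X] at h3
    exact h3.symm
  have hne' : ((b : ℤ) - a) * d ≠ 0 := by
    apply mul_ne_zero _ hd
    intro h3
    apply hab
    have : (a : ℤ) = b := by linarith
    exact_mod_cast this
  have hQ : f.map (Int.castRingHom ℚ) = (f.map (Int.castRingHom ℚ)).comp (X + C ((((b : ℤ) - a) * d : ℤ) : ℚ)) := by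
    have h4 := congrArg (Polynomial.map (Int.castRingHom ℚ)) h2
    rw [Polynomial.map_comp, Polynomial.map_add, Polynomial.map_X, Polynomial.map_C] at h4
    exact h4.symm
  exact ncol_not_periodic (f.map (Int.castRingHom ℚ)) (by
    rw [natDegree_map_eq_of_injective (RingHom.injective_int _)]
    exact hS.deg f hf) _ (by exact_mod_cast hne') hQ.symm

/-- two systems have a larger union, at every shift, unless they are translates -/
lemma card_union_sh {S T : Finset ℤ[X]} (d : ℤ) (hcard : S.card ≤ T.card)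
    (hne : S ≠ sh d T) : S.card + 1 ≤ (S ∪ sh d T).card := by
  by_contra hcon
  have h1 : (S ∪ sh d T).card ≤ S.card := by omega
  have h2 : S ∪ sh d T = S := (Finset.eq_of_subset_of_card_le subset_union_left h1).symm
  have h3 : sh d T ⊆ S := by
    rw [← h2]
    exact subset_union_right
  have h4 : (sh d T) = S := Finset.eq_of_subset_of_card_le h3 (by rw [card_sh]; exact hcard)
  exact hne h4.symm

end Pool.Agent.Q236.UL
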