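import Pool.Agent.Q236.UL.ShiftMain2
import Pool.Agent.Q236.UL.Gen

set_option autoImplicit false

/-!
# The joint Poisson law for shifted conditions, from bounds for the resultants: few exceptional differences
-/

namespace Pool.Agent.Q236.UL

open Finset Filter Pool.Agent.H373R2.T7 Pool.Agent.W123.RP Pool.Agent.W123.RU Pool.Agent.TH464.PO
open Pool.Agent.TH464.PW Pool.Agent.Y879.AP Pool.Agent.Y879.GL Pool.Agent.Q236.GW
open Pool.Agent.Q236.CP Pool.Agent.Q236.ML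

variable {τ : Type*} [Fintype τ] [DecidableEq τ]

open Classical in
/-- **The joint Poisson law** from bounds for the resultants. -/
theorem gen_law2 (c M : ℕ) (Λ ε : ℝ) (hΛ : 0 ≤ Λ) (hε : 0 < ε) (A δ θ : ℝ) (hA : 0 < A) (hδ : 0 < δ)
    (hθ : 0 < θ) : ∃ (w : ℕ) (κ : ℝ) (r0 : ℕ), 1 ≤ w ∧ 0 < κ ∧ 2 ≤ r0 ∧ ∀ r : ℕ, r0 ≤ r → ∀ Cv : ℝ, 0 < Cv →
      ∀ᶠ X : ℕ in atTop, ∀ (P0 : ℕ → ℕ → Prop) (Q : τ → ℕ → ℕ → Prop) (Xc : τ → τ → Finset ℕ) (u v : τ → ℕ)
        (Z Y : ℕ), PerB P0 c → (∀ t, PerB (Q t) c) → (∀ p : ℕ, p.Prime → nuB P0 p < p) →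
      (∀ t, ∀ p : ℕ, p.Prime → nuB (Q t) p < p) →
      (∀ t, Vq (Q t) ⌊(X : ℝ) ^ (1 / (r : ℝ))⌋₊ ≤ Cv / Real.log X) →
      (∀ t, u t ≤ v t) → (∀ t, v t * Vq (Q t) ⌊(X : ℝ) ^ (1 / (r : ℝ))⌋₊ ≤ Λ) →
      (∀ s t, (Xc s t).card ≤ M) → (∀ t, 0 ∉ Xc t t) →
      (∀ s t, ∃ g : ℝ, 0 ≤ g ∧ (v s * g ≤ κ ∨ v t * g ≤ κ) ∧ ∀ b b', Ex Xc (some (s, b), some (t, b')) →
        rh (Es P0 Q) none w ⌊(X : ℝ) ^ (1 / (r : ℝ))⌋₊ {some (s, b), some (t, b')} ≤ g) →
      RS P0 Q Xc u v ((X : ℝ) ^ A) ((X : ℝ) ^ δ) → (X : ℝ) ^ θ ≤ Y →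
      ∀ A : Finset (τ → ℕ), |(((OmY P0 ⌊(X : ℝ) ^ (1 / (r : ℝ))⌋₊ Z Y).filter
        (fun n => (fun t => NB (Q t) ⌊(X : ℝ) ^ (1 / (r : ℝ))⌋₊ (Ioc (u t) (v t)) n) ∈ A)).card : ℝ) -
        (OmY P0 ⌊(X : ℝ) ^ (1 / (r : ℝ))⌋₊ Z Y).card *
          PoJ (fun t => ((v t : ℝ) - u t) * Vq (Q t) ⌊(X : ℝ) ^ (1 / (r : ℝ))⌋₊) A| ≤
        ε * (OmY P0 ⌊(X : ℝ) ^ (1 / (r : ℝ))⌋₊ Z Y).card := by
  obtain ⟨R, w, K0, y0, T0, η', κ, hw, hK0, hη', hκ, hlaw⟩ := shift_law2 (τ := τ) c M Λ (max Λ 2) ε hΛ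
    (hΛ.trans (le_max_left _ _)) hε
  obtain ⟨v0, hv0, hV⟩ := V_lower_unif c
  obtain ⟨R1, hR1⟩ : ∃ R1 : ℕ, (K0 : ℝ) / θ ≤ R1 := exists_nat_ge _
  refine ⟨w, κ, max R1 2, hw, hκ, le_max_right _ _, ?_⟩
  intro r hr Cv hCv
  have hr2 : 2 ≤ r := (le_max_right _ _).trans hr
  have hrr : (2 : ℝ) ≤ r := by exact_mod_cast hr2
  have hrpos : (0 : ℝ) < r := by linarith
  have hrK : (K0 : ℝ) ≤ θ * r := by
    have h1 : (K0 : ℝ) / θ ≤ r := hR1.trans (by exact_mod_cast (le_max_left _ _).trans hr)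
    rw [div_le_iff₀ hθ] at h1
    linarith
  have hpow2 : Tendsto (fun X : ℕ => (X : ℝ) ^ (1 / (2 * r : ℝ))) atTop atTop :=
    (tendsto_rpow_atTop (by positivity)).comp tendsto_natCast_atTop_atTop
  have hlogX : Tendsto (fun X : ℕ => Real.log (X : ℝ)) atTop atTop :=
    Real.tendsto_log_atTop.comp tendsto_natCast_atTop_atTop
  obtain ⟨E, hE⟩ : ∃ E : ℝ, E = Real.exp (A * Cv / η') := ⟨_, rfl⟩
  have hE0 : 0 < E := by rw [hE]; exact Real.exp_pos _
  obtain ⟨s, hs⟩ : ∃ s : ℝ, s = Fintype.card τ := ⟨_, rfl⟩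
  have hs0 : 0 ≤ s := by rw [hs]; positivity
  obtain ⟨G1, hG1⟩ : ∃ G1 : ℝ, G1 = (s * Λ / v0 + 1) ^ R / (κ * v0) + 1 := ⟨_, rfl⟩
  have hG10 : 0 < G1 := by
    rw [hG1]
    positivity
  obtain ⟨G2, hG2⟩ : ∃ G2 : ℝ, G2 = (Λ + 1) / v0 + 1 := ⟨_, rfl⟩
  have hG20 : 0 < G2 := by rw [hG2]; positivity
  filter_upwards [hpow2.eventually_ge_atTop ((y0 : ℝ) + 3), eventually_ge_atTop 16,
    hlogX.eventually_ge_atTop (Cv / κ), hlogX.eventually_ge_atTop (Cv * (T0 + 2 + E)),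
    logpow_rpow (c * R + c) G1 (θ / 2) hG10 (by positivity),
    logpow_rpow c G2 δ hG20 hδ] with X hX1 hX16 hX3 hX4 hX5 hX6
  intro P0 Q Xc u v Z Y hP0 hQ hadm0 hadm hVup huv hvΛ hXM hXd hrh hRS hXY A'
  have hX16r : (16 : ℝ) ≤ X := by exact_mod_cast hX16
  have hXpos : (0 : ℝ) < X := by linarith
  have hXone : (1 : ℝ) ≤ X := by linarith
  have hlX0 : 0 < Real.log X := Real.log_pos (by linarith)
  have hlX1 : 1 ≤ Real.log X := by
    rw [Real.le_log_iff_exp_le hXpos]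
    have := Real.exp_one_lt_d9
    linarith
  have hy0r : (0 : ℝ) ≤ y0 := Nat.cast_nonneg _
  obtain ⟨hy1, hy2, hy3, hy4⟩ := level_low r hr2 X (by omega) (by linarith)
  obtain ⟨y, hy⟩ : ∃ y, y = ⌊(X : ℝ) ^ (1 / (r : ℝ))⌋₊ := ⟨_, rfl⟩
  rw [← hy] at hy1 hy2 hy3 hy4 hVup hvΛ hrh ⊢
  have hyr : (y0 : ℝ) + 3 ≤ y := hX1.trans hy1
  have hyy0 : y0 ≤ y := by
    have : (y0 : ℝ) ≤ y := by linarith
    exact_mod_cast this
  have hy3' : 3 ≤ y := by
    have : (3 : ℝ) ≤ y := by linarith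
    exact_mod_cast this
  have hlogy : 0 < Real.log y := lt_of_lt_of_le (by positivity) hy2
  have hVlow : ∀ P : ℕ → ℕ → Prop, PerB P c → (∀ p : ℕ, p.Prime → nuB P p < p) →
      v0 / Real.log X ^ c ≤ Vq P y := by
    intro P hP hadm
    refine le_trans ?_ (hV P hP hadm y (by omega))
    apply div_le_div_of_nonneg_left hv0.le (by positivity)
    exact pow_le_pow_left₀ hlogy.le hy3 c
  have hVpos : ∀ t, 0 < Vq (Q t) y := fun t => lt_of_lt_of_le (by positivity) (hVlow (Q t) (hQ t) (hadm t))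
  have hVinv : ∀ t, 1 / Vq (Q t) y ≤ Real.log X ^ c / v0 := by
    intro t
    have h1 := one_div_le_one_div_of_le (by positivity) (hVlow (Q t) (hQ t) (hadm t))
    rwa [one_div_div] at h1
  have hVκ : ∀ t, Vq (Q t) y ≤ κ := by
    intro t
    refine (hVup t).trans ?_
    rw [div_le_iff₀ hlX0]
    rw [div_le_iff₀ hκ] at hX3
    linarith
  have hVlo : ∀ t, Real.log X / Cv ≤ 1 / Vq (Q t) y := by
    intro t
    rw [div_le_div_iff₀ hCv (hVpos t), one_mul]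
    have := hVup t
    rw [le_div_iff₀ hlX0] at this
    linarith
  have hyK : y ^ K0 ≤ Y := by
    have h3 : ((y ^ K0 : ℕ) : ℝ) ≤ Y := by
      push_cast
      calc (y : ℝ) ^ K0 ≤ ((X : ℝ) ^ (1 / (r : ℝ))) ^ K0 := by
            apply pow_le_pow_left₀ (Nat.cast_nonneg _)
            rw [hy]
            exact Nat.floor_le (by positivity)
        _ = (X : ℝ) ^ (1 / (r : ℝ) * K0) := by
            rw [Real.rpow_mul hXpos.le, Real.rpow_natCast]
        _ ≤ (X : ℝ) ^ θ := by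
            apply Real.rpow_le_rpow_of_exponent_le hXone
            rw [one_div, inv_mul_eq_div, div_le_iff₀ hrpos]
            exact hrK
        _ ≤ Y := hXY
    exact_mod_cast h3
  have hlogc : 1 ≤ Real.log X ^ c := one_le_pow₀ hlX1
  -- the large scale
  have hTbig : ∀ T : ℕ, Real.log X / Cv ≤ T → T0 ≤ T ∧ 2 ≤ T ∧ A * Real.log X ≤ η' * T * Real.log T := by
    intro T hT
    have h1 : (T0 : ℝ) + 2 + E ≤ T := by
      refine le_trans ?_ hT
      rw [le_div_iff₀ hCv]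
      linarith
    have hT0r : (0 : ℝ) ≤ T0 := Nat.cast_nonneg _
    refine ⟨?_, ?_, ?_⟩
    · have : (T0 : ℝ) ≤ T := by linarith
      exact_mod_cast this
    · have : (2 : ℝ) ≤ T := by linarith
      exact_mod_cast this
    · have hlT : A * Cv / η' ≤ Real.log T := by
        have h4 : E ≤ T := by linarith
        have h5 := Real.log_le_log hE0 h4
        rwa [hE, Real.log_exp] at h5
      have hq : 0 < A * Cv / η' := by positivity
      calc A * Real.log X = η' * (Real.log X / Cv) * (A * Cv / η') := by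
            field_simp
        _ ≤ η' * T * Real.log T := by
            apply mul_le_mul _ hlT hq.le (by positivity)
            exact mul_le_mul_of_nonneg_left hT hη'.le
  have hTsmall : ∀ T : ℕ, (T : ℝ) ≤ (Λ + 1) * (Real.log X ^ c / v0) + 1 → (T : ℝ) ≤ (X : ℝ) ^ δ := by
    intro T hT
    refine hT.trans (le_trans ?_ hX6)
    rw [hG2]
    have : (Λ + 1) * (Real.log X ^ c / v0) = (Λ + 1) / v0 * Real.log X ^ c := by ring
    rw [this]
    linarith
  have hcount : ∀ (P Q' : ℕ → ℕ → Prop) (T d : ℕ), Real.log X / Cv ≤ T → d ≤ T →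
      (∃ R : ℕ, 0 < R ∧ (R : ℝ) ≤ (X : ℝ) ^ A ∧ ∀ p : ℕ, p.Prime → d < p → CG P Q' p d → p ∣ R) →
      (LC (Qt P Z) (Qt Q' Z) y T d : ℝ) ≤ η' * T := by
    intro P Q' T d hT hd hres
    obtain ⟨R, hR0, hRA, hRd⟩ := hres
    obtain ⟨_, hT2, h2⟩ := hTbig T hT
    have h3 := card_primes_le ((pz y).filter (fun p : ℕ => T < p ∧ CG (Qt P Z) (Qt Q' Z) p d)) T R hT2 hR0
      ((X : ℝ) ^ A) hRA (fun p hp => by
        rw [mem_filter] at hp
        have hpp := (mem_pz.1 hp.1).2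
        exact ⟨hpp, hp.2.1, hRd p hpp (by omega) (CG_Qt P Q' Z p d hp.2.2)⟩)
    rw [Real.log_rpow hXpos] at h3
    have hlT0 : 0 < Real.log T := Real.log_pos (by exact_mod_cast (by omega : 1 < T))
    unfold LC
    exact le_of_mul_le_mul_right (h3.trans h2) hlT0
  have hPH : PH (Qt P0 Z) (fun t => Qt (Q t) Z) Xc y u v T0 (max Λ 2) η' := by
    constructor
    · intro t
      obtain ⟨T, h1, _, h2, h3, h4⟩ := exists_T (Vq (Q t) y) (Vq (Q t) y) Λ (Real.log X / Cv)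
        (Real.log X ^ c / v0) (hVpos t) (hVpos t) (Vq_le_one' _ _) (Vq_le_one' _ _) (v t) (v t) (hvΛ t)
        (hvΛ t) hΛ (hVlo t) (hVlo t) (hVinv t) (hVinv t)
      refine ⟨T, (hTbig T h3).1, h1, ?_, ?_⟩
      · rw [Vq_Qt (Q t) c (hQ t)]
        rcases h2 with h2 | h2 <;> exact h2
      · intro d hd
        rw [mem_Icc] at hd
        apply hcount P0 (Q t) T d h3 hd.2
        refine hRS.base t d hd.1 ?_
        refine le_trans ?_ (hTsmall T h4)
        exact_mod_cast hd.2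
    · intro s' t
      obtain ⟨T, h1, h1', h2, h3, h4⟩ := exists_T (Vq (Q s') y) (Vq (Q t) y) Λ (Real.log X / Cv)
        (Real.log X ^ c / v0) (hVpos s') (hVpos t) (Vq_le_one' _ _) (Vq_le_one' _ _) (v s') (v t) (hvΛ s')
        (hvΛ t) hΛ (hVlo s') (hVlo t) (hVinv s') (hVinv t)
      have hTX := hTsmall T h4
      refine ⟨T, (hTbig T h3).1, h1, h1', ?_, ?_, ?_, ?_⟩
      · rw [Vq_Qt (Q s') c (hQ s'), Vq_Qt (Q t) c (hQ t)]
        exact h2
      · intro d hd hdX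
        rw [mem_Icc] at hd
        apply hcount (Q s') (Q t) T d h3 hd.2
        refine hRS.pair s' t d ?_ hdX (Or.inl hd.1)
        refine le_trans ?_ hTX
        exact_mod_cast hd.2
      · intro d hd hdX
        rw [mem_Icc] at hd
        apply hcount (Q t) (Q s') T d h3 hd.2
        refine hRS.pair t s' d ?_ hdX (Or.inl hd.1)
        refine le_trans ?_ hTX
        exact_mod_cast hd.2
      · intro hst
        by_cases hdis : Disjoint (Ioc (u s') (v s')) (Ioc (u t) (v t))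
        · exact Or.inl hdis
        by_cases h0 : 0 ∈ Xc s' t
        · exact Or.inr (Or.inl h0)
        · refine Or.inr (Or.inr ?_)
          apply hcount (Q s') (Q t) T 0 h3 (Nat.zero_le _)
          refine hRS.pair s' t 0 ?_ h0 (Or.inr ⟨hst, hdis⟩)
          push_cast
          positivity
  have hsize : (((∑ t, v t : ℕ) : ℝ) + 1) ^ R * √(Y : ℝ) ≤ κ * (Y * Vq (Qt P0 Z) y) := by
    rw [Vq_Qt P0 c hP0]
    have h1 : ((∑ t, v t : ℕ) : ℝ) ≤ s * Λ / v0 * Real.log X ^ c := by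
      push_cast
      have h2 : ∀ t, (v t : ℝ) ≤ Λ / v0 * Real.log X ^ c := by
        intro t
        have h3 : (v t : ℝ) ≤ Λ / Vq (Q t) y := by
          rw [le_div_iff₀ (hVpos t)]
          exact hvΛ t
        refine h3.trans ?_
        rw [div_eq_mul_one_div]
        calc Λ * (1 / Vq (Q t) y) ≤ Λ * (Real.log X ^ c / v0) := mul_le_mul_of_nonneg_left (hVinv t) hΛ
          _ = _ := by ring
      refine (Finset.sum_le_sum fun t _ => h2 t).trans ?_
      rw [Finset.sum_const, Finset.card_univ, nsmul_eq_mul, ← hs]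
      apply le_of_eq
      ring
    have h2 : (((∑ t, v t : ℕ) : ℝ) + 1) ^ R ≤ (s * Λ / v0 + 1) ^ R * Real.log X ^ (c * R) := by
      rw [pow_mul, ← mul_pow]
      apply pow_le_pow_left₀ (by positivity)
      nlinarith
    have h3 : (X : ℝ) ^ (θ / 2) ≤ √(Y : ℝ) := by
      rw [← Real.sqrt_sq (by positivity : 0 ≤ (X : ℝ) ^ (θ / 2))]
      apply Real.sqrt_le_sqrt
      rw [← Real.rpow_natCast, ← Real.rpow_mul hXpos.le]
      have : θ / 2 * ((2 : ℕ) : ℝ) = θ := by push_cast; ring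
      rw [this]
      exact hXY
    have h4 : (s * Λ / v0 + 1) ^ R * Real.log X ^ (c * R) ≤ √(Y : ℝ) * (κ * (v0 / Real.log X ^ c)) := by
      have h5 : (s * Λ / v0 + 1) ^ R / (κ * v0) * Real.log X ^ (c * R + c) ≤ √(Y : ℝ) := by
        refine le_trans ?_ (hX5.trans h3)
        apply mul_le_mul_of_nonneg_right _ (by positivity)
        rw [hG1]
        linarith
      have h6 := mul_le_mul_of_nonneg_right h5 (by positivity : 0 ≤ κ * (v0 / Real.log X ^ c))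
      refine le_trans (le_of_eq ?_) h6
      rw [pow_add]
      field_simp
    calc (((∑ t, v t : ℕ) : ℝ) + 1) ^ R * √(Y : ℝ) ≤
        (√(Y : ℝ) * (κ * (v0 / Real.log X ^ c))) * √(Y : ℝ) :=
          mul_le_mul_of_nonneg_right (h2.trans h4) (Real.sqrt_nonneg _)
      _ = κ * ((√(Y : ℝ) * √(Y : ℝ)) * (v0 / Real.log X ^ c)) := by ring
      _ = κ * (Y * (v0 / Real.log X ^ c)) := by rw [Real.mul_self_sqrt (Nat.cast_nonneg _)]
      _ ≤ κ * (Y * Vq P0 y) := by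
          apply mul_le_mul_of_nonneg_left _ hκ.le
          exact mul_le_mul_of_nonneg_left (hVlow P0 hP0 hadm0) (Nat.cast_nonneg _)
  have hmain := hlaw (Qt P0 Z) (fun t => Qt (Q t) Z) Xc y Y u v (perB_Qt P0 c hP0 Z)
    (fun t => perB_Qt (Q t) c (hQ t) Z) (fun p hp => by
      rw [nuB_Qt P0 c hP0]
      exact hadm0 p hp) (fun t p hp => by
      rw [nuB_Qt (Q t) c (hQ t)]
      exact hadm t p hp) hyy0 hyK (fun t => by
      rw [Vq_Qt (Q t) c (hQ t)]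
      exact hVκ t) huv (fun t => by
      rw [Vq_Qt (Q t) c (hQ t)]
      exact hvΛ t) hXM hXd (fun a t => by
      obtain ⟨g, h1, h2, h3⟩ := hrh a t
      refine ⟨g, h1, h2, fun b b' he => ?_⟩
      rw [rh_Qt P0 Q c hP0 hQ]
      exact h3 b b' he) hsize hPH A'
  have e1 : (OmY P0 y Z Y).card = (OmG (Qt P0 Z) y Y).card := by
    have := card_OmY P0 y Z Y (fun _ => True)
    simpa using this
  have e2 : ∀ n, (fun t => NB (Qt (Q t) Z) y (Ioc (u t) (v t)) n) =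
      fun t => NB (Q t) y (Ioc (u t) (v t)) (n + Z) := by
    intro n
    funext t
    unfold NB
    congr 1
    apply Finset.filter_congr
    intro b _
    rw [sf_Qt, show n + b + Z = n + Z + b by ring]
  have e3 := card_OmY P0 y Z Y (fun n => (fun t => NB (Q t) y (Ioc (u t) (v t)) n) ∈ A')
  have e4 : (fun t => ((v t : ℝ) - u t) * Vq (Qt (Q t) Z) y) = fun t => ((v t : ℝ) - u t) * Vq (Q t) y := by
    funext t
    rw [Vq_Qt (Q t) c (hQ t)]
  simp only [e2] at hmain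
  rw [e4] at hmain
  rw [e3, e1]
  exact hmain

end Pool.Agent.Q236.UL
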