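import Pool.Agent.Q236.UL.Fix
import Pool.Agent.Q236.UL.Gen2

set_option autoImplicit false

/-!
# The joint Poisson law for arbitrary fixed systems which are not translates of each other
-/

namespace Pool.Agent.Q236.UL

open Polynomial Finset Filter
open Pool.Agent.W123.RP Pool.Agent.H373R2.T7 Pool.Agent.W123.RU Pool.Agent.W123.RU.Poly
open Pool.Agent.TH464.PW Pool.Agent.TH464.PO Pool.Agent.Y879.GL Pool.Agent.Q236.CP Pool.Agent.Q236.GW
open Pool.Agent.H474R2.PG

/-- an admissible system of at most `k` polynomials of degrees at most `D` -/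
structure AS (k D : ℕ) (S : Finset ℤ[X]) : Prop where
  ps : PS S
  ne : S.Nonempty
  card : S.card ≤ k
  degD : ∀ f ∈ S, f.natDegree ≤ D
  adm : ∀ p : ℕ, p.Prime → ∃ m : ℕ, ∀ f ∈ S, ¬ (p : ℤ) ∣ f.eval (m : ℤ)

lemma as_sys {k D : ℕ} {S : Finset ℤ[X]} (h : AS k D S) : Sys (fun f : {f // f ∈ S} => (f : ℤ[X])) where
  irr i := h.ps.irr i i.2
  deg i := h.ps.deg i i.2
  lead i := h.ps.lead i i.2
  inj := Subtype.val_injective
  adm p hp := by
    obtain ⟨m, hm⟩ := h.adm p hp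
    exact ⟨m, fun i => hm i i.2⟩

lemma as_perB {k D : ℕ} {S : Finset ℤ[X]} (h : AS k D S) : PerB (QS S) (k * D + 1) := by
  refine ⟨fun p n => per _ p n, ?_⟩
  intro p hp
  have h1 := nuB_le_sum (fun f : {f // f ∈ S} => (f : ℤ[X])) p
  have h2 : ∑ i : {f // f ∈ S}, rho (i : ℤ[X]) p ≤ ∑ _i : {f // f ∈ S}, D :=
    Finset.sum_le_sum fun i _ => (rho_prim (i : ℤ[X]) ((h.ps.irr i i.2).isPrimitive (h.ps.deg i i.2).ne') p hp).trans
      (h.degD i i.2)
  rw [Finset.sum_const, Finset.card_univ, Fintype.card_coe, smul_eq_mul] at h2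
  have h3 : S.card * D ≤ k * D := Nat.mul_le_mul_right _ h.card
  unfold QS
  omega

lemma as_adm {k D : ℕ} {S : Finset ℤ[X]} (h : AS k D S) (p : ℕ) (hp : p.Prime) : nuB (QS S) p < p :=
  adm _ (as_sys h) p hp

lemma as_V {k D : ℕ} {S : Finset ℤ[X]} (h : AS k D S) : ∃ v Cv : ℝ, 0 < v ∧ 0 < Cv ∧ ∀ y : ℕ, 3 ≤ y →
    v / Real.log y ^ S.card ≤ Vq (QS S) y ∧ Vq (QS S) y ≤ Cv / Real.log y ^ S.card := by
  obtain ⟨v, Cv, hv, hCv, hV⟩ := V_bounds (fun f : {f // f ∈ S} => (f : ℤ[X])) (as_sys h)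
  refine ⟨v, Cv, hv, hCv, fun y hy => ?_⟩
  have := hV y hy
  rwa [Fintype.card_coe] at this

lemma filter_mono_nuB (P P' : ℕ → ℕ → Prop) (p : ℕ) (h : ∀ n, P p n → P' p n) : nuB P p ≤ nuB P' p := by
  classical
  unfold nuB
  apply card_le_card
  intro n hn
  rw [mem_filter] at hn ⊢
  exact ⟨hn.1, h n hn.2⟩

lemma Vt_mono (P P' : ℕ → ℕ → Prop) (w y : ℕ) (h : ∀ p n, P p n → P' p n) : Vt P' w y ≤ Vt P w y := by
  classical
  unfold Vt
  apply Finset.prod_le_prod
  · intro p hp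
    exact one_sub_nonneg P' p (mem_pz.1 (mem_filter.1 hp).1).2
  · intro p _
    have h1 : (nuB P p : ℝ) ≤ nuB P' p := by exact_mod_cast filter_mono_nuB P P' p (h p)
    have h2 : (nuB P p : ℝ) / p ≤ (nuB P' p : ℝ) / p := div_le_div_of_nonneg_right h1 (Nat.cast_nonneg _)
    linarith

variable {τ : Type*} [Fintype τ] [DecidableEq τ]

/-- the exceptional differences -/
noncomputable def Xd {ι : Type*} [DecidableEq ι] (S : ι → Finset ℤ[X]) (M : ℕ) (i j : ι) : Finset ℕ := by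
  classical
  exact (range M).filter (fun d => (∃ f ∈ S i, ∃ g ∈ S j, f = g.comp (X + C (d : ℤ))) ∧ (i = j → d ≠ 0))

lemma shift_unique {g : ℤ[X]} (hg : 0 < g.natDegree) (a b : ℤ) (h : g.comp (X + C a) = g.comp (X + C b)) :
    a = b := by
  by_contra hne
  have h2 : g.comp (X + C (b - a)) = g := by
    have h3 := congrArg (fun q : ℤ[X] => q.comp (X - C a)) h
    simp only [comp_assoc] at h3
    have e1 : (X + C a).comp (X - C a) = (X : ℤ[X]) := by
      rw [add_comp, X_comp, C_comp, sub_add_cancel]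
    have e2 : (X + C b).comp (X - C a) = (X + C (b - a) : ℤ[X]) := by
      rw [add_comp, X_comp, C_comp, C_sub]
      ring
    rw [e1, e2, comp_X] at h3
    exact h3.symm
  have hQ : (g.map (Int.castRingHom ℚ)).comp (X + C ((b - a : ℤ) : ℚ)) = g.map (Int.castRingHom ℚ) := by
    have h4 := congrArg (Polynomial.map (Int.castRingHom ℚ)) h2
    rw [Polynomial.map_comp, Polynomial.map_add, Polynomial.map_X, Polynomial.map_C] at h4
    exact h4
  exact ncol_not_periodic (g.map (Int.castRingHom ℚ)) (by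
    rw [natDegree_map_eq_of_injective (RingHom.injective_int _)]
    exact hg) _ (by exact_mod_cast sub_ne_zero.2 (Ne.symm hne)) hQ

lemma card_Xd {ι : Type*} [DecidableEq ι] (S : ι → Finset ℤ[X]) (k D M : ℕ) (hS : ∀ i, AS k D (S i)) (i j : ι) :
    (Xd S M i j).card ≤ k * k := by
  classical
  have h1 : ∀ d ∈ Xd S M i j, ∃ x : ℤ[X] × ℤ[X], x ∈ S i ×ˢ S j ∧ x.1 = x.2.comp (X + C (d : ℤ)) := by
    intro d hd
    unfold Xd at hd
    rw [mem_filter] at hd
    obtain ⟨_, ⟨f, hf, g, hg, he⟩, _⟩ := hd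
    exact ⟨(f, g), mem_product.2 ⟨hf, hg⟩, he⟩
  choose! x hx1 hx2 using h1
  have h2 : (Xd S M i j).card ≤ (S i ×ˢ S j).card := by
    apply Finset.card_le_card_of_injOn x (fun d hd => hx1 d hd)
    intro d hd d' hd' hdd
    have h3 := hx2 d hd
    have h4 := hx2 d' hd'
    rw [← hdd, h3] at h4
    have h5 := shift_unique ((hS j).ps.deg _ (mem_product.1 (hx1 d hd)).2) _ _ h4
    exact_mod_cast h5
  refine h2.trans ?_
  rw [card_product]
  exact Nat.mul_le_mul (hS i).card (hS j).card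

/-- a bound for the exceptional differences -/
lemma exists_M {ι : Type*} [Finite ι] [DecidableEq ι] (S : ι → Finset ℤ[X]) (k D : ℕ) (hS : ∀ i, AS k D (S i)) :
    ∃ M : ℕ, ∀ i j, ∀ f ∈ S i, ∀ g ∈ S j, ∀ d : ℕ, f = g.comp (X + C (d : ℤ)) → d < M := by
  classical
  have := Fintype.ofFinite ι
  obtain ⟨B, hB⟩ : ∃ B : Set ℕ, B = {d : ℕ | ∃ i j, ∃ f ∈ S i, ∃ g ∈ S j, f = g.comp (X + C (d : ℤ))} := ⟨_, rfl⟩
  have hfin : B.Finite := by
    obtain ⟨P, hP⟩ : ∃ P : Finset (ℤ[X] × ℤ[X]), P = (univ : Finset (ι × ι)).biUnion (fun x => S x.1 ×ˢ S x.2) :=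
      ⟨_, rfl⟩
    have h1 : ∀ d ∈ B, ∃ x : ℤ[X] × ℤ[X], x ∈ P ∧ 0 < x.2.natDegree ∧ x.1 = x.2.comp (X + C (d : ℤ)) := by
      intro d hd
      rw [hB] at hd
      obtain ⟨i, j, f, hf, g, hg, he⟩ := hd
      refine ⟨(f, g), ?_, (hS j).ps.deg g hg, he⟩
      rw [hP, mem_biUnion]
      exact ⟨(i, j), mem_univ _, mem_product.2 ⟨hf, hg⟩⟩
    choose! x hx1 hx2 hx3 using h1
    apply Set.Finite.of_finite_image (f := x) (P.finite_toSet.subset _)
    · intro d hd d' hd' hdd
      have h3 := hx3 d hd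
      have h4 := hx3 d' hd'
      rw [← hdd, h3] at h4
      exact_mod_cast shift_unique (hx2 d hd) _ _ h4
    · rintro _ ⟨d, hd, rfl⟩
      exact hx1 d hd
  obtain ⟨M, hM⟩ := hfin.bddAbove
  refine ⟨M + 1, ?_⟩
  intro i j f hf g hg d he
  have : d ∈ B := by
    rw [hB]
    exact ⟨i, j, f, hf, g, hg, he⟩
  have := hM this
  omega

/-- the density of two shifted systems -/
lemma rh_pair (S : τ → Finset ℤ[X]) (s t : τ) (w y b b' : ℕ) (c : ℕ) (hb : b ≤ b')
    (hQ : PerB (QS (S s ∪ sh ((b' - b : ℕ) : ℤ) (S t))) c) :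
    rh (Es (fun _ _ => False) (fun t => QS (S t))) none w y {some (s, b), some (t, b')} =
      Vt (QS (S s ∪ sh ((b' - b : ℕ) : ℤ) (S t))) w y := by
  classical
  unfold rh
  have e1 : EH (Es (fun _ _ => False) (fun t => QS (S t))) (insert none {some (s, b), some (t, b')}) =
      Qt (QS (S s ∪ sh ((b' - b : ℕ) : ℤ) (S t))) b := by
    funext p n
    unfold EH Qt
    apply propext
    constructor
    · rintro ⟨i, hi, h⟩
      rw [mem_insert, mem_insert, mem_singleton] at hi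
      rcases hi with rfl | rfl | rfl
      · exact absurd h id
      · change QS (S s) p (n + b) at h
        rw [QS_iff] at h ⊢
        obtain ⟨f, hf, h⟩ := h
        exact ⟨f, mem_union_left _ hf, h⟩
      · change QS (S t) p (n + b') at h
        have h2 : QS (sh ((b' - b : ℕ) : ℤ) (S t)) p (n + b) := by
          rw [QS_sh, show n + b + (b' - b) = n + b' by omega]
          exact h
        rw [QS_iff] at h2 ⊢
        obtain ⟨f, hf, h⟩ := h2
        exact ⟨f, mem_union_right _ hf, h⟩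
    · intro h
      rw [QS_iff] at h
      obtain ⟨f, hf, h⟩ := h
      rcases mem_union.1 hf with hf | hf
      · refine ⟨some (s, b), by simp, ?_⟩
        change QS (S s) p (n + b)
        rw [QS_iff]
        exact ⟨f, hf, h⟩
      · refine ⟨some (t, b'), by simp, ?_⟩
        change QS (S t) p (n + b')
        have h2 : QS (sh ((b' - b : ℕ) : ℤ) (S t)) p (n + b) := by
          rw [QS_iff]
          exact ⟨f, hf, h⟩
        rw [QS_sh, show n + b + (b' - b) = n + b' by omega] at h2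
        exact h2
  rw [e1, Vt_Qt' _ c hQ]
  have e2 : Vt (Es (fun _ _ => False) (fun t => QS (S t)) none) w y = 1 := by
    change Vt (fun _ _ => False) w y = 1
    unfold Vt
    apply Finset.prod_eq_one
    intro p _
    rw [nuB_false]
    simp
  rw [e2, div_one]

end Pool.Agent.Q236.UL
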