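import Pool.Agent.Q236.UL.Fix2

set_option autoImplicit false

/-!
# The joint Poisson law for arbitrary fixed systems which are not translates of each other: the theorem
-/

namespace Pool.Agent.Q236.UL

open Polynomial Finset Filter
open Pool.Agent.W123.RP Pool.Agent.H373R2.T7 Pool.Agent.W123.RU Pool.Agent.W123.RU.Poly
open Pool.Agent.TH464.PW Pool.Agent.TH464.PO Pool.Agent.Y879.GL Pool.Agent.Q236.CP Pool.Agent.Q236.GW
open Pool.Agent.H474R2.PG

lemma ps_perB {k D : ℕ} {S : Finset ℤ[X]} (h : PS S) (hk : S.card ≤ k) (hD : ∀ f ∈ S, f.natDegree ≤ D) :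
    PerB (QS S) (k * D + 1) := by
  refine ⟨fun p n => per _ p n, ?_⟩
  intro p hp
  have h1 := nuB_le_sum (fun f : {f // f ∈ S} => (f : ℤ[X])) p
  have h2 : ∑ i : {f // f ∈ S}, rho (i : ℤ[X]) p ≤ ∑ _i : {f // f ∈ S}, D :=
    Finset.sum_le_sum fun i _ => (rho_prim (i : ℤ[X]) ((h.irr i i.2).isPrimitive (h.deg i i.2).ne') p hp).trans
      (hD i i.2)
  rw [Finset.sum_const, Finset.card_univ, Fintype.card_coe, smul_eq_mul] at h2
  have h3 : S.card * D ≤ k * D := Nat.mul_le_mul_right _ hk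
  unfold QS
  omega

lemma card_union_sh' {S T : Finset ℤ[X]} (d : ℤ) (hcard : T.card ≤ S.card)
    (hne : S ≠ sh d T) : T.card + 1 ≤ (S ∪ sh d T).card := by
  by_contra hcon
  have h1 : (S ∪ sh d T).card ≤ (sh d T).card := by rw [card_sh]; omega
  have h2 : S ∪ sh d T = sh d T := (Finset.eq_of_subset_of_card_le subset_union_right h1).symm
  have h3 : S ⊆ sh d T := by
    rw [← h2]
    exact subset_union_left
  exact hne (Finset.eq_of_subset_of_card_le h3 (by rw [card_sh]; exact hcard))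

lemma card_union_min {S T : Finset ℤ[X]} (d : ℤ) (hne : S ≠ sh d T) :
    min S.card T.card + 1 ≤ (S ∪ sh d T).card := by
  rcases le_total S.card T.card with h | h
  · rw [min_eq_left h]
    exact card_union_sh d h hne
  · rw [min_eq_right h]
    exact card_union_sh' d h hne

/-- a bound for the coefficients -/
lemma exists_H {ι : Type*} [Finite ι] (S : ι → Finset ℤ[X]) :
    ∃ H : ℕ, ∀ i, ∀ f ∈ S i, ∀ n, |(f.coeff n)| ≤ (H : ℤ) := by
  classical
  have := Fintype.ofFinite ι
  refine ⟨∑ i, ∑ f ∈ S i, ∑ n ∈ f.support, (f.coeff n).natAbs, ?_⟩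
  intro i f hf n
  have h1 : (f.coeff n).natAbs ≤ ∑ i, ∑ f ∈ S i, ∑ n ∈ f.support, (f.coeff n).natAbs := by
    by_cases hn : n ∈ f.support
    · have a1 : (f.coeff n).natAbs ≤ ∑ n ∈ f.support, (f.coeff n).natAbs :=
        Finset.single_le_sum (f := fun n => (f.coeff n).natAbs) (fun _ _ => Nat.zero_le _) hn
      have a2 : ∑ n ∈ f.support, (f.coeff n).natAbs ≤ ∑ f ∈ S i, ∑ n ∈ f.support, (f.coeff n).natAbs :=
        Finset.single_le_sum (f := fun f : ℤ[X] => ∑ n ∈ f.support, (f.coeff n).natAbs)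
          (fun _ _ => Nat.zero_le _) hf
      have a3 : ∑ f ∈ S i, ∑ n ∈ f.support, (f.coeff n).natAbs ≤
          ∑ i, ∑ f ∈ S i, ∑ n ∈ f.support, (f.coeff n).natAbs :=
        Finset.single_le_sum (f := fun i => ∑ f ∈ S i, ∑ n ∈ f.support, (f.coeff n).natAbs)
          (fun _ _ => Nat.zero_le _) (mem_univ i)
      omega
    · rw [notMem_support_iff.1 hn]
      simp
  rw [Int.abs_eq_natAbs]
  exact_mod_cast h1

variable {τ : Type*} [Fintype τ] [DecidableEq τ]

open Classical in
/-- **The joint Poisson law for arbitrary systems which are not translates of each other.** -/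
theorem fix_law (k D : ℕ) (Λ ε : ℝ) (hΛ : 0 ≤ Λ) (hε : 0 < ε) (θ : ℝ) (hθ : 0 < θ) :
    ∃ r0 : ℕ, 2 ≤ r0 ∧ ∀ r : ℕ, r0 ≤ r → ∀ (ι : Type) [Finite ι] (S : ι → Finset ℤ[X]), (∀ i, AS k D (S i)) →
      (∀ i j, i ≠ j → ∀ h : ℕ, S i ≠ sh h (S j)) → ∀ᶠ X : ℕ in atTop, ∀ Z Y : ℕ, (X : ℝ) ^ θ ≤ Y →
      ∀ (σ : τ → ι) (u v : τ → ℕ), (∀ t, u t ≤ v t) →
      (∀ t, v t * Vq (QS (S (σ t))) ⌊(X : ℝ) ^ (1 / (r : ℝ))⌋₊ ≤ Λ) →
      (∀ s t, s ≠ t → σ s = σ t → Disjoint (Ioc (u s) (v s)) (Ioc (u t) (v t))) →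
      ∀ A : Finset (τ → ℕ), |(((Ioc Z (Z + Y)).filter
        (fun n => (fun t => NB (QS (S (σ t))) ⌊(X : ℝ) ^ (1 / (r : ℝ))⌋₊ (Ioc (u t) (v t)) n) ∈ A)).card : ℝ) -
        Y * PoJ (fun t => ((v t : ℝ) - u t) * Vq (QS (S (σ t))) ⌊(X : ℝ) ^ (1 / (r : ℝ))⌋₊) A| ≤ ε * Y := by
  obtain ⟨A, hA, hres⟩ := resz 1 D 1 1 one_pos one_pos
  obtain ⟨A', hA'⟩ : ∃ A' : ℝ, A' = A * (k * k) + 1 := ⟨_, rfl⟩
  have hA'0 : 0 < A' := by rw [hA']; positivity
  obtain ⟨w, κ, r0, _, hκ, hr0, hlaw⟩ := gen_law2 (τ := τ) (k * D + 1) (k * k) Λ ε hΛ hε A' 1 θ hA'0 one_pos hθ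
  refine ⟨r0, hr0, ?_⟩
  intro r hr ι hfin S hS hne
  have := Fintype.ofFinite ι
  have hr2 : 2 ≤ r := hr0.trans hr
  have hrr : (2 : ℝ) ≤ r := by exact_mod_cast hr2
  have hrpos : (0 : ℝ) < r := by linarith
  obtain ⟨M, hM⟩ := exists_M S k D hS
  obtain ⟨H, hH⟩ := exists_H S
  choose v0 C0 hv0 hC0 hV using fun i => as_V (hS i)
  choose AU hAU hVU using fun (i j : ι) (d : ℕ) => Vt_QS_up (ps_union (hS i).ps (ps_sh (hS j).ps (d : ℤ)))
  obtain ⟨CV, hCV⟩ : ∃ CV : ℝ, CV = ∑ i, C0 i + 1 := ⟨_, rfl⟩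
  have hCV0 : 0 < CV := by
    have : 0 ≤ ∑ i, C0 i := Finset.sum_nonneg fun i _ => (hC0 i).le
    linarith
  obtain ⟨BV, hBV⟩ : ∃ BV : ℝ, BV = ∑ i, 1 / v0 i := ⟨_, rfl⟩
  have hBV0 : 0 ≤ BV := by
    rw [hBV]
    exact Finset.sum_nonneg fun i _ => by have := hv0 i; positivity
  obtain ⟨CU, hCU⟩ : ∃ CU : ℝ, CU = ∑ i, ∑ j, ∑ d ∈ range M, AU i j d := ⟨_, rfl⟩
  have hCU0 : 0 ≤ CU := by
    rw [hCU]
    exact Finset.sum_nonneg fun i _ => Finset.sum_nonneg fun j _ => Finset.sum_nonneg fun d _ => (hAU i j d).le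
  have hCUle : ∀ i j, ∀ d < M, AU i j d ≤ CU := by
    intro i j d hd
    have a1 : AU i j d ≤ ∑ d ∈ range M, AU i j d :=
      Finset.single_le_sum (f := fun d => AU i j d) (fun d _ => (hAU i j d).le) (mem_range.2 hd)
    have a2 : ∑ d ∈ range M, AU i j d ≤ ∑ j, ∑ d ∈ range M, AU i j d :=
      Finset.single_le_sum (f := fun j => ∑ d ∈ range M, AU i j d)
        (fun j _ => Finset.sum_nonneg fun d _ => (hAU i j d).le) (mem_univ j)
    have a3 : ∑ j, ∑ d ∈ range M, AU i j d ≤ ∑ i, ∑ j, ∑ d ∈ range M, AU i j d :=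
      Finset.single_le_sum (f := fun i => ∑ j, ∑ d ∈ range M, AU i j d)
        (fun i _ => Finset.sum_nonneg fun j _ => Finset.sum_nonneg fun d _ => (hAU i j d).le) (mem_univ i)
    rw [hCU]
    exact a1.trans (a2.trans a3)
  have hlogX : Tendsto (fun X : ℕ => Real.log (X : ℝ)) atTop atTop :=
    Real.tendsto_log_atTop.comp tendsto_natCast_atTop_atTop
  have hpow2 : Tendsto (fun X : ℕ => (X : ℝ) ^ (1 / (2 * r : ℝ))) atTop atTop :=
    (tendsto_rpow_atTop (by positivity)).comp tendsto_natCast_atTop_atTop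
  filter_upwards [hlaw r hr (2 * r * CV) (by positivity), hres, eventually_ge_atTop 16,
    eventually_ge_atTop H, hpow2.eventually_ge_atTop ((w : ℝ) + 3),
    hlogX.eventually_ge_atTop (2 * r * (Λ * BV * (CU * Real.exp w) / κ + 1))] with X hX hresX hX16 hXH hX5 hX6
  intro Z Y hY σ u v huv hvΛ hdis A''
  have hX16r : (16 : ℝ) ≤ X := by exact_mod_cast hX16
  have hXpos : (0 : ℝ) < X := by linarith
  have hXone : (1 : ℝ) ≤ X := by linarith
  have hlX0 : 0 < Real.log X := Real.log_pos (by linarith)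
  obtain ⟨hy1, hy2, hy3, hy4⟩ := level_low r hr2 X (by omega) (by
    have : (0 : ℝ) ≤ w := Nat.cast_nonneg _
    linarith)
  obtain ⟨y, hy⟩ : ∃ y, y = ⌊(X : ℝ) ^ (1 / (r : ℝ))⌋₊ := ⟨_, rfl⟩
  have hX' := hX
  rw [← hy] at hy1 hy2 hy3 hy4 hvΛ hX' ⊢
  have hyw : w + 3 ≤ y := by
    have : ((w + 3 : ℕ) : ℝ) ≤ y := by
      push_cast
      linarith
    exact_mod_cast this
  have hwy : w ≤ y := by omega
  have hy3' : 3 ≤ y := by omega
  have hG0 : 0 ≤ Λ * BV * (CU * Real.exp w) / κ := by positivity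
  have hlogy1 : Λ * BV * (CU * Real.exp w) / κ + 1 ≤ Real.log y := by
    refine le_trans ?_ hy2
    rw [le_div_iff₀ (by positivity)]
    linarith
  have hlogy : 1 ≤ Real.log y := by linarith
  have hlogy0 : 0 < Real.log y := by linarith
  -- the densities
  have hVup : ∀ t, Vq (QS (S (σ t))) y ≤ 2 * r * CV / Real.log X := by
    intro t
    have h1 := (hV (σ t) y hy3').2
    have h2 : C0 (σ t) / Real.log y ^ (S (σ t)).card ≤ C0 (σ t) / Real.log y := by
      apply div_le_div_of_nonneg_left (hC0 _).le hlogy0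
      have h3 : 1 ≤ (S (σ t)).card := (hS (σ t)).ne.card_pos
      calc Real.log y = Real.log y ^ 1 := (pow_one _).symm
        _ ≤ Real.log y ^ (S (σ t)).card := pow_le_pow_right₀ hlogy h3
    have h3 : C0 (σ t) ≤ CV := by
      rw [hCV]
      have := Finset.single_le_sum (fun i _ => (hC0 i).le) (mem_univ (σ t))
      linarith
    refine h1.trans (h2.trans ?_)
    rw [div_le_div_iff₀ hlogy0 hlX0]
    have h4 : Real.log X ≤ 2 * r * Real.log y := by
      rw [div_le_iff₀ (by positivity)] at hy2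
      linarith
    calc C0 (σ t) * Real.log X ≤ CV * (2 * r * Real.log y) := mul_le_mul h3 h4 hlX0.le hCV0.le
      _ = _ := by ring
  have hvup : ∀ t, (v t : ℝ) ≤ Λ * BV * Real.log y ^ (S (σ t)).card := by
    intro t
    have h1 := (hV (σ t) y hy3').1
    have h2 : 0 < v0 (σ t) / Real.log y ^ (S (σ t)).card := by
      have := hv0 (σ t)
      positivity
    have h3 : (v t : ℝ) * (v0 (σ t) / Real.log y ^ (S (σ t)).card) ≤ Λ :=
      (mul_le_mul_of_nonneg_left h1 (Nat.cast_nonneg _)).trans (hvΛ t)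
    have h4 : (v t : ℝ) ≤ Λ / (v0 (σ t) / Real.log y ^ (S (σ t)).card) := by
      rw [le_div_iff₀ h2]
      exact h3
    refine h4.trans ?_
    rw [div_div_eq_mul_div, div_eq_mul_one_div]
    have h5 : 1 / v0 (σ t) ≤ BV := by
      rw [hBV]
      exact Finset.single_le_sum (f := fun i => 1 / v0 i) (fun i _ => by have := hv0 i; positivity) (mem_univ (σ t))
    calc Λ * Real.log y ^ (S (σ t)).card * (1 / v0 (σ t)) ≤ Λ * Real.log y ^ (S (σ t)).card * BV :=
          mul_le_mul_of_nonneg_left h5 (by positivity)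
      _ = _ := by ring
  have hunion : ∀ i j, ∀ d < M, S i ≠ sh d (S j) → Vt (QS (S i ∪ sh (d : ℤ) (S j))) w y ≤
      CU * Real.exp w / Real.log y ^ (min (S i).card (S j).card + 1) := by
    intro i j d hd hnij
    refine (hVU i j d w y hwy hy3').trans ?_
    apply div_le_div₀ (by positivity) (mul_le_mul_of_nonneg_right (hCUle i j d hd) (Real.exp_nonneg _)) (by positivity)
    exact pow_le_pow_right₀ hlogy (card_union_min _ hnij)
  have h1 := hX' (fun _ _ => False) (fun t => QS (S (σ t))) (fun s t => Xd S M (σ s) (σ t)) u v Z Y (perB_false _)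
    (fun t => as_perB (hS (σ t))) (fun p hp => by rw [nuB_false]; exact hp.pos)
    (fun t => as_adm (hS (σ t))) hVup huv hvΛ (fun s t => card_Xd S k D M hS _ _) (fun t h0 => by
      unfold Xd at h0
      rw [mem_filter] at h0
      exact h0.2.2 rfl rfl)
    (fun s t => by
      refine ⟨CU * Real.exp w / Real.log y ^ (min (S (σ s)).card (S (σ t)).card + 1), by positivity, ?_, ?_⟩
      · have hgen : ∀ t' : τ, (S (σ t')).card = min (S (σ s)).card (S (σ t)).card →
            (v t' : ℝ) * (CU * Real.exp w / Real.log y ^ (min (S (σ s)).card (S (σ t)).card + 1)) ≤ κ := by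
          intro t' ht'
          rw [← ht']
          calc (v t' : ℝ) * (CU * Real.exp w / Real.log y ^ ((S (σ t')).card + 1)) ≤
              (Λ * BV * Real.log y ^ (S (σ t')).card) * (CU * Real.exp w / Real.log y ^ ((S (σ t')).card + 1)) :=
                mul_le_mul_of_nonneg_right (hvup t') (by positivity)
            _ = Λ * BV * (CU * Real.exp w) / Real.log y := by
                rw [pow_succ]
                field_simp
            _ ≤ κ := by
                rw [div_le_iff₀ hlogy0]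
                have h2 : Λ * BV * (CU * Real.exp w) / κ ≤ Real.log y := by linarith
                rw [div_le_iff₀ hκ] at h2
                linarith
        rcases le_total (S (σ s)).card (S (σ t)).card with h2 | h2
        · exact Or.inl (hgen s (min_eq_left h2).symm)
        · exact Or.inr (hgen t (min_eq_right h2).symm)
      · intro b b' he
        rw [ex_iff] at he
        obtain ⟨_, he⟩ := he
        have hne' : ∀ (i j : ι) (d : ℕ), d ∈ Xd S M i j → d < M ∧ S i ≠ sh (d : ℤ) (S j) := by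
          intro i j d hd
          unfold Xd at hd
          rw [mem_filter, mem_range] at hd
          refine ⟨hd.1, ?_⟩
          by_cases hij : i = j
          · rw [hij]
            exact (sh_ne (hS j).ps (hS j).ne d (by exact_mod_cast hd.2.2 hij)).symm
          · exact hne i j hij d
        rcases he with ⟨h2, h3⟩ | ⟨h2, h3⟩
        · obtain ⟨h4, h5⟩ := hne' _ _ _ h3
          rw [rh_pair (fun t => S (σ t)) s t w y b b' ((2 * k) * D + 1) h2 (ps_perB
            (ps_union (hS _).ps (ps_sh (hS _).ps _)) (by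
              refine (card_union_le _ _).trans ?_
              rw [card_sh]
              have a1 := (hS (σ s)).card
              have a2 := (hS (σ t)).card
              omega) (by
              intro f hf
              rcases mem_union.1 hf with hf | hf
              · exact (hS _).degD f hf
              · unfold sh at hf
                rw [mem_image] at hf
                obtain ⟨g, hg, rfl⟩ := hf
                rw [deg_shift]
                exact (hS _).degD g hg))]
          exact hunion _ _ _ h4 h5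
        · obtain ⟨h4, h5⟩ := hne' _ _ _ h3
          rw [Finset.pair_comm, rh_pair (fun t => S (σ t)) t s w y b' b ((2 * k) * D + 1) h2 (ps_perB
            (ps_union (hS _).ps (ps_sh (hS _).ps _)) (by
              refine (card_union_le _ _).trans ?_
              rw [card_sh]
              have a1 := (hS (σ s)).card
              have a2 := (hS (σ t)).card
              omega) (by
              intro f hf
              rcases mem_union.1 hf with hf | hf
              · exact (hS _).degD f hf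
              · unfold sh at hf
                rw [mem_image] at hf
                obtain ⟨g, hg, rfl⟩ := hf
                rw [deg_shift]
                exact (hS _).degD g hg)), min_comm]
          exact hunion _ _ _ h4 h5) ⟨?_, ?_⟩ hY A''
  · rw [OmY_false] at h1
    rw [Nat.card_Ioc, Nat.add_sub_cancel_left] at h1
    exact h1
  · intro t d _ _
    refine ⟨1, one_pos, by push_cast; exact Real.one_le_rpow hXone hA'0.le, ?_⟩
    rintro p _ _ ⟨m, h2, _⟩
    exact absurd h2 id
  · intro s t d hd hdX hor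
    have hnot : ∀ f ∈ S (σ s), ∀ g ∈ S (σ t), f ≠ g.comp (Polynomial.X + C (d : ℤ)) := by
      intro f hf g hg he
      have h2 := hM _ _ f hf g hg d he
      apply hdX
      unfold Xd
      rw [mem_filter, mem_range]
      refine ⟨h2, ⟨f, hf, g, hg, he⟩, ?_⟩
      intro hst hd0
      rcases hor with h3 | ⟨h3, h4⟩
      · omega
      · exact h4 (hdis s t h3 hst)
    have hR : ∀ f ∈ S (σ s), ∀ g ∈ S (σ t), ∃ R : ℕ, 0 < R ∧ (R : ℝ) ≤ (X : ℝ) ^ A ∧
        ∀ (p : ℕ) (m : ℤ), (p : ℤ) ∣ f.eval m → (p : ℤ) ∣ g.eval (m + d) → p ∣ R := by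
      intro f hf g hg
      have hbd : ∀ (i : ι), ∀ f ∈ S i, Bd (k := 1) D ((X : ℝ) ^ (1 : ℝ)) (fun _ => f) := by
        intro i f hf
        refine ⟨fun _ => (hS i).ps.irr f hf, fun _ => ((hS i).ps.deg f hf).ne', fun _ => (hS i).degD f hf,
          fun _ n => ?_⟩
        rw [Real.rpow_one]
        have h2 := hH i f hf n
        have h3 : (|f.coeff n| : ℤ) ≤ (X : ℤ) := h2.trans (by exact_mod_cast hXH)
        exact_mod_cast h3
      obtain ⟨R, h2, h3, h4⟩ := hresX (fun _ => f) (fun _ => g) (hbd _ f hf) (hbd _ g hg) (d : ℤ) (by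
        rw [abs_of_nonneg (by positivity)]
        push_cast
        exact hd) (fun _ _ hass => by
          rcases assoc_cases hass with h2 | h2
          · exact hnot f hf g hg h2
          · have h3 := (hS _).ps.lead f hf
            rw [h2, leadingCoeff_neg, Pool.Agent.W149.CS.comp_lc] at h3
            have h4 := (hS _).ps.lead g hg
            linarith)
      exact ⟨R, h2, h3, fun p m h5 h6 => h4 p m ⟨0, h5⟩ ⟨0, h6⟩⟩
    choose! R hR0 hRA hRd using hR
    refine ⟨∏ f ∈ S (σ s), ∏ g ∈ S (σ t), R f g, ?_, ?_, ?_⟩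
    · exact Finset.prod_pos fun f hf => Finset.prod_pos fun g hg => hR0 f hf g hg
    · have hXA : 1 ≤ (X : ℝ) ^ A := Real.one_le_rpow hXone hA.le
      have h2 : ((∏ f ∈ S (σ s), ∏ g ∈ S (σ t), R f g : ℕ) : ℝ) ≤ ((X : ℝ) ^ A) ^ (k * k) := by
        push_cast
        calc ∏ f ∈ S (σ s), ∏ g ∈ S (σ t), (R f g : ℝ) ≤ ∏ _f ∈ S (σ s), ∏ _g ∈ S (σ t), (X : ℝ) ^ A := by
              apply Finset.prod_le_prod
              · intro f _
                exact Finset.prod_nonneg fun g _ => Nat.cast_nonneg _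
              · intro f hf
                exact Finset.prod_le_prod (fun g _ => Nat.cast_nonneg _) (fun g hg => hRA f hf g hg)
          _ = ((X : ℝ) ^ A) ^ ((S (σ t)).card * (S (σ s)).card) := by
              rw [Finset.prod_const, Finset.prod_const, pow_mul]
          _ ≤ ((X : ℝ) ^ A) ^ (k * k) :=
              pow_le_pow_right₀ hXA (Nat.mul_le_mul (hS _).card (hS _).card)
      refine h2.trans ?_
      rw [← Real.rpow_natCast, ← Real.rpow_mul hXpos.le]
      apply Real.rpow_le_rpow_of_exponent_le hXone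
      rw [hA']
      push_cast
      linarith
    · rintro p _ _ ⟨m, h2, h3⟩
      rw [QS_iff] at h2 h3
      obtain ⟨f, hf, h2⟩ := h2
      obtain ⟨g, hg, h3⟩ := h3
      have h4 := hRd f hf g hg p (m : ℤ) h2 (by push_cast at h3; exact h3)
      exact (h4.trans (Finset.dvd_prod_of_mem (fun g => R f g) hg)).trans
        (Finset.dvd_prod_of_mem (fun f => ∏ g ∈ S (σ t), R f g) hf)

end Pool.Agent.Q236.UL
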