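import Pool.Agent.Q236.UL.Fam
import Pool.Agent.Q236.UL.Esym

set_option autoImplicit false

/-!
# The sums over the free sets of conditions
-/

namespace Pool.Agent.Q236.UL

open Finset Pool.Agent.H373R2.T7 Pool.Agent.W123.RP Pool.Agent.W123.RU Pool.Agent.TH464.PO

variable {ι : Type*} [DecidableEq ι]

/-- sifted at the primes in `(w, y]` -/
def Sl (P : ℕ → ℕ → Prop) (w y n : ℕ) : Prop := ∀ p ∈ pz y, w < p → ¬ P p n

lemma sl_EH (E : ι → ℕ → ℕ → Prop) (J : Finset ι) (w y n : ℕ) :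
    Sl (EH E J) w y n ↔ ∀ i ∈ J, Sl (E i) w y n := by
  unfold Sl EH
  constructor
  · intro h i hi p hp hw hE
    exact h p hp hw ⟨i, hi, hE⟩
  · rintro h p hp hw ⟨i, hi, hE⟩
    exact h i hi p hp hw hE

open Classical in
/-- the number of the elements of `Om` with all conditions of `J` -/
noncomputable def cn (E : ι → ℕ → ℕ → Prop) (w y : ℕ) (Om : Finset ℕ) (J : Finset ι) : ℕ :=
  (Om.filter (fun n => Sl (EH E J) w y n)).card

/-- the relative density -/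
noncomputable def rh (E : ι → ℕ → ℕ → Prop) (o : ι) (w y : ℕ) (J : Finset ι) : ℝ :=
  Vt (EH E (insert o J)) w y / Vt (E o) w y

/-- the weights, `1` for the base -/
noncomputable def Uw (E : ι → ℕ → ℕ → Prop) (o : ι) (w y : ℕ) (i : ι) : ℝ := if i = o then 1 else Vt (E i) w y

/-- the constant in the collision products -/
def KK (R c : ℕ) : ℕ := (1 + 2 * ((R + 1) * c)) ^ ((R + 1) ^ 2) - 1

lemma Uw_o (E : ι → ℕ → ℕ → Prop) (o : ι) (w y : ℕ) : Uw E o w y o = 1 := by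
  unfold Uw
  rw [if_pos rfl]

lemma Uw_ne (E : ι → ℕ → ℕ → Prop) (o : ι) (w y : ℕ) (i : ι) (h : i ≠ o) : Uw E o w y i = Vt (E i) w y := by
  unfold Uw
  rw [if_neg h]

lemma Uw_nonneg (E : ι → ℕ → ℕ → Prop) (o : ι) (w y : ℕ) (i : ι) : 0 ≤ Uw E o w y i := by
  unfold Uw
  split_ifs
  · norm_num
  · exact Vt_nonneg (E i) w y

open Classical in
/-- the hypotheses on the conditions in `S`, given the base `o`, and the sample `Om` -/
structure Data (E : ι → ℕ → ℕ → Prop) (c : ℕ) (o : ι) (w y : ℕ) (S : Finset ι) (ex : ι × ι → Prop)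
    (Om : Finset ℕ) (R : ℕ) (η rem : ℝ) : Prop where
  per : ∀ i, PerB (E i) c
  pos : 0 < Vt (E o) w y
  no : o ∉ S
  lev : ∀ J ⊆ S, J.card ≤ R →
    |(cn E w y Om J : ℝ) - Om.card * rh E o w y J| ≤ η * (Om.card * rh E o w y J) + rem
  rem0 : 0 ≤ rem
  remS : ((S.card : ℝ) + 1) ^ R * rem ≤ η * Om.card
  small : ∀ i ∈ S, Vt (E i) w y ≤ η
  pair : ∑ x ∈ (insert o S).offDiag.filter (fun x => ¬ ex x),
    Uw E o w y x.1 * Uw E o w y x.2 * (Fc E (KK R c) w y x - 1) ≤ η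
  expair : ∑ x ∈ S.offDiag.filter (fun x => ex x), Vt (E x.1) w y * Vt (E x.2) w y ≤ η
  exo : ∀ i ∈ S, ¬ ex (o, i) ∧ ¬ ex (i, o)
  bad : ((Om.filter (fun n => ∃ x ∈ S.offDiag, ex x ∧ Sl (E x.1) w y n ∧ Sl (E x.2) w y n)).card : ℝ) ≤
    η * Om.card
  wlarge : 2 * ((R + 1) * c) ≤ w
  w1 : 1 ≤ w
  E1 : (((R + 1) * c : ℕ) : ℝ) ^ 2 / w ≤ η

/-- a set without exceptional pairs -/
def Free (ex : ι × ι → Prop) (J : Finset ι) : Prop := ∀ x ∈ J.offDiag, ¬ ex x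

section single

variable {E : ι → ℕ → ℕ → Prop} {c : ℕ} {o : ι} {w y : ℕ} {S : Finset ι} {ex : ι × ι → Prop}
  {Om : Finset ℕ} {R : ℕ} {η rem : ℝ}

lemma not_mem_o (h : Data E c o w y S ex Om R η rem) (J : Finset ι) (hJ : J ⊆ S) : o ∉ J := fun ho => h.no (hJ ho)

lemma rh_lo (h : Data E c o w y S ex Om R η rem) (J : Finset ι) (hJ : J ⊆ S) (hR : J.card ≤ R) :
    (∏ i ∈ J, Vt (E i) w y) * (1 - η) ≤ rh E o w y J := by
  have hno := not_mem_o h J hJ
  have h1 := tail_lo E c h.per (insert o J) w y (R + 1) (by rw [card_insert_of_notMem hno]; omega) h.w1 h.wlarge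
  rw [prod_insert hno] at h1
  unfold rh
  rw [le_div_iff₀ h.pos]
  refine le_trans ?_ h1
  have hP : 0 ≤ Vt (E o) w y * ∏ i ∈ J, Vt (E i) w y :=
    mul_nonneg h.pos.le (prod_nonneg fun i _ => Vt_nonneg (E i) w y)
  have h2 : 1 - η ≤ 1 - (((R + 1) * c : ℕ) : ℝ) ^ 2 / w := by
    have := h.E1
    linarith
  calc (∏ i ∈ J, Vt (E i) w y) * (1 - η) * Vt (E o) w y = (Vt (E o) w y * ∏ i ∈ J, Vt (E i) w y) * (1 - η) := by ring
    _ ≤ _ := mul_le_mul_of_nonneg_left h2 hP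

lemma rh_up (h : Data E c o w y S ex Om R η rem) (J : Finset ι) (hJ : J ⊆ S) (hR : J.card ≤ R) :
    rh E o w y J ≤ (∏ i ∈ J, Vt (E i) w y) *
      (1 + ∑ x ∈ (insert o J).offDiag, (Fc E (KK R c) w y x - 1)) := by
  have hno := not_mem_o h J hJ
  have h1 := tail_up E c h.per (insert o J) w y (R + 1) (by rw [card_insert_of_notMem hno]; omega) h.wlarge
  rw [prod_insert hno] at h1
  unfold rh
  rw [div_le_iff₀ h.pos]
  refine h1.trans (le_of_eq ?_)
  unfold KK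
  ring

lemma cn_close (h : Data E c o w y S ex Om R η rem) (hη1 : η ≤ 1) (J : Finset ι) (hJ : J ⊆ S)
    (hR : J.card ≤ R) :
    |(cn E w y Om J : ℝ) - Om.card * ∏ i ∈ J, Vt (E i) w y| ≤
      Om.card * ((∏ i ∈ J, Vt (E i) w y) * (2 * η + 2 * ∑ x ∈ (insert o J).offDiag, (Fc E (KK R c) w y x - 1)))
        + rem := by
  have h1 := h.lev J hJ hR
  have h2 := rh_lo h J hJ hR
  have h3 := rh_up h J hJ hR
  have hη : 0 ≤ η := le_trans (by positivity) h.E1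
  obtain ⟨a, ha⟩ : ∃ a, a = ∏ i ∈ J, Vt (E i) w y := ⟨_, rfl⟩
  obtain ⟨s, hs⟩ : ∃ s, s = ∑ x ∈ (insert o J).offDiag, (Fc E (KK R c) w y x - 1) := ⟨_, rfl⟩
  obtain ⟨r, hr⟩ : ∃ r, r = rh E o w y J := ⟨_, rfl⟩
  obtain ⟨N, hN⟩ : ∃ N : ℝ, N = Om.card := ⟨_, rfl⟩
  obtain ⟨C, hC⟩ : ∃ C : ℝ, C = (cn E w y Om J : ℝ) := ⟨_, rfl⟩
  rw [← ha] at h2 h3 ⊢
  rw [← hs] at h3 ⊢
  rw [← hr] at h1 h2 h3
  rw [← hN] at h1 ⊢
  rw [← hC] at h1 ⊢
  have ha0 : 0 ≤ a := by rw [ha]; exact prod_nonneg fun i _ => Vt_nonneg (E i) w y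
  have hs0 : 0 ≤ s := by
    rw [hs]
    apply Finset.sum_nonneg
    intro x _
    have := Fc_ge E (KK R c) w y x
    linarith
  have hN0 : 0 ≤ N := by rw [hN]; exact Nat.cast_nonneg _
  have h4 : |r - a| ≤ a * (η + s) := by
    rw [abs_le]
    constructor
    · nlinarith
    · nlinarith
  have h5 : r ≤ a * (1 + s) := h3
  have h6 : |C - N * a| ≤ |C - N * r| + N * |r - a| := by
    have e : C - N * a = (C - N * r) + N * (r - a) := by ring
    rw [e]
    refine (abs_add_le _ _).trans ?_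
    rw [abs_mul, abs_of_nonneg hN0]
  have h7 : N * |r - a| ≤ N * (a * (η + s)) := mul_le_mul_of_nonneg_left h4 hN0
  have h8 : η * (N * r) ≤ N * (a * (η + s)) := by
    have h9 : η * r ≤ a * (η + s) := by
      calc η * r ≤ η * (a * (1 + s)) := mul_le_mul_of_nonneg_left h5 hη
        _ = a * (η + η * s) := by ring
        _ ≤ a * (η + s) := by
          apply mul_le_mul_of_nonneg_left _ ha0
          nlinarith
    calc η * (N * r) = N * (η * r) := by ring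
      _ ≤ _ := mul_le_mul_of_nonneg_left h9 hN0
  calc |C - N * a| ≤ (η * (N * r) + rem) + N * (a * (η + s)) := by linarith
    _ ≤ N * (a * (η + s)) + rem + N * (a * (η + s)) := by linarith
    _ = _ := by ring

end single

/-- the number of small sets -/
lemma card_small (S : Finset ι) (R : ℕ) (𝒥 : Finset (Finset ι)) (h𝒥 : ∀ J ∈ 𝒥, J ⊆ S ∧ J.card ≤ R) :
    (𝒥.card : ℝ) ≤ ((S.card : ℝ) + 1) ^ R := by
  have h1 : 𝒥 ⊆ (range (R + 1)).biUnion (fun k => powersetCard k S) := by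
    intro J hJ
    rw [mem_biUnion]
    exact ⟨J.card, mem_range.2 (Nat.lt_succ_of_le (h𝒥 J hJ).2), mem_powersetCard.2 ⟨(h𝒥 J hJ).1, rfl⟩⟩
  have h2 : 𝒥.card ≤ ∑ k ∈ range (R + 1), S.card.choose k := by
    refine (card_le_card h1).trans (card_biUnion_le.trans ?_)
    apply Finset.sum_le_sum
    intro k _
    rw [card_powersetCard]
  have h3 : ∑ k ∈ range (R + 1), S.card.choose k ≤ (S.card + 1) ^ R := by
    rw [add_pow]
    apply Finset.sum_le_sum
    intro k hk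
    rw [mem_range] at hk
    rw [one_pow, mul_one]
    calc S.card.choose k ≤ S.card ^ k := Nat.choose_le_pow _ _
      _ = S.card ^ k * 1 := (mul_one _).symm
      _ ≤ S.card ^ k * R.choose k := Nat.mul_le_mul_left _ (Nat.choose_pos (by omega))
  exact_mod_cast h2.trans h3

section sums

variable {E : ι → ℕ → ℕ → Prop} {c : ℕ} {o : ι} {w y : ℕ} {S : Finset ι} {ex : ι × ι → Prop}
  {Om : Finset ℕ} {R : ℕ} {η rem : ℝ}

open Classical in
/-- the sum over a family of free sets -/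
lemma fam_sum (h : Data E c o w y S ex Om R η rem) (hη1 : η ≤ 1) (𝒥 : Finset (Finset ι))
    (h𝒥 : ∀ J ∈ 𝒥, J ⊆ S ∧ J.card ≤ R ∧ Free ex J) (Ls : ℝ) (hLs : ∑ i ∈ S, Vt (E i) w y ≤ Ls) :
    |∑ J ∈ 𝒥, (cn E w y Om J : ℝ) - Om.card * ∑ J ∈ 𝒥, ∏ i ∈ J, Vt (E i) w y| ≤
      7 * Real.exp Ls * η * Om.card := by
  have hη : 0 ≤ η := le_trans (by positivity) h.E1
  have hN0 : (0 : ℝ) ≤ Om.card := Nat.cast_nonneg _
  have hVS : ∀ i ∈ S, 0 ≤ Vt (E i) w y := fun i _ => Vt_nonneg (E i) w y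
  have hexp : ∏ i ∈ S, (1 + Vt (E i) w y) ≤ Real.exp Ls :=
    (prod_one_add_le_exp S _ hVS).trans (Real.exp_le_exp.2 hLs)
  have he1 : 1 ≤ Real.exp Ls := Real.one_le_exp ((Finset.sum_nonneg hVS).trans hLs)
  rw [Finset.mul_sum, ← Finset.sum_sub_distrib]
  refine (Finset.abs_sum_le_sum_abs _ _).trans ?_
  refine (Finset.sum_le_sum fun J hJ => cn_close h hη1 J (h𝒥 J hJ).1 (h𝒥 J hJ).2.1).trans ?_
  rw [Finset.sum_add_distrib, Finset.sum_const, nsmul_eq_mul, ← Finset.mul_sum]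
  have hrem : (𝒥.card : ℝ) * rem ≤ η * Om.card := by
    refine le_trans ?_ h.remS
    apply mul_le_mul_of_nonneg_right _ h.rem0
    exact card_small S R 𝒥 (fun J hJ => ⟨(h𝒥 J hJ).1, (h𝒥 J hJ).2.1⟩)
  have hsub : 𝒥 ⊆ S.powerset := fun J hJ => mem_powerset.2 (h𝒥 J hJ).1
  have hA : ∑ J ∈ 𝒥, ∏ i ∈ J, Vt (E i) w y ≤ Real.exp Ls := by
    refine le_trans ?_ hexp
    rw [← sum_powerset_prod]
    apply Finset.sum_le_sum_of_subset_of_nonneg hsub
    intro J hJ _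
    rw [mem_powerset] at hJ
    exact prod_nonneg fun i hi => hVS i (hJ hi)
  have hB : ∑ J ∈ 𝒥, (∏ i ∈ J, Vt (E i) w y) * ∑ x ∈ (insert o J).offDiag, (Fc E (KK R c) w y x - 1) ≤
      2 * Real.exp Ls * η := by
    obtain ⟨𝒥', h𝒥'⟩ : ∃ 𝒥', 𝒥' = 𝒥.image (fun J => insert o J) := ⟨_, rfl⟩
    have hU : ∀ J ∈ 𝒥, ∏ i ∈ insert o J, Uw E o w y i = ∏ i ∈ J, Vt (E i) w y := by
      intro J hJ
      have hno := not_mem_o h J (h𝒥 J hJ).1
      rw [prod_insert hno, Uw_o, one_mul]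
      apply prod_congr rfl
      intro i hi
      exact Uw_ne E o w y i (fun hio => hno (hio ▸ hi))
    have e1 : ∑ J ∈ 𝒥, (∏ i ∈ J, Vt (E i) w y) * ∑ x ∈ (insert o J).offDiag, (Fc E (KK R c) w y x - 1) =
        ∑ J ∈ 𝒥', (∏ i ∈ J, Uw E o w y i) * ∑ x ∈ J.offDiag, (Fc E (KK R c) w y x - 1) := by
      rw [h𝒥', Finset.sum_image]
      · apply Finset.sum_congr rfl
        intro J hJ
        rw [hU J hJ]
      · intro I hI J hJ hIJ
        have h1 := not_mem_o h I (h𝒥 I hI).1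
        have h2 := not_mem_o h J (h𝒥 J hJ).1
        simp only at hIJ
        rw [← erase_insert h1, ← erase_insert h2, hIJ]
    rw [e1]
    have h2 := sum_offDiag (insert o S) (Uw E o w y) (fun i _ => Uw_nonneg E o w y i) 𝒥' (by
        intro J hJ
        rw [h𝒥', mem_image] at hJ
        obtain ⟨I, hI, rfl⟩ := hJ
        exact mem_powerset.2 (insert_subset_insert o (h𝒥 I hI).1))
      (fun x => Fc E (KK R c) w y x - 1) (fun x => by
        have := Fc_ge E (KK R c) w y x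
        linarith) ex (by
        intro J hJ x hx
        rw [h𝒥', mem_image] at hJ
        obtain ⟨I, hI, rfl⟩ := hJ
        rw [mem_offDiag, mem_insert, mem_insert] at hx
        obtain ⟨h3, h4, h5⟩ := hx
        obtain ⟨u, v⟩ := x
        simp only at h3 h4 h5
        rcases h3 with rfl | h3
        · rcases h4 with rfl | h4
          · exact absurd rfl h5
          · exact (h.exo v ((h𝒥 I hI).1 h4)).1
        · rcases h4 with rfl | h4
          · exact (h.exo u ((h𝒥 I hI).1 h3)).2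
          · exact (h𝒥 I hI).2.2 (u, v) (mem_offDiag.2 ⟨h3, h4, h5⟩))
    refine h2.trans ?_
    rw [prod_insert h.no, Uw_o]
    have e2 : ∏ i ∈ S, (1 + Uw E o w y i) = ∏ i ∈ S, (1 + Vt (E i) w y) := by
      apply prod_congr rfl
      intro i hi
      rw [Uw_ne E o w y i (fun hio => h.no (hio ▸ hi))]
    rw [e2]
    have hP0 : 0 ≤ ∏ i ∈ S, (1 + Vt (E i) w y) := prod_nonneg fun i hi => by
      have := hVS i hi
      linarith
    calc (1 + 1) * (∏ i ∈ S, (1 + Vt (E i) w y)) *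
        ∑ x ∈ (insert o S).offDiag.filter (fun x => ¬ ex x),
          Uw E o w y x.1 * Uw E o w y x.2 * (Fc E (KK R c) w y x - 1) ≤
        (1 + 1) * (∏ i ∈ S, (1 + Vt (E i) w y)) * η := mul_le_mul_of_nonneg_left h.pair (by positivity)
      _ ≤ (1 + 1) * Real.exp Ls * η := by
          apply mul_le_mul_of_nonneg_right _ hη
          linarith
      _ = _ := by ring
  have hC : ∑ J ∈ 𝒥, (∏ i ∈ J, Vt (E i) w y) *
      (2 * η + 2 * ∑ x ∈ (insert o J).offDiag, (Fc E (KK R c) w y x - 1)) ≤ 6 * Real.exp Ls * η := by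
    have e : ∑ J ∈ 𝒥, (∏ i ∈ J, Vt (E i) w y) *
        (2 * η + 2 * ∑ x ∈ (insert o J).offDiag, (Fc E (KK R c) w y x - 1)) =
        2 * η * ∑ J ∈ 𝒥, ∏ i ∈ J, Vt (E i) w y +
        2 * ∑ J ∈ 𝒥, (∏ i ∈ J, Vt (E i) w y) * ∑ x ∈ (insert o J).offDiag, (Fc E (KK R c) w y x - 1) := by
      rw [Finset.mul_sum, Finset.mul_sum, ← Finset.sum_add_distrib]
      apply Finset.sum_congr rfl
      intro J _
      ring
    rw [e]
    have h1 : 2 * η * ∑ J ∈ 𝒥, ∏ i ∈ J, Vt (E i) w y ≤ 2 * η * Real.exp Ls :=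
      mul_le_mul_of_nonneg_left hA (by positivity)
    linarith
  have hD := mul_le_mul_of_nonneg_left hC hN0
  have hE : η * Om.card ≤ Real.exp Ls * η * Om.card := by
    have : η ≤ Real.exp Ls * η := by nlinarith
    exact mul_le_mul_of_nonneg_right this hN0
  calc _ ≤ Om.card * (6 * Real.exp Ls * η) + η * Om.card := add_le_add hD hrem
    _ ≤ _ := by linarith

open Classical in
/-- the same, upper bound -/
lemma fam_sum_le (h : Data E c o w y S ex Om R η rem) (hη1 : η ≤ 1) (𝒥 : Finset (Finset ι))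
    (h𝒥 : ∀ J ∈ 𝒥, J ⊆ S ∧ J.card ≤ R ∧ Free ex J) (Ls : ℝ) (hLs : ∑ i ∈ S, Vt (E i) w y ≤ Ls) :
    ∑ J ∈ 𝒥, (cn E w y Om J : ℝ) ≤ 8 * Real.exp Ls * Om.card := by
  have h1 := fam_sum h hη1 𝒥 h𝒥 Ls hLs
  have hη : 0 ≤ η := le_trans (by positivity) h.E1
  have hN0 : (0 : ℝ) ≤ Om.card := Nat.cast_nonneg _
  have hVS : ∀ i ∈ S, 0 ≤ Vt (E i) w y := fun i _ => Vt_nonneg (E i) w y
  have hexp : ∏ i ∈ S, (1 + Vt (E i) w y) ≤ Real.exp Ls :=
    (prod_one_add_le_exp S _ hVS).trans (Real.exp_le_exp.2 hLs)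
  have hA : ∑ J ∈ 𝒥, ∏ i ∈ J, Vt (E i) w y ≤ Real.exp Ls := by
    refine le_trans ?_ hexp
    rw [← sum_powerset_prod]
    apply Finset.sum_le_sum_of_subset_of_nonneg (fun J hJ => mem_powerset.2 (h𝒥 J hJ).1)
    intro J hJ _
    rw [mem_powerset] at hJ
    exact prod_nonneg fun i hi => hVS i (hJ hi)
  have h2 := (abs_le.1 h1).2
  have h3 : (Om.card : ℝ) * ∑ J ∈ 𝒥, ∏ i ∈ J, Vt (E i) w y ≤ Om.card * Real.exp Ls :=
    mul_le_mul_of_nonneg_left hA hN0
  have h4 : 7 * Real.exp Ls * η * Om.card ≤ 7 * Real.exp Ls * 1 * Om.card := by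
    apply mul_le_mul_of_nonneg_right _ hN0
    exact mul_le_mul_of_nonneg_left hη1 (by positivity)
  linarith

end sums

end Pool.Agent.Q236.UL
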