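import Pool.Agent.Q236.UL.Abs

set_option autoImplicit false

/-!
# The joint Poisson law for integers, given a base condition
-/

namespace Pool.Agent.Q236.UL

open Finset Filter Pool.Agent.H373R2.T7 Pool.Agent.W123.RP Pool.Agent.W123.RU Pool.Agent.TH464.PO
open Pool.Agent.Q236.CP Pool.Agent.Q236.ML

variable {ι : Type*} [DecidableEq ι] {τ : Type*} [Fintype τ] [DecidableEq τ]

open Classical in
/-- the integers in one class modulo the small primes -/
noncomputable def Oc (P : ℕ → ℕ → Prop) (w y a Y : ℕ) : Finset ℕ :=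
  (Icc 1 Y).filter (fun n => (∀ p ∈ pz w, n % p = a % p) ∧ Sl P w y n)

lemma QH_zero' (P : ℕ → ℕ → Prop) : QH P {0} = P := by
  funext p n
  unfold QH
  simp

open Classical in
/-- the fundamental lemma in one class -/
lemma lev_int (C w : ℕ) (hw : 1 ≤ w) (η1 : ℝ) (hη1 : 0 < η1) : ∃ K0 x0 : ℕ, 1 ≤ K0 ∧
    ∀ (P : ℕ → ℕ → Prop) (y Y a : ℕ), PerB P C → w ≤ y → x0 ≤ y → y ^ K0 ≤ Y →
      |((Oc P w y a Y).card : ℝ) - Y / Mw w * Vt P w y| ≤ η1 * (Y / Mw w * Vt P w y) + √(Y : ℝ) := by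
  obtain ⟨K0, x0, hK0, hfund⟩ := sys_fund (w + C) (by omega) η1 hη1
  refine ⟨K0, x0, hK0, ?_⟩
  intro P y Y a hP hwy hy hyY
  have hper : PerB (QA P w a {0}) (w + C) := by
    apply perB_mono (perB_QA P C hP w a {0})
    rw [card_singleton, one_mul]
  have h3 := hfund Y y hy hyY (QA P w a {0}) hper Y
  have e1 : ∏ p ∈ pz y, (1 - (nuB (QA P w a {0}) p : ℝ) / p) = Vq (QA P w a {0}) y := rfl
  rw [e1, Vq_QA P w y a {0} hwy, QH_zero'] at h3
  have e2 : (Oc P w y a Y).card = ((Icc 1 Y).filter (fun n : ℕ => ∀ p ∈ pz y, ¬ QA P w a {0} p n)).card := by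
    unfold Oc
    congr 1
    apply Finset.filter_congr
    intro n _
    have := sf_QA P w y a n {0} hwy
    rw [QH_zero'] at this
    exact this.symm
  rw [e2]
  have e3 : (Y : ℝ) * (1 / (Mw w : ℝ) * Vt P w y) = Y / Mw w * Vt P w y := by ring
  rw [e3] at h3
  exact h3

open Classical in
/-- the hypotheses of the global law -/
structure GData (E : ι → ℕ → ℕ → Prop) (c : ℕ) (o : ι) (w y Y : ℕ) (I : τ → Finset ι) (ex : ι × ι → Prop)
    (R : ℕ) (η : ℝ) (x : τ → ℝ) : Prop where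
  per : ∀ i, PerB (E i) c
  adm : ∀ p : ℕ, p.Prime → nuB (E o) p < p
  no : o ∉ Al I
  disj : ∀ t u, t ≠ u → Disjoint (I t) (I u)
  size : (((Al I).card : ℝ) + 1) ^ R * √(Y : ℝ) ≤ η / 16 * (Y / Mw w * Vt (E o) w y)
  small : ∀ i ∈ Al I, Vt (E i) w y ≤ η
  pair : ∑ x ∈ (insert o (Al I)).offDiag.filter (fun x => ¬ ex x),
    Uw E o w y x.1 * Uw E o w y x.2 * (Fc E (KK R c) w y x - 1) ≤ η
  expair : ∑ x ∈ (Al I).offDiag.filter (fun x => ex x), Vt (E x.1) w y * Vt (E x.2) w y ≤ η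
  exrh : ∑ x ∈ (Al I).offDiag.filter (fun x => ex x), rh E o w y {x.1, x.2} ≤ η / 16
  exo : ∀ i ∈ Al I, ¬ ex (o, i) ∧ ¬ ex (i, o)
  cls : ∀ a, Sf (E o) w a → ∀ t, |∑ i ∈ (I t).filter (fun i => Sf (E i) w a), Vt (E i) w y - x t| ≤ η
  wlarge : 2 * ((R + 1) * c) ≤ w
  w1 : 1 ≤ w
  E1 : (((R + 1) * c : ℕ) : ℝ) ^ 2 / w ≤ η

lemma Vt_pos_of (P : ℕ → ℕ → Prop) (w y : ℕ) (h : ∀ p : ℕ, p.Prime → nuB P p < p) : 0 < Vt P w y := by
  unfold Vt
  apply Finset.prod_pos
  intro p hp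
  rw [mem_filter] at hp
  have hpp := (mem_pz.1 hp.1).2
  have hp0 : (0 : ℝ) < p := by exact_mod_cast hpp.pos
  have h1 : (nuB P p : ℝ) < p := by exact_mod_cast h p hpp
  have : (nuB P p : ℝ) / p < 1 := by
    rw [div_lt_one hp0]
    exact h1
  linarith

lemma rh_le_one (E : ι → ℕ → ℕ → Prop) (o : ι) (w y : ℕ) (J : Finset ι) (h : 0 < Vt (E o) w y) :
    rh E o w y J ≤ 1 := by
  unfold rh
  rw [div_le_one h]
  unfold Vt
  apply Finset.prod_le_prod
  · intro p hp
    rw [mem_filter] at hp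
    exact one_sub_nonneg _ p (mem_pz.1 hp.1).2
  · intro p hp
    rw [mem_filter] at hp
    have hp0 : (0 : ℝ) < p := by exact_mod_cast (mem_pz.1 hp.1).2.pos
    have h1 : nuB (E o) p ≤ nuB (EH E (insert o J)) p := by
      classical
      unfold nuB
      apply card_le_card
      intro r hr
      rw [mem_filter] at hr ⊢
      exact ⟨hr.1, o, mem_insert_self _ _, hr.2⟩
    have : (nuB (E o) p : ℝ) / p ≤ nuB (EH E (insert o J)) p / p := by
      apply div_le_div_of_nonneg_right _ hp0.le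
      exact_mod_cast h1
    linarith

lemma rh_nonneg (E : ι → ℕ → ℕ → Prop) (o : ι) (w y : ℕ) (J : Finset ι) : 0 ≤ rh E o w y J :=
  div_nonneg (Vt_nonneg _ w y) (Vt_nonneg _ w y)

open Classical in
lemma cn_Oc (E : ι → ℕ → ℕ → Prop) (o : ι) (w y a Y : ℕ) (J : Finset ι) :
    cn E w y (Oc (E o) w y a Y) J = (Oc (EH E (insert o J)) w y a Y).card := by
  unfold cn Oc
  rw [Finset.filter_filter]
  congr 1
  apply Finset.filter_congr
  intro n _
  rw [sl_EH, sl_EH]
  constructor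
  · rintro ⟨⟨h1, h2⟩, h3⟩
    refine ⟨h1, ?_⟩
    intro i hi
    rw [mem_insert] at hi
    rcases hi with rfl | hi
    · exact h2
    · exact h3 i hi
  · rintro ⟨h1, h2⟩
    exact ⟨⟨h1, h2 o (mem_insert_self _ _)⟩, fun i hi => h2 i (mem_insert_of_mem hi)⟩

open Classical in
/-- the alive conditions of a class -/
noncomputable def Ia (E : ι → ℕ → ℕ → Prop) (w a : ℕ) (I : Finset ι) : Finset ι := I.filter (fun i => Sf (E i) w a)

lemma Ia_sub (E : ι → ℕ → ℕ → Prop) (w a : ℕ) (I : Finset ι) : Ia E w a I ⊆ I := by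
  classical
  unfold Ia
  exact filter_subset _ _

lemma Al_mono (I I' : τ → Finset ι) (h : ∀ t, I t ⊆ I' t) : Al I ⊆ Al I' := by
  unfold Al
  intro i hi
  rw [mem_biUnion] at hi ⊢
  obtain ⟨t, h1, h2⟩ := hi
  exact ⟨t, h1, h t h2⟩

open Classical in
/-- the data of one class -/
lemma data_of (c R : ℕ) (hR : 2 ≤ R) (η : ℝ) (hη : 0 < η) (hη1 : η ≤ 1) (w : ℕ) (hw : 1 ≤ w) :
    ∃ K0 x0 : ℕ, 1 ≤ K0 ∧ ∀ (E : ι → ℕ → ℕ → Prop) (o : ι) (y Y : ℕ) (I : τ → Finset ι) (ex : ι × ι → Prop)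
      (x : τ → ℝ), w ≤ y → x0 ≤ y → y ^ K0 ≤ Y → GData E c o w y Y I ex R η x → ∀ a : ℕ,
      Data E c o w y (Al (fun t => Ia E w a (I t))) ex (Oc (E o) w y a Y) R η (2 * √(Y : ℝ)) := by
  obtain ⟨K0, x0, hK0, hlev⟩ := lev_int ((R + 1) * c) w hw (η / 16) (by positivity)
  refine ⟨K0, x0, hK0, ?_⟩
  intro E o y Y I ex x hwy hy hyY h a
  obtain ⟨S, hS⟩ : ∃ S, S = Al (fun t => Ia E w a (I t)) := ⟨_, rfl⟩
  rw [← hS]
  have hSI : S ⊆ Al I := by
    rw [hS]
    exact Al_mono _ _ fun t => Ia_sub E w a (I t)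
  have hpos : 0 < Vt (E o) w y := Vt_pos_of (E o) w y h.adm
  have hno : o ∉ S := fun ho => h.no (hSI ho)
  have hs0 := Real.sqrt_nonneg (Y : ℝ)
  have hM0 : (0 : ℝ) < Mw w := by exact_mod_cast Mw_pos w
  obtain ⟨A0, hA0⟩ : ∃ A0 : ℝ, A0 = Y / Mw w * Vt (E o) w y := ⟨_, rfl⟩
  have hA00 : 0 ≤ A0 := by rw [hA0]; positivity
  have hsize := h.size
  rw [← hA0] at hsize
  have hpow1 : (1 : ℝ) ≤ (((Al I).card : ℝ) + 1) ^ R := one_le_pow₀ (by
    have : (0 : ℝ) ≤ (Al I).card := Nat.cast_nonneg _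
    linarith)
  have hsq : √(Y : ℝ) ≤ η / 16 * A0 := by
    refine le_trans ?_ hsize
    nlinarith
  -- one set
  have hone : ∀ J ⊆ S, J.card ≤ R → |(cn E w y (Oc (E o) w y a Y) J : ℝ) - A0 * rh E o w y J| ≤
      η / 16 * (A0 * rh E o w y J) + √(Y : ℝ) := by
    intro J hJ hJR
    have hJo : o ∉ J := fun ho => hno (hJ ho)
    have hper : PerB (EH E (insert o J)) ((R + 1) * c) := by
      apply perB_mono (perB_EH E c h.per (insert o J))
      rw [card_insert_of_notMem hJo]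
      exact Nat.mul_le_mul_right c (by omega)
    have h1 := hlev (EH E (insert o J)) y Y a hper hwy hy hyY
    rw [cn_Oc]
    have e : (Y : ℝ) / Mw w * Vt (EH E (insert o J)) w y = A0 * rh E o w y J := by
      rw [hA0]
      unfold rh
      field_simp
    rw [e] at h1
    exact h1
  have hrh0 : rh E o w y ∅ = 1 := by
    unfold rh
    have : EH E (insert o ∅) = E o := by
      funext p n
      unfold EH
      simp
    rw [this, div_self hpos.ne']
  have hcn0 : (cn E w y (Oc (E o) w y a Y) ∅ : ℝ) = (Oc (E o) w y a Y).card := by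
    unfold cn
    have : (Oc (E o) w y a Y).filter (fun n => Sl (EH E ∅) w y n) = Oc (E o) w y a Y := by
      apply Finset.filter_true_of_mem
      intro n _
      rw [sl_EH]
      intro i hi
      exact absurd hi (notMem_empty i)
    rw [this]
  have hOm := hone ∅ (empty_subset _) (by rw [card_empty]; omega)
  rw [hrh0, hcn0, mul_one] at hOm
  obtain ⟨N, hN⟩ : ∃ N : ℝ, N = (Oc (E o) w y a Y).card := ⟨_, rfl⟩
  rw [← hN] at hOm
  have hNlo : A0 / 2 ≤ N := by
    have := (abs_le.1 hOm).1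
    nlinarith
  have hlev2 : ∀ J ⊆ S, J.card ≤ R → |(cn E w y (Oc (E o) w y a Y) J : ℝ) - N * rh E o w y J| ≤
      η / 4 * (N * rh E o w y J) + 2 * √(Y : ℝ) := by
    intro J hJ hJR
    have h1 := hone J hJ hJR
    have hr0 := rh_nonneg E o w y J
    have hr1 := rh_le_one E o w y J hpos
    obtain ⟨r, hr⟩ : ∃ r, r = rh E o w y J := ⟨_, rfl⟩
    rw [← hr] at h1 hr0 hr1 ⊢
    obtain ⟨C, hC⟩ : ∃ C : ℝ, C = (cn E w y (Oc (E o) w y a Y) J : ℝ) := ⟨_, rfl⟩
    rw [← hC] at h1 ⊢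
    have h2 : |N * r - A0 * r| ≤ (η / 16 * A0 + √(Y : ℝ)) * r := by
      rw [← sub_mul, abs_mul, abs_of_nonneg hr0]
      exact mul_le_mul_of_nonneg_right hOm hr0
    have h3 : |C - N * r| ≤ |C - A0 * r| + |N * r - A0 * r| := by
      have := abs_sub_le C (A0 * r) (N * r)
      rw [abs_sub_comm (A0 * r) (N * r)] at this
      exact this
    have h4 : √(Y : ℝ) * r ≤ √(Y : ℝ) := by nlinarith
    have h5 : A0 * r ≤ 2 * (N * r) := by nlinarith
    have h6 : η / 16 * (A0 * r) ≤ η / 16 * (2 * (N * r)) := mul_le_mul_of_nonneg_left h5 (by positivity)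
    calc |C - N * r| ≤ (η / 16 * (A0 * r) + √(Y : ℝ)) + (η / 16 * A0 + √(Y : ℝ)) * r := by linarith
      _ = 2 * (η / 16 * (A0 * r)) + √(Y : ℝ) + √(Y : ℝ) * r := by ring
      _ ≤ 2 * (η / 16 * (2 * (N * r))) + √(Y : ℝ) + √(Y : ℝ) := by linarith
      _ = _ := by ring
  have hN0 : 0 ≤ N := by linarith
  have hScard : (S.card : ℝ) ≤ (Al I).card := by exact_mod_cast card_le_card hSI
  have hoff : ∀ q : ι × ι → Prop, S.offDiag.filter (fun x => q x) ⊆ (Al I).offDiag.filter (fun x => q x) := by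
    intro q
    apply Finset.filter_subset_filter
    intro x hx
    rw [mem_offDiag] at hx ⊢
    exact ⟨hSI hx.1, hSI hx.2.1, hx.2.2⟩
  have hremS : ((S.card : ℝ) + 1) ^ R * (2 * √(Y : ℝ)) ≤ η / 4 * N := by
    have h1 : ((S.card : ℝ) + 1) ^ R ≤ (((Al I).card : ℝ) + 1) ^ R :=
      pow_le_pow_left₀ (by positivity) (by linarith) R
    calc ((S.card : ℝ) + 1) ^ R * (2 * √(Y : ℝ)) ≤ (((Al I).card : ℝ) + 1) ^ R * (2 * √(Y : ℝ)) :=
          mul_le_mul_of_nonneg_right h1 (by positivity)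
      _ = 2 * ((((Al I).card : ℝ) + 1) ^ R * √(Y : ℝ)) := by ring
      _ ≤ 2 * (η / 16 * A0) := by linarith
      _ ≤ η / 4 * N := by nlinarith
  refine ⟨h.per, hpos, hno, ?_, by positivity, ?_, fun i hi => h.small i (hSI hi), ?_, ?_,
    fun i hi => h.exo i (hSI hi), ?_, h.wlarge, h.w1, h.E1⟩
  · intro J hJ hJR
    rw [← hN]
    refine (hlev2 J hJ hJR).trans ?_
    have hr0 := rh_nonneg E o w y J
    have h1 : 0 ≤ N * rh E o w y J := by positivity
    nlinarith
  · rw [← hN]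
    refine hremS.trans ?_
    nlinarith
  · refine le_trans ?_ h.pair
    apply Finset.sum_le_sum_of_subset_of_nonneg
    · apply Finset.filter_subset_filter
      intro x hx
      rw [mem_offDiag] at hx ⊢
      exact ⟨insert_subset_insert o hSI hx.1, insert_subset_insert o hSI hx.2.1, hx.2.2⟩
    · intro x _ _
      have h1 := Fc_ge E (KK R c) w y x
      exact mul_nonneg (mul_nonneg (Uw_nonneg E o w y _) (Uw_nonneg E o w y _)) (by linarith)
  · refine le_trans ?_ h.expair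
    apply Finset.sum_le_sum_of_subset_of_nonneg (hoff ex)
    intro x _ _
    exact mul_nonneg (Vt_nonneg _ w y) (Vt_nonneg _ w y)
  · -- the bad points
    rw [← hN]
    have h1 : (((Oc (E o) w y a Y).filter (fun n => ∃ x ∈ S.offDiag, ex x ∧ Sl (E x.1) w y n ∧
        Sl (E x.2) w y n)).card : ℝ) ≤ ∑ x ∈ S.offDiag.filter (fun x => ex x),
        (cn E w y (Oc (E o) w y a Y) {x.1, x.2} : ℝ) := by
      have h2 : (Oc (E o) w y a Y).filter (fun n => ∃ x ∈ S.offDiag, ex x ∧ Sl (E x.1) w y n ∧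
          Sl (E x.2) w y n) ⊆ (S.offDiag.filter (fun x => ex x)).biUnion
            (fun x => (Oc (E o) w y a Y).filter (fun n => Sl (EH E {x.1, x.2}) w y n)) := by
        intro n hn
        rw [mem_filter] at hn
        obtain ⟨hn1, x, hx, hex, h3, h4⟩ := hn
        rw [mem_biUnion]
        refine ⟨x, mem_filter.2 ⟨hx, hex⟩, mem_filter.2 ⟨hn1, ?_⟩⟩
        rw [sl_EH]
        intro i hi
        rw [mem_insert, mem_singleton] at hi
        rcases hi with rfl | rfl
        · exact h3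
        · exact h4
      have h3 := (card_le_card h2).trans card_biUnion_le
      unfold cn
      exact_mod_cast h3
    refine h1.trans ?_
    have h2 : ∀ x ∈ S.offDiag.filter (fun x => ex x), (cn E w y (Oc (E o) w y a Y) {x.1, x.2} : ℝ) ≤
        2 * N * rh E o w y {x.1, x.2} + 2 * √(Y : ℝ) := by
      intro x hx
      rw [mem_filter, mem_offDiag] at hx
      have h3 := hlev2 {x.1, x.2} (by
        intro i hi
        rw [mem_insert, mem_singleton] at hi
        rcases hi with rfl | rfl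
        · exact hx.1.1
        · exact hx.1.2.1) (by
        rw [card_pair hx.1.2.2]
        exact hR)
      have h4 := (abs_le.1 h3).2
      have hr0 := rh_nonneg E o w y {x.1, x.2}
      have h5 : 0 ≤ N * rh E o w y {x.1, x.2} := by positivity
      nlinarith
    refine (Finset.sum_le_sum h2).trans ?_
    rw [Finset.sum_add_distrib, ← Finset.mul_sum, Finset.sum_const, nsmul_eq_mul]
    have h3 : ∑ x ∈ S.offDiag.filter (fun x => ex x), rh E o w y {x.1, x.2} ≤ η / 16 := by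
      refine le_trans ?_ h.exrh
      apply Finset.sum_le_sum_of_subset_of_nonneg (hoff ex)
      intro x _ _
      exact rh_nonneg _ _ _ _ _
    have h4 : ((S.offDiag.filter (fun x => ex x)).card : ℝ) ≤ ((S.card : ℝ) + 1) ^ R := by
      have h5 : (S.offDiag.filter (fun x => ex x)).card ≤ (S.card + 1) ^ R := by
        refine (card_filter_le _ _).trans ?_
        rw [offDiag_card]
        calc S.card * S.card - S.card ≤ S.card * S.card := Nat.sub_le _ _
          _ ≤ (S.card + 1) * (S.card + 1) := Nat.mul_le_mul (by omega) (by omega)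
          _ = (S.card + 1) ^ 2 := by ring
          _ ≤ (S.card + 1) ^ R := Nat.pow_le_pow_right (by omega) hR
      exact_mod_cast h5
    have h5 := mul_le_mul_of_nonneg_right h4 (by positivity : 0 ≤ 2 * √(Y : ℝ))
    have h6 := mul_le_mul_of_nonneg_left h3 (by positivity : 0 ≤ 2 * N)
    nlinarith

open Classical in
/-- the integers with the base condition -/
noncomputable def OmG (P : ℕ → ℕ → Prop) (y Y : ℕ) : Finset ℕ := (Icc 1 Y).filter (fun n => Sf P y n)

open Classical in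
/-- the number of the present conditions -/
noncomputable def NG (E : ι → ℕ → ℕ → Prop) (y : ℕ) (I : Finset ι) (n : ℕ) : ℕ :=
  (I.filter (fun i => Sf (E i) y n)).card

lemma sf_split' (P : ℕ → ℕ → Prop) (w y n : ℕ) (hwy : w ≤ y) : Sf P y n ↔ Sf P w n ∧ Sl P w y n :=
  sf_split P w y n hwy

lemma sf_cls (P : ℕ → ℕ → Prop) (c : ℕ) (hP : PerB P c) (w n a : ℕ) (h : ∀ p ∈ pz w, n % p = a % p) :
    Sf P w n ↔ Sf P w a := by
  have := sf_class P c hP w n a 0 h
  simpa using this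

lemma card_filter_sum (s : Finset ℕ) (q : ℕ → Prop) [DecidablePred q] :
    ((s.filter q).card : ℝ) = ∑ n ∈ s, if q n then (1 : ℝ) else 0 := by
  rw [Finset.sum_ite, Finset.sum_const_zero, add_zero, Finset.sum_const, nsmul_eq_mul, mul_one]

open Classical in
lemma sum_OmG (P : ℕ → ℕ → Prop) (c : ℕ) (hP : PerB P c) (w y Y : ℕ) (hwy : w ≤ y) (f : ℕ → ℝ) :
    ∑ n ∈ OmG P y Y, f n = ∑ a ∈ (range (Mw w)).filter (fun a => Sf P w a), ∑ n ∈ Oc P w y a Y, f n := by
  unfold OmG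
  rw [Finset.sum_filter, sum_classes w Y]
  rw [Finset.sum_filter]
  apply Finset.sum_congr rfl
  intro a ha
  split_ifs with h
  · unfold Ca Oc
    rw [← Finset.sum_filter, Finset.filter_filter]
    apply Finset.sum_congr _ (fun _ _ => rfl)
    apply Finset.filter_congr
    intro n _
    rw [sf_split' P w y n hwy]
    constructor
    · rintro ⟨h1, h2, h3⟩
      exact ⟨h1, h3⟩
    · rintro ⟨h1, h3⟩
      exact ⟨h1, (sf_cls P c hP w n a h1).2 h, h3⟩
  · unfold Ca
    rw [← Finset.sum_filter, Finset.filter_filter]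
    apply Finset.sum_eq_zero
    intro n hn
    rw [mem_filter] at hn
    exact absurd ((sf_cls P c hP w n a hn.2.1).1 ((sf_split' P w y n hwy).1 hn.2.2).1) h

open Classical in
/-- **The global joint Poisson law**. -/
theorem glob_law (c D : ℕ) (hD : 0 < D) (Λ ε : ℝ) (hΛ : 0 ≤ Λ) (hε : 0 < ε) : ∃ (R : ℕ) (η : ℝ), 0 < η ∧
    η ≤ 1 ∧ 2 ≤ R ∧ ∀ w : ℕ, 1 ≤ w → ∃ K0 x0 : ℕ, 1 ≤ K0 ∧
    ∀ (E : ι → ℕ → ℕ → Prop) (o : ι) (y Y : ℕ) (I : τ → Finset ι) (ex : ι × ι → Prop) (col : ι → Fin D)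
      (x : τ → ℝ), w ≤ y → x0 ≤ y → y ^ K0 ≤ Y → (∀ x, ex x → col x.1 ≠ col x.2) →
      GData E c o w y Y I ex R η x → (∀ t, 0 ≤ x t) → (∀ t, x t ≤ Λ) →
      ∀ A : Finset (τ → ℕ), |(((OmG (E o) y Y).filter (fun n => (fun t => NG E y (I t) n) ∈ A)).card : ℝ) -
        (OmG (E o) y Y).card * PoJ x A| ≤ ε * (OmG (E o) y Y).card := by
  obtain ⟨R, η, hη, hη1, hR, habs⟩ := abs_law (ι := ι) (τ := τ) c D hD Λ ε hΛ hε
  refine ⟨R, η, hη, hη1, hR, ?_⟩
  intro w hw
  obtain ⟨K0, x0, hK0, hdata⟩ := data_of (ι := ι) (τ := τ) c R hR η hη hη1 w hw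
  refine ⟨K0, x0, hK0, ?_⟩
  intro E o y Y I ex col x hwy hy hyY hcol h hx hxΛ A
  have hPo := h.per o
  have e1 : (((OmG (E o) y Y).filter (fun n => (fun t => NG E y (I t) n) ∈ A)).card : ℝ) =
      ∑ a ∈ (range (Mw w)).filter (fun a => Sf (E o) w a),
        (((Oc (E o) w y a Y).filter (fun n => (fun t => Nt E w y (Ia E w a (I t)) n) ∈ A)).card : ℝ) := by
    rw [card_filter_sum, sum_OmG (E o) c hPo w y Y hwy]
    apply Finset.sum_congr rfl
    intro a _
    rw [card_filter_sum]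
    apply Finset.sum_congr rfl
    intro n hn
    unfold Oc at hn
    rw [mem_filter] at hn
    have h2 : (fun t => NG E y (I t) n) = fun t => Nt E w y (Ia E w a (I t)) n := by
      funext t
      unfold NG Nt Ia
      rw [Finset.filter_filter]
      congr 1
      apply Finset.filter_congr
      intro i _
      rw [sf_split' (E i) w y n hwy, sf_cls (E i) c (h.per i) w n a hn.2.1]
    rw [h2]
  have e2 : ((OmG (E o) y Y).card : ℝ) = ∑ a ∈ (range (Mw w)).filter (fun a => Sf (E o) w a),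
      ((Oc (E o) w y a Y).card : ℝ) := by
    have h1 : ∀ s : Finset ℕ, (s.card : ℝ) = ∑ _n ∈ s, (1 : ℝ) := by
      intro s
      rw [Finset.sum_const, nsmul_eq_mul, mul_one]
    rw [h1, sum_OmG (E o) c hPo w y Y hwy]
    exact Finset.sum_congr rfl fun a _ => (h1 _).symm
  rw [e1, e2, Finset.sum_mul, ← Finset.sum_sub_distrib, Finset.mul_sum]
  refine (Finset.abs_sum_le_sum_abs _ _).trans ?_
  apply Finset.sum_le_sum
  intro a ha
  rw [mem_filter] at ha
  have hd := hdata E o y Y I ex x hwy hy hyY h a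
  refine habs E o w y (fun t => Ia E w a (I t)) ex col (Oc (E o) w y a Y) (2 * √(Y : ℝ)) x ?_ hcol hd hx hxΛ ?_ A
  · intro t u htu
    exact (h.disj t u htu).mono (Ia_sub E w a (I t)) (Ia_sub E w a (I u))
  · intro t
    exact h.cls a ha.2 t

end Pool.Agent.Q236.UL
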