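import Pool.Agent.Q236.UL.Lln

set_option autoImplicit false

/-!
# Successive gaps, iterates of the next point
-/

namespace Pool.Agent.Q236.UL

open Finset

/-- the iterates of the next point are the only sequence of next points -/
lemma iter_unique (G : ℕ → Prop) (nx : ℕ → ℕ) (hnx : ∀ m, Nx G m (nx m)) (J : ℕ) (x : ℕ → ℕ) (n : ℕ)
    (h0 : x 0 = n) (hx : ∀ j : Fin J, Nx G (x j) (x (j + 1))) : ∀ j : ℕ, j ≤ J → x j = nx^[j] n := by
  intro j
  induction j with
  | zero =>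
    intro _
    rw [h0]
    rfl
  | succ j ih =>
    intro hj
    have h1 := hx ⟨j, by omega⟩
    simp only at h1
    rw [ih (by omega)] at h1
    rw [Function.iterate_succ_apply']
    exact Nx_unique h1 (hnx _)

lemma nx_inj (G : ℕ → Prop) (nx : ℕ → ℕ) (hnx : ∀ m, Nx G m (nx m)) (a b : ℕ) (ha : G a) (hb : G b)
    (h : nx a = nx b) : a = b := by
  rcases lt_trichotomy a b with h1 | h1 | h1
  · have h2 := (hnx b).1
    rw [← h] at h2
    exact absurd hb ((hnx a).2.2 b h1 h2)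
  · exact h1
  · have h2 := (hnx a).1
    rw [h] at h2
    exact absurd ha ((hnx b).2.2 a h1 h2)

lemma iter_good (G : ℕ → Prop) (nx : ℕ → ℕ) (hnx : ∀ m, Nx G m (nx m)) (j n : ℕ) (hn : G n) :
    G (nx^[j] n) := by
  rcases j with _ | j
  · exact hn
  · rw [Function.iterate_succ_apply']
    exact (hnx _).2.1

lemma iter_inj (G : ℕ → Prop) (nx : ℕ → ℕ) (hnx : ∀ m, Nx G m (nx m)) (j : ℕ) : ∀ a b : ℕ, G a → G b →
    nx^[j] a = nx^[j] b → a = b := by
  induction j with
  | zero =>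
    intro a b _ _ h
    exact h
  | succ j ih =>
    intro a b ha hb h
    rw [Function.iterate_succ_apply', Function.iterate_succ_apply'] at h
    exact ih a b ha hb (nx_inj G nx hnx _ _ (iter_good G nx hnx j a ha) (iter_good G nx hnx j b hb) h)

lemma iter_mono (G : ℕ → Prop) (nx : ℕ → ℕ) (hnx : ∀ m, Nx G m (nx m)) (n : ℕ) : Monotone (fun j => nx^[j] n) := by
  apply monotone_nat_of_le_succ
  intro j
  change nx^[j] n ≤ nx^[j + 1] n
  rw [Function.iterate_succ_apply']
  exact (hnx _).1.le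

open Classical in
/-- only few points have their `J`-th successor outside the interval -/
lemma card_out (G : ℕ → Prop) (nx : ℕ → ℕ) (hnx : ∀ m, Nx G m (nx m)) (Z W : ℕ) : ∀ J : ℕ,
    ((Ioc Z W).filter (fun n => G n ∧ W < nx^[J] n)).card ≤ J := by
  intro J
  induction J with
  | zero =>
    rw [Nat.le_zero, card_eq_zero]
    apply Finset.filter_false_of_mem
    intro n hn h
    rw [mem_Ioc] at hn
    have h2 : W < n := h.2
    omega
  | succ J ih =>
    have h1 : (Ioc Z W).filter (fun n => G n ∧ W < nx^[J + 1] n) ⊆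
        ((Ioc Z W).filter (fun n => G n ∧ W < nx n)) ∪
        ((Ioc Z W).filter (fun n => G n ∧ nx n ≤ W ∧ W < nx^[J] (nx n))) := by
      intro n hn
      rw [mem_filter] at hn
      rw [mem_union, mem_filter, mem_filter]
      by_cases h : W < nx n
      · exact Or.inl ⟨hn.1, hn.2.1, h⟩
      · exact Or.inr ⟨hn.1, hn.2.1, by omega, hn.2.2⟩
    have h2 : ((Ioc Z W).filter (fun n => G n ∧ W < nx n)).card ≤ 1 := by
      rw [card_le_one]
      intro a ha b hb
      rw [mem_filter, mem_Ioc] at ha hb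
      rcases lt_trichotomy a b with h | h | h
      · exact absurd hb.2.1 ((hnx a).2.2 b h (by omega))
      · exact h
      · exact absurd ha.2.1 ((hnx b).2.2 a h (by omega))
    have h3 : ((Ioc Z W).filter (fun n => G n ∧ nx n ≤ W ∧ W < nx^[J] (nx n))).card ≤
        ((Ioc Z W).filter (fun n => G n ∧ W < nx^[J] n)).card := by
      apply Finset.card_le_card_of_injOn nx
      · intro n hn
        rw [Finset.mem_coe, mem_filter, mem_Ioc] at hn ⊢
        have h4 := (hnx n).1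
        exact ⟨⟨by omega, hn.2.2.1⟩, (hnx n).2.1, hn.2.2.2⟩
      · intro a ha b hb hab
        rw [Finset.mem_coe, mem_filter] at ha hb
        exact nx_inj G nx hnx a b ha.2.1 hb.2.1 hab
    have h4 := (card_le_card h1).trans (card_union_le _ _)
    omega

open Classical in
/-- a bad one among the next `J` gaps -/
lemma card_badJ (G : ℕ → Prop) (nx : ℕ → ℕ) (hnx : ∀ m, Nx G m (nx m)) (Z W J : ℕ) (bad : ℕ → Prop) :
    ((Ioc Z W).filter (fun n => G n ∧ ∃ j < J, bad (nx^[j] n))).card ≤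
      J + J * ((Ioc Z W).filter (fun n => G n ∧ nx n ≤ W ∧ bad n)).card := by
  have h1 : (Ioc Z W).filter (fun n => G n ∧ ∃ j < J, bad (nx^[j] n)) ⊆
      ((Ioc Z W).filter (fun n => G n ∧ W < nx^[J] n)) ∪
      (range J).biUnion (fun j => (Ioc Z W).filter (fun n => G n ∧ nx^[J] n ≤ W ∧ bad (nx^[j] n))) := by
    intro n hn
    rw [mem_filter] at hn
    rw [mem_union, mem_filter, mem_biUnion]
    by_cases h : W < nx^[J] n
    · exact Or.inl ⟨hn.1, hn.2.1, h⟩
    · right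
      obtain ⟨j, hj, hb⟩ := hn.2.2
      exact ⟨j, mem_range.2 hj, by rw [mem_filter]; exact ⟨hn.1, hn.2.1, by omega, hb⟩⟩
  have h2 : ∀ j ∈ range J, ((Ioc Z W).filter (fun n => G n ∧ nx^[J] n ≤ W ∧ bad (nx^[j] n))).card ≤
      ((Ioc Z W).filter (fun n => G n ∧ nx n ≤ W ∧ bad n)).card := by
    intro j hj
    rw [mem_range] at hj
    apply Finset.card_le_card_of_injOn (fun n => nx^[j] n)
    · intro n hn
      rw [Finset.mem_coe, mem_filter, mem_Ioc] at hn
      rw [Finset.mem_coe, mem_filter, mem_Ioc]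
      have h3 : n ≤ nx^[j] n := iter_mono G nx hnx n (Nat.zero_le j)
      have h4 : nx^[j + 1] n ≤ nx^[J] n := iter_mono G nx hnx n (show j + 1 ≤ J by omega)
      rw [Function.iterate_succ_apply'] at h4
      have h5 := (hnx (nx^[j] n)).1
      have h6 := iter_good G nx hnx j n hn.2.1
      obtain ⟨u, hu⟩ : ∃ u, u = nx^[j] n := ⟨_, rfl⟩
      change (Z < nx^[j] n ∧ nx^[j] n ≤ W) ∧ G (nx^[j] n) ∧ nx (nx^[j] n) ≤ W ∧ bad (nx^[j] n)
      rw [← hu] at h3 h4 h5 h6 hn ⊢
      exact ⟨⟨by omega, by omega⟩, h6, by omega, hn.2.2.2⟩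
    · intro a ha b hb hab
      rw [Finset.mem_coe, mem_filter] at ha hb
      exact iter_inj G nx hnx j a b ha.2.1 hb.2.1 hab
  have h3 := (card_le_card h1).trans (card_union_le _ _)
  have h4 := card_out G nx hnx Z W J
  have h5 : ((range J).biUnion (fun j => (Ioc Z W).filter
      (fun n => G n ∧ nx^[J] n ≤ W ∧ bad (nx^[j] n)))).card ≤
      J * ((Ioc Z W).filter (fun n => G n ∧ nx n ≤ W ∧ bad n)).card := by
    refine card_biUnion_le.trans ((Finset.sum_le_card_nsmul _ _ _ h2).trans ?_)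
    rw [card_range, smul_eq_mul]
  omega

/-- the lower tail of the Poisson law -/
lemma poisson_low (δ : ℝ) (hδ0 : 0 < δ) (hδ1 : δ < 1) (e : ℝ) (he : 0 < e) : ∃ Λ0 : ℝ, 1 ≤ Λ0 ∧
    ∀ (x : ℝ) (m : ℕ), Λ0 ≤ x → (m : ℝ) ≤ (1 - δ) * x →
      ∑ j ∈ range m, Real.exp (-x) * x ^ j / (j.factorial : ℝ) ≤ e := by
  obtain ⟨z, hz⟩ : ∃ z : ℝ, z = 1 - δ := ⟨_, rfl⟩
  have hz0 : 0 < z := by rw [hz]; linarith
  have hz1 : z < 1 := by rw [hz]; linarith
  obtain ⟨c, hc⟩ : ∃ c : ℝ, c = δ + z * Real.log z := ⟨_, rfl⟩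
  have hc0 : 0 < c := by
    have h1 : Real.log z⁻¹ < z⁻¹ - 1 := Real.log_lt_sub_one_of_pos (by positivity) (by
      intro h
      have := inv_eq_one.1 h
      linarith)
    rw [Real.log_inv] at h1
    have h2 : z * (-Real.log z) < z * (z⁻¹ - 1) := mul_lt_mul_of_pos_left h1 hz0
    have h3 : z * (z⁻¹ - 1) = δ := by
      rw [mul_sub, mul_inv_cancel₀ hz0.ne', hz]
      ring
    rw [hc]
    linarith
  obtain ⟨Λ0, hΛ0⟩ : ∃ Λ0 : ℝ, Λ0 = max 1 (-Real.log e / c) := ⟨_, rfl⟩
  refine ⟨Λ0, by rw [hΛ0]; exact le_max_left _ _, ?_⟩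
  intro x m hx hm
  have hx1 : 1 ≤ x := le_trans (by rw [hΛ0]; exact le_max_left _ _) hx
  have hx0 : 0 < x := by linarith
  have hlogz : Real.log z ≤ 0 := Real.log_nonpos hz0.le hz1.le
  have h1 : ∀ j ∈ range m, Real.exp (-x) * x ^ j / (j.factorial : ℝ) ≤
      (Real.exp (-x) * (z ^ m)⁻¹) * ((x * z) ^ j / (j.factorial : ℝ)) := by
    intro j hj
    rw [mem_range] at hj
    have h2 : 1 ≤ z ^ j * (z ^ m)⁻¹ := by
      rw [← div_eq_mul_inv, one_le_div (by positivity)]
      exact pow_le_pow_of_le_one hz0.le hz1.le hj.le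
    have h3 : (Real.exp (-x) * (z ^ m)⁻¹) * ((x * z) ^ j / (j.factorial : ℝ)) =
        (Real.exp (-x) * x ^ j / (j.factorial : ℝ)) * (z ^ j * (z ^ m)⁻¹) := by
      rw [mul_pow]
      ring
    rw [h3]
    exact le_mul_of_one_le_right (by positivity) h2
  refine (Finset.sum_le_sum h1).trans ?_
  rw [← Finset.mul_sum]
  have h2 : ∑ j ∈ range m, (x * z) ^ j / (j.factorial : ℝ) ≤ Real.exp (x * z) :=
    Real.sum_le_exp_of_nonneg (by positivity) m
  have h3 : (Real.exp (-x) * (z ^ m)⁻¹) * ∑ j ∈ range m, (x * z) ^ j / (j.factorial : ℝ) ≤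
      (Real.exp (-x) * (z ^ m)⁻¹) * Real.exp (x * z) := mul_le_mul_of_nonneg_left h2 (by positivity)
  refine h3.trans ?_
  have h4 : (z ^ m)⁻¹ = Real.exp (-(m * Real.log z)) := by
    rw [Real.exp_neg, ← Real.log_pow, Real.exp_log (by positivity)]
  rw [h4, ← Real.exp_add, ← Real.exp_add, ← Real.le_log_iff_exp_le he]
  have h5 : (m : ℝ) * Real.log z ≥ z * x * Real.log z := by
    apply mul_le_mul_of_nonpos_right _ hlogz
    rw [hz]
    exact hm
  have h6 : -x + -(m * Real.log z) + x * z ≤ -(c * x) := by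
    rw [hc]
    have : δ = 1 - z := by rw [hz]; ring
    rw [this]
    nlinarith
  have h7 : -Real.log e / c ≤ x := le_trans (by rw [hΛ0]; exact le_max_right _ _) hx
  rw [div_le_iff₀ hc0] at h7
  linarith

end Pool.Agent.Q236.UL
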