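import Pool.Agent.Q236.UL.Trace

set_option autoImplicit false

/-!
# The numbers of the points of a dense set in the gaps of a sparse set
-/

namespace Pool.Agent.Q236.UL

open Finset

open Classical in
/-- a gap with few poor windows contains many points -/
lemma gap_low (w : ℕ → Prop) (p q h m0 : ℕ) (Low : Finset ℕ)
    (hLow : ∀ x, p ≤ x → x < q → ((Ioc x (x + h)).filter w).card < m0 → x ∈ Low) :
    (m0 : ℝ) * ((q : ℝ) - p - h - ((Ico p q ∩ Low).card : ℝ)) ≤ h * (((Ioo p q).filter w).card : ℝ) := by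
  have hm0 : (0 : ℝ) ≤ m0 := Nat.cast_nonneg _
  have hR : (0 : ℝ) ≤ h * (((Ioo p q).filter w).card : ℝ) := by positivity
  have hC : (0 : ℝ) ≤ ((Ico p q ∩ Low).card : ℝ) := Nat.cast_nonneg _
  rcases le_total q (p + h) with hqp | hqp
  · have h1 : (q : ℝ) ≤ p + h := by exact_mod_cast hqp
    have h2 : (q : ℝ) - p - h - ((Ico p q ∩ Low).card : ℝ) ≤ 0 := by linarith
    exact (mul_nonpos_of_nonneg_of_nonpos hm0 h2).trans hR
  · obtain ⟨I, hI⟩ : ∃ I : Finset ℕ, I = Ico p (q - h) := ⟨_, rfl⟩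
    obtain ⟨t, ht⟩ : ∃ t : Finset ℕ, t = (Ioo p q).filter w := ⟨_, rfl⟩
    have hbip := Finset.sum_card_bipartiteAbove_eq_sum_card_bipartiteBelow (s := I) (t := t)
      (fun x m : ℕ => x < m ∧ m ≤ x + h)
    have h1 : ∀ x ∈ I, ((t.bipartiteAbove (fun x m : ℕ => x < m ∧ m ≤ x + h) x)).card =
        ((Ioc x (x + h)).filter w).card := by
      intro x hx
      rw [hI, mem_Ico] at hx
      congr 1
      ext m
      rw [Finset.mem_bipartiteAbove, ht, mem_filter, mem_filter, mem_Ioo, mem_Ioc]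
      constructor
      · rintro ⟨⟨_, h2⟩, h3⟩
        exact ⟨h3, h2⟩
      · rintro ⟨h2, h3⟩
        exact ⟨⟨⟨by omega, by omega⟩, h3⟩, h2⟩
    have h2 : ∀ m ∈ t, ((I.bipartiteBelow (fun x m : ℕ => x < m ∧ m ≤ x + h) m)).card ≤ h := by
      intro m _
      have h3 : (I.bipartiteBelow (fun x m : ℕ => x < m ∧ m ≤ x + h) m) ⊆ Ico (m - h) m := by
        intro x hx
        rw [Finset.mem_bipartiteBelow] at hx
        rw [mem_Ico]
        omega
      refine (card_le_card h3).trans ?_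
      rw [Nat.card_Ico]
      omega
    rw [Finset.sum_congr rfl h1] at hbip
    have h3 : ∑ x ∈ I, ((Ioc x (x + h)).filter w).card ≤ t.card * h := by
      rw [hbip]
      refine (Finset.sum_le_card_nsmul _ _ h h2).trans ?_
      rw [smul_eq_mul]
    have h4 : (I \ Low).card * m0 ≤ ∑ x ∈ I, ((Ioc x (x + h)).filter w).card := by
      calc (I \ Low).card * m0 = ∑ _x ∈ I \ Low, m0 := by rw [Finset.sum_const, smul_eq_mul]
        _ ≤ ∑ x ∈ I \ Low, ((Ioc x (x + h)).filter w).card := by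
            apply Finset.sum_le_sum
            intro x hx
            rw [Finset.mem_sdiff, hI, mem_Ico] at hx
            by_contra hcon
            exact hx.2 (hLow x hx.1.1 (by omega) (not_le.1 hcon))
        _ ≤ _ := Finset.sum_le_sum_of_subset Finset.sdiff_subset
    have h5 : I.card ≤ (I \ Low).card + (Ico p q ∩ Low).card := by
      have : I ⊆ (I \ Low) ∪ (Ico p q ∩ Low) := by
        intro x hx
        rw [mem_union, Finset.mem_sdiff, mem_inter]
        by_cases h6 : x ∈ Low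
        · right
          rw [hI, mem_Ico] at hx
          exact ⟨by rw [mem_Ico]; omega, h6⟩
        · exact Or.inl ⟨hx, h6⟩
      exact (card_le_card this).trans (card_union_le _ _)
    have h6 : I.card = q - h - p := by rw [hI, Nat.card_Ico]
    have h7 : (q : ℝ) - p - h ≤ I.card := by
      have : q ≤ I.card + p + h := by omega
      have : (q : ℝ) ≤ I.card + p + h := by exact_mod_cast this
      linarith
    have h5r : (I.card : ℝ) ≤ (I \ Low).card + (Ico p q ∩ Low).card := by exact_mod_cast h5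
    have h8 : (m0 : ℝ) * ((q : ℝ) - p - h - ((Ico p q ∩ Low).card : ℝ)) ≤ m0 * (I \ Low).card :=
      mul_le_mul_of_nonneg_left (by linarith) hm0
    have h9 : (m0 : ℝ) * (I \ Low).card ≤ h * t.card := by
      have h10 : (I \ Low).card * m0 ≤ t.card * h := h4.trans h3
      have h11 : ((I \ Low).card : ℝ) * m0 ≤ t.card * h := by exact_mod_cast h10
      linarith
    rw [ht] at h9
    linarith

open Classical in
/-- **The numbers of the points of a dense set in the gaps of a sparse set.** -/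
theorem lln_abs (P : Finset ℕ) (w : ℕ → Prop) (Z Y h m0 fi la : ℕ) (nx : ℕ → ℕ) (v δ E : ℝ)
    (hP : P ⊆ Ioc Z (Z + Y)) (hfi : fi ∈ P) (hla : la ∈ P) (hfi' : ∀ q ∈ P, fi ≤ q) (hla' : ∀ q ∈ P, q ≤ la)
    (hnx : ∀ p ∈ P, p < la → nx p ∈ P ∧ p < nx p ∧ ∀ q ∈ P, p < q → nx p ≤ q)
    (hv : 0 ≤ v) (hδ : 0 ≤ δ) (hh : 1 ≤ h) (hm0 : (1 - δ) * (h * v) ≤ m0) (hE : 0 ≤ E) :
    (((P.filter (fun p => p < la)).filter (fun p =>
      E < |v * ((nx p : ℝ) - p) - (((Ioo p (nx p)).filter w).card : ℝ)|)).card : ℝ) * E ≤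
      2 * (v * (δ * Y + h * P.card + (((Ioc Z (Z + Y)).filter
        (fun x => ((Ioc x (x + h)).filter w).card < m0)).card : ℝ))) - v * ((la : ℝ) - fi) +
        (((Ioc Z (Z + Y)).filter w).card : ℝ) := by
  obtain ⟨Low, hLowe⟩ : ∃ Low : Finset ℕ, Low = (Ioc Z (Z + Y)).filter
    (fun x => ((Ioc x (x + h)).filter w).card < m0) := ⟨_, rfl⟩
  obtain ⟨P', hP'⟩ : ∃ P' : Finset ℕ, P' = P.filter (fun p => p < la) := ⟨_, rfl⟩
  rw [← hLowe, ← hP']
  have hP'P : ∀ p ∈ P', p ∈ P ∧ p < la := fun p hp => by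
    rw [hP', mem_filter] at hp
    exact hp
  -- the gaps are disjoint
  have hdis : ∀ A : Finset ℕ, ∑ p ∈ P', ((Ico p (nx p) ∩ A).card : ℝ) ≤ A.card := by
    intro A
    have h1 : (P'.biUnion (fun p => Ico p (nx p) ∩ A)).card = ∑ p ∈ P', (Ico p (nx p) ∩ A).card := by
      apply card_biUnion
      intro p hp q hq hpq
      change Disjoint (Ico p (nx p) ∩ A) (Ico q (nx q) ∩ A)
      rw [Finset.disjoint_left]
      intro x hx hx'
      rw [mem_inter, mem_Ico] at hx hx'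
      rcases lt_or_gt_of_ne hpq with h | h
      · have := (hnx p (hP'P p hp).1 (hP'P p hp).2).2.2 q (hP'P q hq).1 h
        omega
      · have := (hnx q (hP'P q hq).1 (hP'P q hq).2).2.2 p (hP'P p hp).1 h
        omega
    have h2 : (P'.biUnion (fun p => Ico p (nx p) ∩ A)).card ≤ A.card := by
      apply card_le_card
      intro x hx
      rw [mem_biUnion] at hx
      obtain ⟨p, _, hx⟩ := hx
      exact (mem_inter.1 hx).2
    rw [h1] at h2
    exact_mod_cast h2
  -- the sum of the lengths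
  have hlen : ((la : ℝ) - fi) ≤ ∑ p ∈ P', ((nx p : ℝ) - p) := by
    have h1 : Ico fi la ⊆ P'.biUnion (fun p => Ico p (nx p)) := by
      intro x hx
      rw [mem_Ico] at hx
      obtain ⟨F, hF⟩ : ∃ F : Finset ℕ, F = P.filter (fun p => p ≤ x) := ⟨_, rfl⟩
      have hFne : F.Nonempty := ⟨fi, by rw [hF, mem_filter]; exact ⟨hfi, hx.1⟩⟩
      have hmax := F.max'_mem hFne
      have hmax2 := fun q hq => F.le_max' q hq
      obtain ⟨p, hp⟩ : ∃ p, p = F.max' hFne := ⟨_, rfl⟩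
      rw [← hp] at hmax
      simp only [← hp] at hmax2
      rw [hF, mem_filter] at hmax
      rw [mem_biUnion]
      have hpla : p < la := by omega
      refine ⟨p, by rw [hP', mem_filter]; exact ⟨hmax.1, hpla⟩, ?_⟩
      rw [mem_Ico]
      refine ⟨hmax.2, ?_⟩
      by_contra hcon
      have h2 := hnx p hmax.1 hpla
      have h3 := hmax2 (nx p) (by rw [hF, mem_filter]; exact ⟨h2.1, by omega⟩)
      omega
    have h2 := (card_le_card h1).trans card_biUnion_le
    rw [Nat.card_Ico] at h2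
    have h3 : ∀ p ∈ P', ((Ico p (nx p)).card : ℝ) = (nx p : ℝ) - p := by
      intro p hp
      have h4 := (hnx p (hP'P p hp).1 (hP'P p hp).2).2.1
      rw [Nat.card_Ico, Nat.cast_sub h4.le]
    have h4 : ((la - fi : ℕ) : ℝ) ≤ ∑ p ∈ P', ((Ico p (nx p)).card : ℝ) := by exact_mod_cast h2
    rw [Finset.sum_congr rfl h3] at h4
    refine le_trans ?_ h4
    have h5 : fi ≤ la := hfi' la hla
    rw [Nat.cast_sub h5]
  have hlen2 : ∑ p ∈ P', ((nx p : ℝ) - p) ≤ Y := by
    have h1 := hdis (Ioc Z (Z + Y))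
    rw [Nat.card_Ioc, Nat.add_sub_cancel_left] at h1
    refine le_trans (le_of_eq ?_) h1
    apply Finset.sum_congr rfl
    intro p hp
    have h4 := (hnx p (hP'P p hp).1 (hP'P p hp).2)
    have h5 := mem_Ioc.1 (hP (hP'P p hp).1)
    have h6 := mem_Ioc.1 (hP h4.1)
    have h7 : Ico p (nx p) ∩ Ioc Z (Z + Y) = Ico p (nx p) := by
      rw [inter_eq_left]
      intro x hx
      rw [mem_Ico] at hx
      rw [mem_Ioc]
      omega
    rw [h7, Nat.card_Ico, Nat.cast_sub h4.2.1.le]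
  have hlow : ∑ p ∈ P', ((Ico p (nx p) ∩ Low).card : ℝ) ≤ Low.card := hdis Low
  have hK : ∑ p ∈ P', (((Ioo p (nx p)).filter w).card : ℝ) ≤ (((Ioc Z (Z + Y)).filter w).card : ℝ) := by
    refine le_trans ?_ (hdis ((Ioc Z (Z + Y)).filter w))
    apply Finset.sum_le_sum
    intro p hp
    have h4 := (hnx p (hP'P p hp).1 (hP'P p hp).2)
    have h5 := mem_Ioc.1 (hP (hP'P p hp).1)
    have h6 := mem_Ioc.1 (hP h4.1)
    exact_mod_cast card_le_card (fun x hx => by
      rw [mem_filter, mem_Ioo] at hx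
      rw [mem_inter, mem_Ico, mem_filter, mem_Ioc]
      exact ⟨⟨by omega, by omega⟩, ⟨by omega, by omega⟩, hx.2⟩)
  -- the positive parts
  have hhr : (1 : ℝ) ≤ h := by exact_mod_cast hh
  have hDp : ∀ p ∈ P', v * ((nx p : ℝ) - p) - (((Ioo p (nx p)).filter w).card : ℝ) ≤
      v * (δ * ((nx p : ℝ) - p) + h + ((Ico p (nx p) ∩ Low).card : ℝ)) := by
    intro p hp
    have h4 := (hnx p (hP'P p hp).1 (hP'P p hp).2)
    have h5 := mem_Ioc.1 (hP (hP'P p hp).1)
    have h6 := mem_Ioc.1 (hP h4.1)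
    have h7 := gap_low w p (nx p) h m0 Low (fun x hx1 hx2 hx3 => by
      rw [hLowe, mem_filter, mem_Ioc]
      exact ⟨⟨by omega, by omega⟩, hx3⟩)
    obtain ⟨g, hg⟩ : ∃ g : ℝ, g = (nx p : ℝ) - p := ⟨_, rfl⟩
    obtain ⟨lo, hlo⟩ : ∃ lo : ℝ, lo = ((Ico p (nx p) ∩ Low).card : ℝ) := ⟨_, rfl⟩
    obtain ⟨K, hKe⟩ : ∃ K : ℝ, K = (((Ioo p (nx p)).filter w).card : ℝ) := ⟨_, rfl⟩
    rw [← hg, ← hlo, ← hKe] at h7
    rw [← hg, ← hlo, ← hKe]
    have hg0 : 0 ≤ g := by
      rw [hg]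
      have : (p : ℝ) ≤ nx p := by exact_mod_cast h4.2.1.le
      linarith
    have hlo0 : 0 ≤ lo := by rw [hlo]; positivity
    have hK0 : 0 ≤ K := by rw [hKe]; positivity
    rcases le_total (g - h - lo) 0 with h8 | h8
    · have h9 : v * (g - h - lo) ≤ 0 := mul_nonpos_of_nonneg_of_nonpos hv h8
      have h10 : 0 ≤ v * (δ * g) := by positivity
      nlinarith
    · have h9 : (1 - δ) * (h * v) * (g - h - lo) ≤ h * K :=
        (mul_le_mul_of_nonneg_right hm0 h8).trans h7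
      have h10 : (h : ℝ) * ((1 - δ) * v * (g - h - lo)) ≤ h * K := by
        calc (h : ℝ) * ((1 - δ) * v * (g - h - lo)) = (1 - δ) * (h * v) * (g - h - lo) := by ring
          _ ≤ _ := h9
      have h11 : (1 - δ) * v * (g - h - lo) ≤ K := le_of_mul_le_mul_left h10 (by linarith)
      have h12 : 0 ≤ v * δ * (h + lo) := by positivity
      nlinarith
  -- the sums
  obtain ⟨Bad, hBad⟩ : ∃ Bad : Finset ℕ, Bad = P'.filter (fun p =>
      E < |v * ((nx p : ℝ) - p) - (((Ioo p (nx p)).filter w).card : ℝ)|) := ⟨_, rfl⟩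
  rw [← hBad]
  have h1 : (Bad.card : ℝ) * E ≤ ∑ p ∈ P', |v * ((nx p : ℝ) - p) - (((Ioo p (nx p)).filter w).card : ℝ)| := by
    calc (Bad.card : ℝ) * E = ∑ _p ∈ Bad, E := by rw [Finset.sum_const, nsmul_eq_mul]
      _ ≤ ∑ p ∈ Bad, |v * ((nx p : ℝ) - p) - (((Ioo p (nx p)).filter w).card : ℝ)| := by
          apply Finset.sum_le_sum
          intro p hp
          rw [hBad, mem_filter] at hp
          exact hp.2.le
      _ ≤ _ := by
          apply Finset.sum_le_sum_of_subset_of_nonneg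
          · rw [hBad]
            exact filter_subset _ _
          · intro p _ _
            exact abs_nonneg _
  have h2 : ∑ p ∈ P', |v * ((nx p : ℝ) - p) - (((Ioo p (nx p)).filter w).card : ℝ)| ≤
      ∑ p ∈ P', (2 * (v * (δ * ((nx p : ℝ) - p) + h + ((Ico p (nx p) ∩ Low).card : ℝ))) -
        (v * ((nx p : ℝ) - p) - (((Ioo p (nx p)).filter w).card : ℝ))) := by
    apply Finset.sum_le_sum
    intro p hp
    have h3 := hDp p hp
    have h4 := (hnx p (hP'P p hp).1 (hP'P p hp).2)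
    have h5 : (0 : ℝ) ≤ v * (δ * ((nx p : ℝ) - p) + h + ((Ico p (nx p) ∩ Low).card : ℝ)) := by
      have : (0 : ℝ) ≤ (nx p : ℝ) - p := by
        have : (p : ℝ) ≤ nx p := by exact_mod_cast h4.2.1.le
        linarith
      positivity
    rw [abs_le]
    constructor <;> linarith
  have h3 : ∑ p ∈ P', (2 * (v * (δ * ((nx p : ℝ) - p) + h + ((Ico p (nx p) ∩ Low).card : ℝ))) -
        (v * ((nx p : ℝ) - p) - (((Ioo p (nx p)).filter w).card : ℝ))) =
      2 * (v * (δ * ∑ p ∈ P', ((nx p : ℝ) - p) + h * P'.card + ∑ p ∈ P', ((Ico p (nx p) ∩ Low).card : ℝ))) -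
        (v * ∑ p ∈ P', ((nx p : ℝ) - p) - ∑ p ∈ P', (((Ioo p (nx p)).filter w).card : ℝ)) := by
    rw [Finset.sum_sub_distrib, Finset.sum_sub_distrib, ← Finset.mul_sum, ← Finset.mul_sum, ← Finset.mul_sum,
      Finset.sum_add_distrib, Finset.sum_add_distrib, ← Finset.mul_sum, Finset.sum_const, nsmul_eq_mul]
    ring
  rw [h3] at h2
  obtain ⟨sg, hsg⟩ : ∃ sg : ℝ, sg = ∑ p ∈ P', ((nx p : ℝ) - p) := ⟨_, rfl⟩
  obtain ⟨sl, hsl⟩ : ∃ sl : ℝ, sl = ∑ p ∈ P', ((Ico p (nx p) ∩ Low).card : ℝ) := ⟨_, rfl⟩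
  obtain ⟨sK, hsK⟩ : ∃ sK : ℝ, sK = ∑ p ∈ P', (((Ioo p (nx p)).filter w).card : ℝ) := ⟨_, rfl⟩
  rw [← hsg] at h2 hlen hlen2
  rw [← hsl] at h2 hlow
  rw [← hsK] at h2 hK
  have h4 : (P'.card : ℝ) ≤ P.card := by
    rw [hP']
    exact_mod_cast card_filter_le _ _
  have h5 : v * (δ * sg + h * P'.card + sl) ≤ v * (δ * Y + h * P.card + Low.card) := by
    apply mul_le_mul_of_nonneg_left _ hv
    have h6 : δ * sg ≤ δ * Y := mul_le_mul_of_nonneg_left hlen2 hδ
    have h7 : (h : ℝ) * P'.card ≤ h * P.card := mul_le_mul_of_nonneg_left h4 (by linarith)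
    linarith
  have h6 : v * ((la : ℝ) - fi) ≤ v * sg := mul_le_mul_of_nonneg_left hlen hv
  linarith

end Pool.Agent.Q236.UL
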