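import Pool.Agent.Q236.UL.Shift

set_option autoImplicit false

/-!
# The pair sums for shifted conditions
-/

namespace Pool.Agent.Q236.UL

open Finset Filter Pool.Agent.H373R2.T7 Pool.Agent.W123.RP Pool.Agent.W123.RU Pool.Agent.TH464.PO
open Pool.Agent.Q236.CP Pool.Agent.Q236.ML

variable {τ : Type*} [Fintype τ] [DecidableEq τ]

/-- the exceptional pairs, given by the exceptional differences -/
def Ex (X : τ → τ → Finset ℕ) (x : Option (τ × ℕ) × Option (τ × ℕ)) : Prop :=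
  ∃ t b u b', x = (some (t, b), some (u, b')) ∧ (t, b) ≠ (u, b') ∧
    ((b ≤ b' ∧ b' - b ∈ X t u) ∨ (b' ≤ b ∧ b - b' ∈ X u t))

lemma ex_iff (X : τ → τ → Finset ℕ) (t u : τ) (b b' : ℕ) : Ex X (some (t, b), some (u, b')) ↔
    (t, b) ≠ (u, b') ∧ ((b ≤ b' ∧ b' - b ∈ X t u) ∨ (b' ≤ b ∧ b - b' ∈ X u t)) := by
  unfold Ex
  constructor
  · rintro ⟨t1, b1, u1, b1', h1, h2, h3⟩
    simp only [Prod.mk.injEq, Option.some.injEq] at h1
    obtain ⟨⟨rfl, rfl⟩, rfl, rfl⟩ := h1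
    exact ⟨h2, h3⟩
  · rintro ⟨h2, h3⟩
    exact ⟨t, b, u, b', rfl, h2, h3⟩

lemma ex_symm (X : τ → τ → Finset ℕ) (t u : τ) (b b' : ℕ) : Ex X (some (t, b), some (u, b')) ↔
    Ex X (some (u, b'), some (t, b)) := by
  rw [ex_iff, ex_iff]
  constructor
  · rintro ⟨h1, h2 | h2⟩
    · exact ⟨h1.symm, Or.inr h2⟩
    · exact ⟨h1.symm, Or.inl h2⟩
  · rintro ⟨h1, h2 | h2⟩
    · exact ⟨h1.symm, Or.inr h2⟩
    · exact ⟨h1.symm, Or.inl h2⟩

open Classical in
/-- one term of the pair sum -/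
noncomputable def gt (P0 : ℕ → ℕ → Prop) (Q : τ → ℕ → ℕ → Prop) (X : τ → τ → Finset ℕ) (K w y : ℕ)
    (s : τ) (b : ℕ) (t : τ) (b' : ℕ) : ℝ :=
  if (s, b) ≠ (t, b') ∧ ¬ Ex X (some (s, b), some (t, b')) then
    Fc (Es P0 Q) K w y (some (s, b), some (t, b')) - 1 else 0

lemma gt_symm (P0 : ℕ → ℕ → Prop) (Q : τ → ℕ → ℕ → Prop) (X : τ → τ → Finset ℕ) (K w y : ℕ)
    (s : τ) (b : ℕ) (t : τ) (b' : ℕ) : gt P0 Q X K w y s b t b' = gt P0 Q X K w y t b' s b := by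
  classical
  unfold gt
  rw [Fc_symm]
  have h1 : ((s, b) ≠ (t, b') ∧ ¬ Ex X (some (s, b), some (t, b'))) ↔
      ((t, b') ≠ (s, b) ∧ ¬ Ex X (some (t, b'), some (s, b))) := by
    rw [ex_symm]
    exact and_congr_left' ne_comm
  by_cases h : (s, b) ≠ (t, b') ∧ ¬ Ex X (some (s, b), some (t, b'))
  · rw [if_pos h, if_pos (h1.1 h)]
  · rw [if_neg h, if_neg (fun h2 => h (h1.2 h2))]

lemma gt_nonneg (P0 : ℕ → ℕ → Prop) (Q : τ → ℕ → ℕ → Prop) (X : τ → τ → Finset ℕ) (K w y : ℕ)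
    (s : τ) (b : ℕ) (t : τ) (b' : ℕ) : 0 ≤ gt P0 Q X K w y s b t b' := by
  classical
  unfold gt
  split_ifs
  · have := Fc_ge (Es P0 Q) K w y (some (s, b), some (t, b'))
    linarith
  · exact le_rfl

lemma LC_zero (P Q : ℕ → ℕ → Prop) (y T : ℕ) : LC P Q y T 0 = LC Q P y T 0 := by
  classical
  unfold LC
  congr 1
  apply Finset.filter_congr
  intro p _
  unfold CG
  constructor
  · rintro ⟨h1, m, h2, h3⟩
    exact ⟨h1, m, h3, h2⟩
  · rintro ⟨h1, m, h2, h3⟩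
    exact ⟨h1, m, h3, h2⟩

/-- the sum over one window -/
lemma inner_sum (K c w : ℕ) (ηa : ℝ) (Ta : ℕ)
    (havg : ∀ T : ℕ, Ta ≤ T → ∀ P Q : ℕ → ℕ → Prop, PerB P c → PerB Q c → ∀ y : ℕ, ∀ η' : ℝ, 0 ≤ η' →
      K * η' ≤ ηa → ∀ E : Finset ℕ, E ⊆ Icc 1 T → (∀ h ∈ E, (LC P Q y T h : ℝ) ≤ η' * T) →
      ∑ h ∈ E, (FG P Q K w y h - 1) ≤ 38 * ηa * T) (C : ℝ) (Bl : ℕ) (hC : 0 < C)
    (hone : ∀ T : ℕ, Ta ≤ T → ∀ P Q : ℕ → ℕ → Prop, ∀ w y d : ℕ, ∀ η' : ℝ, 0 ≤ η' → K * η' ≤ 1 →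
      (LC P Q y T d : ℝ) ≤ η' * T → FG P Q K w y d ≤ C * Real.log T ^ Bl)
    (P0 : ℕ → ℕ → Prop) (Q : τ → ℕ → ℕ → Prop) (hQ : ∀ t, PerB (Q t) c) (X : τ → τ → Finset ℕ) (y T : ℕ)
    (hT : Ta ≤ T) (hT1 : 1 ≤ T) (η' : ℝ) (hη' : 0 ≤ η') (hK1 : K * η' ≤ ηa) (hK2 : K * η' ≤ 1) (s t : τ)
    (b : ℕ) (hb1 : 1 ≤ b) (hbT : b ≤ T) (B : Finset ℕ) (hB : B ⊆ Icc 1 T)
    (h1 : ∀ d ∈ Icc 1 T, d ∉ X s t → (LC (Q s) (Q t) y T d : ℝ) ≤ η' * T)
    (h2 : ∀ d ∈ Icc 1 T, d ∉ X t s → (LC (Q t) (Q s) y T d : ℝ) ≤ η' * T)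
    (h3 : s ≠ t → b ∉ B ∨ (0 ∈ X s t ∨ 0 ∈ X t s) ∨ (LC (Q s) (Q t) y T 0 : ℝ) ≤ η' * T) :
    ∑ b' ∈ B, gt P0 Q X K w y s b t b' ≤ 76 * ηa * T + C * Real.log T ^ Bl := by
  classical
  have hTr : (1 : ℝ) ≤ T := by exact_mod_cast hT1
  have hlog0 : 0 ≤ Real.log T := Real.log_nonneg hTr
  have hCl : 0 ≤ C * Real.log T ^ Bl := by positivity
  have hgen : ∀ (P Q' : ℕ → ℕ → Prop) (E : Finset ℕ) (Y : Finset ℕ), E ⊆ Icc 1 T → (∀ d ∈ E, d ∉ Y) →
      PerB P c → PerB Q' c → (∀ d ∈ Icc 1 T, d ∉ Y → (LC P Q' y T d : ℝ) ≤ η' * T) →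
      ∑ d ∈ E, (FG P Q' K w y d - 1) ≤ 38 * ηa * T := by
    intro P Q' E Y hE hEY hP hQ' hLC
    exact havg T hT P Q' hP hQ' y η' hη' hK1 E hE (fun d hd => hLC d (hE hd) (hEY d hd))
  -- larger
  have hA : ∑ b' ∈ B.filter (fun b' => b < b'), gt P0 Q X K w y s b t b' ≤ 38 * ηa * T := by
    obtain ⟨S, hS⟩ : ∃ S, S = (B.filter (fun b' => b < b')).filter
      (fun b' => (s, b) ≠ (t, b') ∧ ¬ Ex X (some (s, b), some (t, b'))) := ⟨_, rfl⟩
    have e1 : ∑ b' ∈ B.filter (fun b' => b < b'), gt P0 Q X K w y s b t b' =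
        ∑ b' ∈ S, (Fc (Es P0 Q) K w y (some (s, b), some (t, b')) - 1) := by
      rw [hS]
      symm
      rw [Finset.sum_filter]
      rfl
    rw [e1]
    have hlt : ∀ b' ∈ S, b < b' := fun b' hb' => by
      rw [hS, mem_filter, mem_filter] at hb'
      exact hb'.1.2
    have e2 : ∑ b' ∈ S, (Fc (Es P0 Q) K w y (some (s, b), some (t, b')) - 1) ≤
        ∑ b' ∈ S, (FG (Q s) (Q t) K w y (b' - b) - 1) := by
      apply Finset.sum_le_sum
      intro b' hb'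
      have := Fc_some P0 Q K w y s t b b' (hlt b' hb').le
      linarith
    refine e2.trans ?_
    have e3 : ∑ b' ∈ S, (FG (Q s) (Q t) K w y (b' - b) - 1) =
        ∑ d ∈ S.image (fun b' => b' - b), (FG (Q s) (Q t) K w y d - 1) := by
      rw [Finset.sum_image]
      intro x hx x' hx' hxx
      have a1 := hlt x hx
      have a2 := hlt x' hx'
      simp only at hxx
      omega
    rw [e3]
    apply hgen (Q s) (Q t) _ (X s t) _ _ (hQ s) (hQ t) h1
    · intro d hd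
      rw [mem_image] at hd
      obtain ⟨b', hb', rfl⟩ := hd
      have a1 := hlt b' hb'
      rw [hS, mem_filter, mem_filter] at hb'
      have a2 := mem_Icc.1 (hB hb'.1.1)
      rw [mem_Icc]
      omega
    · intro d hd hdX
      rw [mem_image] at hd
      obtain ⟨b', hb', rfl⟩ := hd
      have a1 := hlt b' hb'
      rw [hS, mem_filter] at hb'
      apply hb'.2.2
      rw [ex_iff]
      exact ⟨hb'.2.1, Or.inl ⟨a1.le, hdX⟩⟩
  -- smaller
  have hAA : ∑ b' ∈ B.filter (fun b' => b' < b), gt P0 Q X K w y s b t b' ≤ 38 * ηa * T := by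
    obtain ⟨S, hS⟩ : ∃ S, S = (B.filter (fun b' => b' < b)).filter
      (fun b' => (s, b) ≠ (t, b') ∧ ¬ Ex X (some (s, b), some (t, b'))) := ⟨_, rfl⟩
    have e1 : ∑ b' ∈ B.filter (fun b' => b' < b), gt P0 Q X K w y s b t b' =
        ∑ b' ∈ S, (Fc (Es P0 Q) K w y (some (s, b), some (t, b')) - 1) := by
      rw [hS]
      symm
      rw [Finset.sum_filter]
      rfl
    rw [e1]
    have hlt : ∀ b' ∈ S, b' < b := fun b' hb' => by
      rw [hS, mem_filter, mem_filter] at hb'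
      exact hb'.1.2
    have e2 : ∑ b' ∈ S, (Fc (Es P0 Q) K w y (some (s, b), some (t, b')) - 1) ≤
        ∑ b' ∈ S, (FG (Q t) (Q s) K w y (b - b') - 1) := by
      apply Finset.sum_le_sum
      intro b' hb'
      have := Fc_some' P0 Q K w y s t b b' (hlt b' hb').le
      linarith
    refine e2.trans ?_
    have e3 : ∑ b' ∈ S, (FG (Q t) (Q s) K w y (b - b') - 1) =
        ∑ d ∈ S.image (fun b' => b - b'), (FG (Q t) (Q s) K w y d - 1) := by
      rw [Finset.sum_image]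
      intro x hx x' hx' hxx
      have a1 := hlt x hx
      have a2 := hlt x' hx'
      simp only at hxx
      omega
    rw [e3]
    apply hgen (Q t) (Q s) _ (X t s) _ _ (hQ t) (hQ s) h2
    · intro d hd
      rw [mem_image] at hd
      obtain ⟨b', hb', rfl⟩ := hd
      have a1 := hlt b' hb'
      rw [mem_Icc]
      omega
    · intro d hd hdX
      rw [mem_image] at hd
      obtain ⟨b', hb', rfl⟩ := hd
      have a1 := hlt b' hb'
      rw [hS, mem_filter] at hb'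
      apply hb'.2.2
      rw [ex_iff]
      exact ⟨hb'.2.1, Or.inr ⟨a1.le, hdX⟩⟩
  -- equal
  have hE : ∑ b' ∈ B.filter (fun b' => b' = b), gt P0 Q X K w y s b t b' ≤ C * Real.log T ^ Bl := by
    by_cases hbB : b ∈ B
    · have e : B.filter (fun b' => b' = b) = {b} := by
        ext x
        rw [mem_filter, mem_singleton]
        exact ⟨fun h => h.2, fun h => ⟨h ▸ hbB, h⟩⟩
      rw [e, sum_singleton]
      unfold gt
      split_ifs with hc
      · have hst : s ≠ t := fun h => hc.1 (by rw [h])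
        rcases h3 hst with h4 | h4 | h4
        · exact absurd hbB h4
        · exfalso
          apply hc.2
          rw [ex_iff]
          rcases h4 with h4 | h4
          · exact ⟨hc.1, Or.inl ⟨le_rfl, by rw [Nat.sub_self]; exact h4⟩⟩
          · exact ⟨hc.1, Or.inr ⟨le_rfl, by rw [Nat.sub_self]; exact h4⟩⟩
        · have h5 := Fc_some P0 Q K w y s t b b le_rfl
          rw [Nat.sub_self] at h5
          have h6 := hone T hT (Q s) (Q t) w y 0 η' hη' hK2 h4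
          linarith
      · exact hCl
    · have e : B.filter (fun b' => b' = b) = ∅ := by
        rw [filter_eq_empty_iff]
        intro x hx hxb
        exact hbB (hxb ▸ hx)
      rw [e, sum_empty]
      exact hCl
  have hsplit : ∑ b' ∈ B, gt P0 Q X K w y s b t b' =
      ∑ b' ∈ B.filter (fun b' => b < b'), gt P0 Q X K w y s b t b' +
      (∑ b' ∈ B.filter (fun b' => b' < b), gt P0 Q X K w y s b t b' +
      ∑ b' ∈ B.filter (fun b' => b' = b), gt P0 Q X K w y s b t b') := by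
    rw [Finset.sum_filter, Finset.sum_filter, Finset.sum_filter, ← Finset.sum_add_distrib,
      ← Finset.sum_add_distrib]
    apply Finset.sum_congr rfl
    intro b' _
    rcases lt_trichotomy b b' with h | h | h
    · rw [if_pos h, if_neg (by omega), if_neg (by omega)]
      ring
    · rw [if_neg (by omega), if_neg (by omega), if_pos h.symm]
      ring
    · rw [if_neg (by omega), if_pos h, if_neg (by omega)]
      ring
  rw [hsplit]
  linarith

end Pool.Agent.Q236.UL
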