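import Pool.Agent.Q236.UL.Shp
import Pool.Agent.Q236.UL.EvLaw
import Pool.Agent.Q236.UL.ClsLaw

set_option autoImplicit false

/-!
# From the law seen by all integers to the law seen by the points
-/

namespace Pool.Agent.Q236.UL

open Finset Filter Pool.Agent.H373R2.T7 Pool.Agent.W123.RP Pool.Agent.W123.RU Pool.Agent.TH464.PO
open Pool.Agent.TH464.PW Pool.Agent.Y879.AP Pool.Agent.Y879.GL Pool.Agent.Q236.GW
open Pool.Agent.Q236.CP Pool.Agent.Q236.ML

section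
variable {σ : Type*} [DecidableEq σ]

lemma Ev_succ (c : ℕ → σ → ℕ) : ∀ (l : List (ℕ × σ)) (i : ℕ), Ev (fun i => c (i + 1)) i l ↔ Ev c (i + 1) l := by
  intro l
  induction l with
  | nil =>
    intro i
    exact Iff.rfl
  | cons x l ih =>
    intro i
    unfold Ev
    rw [ih]
    have e1 : ∀ j, i + 1 + j = i + j + 1 := fun j => by omega
    simp only [e1]

end

variable {σ : Type*} [Fintype σ] [DecidableEq σ]

open Classical in
lemma followT_lowG (G : σ → ℕ → Prop) (m0 Δ : ℕ) (c : ℕ → σ → ℕ)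
    (hc : ∀ i s, c i s = ((Ioc (i * Δ) ((i + 1) * Δ)).filter (fun b => G s (m0 + b))).card)
    {J : ℕ} (a : Fin J → σ) (T : Fin J → ℕ) (d : Fin J → ℕ) (hd : ∀ j, T j ≤ d j * Δ) (i m : ℕ)
    (h1 : m ≤ m0 + i * Δ) (h2 : m0 + i * Δ ≤ m + Δ) (h3 : ∀ t, m < t → AnyT G t → m0 + i * Δ < t)
    (hEv : Ev c i (lst d a)) : FollowT G a T m := by
  obtain ⟨g, hg0, hg⟩ := traceS G m0 Δ c hc (lst d a) i m h1 h2 h3 hEv
  refine ⟨g, hg0, ?_⟩
  intro j
  obtain ⟨h1, h2, h3, _⟩ := hg j (by rw [lst_length]; exact j.isLt)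
  have e : (lst d a)[(j : ℕ)]'(by rw [lst_length]; exact j.isLt) = (d j, a j) := by
    unfold lst
    rw [List.getElem_ofFn]
  rw [e] at h2 h3
  refine ⟨h1, (h2 (a j)).2 rfl, ?_⟩
  have := hd j
  simp only at h3
  omega

open Classical in
lemma followT_upG (G : σ → ℕ → Prop) (m0 Δ : ℕ) (c : ℕ → σ → ℕ)
    (hc : ∀ i s, c i s = ((Ioc (i * Δ) ((i + 1) * Δ)).filter (fun b => G s (m0 + b))).card)
    {J : ℕ} (a a' : Fin J → σ) (T : Fin J → ℕ) (d : Fin J → ℕ)
    (hd : a' ≠ a ∨ ∃ j, (d j + 2) * Δ ≤ T j) (i m : ℕ)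
    (h1 : m ≤ m0 + i * Δ) (h2 : m0 + i * Δ ≤ m + Δ) (h3 : ∀ t, m < t → AnyT G t → m0 + i * Δ < t)
    (hEv : Ev c i (lst d a')) : ¬ FollowT G a T m := by
  rintro ⟨g', hg'0, hg'⟩
  obtain ⟨g, hg0, hg⟩ := traceS G m0 Δ c hc (lst d a') i m h1 h2 h3 hEv
  have hgg : ∀ j : ℕ, j ≤ J → g j = g' j := by
    intro j
    induction j with
    | zero =>
      intro _
      rw [hg0, hg'0]
    | succ j ih =>
      intro hj
      have h1 := (hg j (by rw [lst_length]; omega)).1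
      have h2 := (hg' ⟨j, by omega⟩).1
      rw [ih (by omega)] at h1
      exact Nx_unique h1 h2
  have hall : ∀ j : Fin J, a' j = a j ∧ T j < (d j + 2) * Δ := by
    intro j
    obtain ⟨h1, h2, _, h4⟩ := hg j (by rw [lst_length]; exact j.isLt)
    obtain ⟨k1, k2, k3⟩ := hg' j
    have e : (lst d a')[(j : ℕ)]'(by rw [lst_length]; exact j.isLt) = (d j, a' j) := by
      unfold lst
      rw [List.getElem_ofFn]
    rw [e] at h2 h4
    simp only at h2 h4
    rw [← hgg j j.isLt.le, ← hgg (j + 1) j.isLt] at k3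
    rw [← hgg (j + 1) j.isLt] at k2
    exact ⟨((h2 _).1 k2).symm, by omega⟩
  rcases hd with h | ⟨j, hj⟩
  · exact h (funext fun j => (hall j).1)
  · have := (hall j).2
    omega

open Classical in
/-- double counting -/
lemma count_double (P : ℕ → Prop) (Z Y Δ : ℕ) :
    |(∑ n ∈ Ioc Z (Z + Y), (((Ioc n (n + Δ)).filter P).card : ℝ)) - Δ * ((Ioc Z (Z + Y)).filter P).card| ≤
      (Δ : ℝ) * Δ := by
  have h1 : ∀ n, (((Ioc n (n + Δ)).filter P).card : ℝ) = ∑ b ∈ Ioc 0 Δ, if P (n + b) then (1 : ℝ) else 0 := by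
    intro n
    rw [Finset.card_filter]
    push_cast
    symm
    apply Finset.sum_bij (fun b _ => n + b)
    · intro b hb
      rw [mem_Ioc] at hb ⊢
      omega
    · intro b _ b' _ h
      omega
    · intro m hm
      rw [mem_Ioc] at hm
      exact ⟨m - n, by rw [mem_Ioc]; omega, by omega⟩
    · intro b _
      rfl
  rw [Finset.sum_congr rfl (fun n _ => h1 n), Finset.sum_comm]
  have h2 : ∀ b, (∑ n ∈ Ioc Z (Z + Y), if P (n + b) then (1 : ℝ) else 0) =
      (((Ioc (Z + b) (Z + b + Y)).filter P).card : ℝ) := by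
    intro b
    rw [Finset.card_filter]
    push_cast
    apply Finset.sum_bij (fun n _ => n + b)
    · intro n hn
      rw [mem_Ioc] at hn ⊢
      omega
    · intro n _ n' _ h
      omega
    · intro m hm
      rw [mem_Ioc] at hm
      exact ⟨m - b, by rw [mem_Ioc]; omega, by omega⟩
    · intro n _
      rfl
  rw [Finset.sum_congr rfl (fun b _ => h2 b)]
  have h3 : ∀ b ∈ Ioc 0 Δ, |(((Ioc (Z + b) (Z + b + Y)).filter P).card : ℝ) - ((Ioc Z (Z + Y)).filter P).card| ≤ Δ := by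
    intro b hb
    rw [mem_Ioc] at hb
    have a1 : ((Ioc (Z + b) (Z + b + Y)).filter P).card ≤ ((Ioc Z (Z + Y)).filter P).card + b := by
      have : (Ioc (Z + b) (Z + b + Y)).filter P ⊆ (Ioc Z (Z + Y)).filter P ∪ Ioc (Z + Y) (Z + Y + b) := by
        intro m hm
        rw [mem_filter, mem_Ioc] at hm
        rw [mem_union, mem_filter, mem_Ioc, mem_Ioc]
        by_cases h : m ≤ Z + Y
        · exact Or.inl ⟨⟨by omega, h⟩, hm.2⟩
        · right
          omega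
      refine (card_le_card this).trans ((card_union_le _ _).trans ?_)
      rw [Nat.card_Ioc]
      omega
    have a2 : ((Ioc Z (Z + Y)).filter P).card ≤ ((Ioc (Z + b) (Z + b + Y)).filter P).card + b := by
      have : (Ioc Z (Z + Y)).filter P ⊆ (Ioc (Z + b) (Z + b + Y)).filter P ∪ Ioc Z (Z + b) := by
        intro m hm
        rw [mem_filter, mem_Ioc] at hm
        rw [mem_union, mem_filter, mem_Ioc, mem_Ioc]
        by_cases h : Z + b < m
        · exact Or.inl ⟨⟨h, by omega⟩, hm.2⟩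
        · right
          omega
      refine (card_le_card this).trans ((card_union_le _ _).trans ?_)
      rw [Nat.card_Ioc]
      omega
    have a1r : (((Ioc (Z + b) (Z + b + Y)).filter P).card : ℝ) ≤ ((Ioc Z (Z + Y)).filter P).card + b := by
      exact_mod_cast a1
    have a2r : (((Ioc Z (Z + Y)).filter P).card : ℝ) ≤ ((Ioc (Z + b) (Z + b + Y)).filter P).card + b := by
      exact_mod_cast a2
    have a3 : (b : ℝ) ≤ Δ := by exact_mod_cast hb.2
    rw [abs_le]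
    constructor <;> linarith
  have h4 : (∑ b ∈ Ioc 0 Δ, (((Ioc (Z + b) (Z + b + Y)).filter P).card : ℝ)) - Δ * ((Ioc Z (Z + Y)).filter P).card =
      ∑ b ∈ Ioc 0 Δ, ((((Ioc (Z + b) (Z + b + Y)).filter P).card : ℝ) - ((Ioc Z (Z + Y)).filter P).card) := by
    rw [Finset.sum_sub_distrib, Finset.sum_const, Nat.card_Ioc, nsmul_eq_mul, Nat.sub_zero]
  rw [h4]
  refine (Finset.abs_sum_le_sum_abs _ _).trans ((Finset.sum_le_card_nsmul _ _ _ h3).trans ?_)
  rw [Nat.card_Ioc, nsmul_eq_mul, Nat.sub_zero]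

lemma palm_num (Δ N1 sM sN A1 C1 Yr x ym β ex η e ε1 G sq g1 : ℝ) (hΔ : 0 ≤ Δ) (hY : 0 ≤ Yr) (hx0 : 0 ≤ x)
    (hxy : x ≤ ym) (hβ0 : 0 ≤ β) (hβ1 : β ≤ 1) (hex0 : 0 ≤ ex) (hex1 : ex ≤ 1) (he : 0 ≤ e)
    (hG : 1 ≤ G) (hε1 : 0 ≤ ε1) (hη : 0 ≤ η) (hym1 : ym ≤ 1)
    (d1 : |sM - Δ * N1| ≤ Δ * Δ) (d2 : |sN - Δ * g1| ≤ Δ * Δ) (hg1 : Δ * g1 ≤ Yr * x + η * (Yr * x) + Δ * sq)
    (hA : |A1 - C1 * (β * ex)| ≤ 2 * ε1 * C1 + 4 * (e * Yr) * G)
    (hM1 : A1 ≤ sM) (hM2 : sM ≤ A1 + sN - C1) (hC1 : C1 ≤ Yr * x + e * Yr) (hC2 : Yr * x - Yr * x * ym - e * Yr ≤ C1)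
    (hC0 : 0 ≤ C1) :
    |Δ * N1 - Yr * x * (β * ex)| ≤ 2 * (Δ * Δ) + Δ * sq + η * (Yr * ym) + 2 * (Yr * ym * ym) + 2 * (e * Yr) +
      2 * ε1 * (Yr * ym + e * Yr) + 4 * (e * Yr) * G := by
  have hym0 : 0 ≤ ym := hx0.trans hxy
  have hYx : Yr * x ≤ Yr * ym := mul_le_mul_of_nonneg_left hxy hY
  have hYxy : Yr * x * ym ≤ Yr * ym * ym := mul_le_mul_of_nonneg_right hYx hym0
  have hηYx : η * (Yr * x) ≤ η * (Yr * ym) := mul_le_mul_of_nonneg_left hYx hη
  have hYx0 : 0 ≤ Yr * x := mul_nonneg hY hx0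
  have hYxy0 : 0 ≤ Yr * x * ym := mul_nonneg hYx0 hym0
  have heY : 0 ≤ e * Yr := mul_nonneg he hY
  have hβex0 : 0 ≤ β * ex := mul_nonneg hβ0 hex0
  have hβex1 : β * ex ≤ 1 := by nlinarith
  have hε1C : ε1 * C1 ≤ ε1 * (Yr * ym + e * Yr) := mul_le_mul_of_nonneg_left (by linarith) hε1
  have b3 : |C1 * (β * ex) - Yr * x * (β * ex)| ≤ Yr * x * ym + e * Yr := by
    rw [← sub_mul, abs_mul, abs_of_nonneg hβex0]
    have h1 : |C1 - Yr * x| ≤ Yr * x * ym + e * Yr := by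
      rw [abs_le]
      constructor <;> linarith
    calc |C1 - Yr * x| * (β * ex) ≤ (Yr * x * ym + e * Yr) * 1 :=
          mul_le_mul h1 hβex1 hβex0 (by linarith)
      _ = _ := mul_one _
  have hd1 := abs_le.1 d1
  have hd2 := abs_le.1 d2
  have hA' := abs_le.1 hA
  have b3' := abs_le.1 b3
  rw [abs_le]
  constructor
  · nlinarith
  · nlinarith

open Classical in
/-- **The law seen by the points of one type**, from the law seen by all integers. -/
theorem palm_abs (J N : ℕ) (Q : σ → ℕ → ℕ → Prop) (y Z Y Δ : ℕ) (e : ℝ) (he : 0 ≤ e) (hN : 1 ≤ N)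
    (hEv : ∀ l : List (ℕ × σ), tot l ≤ J * N + 1 →
      |(((Ioc Z (Z + Y)).filter (fun n => Ev (cnu Q y Δ n) 0 l)).card : ℝ) -
        Y * wt (fun s => Δ * Vq (Q s) y) l| ≤ e * Y)
    (i0 : σ) (η : ℝ) (hη : 0 ≤ η) (hfund : |((OmY (Q i0) y Z Y).card : ℝ) - Y * Vq (Q i0) y| ≤
      η * (Y * Vq (Q i0) y) + √(Y : ℝ))
    (a : Fin J → σ) (T : Fin J → ℕ) (ym : ℝ) (hym : ∑ s, (Δ : ℝ) * Vq (Q s) y = ym) (hym0 : 0 < ym) (hym1 : ym ≤ 1)
    (Dm Dp : Fin J → ℕ) (hDpN : ∀ l, Dp l ≤ N) (hDp : ∀ l d, Dp l ≤ d → T l ≤ d * Δ)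
    (hDm : ∀ l d, d < Dm l → (d + 2) * Δ ≤ T l) (ε1 ex : ℝ) (hε1 : 0 ≤ ε1) (hex0 : 0 ≤ ex) (hex1 : ex ≤ 1)
    (d2 : ex - ε1 ≤ ∏ l, ((1 - ym) * (Real.exp (-(ym * Dp l)) - Real.exp (-(ym * N)))))
    (d3 : 1 - ((1 - ym) * (1 - Real.exp (-(ym * N)))) ^ J ≤ ε1)
    (d4 : ∏ l, Real.exp (-(ym * Dm l)) ≤ ex + ε1) :
    |Δ * (((Ioc Z (Z + Y)).filter (fun m => Sf (Q i0) y m ∧ FollowT (fun s m => Sf (Q s) y m) a T m)).card : ℝ) -
      Y * (Δ * Vq (Q i0) y) * ((∏ j, (Δ * Vq (Q (a j)) y / ym)) * ex)| ≤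
      2 * ((Δ : ℝ) * Δ) + Δ * √(Y : ℝ) + η * (Y * ym) + 2 * (Y * ym * ym) + 2 * (e * Y) +
      2 * ε1 * (Y * ym + e * Y) + 4 * (e * Y) * (N * Fintype.card σ + N) ^ J := by
  obtain ⟨x, hx⟩ : ∃ x : σ → ℝ, x = fun s => Δ * Vq (Q s) y := ⟨_, rfl⟩
  have hxs : ∀ s, (Δ : ℝ) * Vq (Q s) y = x s := fun s => by rw [hx]
  have hx0 : ∀ s, 0 ≤ x s := fun s => by
    rw [hx]
    exact mul_nonneg (Nat.cast_nonneg _) (Vq_nonneg _ _)
  have hsum : ∑ s, x s = ym := by rw [← hym]; exact Finset.sum_congr rfl fun s _ => (hxs s).symm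
  have hxy : ∀ s, x s ≤ ym := fun s => by
    rw [← hsum]
    exact Finset.single_le_sum (fun s _ => hx0 s) (mem_univ s)
  have hY0 : (0 : ℝ) ≤ Y := Nat.cast_nonneg _
  rw [← hx] at hEv
  simp only [hxs]
  -- the sample
  obtain ⟨Om, hOm⟩ : ∃ Om : Finset ℕ, Om = (Ioc Z (Z + Y)).filter
    (fun n => ∀ s, cnu Q y Δ n 0 s = if s = i0 then 1 else 0) := ⟨_, rfl⟩
  obtain ⟨c, hc⟩ : ∃ c : ℕ → ℕ → σ → ℕ, c = fun n i => cnu Q y Δ n (i + 1) := ⟨_, rfl⟩
  have hfil : ∀ l : List (ℕ × σ), (Ioc Z (Z + Y)).filter (fun n => Ev (cnu Q y Δ n) 0 ((0, i0) :: l)) =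
      Om.filter (fun n => Ev (c n) 0 l) := by
    intro l
    rw [hOm, Finset.filter_filter]
    apply Finset.filter_congr
    intro n _
    have h1 : Ev (c n) 0 l ↔ Ev (cnu Q y Δ n) 1 l := by
      rw [hc]
      exact Ev_succ (cnu Q y Δ n) l 0
    rw [h1]
    change ((∀ j < 0, ∀ s, cnu Q y Δ n (0 + j) s = 0) ∧ (∀ s, cnu Q y Δ n (0 + 0) s = if s = i0 then 1 else 0) ∧
      Ev (cnu Q y Δ n) (0 + 0 + 1) l) ↔ _
    constructor
    · rintro ⟨_, h2, h3⟩
      exact ⟨h2, h3⟩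
    · rintro ⟨h2, h3⟩
      exact ⟨fun j hj => absurd hj (Nat.not_lt_zero j), h2, h3⟩
  have hwt : ∀ l : List (ℕ × σ), wt x ((0, i0) :: l) = Real.exp (-ym) * x i0 * wt x l := by
    intro l
    unfold wt
    rw [List.map_cons, List.prod_cons]
    simp only [hsum, Nat.cast_zero, zero_add, mul_one]
  obtain ⟨E, hE⟩ : ∃ E : ℝ, E = Real.exp (-ym) := ⟨_, rfl⟩
  have hE0 : 0 < E := by rw [hE]; exact Real.exp_pos _
  have hE1 : E ≤ 1 := by rw [hE, Real.exp_le_one_iff]; linarith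
  have hE2 : 1 - ym ≤ E := by
    rw [hE]
    have := Real.add_one_le_exp (-ym)
    linarith
  rw [← hE] at hwt
  obtain ⟨C1, hC1⟩ : ∃ C1 : ℝ, C1 = Om.card := ⟨_, rfl⟩
  have hC0 : 0 ≤ C1 := by rw [hC1]; exact Nat.cast_nonneg _
  have hC1law : |C1 - Y * (E * x i0)| ≤ e * Y := by
    have h1 := hEv ((0, i0) :: []) (by simp [tot])
    rw [hfil, hwt] at h1
    have e1 : Om.filter (fun n => Ev (c n) 0 ([] : List (ℕ × σ))) = Om :=
      Finset.filter_true_of_mem fun _ _ => trivial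
    have e2 : wt x ([] : List (ℕ × σ)) = 1 := by simp [wt]
    rw [e1, e2, mul_one, ← hC1] at h1
    exact h1
  have hlaw : ∀ (d : Fin J → ℕ) (w : Fin J → σ), (∀ l, d l < N) →
      |((Om.filter (fun n => Ev (c n) 0 (lst d w))).card : ℝ) - C1 * wt x (lst d w)| ≤ 2 * (e * Y) := by
    intro d w hd
    have h1 := hEv ((0, i0) :: lst d w) (by
      change 0 + 1 + tot (lst d w) ≤ _
      have := tot_lst N d w hd
      omega)
    rw [hfil, hwt] at h1
    have hwt0 := wt_nonneg x hx0 (lst d w)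
    have hwt1 : wt x (lst d w) ≤ 1 := by
      rw [wt_lst]
      apply Finset.prod_le_one
      · intro l _
        have := hx0 (w l)
        positivity
      · intro l _
        have h2 : Real.exp (-((∑ s, x s) * (d l + 1))) ≤ 1 := by
          rw [Real.exp_le_one_iff, hsum]
          have : 0 ≤ ym * ((d l : ℝ) + 1) := by positivity
          linarith
        have h3 := hx0 (w l)
        have h4 := hxy (w l)
        calc Real.exp (-((∑ s, x s) * (d l + 1))) * x (w l) ≤ 1 * 1 :=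
              mul_le_mul h2 (by linarith) h3 (by norm_num)
          _ = 1 := one_mul _
    have h2 : |C1 * wt x (lst d w) - Y * (E * x i0 * wt x (lst d w))| ≤ e * Y := by
      have e1 : C1 * wt x (lst d w) - Y * (E * x i0 * wt x (lst d w)) =
          (C1 - Y * (E * x i0)) * wt x (lst d w) := by ring
      rw [e1, abs_mul, abs_of_nonneg hwt0]
      calc |C1 - Y * (E * x i0)| * wt x (lst d w) ≤ (e * Y) * 1 :=
            mul_le_mul hC1law hwt1 hwt0 (by positivity)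
        _ = _ := mul_one _
    have h1' := abs_le.1 h1
    have h2' := abs_le.1 h2
    rw [abs_le]
    constructor <;> linarith
  -- the points in the first cell
  obtain ⟨G, hG⟩ : ∃ G : σ → ℕ → Prop, G = fun s m => Sf (Q s) y m := ⟨_, rfl⟩
  have hGs : ∀ s m, G s m ↔ Sf (Q s) y m := fun s m => by rw [hG]
  have hcG : ∀ n i s, cnu Q y Δ n i s = ((Ioc (i * Δ) ((i + 1) * Δ)).filter (fun b => G s (n + b))).card := by
    intro n i s
    unfold cnu NB
    congr 1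
    apply Finset.filter_congr
    intro b _
    exact (hGs s (n + b)).symm
  have hpt : ∀ n ∈ Om, ∃ m, n < m ∧ m ≤ n + Δ ∧ G i0 m ∧ ∀ t, n < t → t ≤ n + Δ → AnyT G t → t = m := by
    intro n hn
    rw [hOm, mem_filter] at hn
    have h1 := hn.2
    have h2 := h1 i0
    rw [if_pos rfl, hcG, card_eq_one] at h2
    obtain ⟨b, hb⟩ := h2
    have hbm : b ∈ (Ioc (0 * Δ) ((0 + 1) * Δ)).filter (fun b => G i0 (n + b)) := by
      rw [hb]
      exact mem_singleton_self _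
    rw [mem_filter, mem_Ioc, zero_mul, zero_add, one_mul] at hbm
    refine ⟨n + b, by omega, by omega, hbm.2, ?_⟩
    rintro t ht1 ht2 ⟨s, hs⟩
    obtain ⟨b', rfl⟩ : ∃ b', t = n + b' := ⟨t - n, by omega⟩
    have h3 : b' ∈ (Ioc (0 * Δ) ((0 + 1) * Δ)).filter (fun b => G s (n + b)) := by
      rw [mem_filter, mem_Ioc, zero_mul, zero_add, one_mul]
      exact ⟨⟨by omega, by omega⟩, hs⟩
    by_cases hsi : s = i0
    · rw [hsi, hb, mem_singleton] at h3
      rw [h3]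
    · have h4 := h1 s
      rw [hcG, if_neg hsi, card_eq_zero] at h4
      rw [h4] at h3
      exact absurd h3 (notMem_empty _)
  choose! pt hpt1 hpt2 hpt3 hpt4 using hpt
  have hinv : ∀ n ∈ Om, ∀ t, pt n < t → AnyT G t → n + 1 * Δ < t := by
    intro n hn t ht1 ht2
    rw [one_mul]
    by_contra hcon
    have h1 := hpt4 n hn t (by have := hpt1 n hn; omega) (by omega) ht2
    omega
  -- the law of the marks
  have hml := marks_law J N Om c x hx0 ym hsum hym0 hym1 (2 * (e * Y) / C1) (by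
      intro d w hd
      rw [← hC1]
      rcases hC0.eq_or_lt with h | h
      · have h1 : Om.card = 0 := by
          have : (Om.card : ℝ) = 0 := by rw [← hC1, ← h]
          exact_mod_cast this
        rw [card_eq_zero] at h1
        rw [h1, Finset.filter_empty, card_empty, ← h]
        simp
      · rw [div_mul_cancel₀ _ h.ne']
        exact hlaw d w hd) (fun n => FollowT G a T (pt n)) a Dm Dp hDpN (by
      intro n hn d hd _ hEv'
      have h1 : Ev (cnu Q y Δ n) 1 (lst d a) := by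
        rw [hc] at hEv'
        exact (Ev_succ (cnu Q y Δ n) _ 0).1 hEv'
      have h2 := hpt1 n hn
      have h3 := hpt2 n hn
      exact followT_lowG G n Δ _ (hcG n) a T d (fun j => hDp j (d j) (hd j)) 1 (pt n) (by omega) (by omega)
        (hinv n hn) h1) (by
      intro n hn d w' _ hor hEv'
      have h1 : Ev (cnu Q y Δ n) 1 (lst d w') := by
        rw [hc] at hEv'
        exact (Ev_succ (cnu Q y Δ n) _ 0).1 hEv'
      have h2 := hpt1 n hn
      have h3 := hpt2 n hn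
      refine followT_upG G n Δ _ (hcG n) a w' T d ?_ 1 (pt n) (by omega) (by omega) (hinv n hn) h1
      rcases hor with h | ⟨j, hj⟩
      · exact Or.inl h
      · exact Or.inr ⟨j, hDm j (d j) hj⟩)
  obtain ⟨lo, hi⟩ := hml
  rw [← hC1] at lo hi
  obtain ⟨A1, hA1⟩ : ∃ A1 : ℝ, A1 = (Om.filter (fun n => FollowT G a T (pt n))).card := ⟨_, rfl⟩
  rw [← hA1] at lo hi
  obtain ⟨β, hβ⟩ : ∃ β : ℝ, β = ∏ j, (x (a j) / ym) := ⟨_, rfl⟩
  have hβ0 : 0 ≤ β := by rw [hβ]; exact Finset.prod_nonneg fun j _ => div_nonneg (hx0 _) hym0.le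
  have hβ1 : β ≤ 1 := by
    rw [hβ]
    exact Finset.prod_le_one (fun j _ => div_nonneg (hx0 _) hym0.le) fun j _ => by
      rw [div_le_one hym0]
      exact hxy _
  rw [Finset.prod_mul_distrib, ← hβ] at lo hi
  have hNr : (1 : ℝ) ≤ N := by exact_mod_cast hN
  obtain ⟨GG, hGG⟩ : ∃ GG : ℝ, GG = (N * Fintype.card σ + N) ^ J := ⟨_, rfl⟩
  have hGG1 : 1 ≤ GG := by
    rw [hGG]
    apply one_le_pow₀
    have : (0 : ℝ) ≤ N * Fintype.card σ := by positivity
    linarith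
  have hNGG : (N : ℝ) ^ J ≤ GG := by
    rw [hGG]
    apply pow_le_pow_left₀ (by positivity)
    have : (0 : ℝ) ≤ N * Fintype.card σ := by positivity
    linarith
  rw [← hGG] at hi ⊢
  have heY : 0 ≤ e * Y := by positivity
  have hdiv : ∀ K : ℝ, 0 ≤ K → 2 * (e * Y) / C1 * K * C1 ≤ 2 * (e * Y) * K := by
    intro K hK
    rcases hC0.eq_or_lt with h | h
    · rw [← h, mul_zero]
      positivity
    · apply le_of_eq
      field_simp
  have hA : |A1 - C1 * (β * ex)| ≤ 2 * ε1 * C1 + 4 * (e * Y) * GG := by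
    have b1 : 2 * (e * Y) / C1 * N ^ J * C1 ≤ 2 * (e * Y) * GG :=
      (hdiv _ (by positivity)).trans (mul_le_mul_of_nonneg_left hNGG (by positivity))
    have b2 : 2 * (2 * (e * Y) / C1) * GG * C1 ≤ 4 * (e * Y) * GG := by
      have h1 := hdiv (2 * GG) (by linarith)
      have e1 : 2 * (e * Y) / C1 * (2 * GG) * C1 = 2 * (2 * (e * Y) / C1) * GG * C1 := by ring
      rw [e1] at h1
      linarith
    have b3 : C1 * (β * (ex - ε1)) ≤ C1 * (β * ∏ l, ((1 - ym) * (Real.exp (-(ym * Dp l)) - Real.exp (-(ym * N))))) :=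
      mul_le_mul_of_nonneg_left (mul_le_mul_of_nonneg_left d2 hβ0) hC0
    have b4 : C1 * (β * ∏ l, Real.exp (-(ym * Dm l))) ≤ C1 * (β * (ex + ε1)) :=
      mul_le_mul_of_nonneg_left (mul_le_mul_of_nonneg_left d4 hβ0) hC0
    have b5 : C1 * (β * ε1) ≤ C1 * ε1 := by
      apply mul_le_mul_of_nonneg_left _ hC0
      nlinarith
    have b6 : C1 * (1 - ((1 - ym) * (1 - Real.exp (-(ym * N)))) ^ J) ≤ C1 * ε1 :=
      mul_le_mul_of_nonneg_left d3 hC0
    have b7 : 0 ≤ ε1 * C1 := by positivity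
    have b8 : 0 ≤ (e * Y) * GG := by positivity
    rw [abs_le]
    constructor
    · nlinarith
    · nlinarith
  -- the two sums
  obtain ⟨sM, hsM⟩ : ∃ sM : ℝ, sM = ∑ n ∈ Ioc Z (Z + Y), (((Ioc n (n + Δ)).filter
    (fun m => G i0 m ∧ FollowT G a T m)).card : ℝ) := ⟨_, rfl⟩
  obtain ⟨sN, hsN⟩ : ∃ sN : ℝ, sN = ∑ n ∈ Ioc Z (Z + Y), (((Ioc n (n + Δ)).filter
    (fun m => G i0 m)).card : ℝ) := ⟨_, rfl⟩
  have hA1s : A1 = ∑ n ∈ Ioc Z (Z + Y), if n ∈ Om ∧ FollowT G a T (pt n) then (1 : ℝ) else 0 := by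
    rw [hA1, ← Finset.sum_filter, Finset.sum_const, nsmul_eq_mul, mul_one]
    congr 2
    ext n
    rw [mem_filter, mem_filter]
    constructor
    · rintro ⟨h1, h2⟩
      refine ⟨?_, h1, h2⟩
      rw [hOm, mem_filter] at h1
      exact h1.1
    · rintro ⟨_, h1, h2⟩
      exact ⟨h1, h2⟩
  have hC1s : C1 = ∑ n ∈ Ioc Z (Z + Y), if n ∈ Om then (1 : ℝ) else 0 := by
    rw [hC1, ← Finset.sum_filter, Finset.sum_const, nsmul_eq_mul, mul_one]
    congr 2
    ext n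
    rw [mem_filter]
    constructor
    · intro h1
      refine ⟨?_, h1⟩
      rw [hOm, mem_filter] at h1
      exact h1.1
    · rintro ⟨_, h1⟩
      exact h1
  have hone : ∀ n ∈ Om, (Ioc n (n + Δ)).filter (fun m => G i0 m) = {pt n} := by
    intro n hn
    ext m
    rw [mem_filter, mem_Ioc, mem_singleton]
    constructor
    · rintro ⟨⟨h1, h2⟩, h3⟩
      exact hpt4 n hn m h1 h2 ⟨i0, h3⟩
    · rintro rfl
      exact ⟨⟨hpt1 n hn, hpt2 n hn⟩, hpt3 n hn⟩
  have hMn : ∀ n ∈ Om, (((Ioc n (n + Δ)).filter (fun m => G i0 m ∧ FollowT G a T m)).card : ℝ) =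
      if FollowT G a T (pt n) then (1 : ℝ) else 0 := by
    intro n hn
    have h1 : (Ioc n (n + Δ)).filter (fun m => G i0 m ∧ FollowT G a T m) =
        ({pt n} : Finset ℕ).filter (fun m => FollowT G a T m) := by
      rw [← hone n hn, Finset.filter_filter]
    rw [h1, Finset.filter_singleton]
    split_ifs with h2
    · rw [card_singleton, Nat.cast_one]
    · rw [card_empty, Nat.cast_zero]
  have hM1 : A1 ≤ sM := by
    rw [hA1s, hsM]
    apply Finset.sum_le_sum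
    intro n _
    split_ifs with h
    · rw [hMn n h.1, if_pos h.2]
    · exact Nat.cast_nonneg _
  have hM2 : sM ≤ A1 + sN - C1 := by
    have h1 : sM + C1 ≤ A1 + sN := by
      rw [hA1s, hsM, hsN, hC1s, ← Finset.sum_add_distrib, ← Finset.sum_add_distrib]
      apply Finset.sum_le_sum
      intro n _
      by_cases hn : n ∈ Om
      · rw [if_pos hn, hMn n hn, hone n hn, card_singleton]
        by_cases hF : FollowT G a T (pt n)
        · rw [if_pos hF, if_pos ⟨hn, hF⟩]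
          norm_num
        · rw [if_neg hF, if_neg (fun h => hF h.2)]
          norm_num
      · rw [if_neg hn, if_neg (fun h => hn h.1), add_zero, zero_add]
        exact_mod_cast card_le_card (fun m hm => by
          rw [mem_filter] at hm ⊢
          exact ⟨hm.1, hm.2.1⟩)
    linarith
  have hdM : |sM - Δ * (((Ioc Z (Z + Y)).filter (fun m => G i0 m ∧ FollowT G a T m)).card : ℝ)| ≤ (Δ : ℝ) * Δ := by
    rw [hsM]
    convert count_double (fun m => G i0 m ∧ FollowT G a T m) Z Y Δ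
  have hdN : |sN - Δ * (((Ioc Z (Z + Y)).filter (fun m => G i0 m)).card : ℝ)| ≤ (Δ : ℝ) * Δ := by
    rw [hsN]
    convert count_double (fun m => G i0 m) Z Y Δ
  have hΔ0 : (0 : ℝ) ≤ Δ := Nat.cast_nonneg _
  have hg1 : (Δ : ℝ) * (((Ioc Z (Z + Y)).filter (fun m => G i0 m)).card : ℝ) ≤
      Y * x i0 + η * (Y * x i0) + Δ * √(Y : ℝ) := by
    have h1 : (OmY (Q i0) y Z Y) = (Ioc Z (Z + Y)).filter (fun m => G i0 m) := by
      unfold OmY
      apply Finset.filter_congr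
      intro n _
      exact (hGs i0 n).symm
    rw [h1] at hfund
    have h2 := (abs_le.1 hfund).2
    have h3 : (((Ioc Z (Z + Y)).filter (fun m => G i0 m)).card : ℝ) ≤ Y * Vq (Q i0) y + η * (Y * Vq (Q i0) y) + √(Y : ℝ) := by
      linarith
    have h4 := mul_le_mul_of_nonneg_left h3 hΔ0
    refine h4.trans (le_of_eq ?_)
    rw [hx]
    simp only
    ring
  have hC1' := abs_le.1 hC1law
  have hYx0 : 0 ≤ Y * x i0 := mul_nonneg hY0 (hx0 _)
  have hEx : Y * (E * x i0) ≤ Y * x i0 := by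
    have h1 : E * (Y * x i0) ≤ 1 * (Y * x i0) := mul_le_mul_of_nonneg_right hE1 hYx0
    linarith
  have hEx2 : Y * x i0 - Y * x i0 * ym ≤ Y * (E * x i0) := by
    have h1 : (1 - ym) * (Y * x i0) ≤ E * (Y * x i0) := mul_le_mul_of_nonneg_right hE2 hYx0
    linarith
  have hfin := palm_num Δ _ sM sN A1 C1 Y (x i0) ym β ex η e ε1 GG (√(Y : ℝ)) _ hΔ0 hY0 (hx0 i0) (hxy i0)
    hβ0 hβ1 hex0 hex1 he hGG1 hε1 hη hym1 hdM hdN hg1 hA hM1 hM2 (by linarith) (by linarith) hC0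
  rw [hβ, hG] at hfin
  exact hfin

end Pool.Agent.Q236.UL
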