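import Pool.Agent.Q236.UL.Gen

set_option autoImplicit false

/-!
# Resultants of the polynomials of two systems
-/

namespace Pool.Agent.Q236.UL

open Polynomial Finset Filter
open Pool.Agent.W123.RP Pool.Agent.H373R2.T7 Pool.Agent.W123.RU Pool.Agent.W123.RU.Poly
open Pool.Agent.TH464.PW Pool.Agent.TH464.PO Pool.Agent.Y879.GL

variable {k D : ℕ} {H U : ℝ}

/-- the coefficients of a translate -/
lemma coeff_shiftz (f : ℤ[X]) (D : ℕ) (hD : f.natDegree ≤ D) (H : ℤ) (hf : ∀ i, |f.coeff i| ≤ H)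
    (h T : ℤ) (hT : 1 ≤ T) (hhT : |h| ≤ T) (n : ℕ) :
    |(f.comp (X + C h)).coeff n| ≤ (D + 1) * (H * (T ^ D * 2 ^ D)) := by
  have hH : 0 ≤ H := (abs_nonneg _).trans (hf 0)
  have e : (f.comp (X + C h)).coeff n =
      ∑ i ∈ Finset.range (f.natDegree + 1), f.coeff i * (h ^ (i - n) * (i.choose n : ℤ)) := by
    unfold Polynomial.comp
    rw [eval₂_eq_sum_range, finsetSum_coeff]
    apply Finset.sum_congr rfl
    intro i _
    rw [coeff_C_mul, coeff_X_add_C_pow]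
  rw [e]
  refine (Finset.abs_sum_le_sum_abs _ _).trans ?_
  have h1 : ∀ i ∈ Finset.range (f.natDegree + 1),
      |f.coeff i * (h ^ (i - n) * (i.choose n : ℤ))| ≤ H * (T ^ D * 2 ^ D) := by
    intro i hi
    rw [Finset.mem_range] at hi
    rw [abs_mul, abs_mul, abs_pow, abs_of_nonneg (by positivity : (0 : ℤ) ≤ (i.choose n : ℤ))]
    apply mul_le_mul (hf i) _ (by positivity) hH
    apply mul_le_mul
    · calc |h| ^ (i - n) ≤ T ^ (i - n) := pow_le_pow_left₀ (abs_nonneg _) hhT _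
        _ ≤ T ^ D := pow_le_pow_right₀ hT (by omega)
    · have h2 : i.choose n ≤ 2 ^ i := Nat.choose_le_two_pow i n
      have h3 : (2 : ℕ) ^ i ≤ 2 ^ D := Nat.pow_le_pow_right (by norm_num) (by omega)
      exact_mod_cast h2.trans h3
    · positivity
    · positivity
  refine (Finset.sum_le_sum h1).trans ?_
  rw [Finset.sum_const, Finset.card_range, nsmul_eq_mul]
  apply mul_le_mul_of_nonneg_right _ (by positivity)
  push_cast
  have : (f.natDegree : ℤ) ≤ D := by exact_mod_cast hD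
  linarith

/-- irreducible nonconstant polynomials of bounded degree and height -/
structure Bd (D : ℕ) (H : ℝ) (f : Fin k → ℤ[X]) : Prop where
  irr : ∀ i, Irreducible (f i)
  deg : ∀ i, (f i).natDegree ≠ 0
  degD : ∀ i, (f i).natDegree ≤ D
  hgt : ∀ i n, |(((f i).coeff n : ℤ) : ℝ)| ≤ H

/-- the product of the resultants -/
noncomputable def RRz (f g : Fin k → ℤ[X]) (h : ℤ) : ℕ :=
  ∏ i, ∏ j, (resultant (f i) ((g j).comp (X + C h))).natAbs

lemma RRz_pos {f g : Fin k → ℤ[X]} (hf : Bd D H f) (hg : Bd D H g) (h : ℤ)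
    (hn : ∀ i j, ¬ Associated (f i) ((g j).comp (X + C h))) : 0 < RRz f g h := by
  unfold RRz
  apply Finset.prod_pos
  intro i _
  apply Finset.prod_pos
  intro j _
  rw [Int.natAbs_pos]
  exact res_ne_zero _ _ (hf.irr i) (irr_shift _ (hg.irr j) _) (hf.deg i)
    (by rw [deg_shift]; exact hg.deg j) (hn i j)

lemma RRz_dvd {f g : Fin k → ℤ[X]} (hf : Bd D H f) (h : ℤ) (p : ℕ) (m : ℤ) (h1 : ∃ i, (p : ℤ) ∣ (f i).eval m)
    (h2 : ∃ j, (p : ℤ) ∣ (g j).eval (m + h)) : p ∣ RRz f g h := by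
  obtain ⟨i, hi⟩ := h1
  obtain ⟨j, hj⟩ := h2
  have h1 : (p : ℤ) ∣ ((g j).comp (X + C h)).eval (m : ℤ) := by
    rw [eval_comp, eval_add, eval_X, eval_C]
    exact hj
  have h2 := dvd_res (f i) ((g j).comp (X + C h)) (hf.deg i) m p hi h1
  have h3 : p ∣ (resultant (f i) ((g j).comp (X + C h))).natAbs := Int.natCast_dvd.1 h2
  unfold RRz
  exact (h3.trans (Finset.dvd_prod_of_mem
    (fun j => (resultant (f i) ((g j).comp (X + C h))).natAbs) (mem_univ j))).trans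
    (Finset.dvd_prod_of_mem (fun i => ∏ j, (resultant (f i) ((g j).comp (X + C h))).natAbs)
      (mem_univ i))

lemma RRz_le {f g : Fin k → ℤ[X]} (hf : Bd D H f) (hg : Bd D H g) (hH : 1 ≤ H) (h T : ℤ) (hT : 1 ≤ T)
    (hhT : |h| ≤ T) (hTU : (T : ℝ) ≤ U) :
    (RRz f g h : ℝ) ≤ (((2 * D).factorial : ℝ) * ((D + 1) * (H * (U ^ D * 2 ^ D))) ^ (2 * D)) ^ (k * k) := by
  have hT1 : (1 : ℝ) ≤ T := by exact_mod_cast hT
  have hU1 : (1 : ℝ) ≤ U := le_trans hT1 hTU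
  obtain ⟨a, ha⟩ : ∃ a : ℤ, a = ⌊H⌋ := ⟨_, rfl⟩
  have haH : (a : ℝ) ≤ H := by rw [ha]; exact Int.floor_le H
  have ha1 : 1 ≤ a := by
    rw [ha]
    exact Int.le_floor.2 (by exact_mod_cast hH)
  have hco : ∀ i n, |(f i).coeff n| ≤ a := by
    intro i n
    rw [ha]
    apply Int.le_floor.2
    push_cast
    exact hf.hgt i n
  have hcog : ∀ i n, |(g i).coeff n| ≤ a := by
    intro i n
    rw [ha]
    apply Int.le_floor.2
    push_cast
    exact hg.hgt i n
  obtain ⟨b, hb⟩ : ∃ b : ℤ, b = (D + 1) * (a * (T ^ D * 2 ^ D)) := ⟨_, rfl⟩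
  have hfac1 : (1 : ℤ) ≤ (D + 1) * (T ^ D * 2 ^ D) := by
    have h1 : (1 : ℤ) ≤ (T : ℤ) ^ D := one_le_pow₀ hT
    have h2 : (1 : ℤ) ≤ (2 : ℤ) ^ D := one_le_pow₀ (by norm_num)
    have h3 : (1 : ℤ) ≤ (D : ℤ) + 1 := by omega
    have h4 : (1 : ℤ) ≤ (T : ℤ) ^ D * 2 ^ D := one_le_mul_of_one_le_of_one_le h1 h2
    exact one_le_mul_of_one_le_of_one_le h3 h4
  have hab : a ≤ b := by
    rw [hb]
    calc a = a * 1 := (mul_one a).symm
      _ ≤ a * ((D + 1) * (T ^ D * 2 ^ D)) := mul_le_mul_of_nonneg_left hfac1 (by omega)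
      _ = _ := by ring
  have hb1 : 1 ≤ b := by omega
  have hbR : (b : ℝ) ≤ (D + 1) * (H * (U ^ D * 2 ^ D)) := by
    rw [hb]
    push_cast
    have h0 : (0 : ℝ) ≤ a := by exact_mod_cast (by omega : (0 : ℤ) ≤ a)
    gcongr
  have hres : ∀ i j, ((resultant (f i) ((g j).comp (X + C h))).natAbs : ℝ) ≤
      ((2 * D).factorial : ℝ) * ((D + 1) * (H * (U ^ D * 2 ^ D))) ^ (2 * D) := by
    intro i j
    have h1 := res_bound (f i) ((g j).comp (X + C h)) (f i).natDegree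
      ((g j).comp (X + C h)).natDegree b (fun n => (hco i n).trans hab)
      (fun n => by
        rw [hb]
        exact coeff_shiftz (g j) D (hg.degD j) a (hcog j) h T hT hhT n)
    rw [deg_shift] at h1
    have hdeg : (f i).natDegree + (g j).natDegree ≤ 2 * D := by
      have := hf.degD i
      have := hg.degD j
      omega
    have h2 : ((f i).natDegree + (g j).natDegree).factorial * b ^ ((f i).natDegree + (g j).natDegree) ≤
        ((2 * D).factorial : ℤ) * b ^ (2 * D) := by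
      apply mul_le_mul
      · exact_mod_cast Nat.factorial_le hdeg
      · exact pow_le_pow_right₀ hb1 hdeg
      · positivity
      · positivity
    have h3 := h1.trans h2
    have h4 : ((resultant (f i) ((g j).comp (X + C h))).natAbs : ℝ) =
        ((|resultant (f i) ((g j).comp (X + C h)) (f i).natDegree (g j).natDegree| : ℤ) : ℝ) := by
      rw [deg_shift, Nat.cast_natAbs]
    rw [h4]
    have h5 : ((|resultant (f i) ((g j).comp (X + C h)) (f i).natDegree (g j).natDegree| : ℤ) : ℝ) ≤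
        (((2 * D).factorial : ℤ) * b ^ (2 * D) : ℤ) := by exact_mod_cast h3
    refine h5.trans ?_
    push_cast
    have hb0 : (0 : ℝ) ≤ b := by exact_mod_cast (by omega : (0 : ℤ) ≤ b)
    gcongr
  unfold RRz
  push_cast
  calc ∏ i, ∏ j, ((resultant (f i) ((g j).comp (X + C h))).natAbs : ℝ)
      ≤ ∏ _i : Fin k, ∏ _j : Fin k,
        (((2 * D).factorial : ℝ) * ((D + 1) * (H * (U ^ D * 2 ^ D))) ^ (2 * D)) := by
        apply Finset.prod_le_prod
        · intro i _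
          exact Finset.prod_nonneg fun j _ => Nat.cast_nonneg _
        · intro i _
          apply Finset.prod_le_prod
          · intro j _
            exact Nat.cast_nonneg _
          · intro j _
            exact hres i j
    _ = _ := by
        rw [Finset.prod_const, Finset.prod_const, Finset.card_univ, Fintype.card_fin, ← pow_mul]

/-- the resultants of two systems are at most a power of `X` -/
theorem resz (k D : ℕ) (E δ : ℝ) (hE : 0 < E) (hδ : 0 < δ) : ∃ A : ℝ, 0 < A ∧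
    ∀ᶠ X : ℕ in atTop, ∀ f g : Fin k → ℤ[X], Bd D ((X : ℝ) ^ E) f → Bd D ((X : ℝ) ^ E) g →
      ∀ h : ℤ, ((|h| : ℤ) : ℝ) ≤ (X : ℝ) ^ δ → (∀ i j, ¬ Associated (f i) ((g j).comp (Polynomial.X + C h))) →
      ∃ R : ℕ, 0 < R ∧ (R : ℝ) ≤ (X : ℝ) ^ A ∧
        ∀ (p : ℕ) (m : ℤ), (∃ i, (p : ℤ) ∣ (f i).eval m) → (∃ j, (p : ℤ) ∣ (g j).eval (m + h)) → p ∣ R := by
  obtain ⟨A1, hA1⟩ : ∃ A1 : ℝ, A1 = 1 + 2 * D * (E + δ * D + 1) := ⟨_, rfl⟩
  have hA10 : 0 < A1 := by rw [hA1]; positivity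
  obtain ⟨A, hA⟩ : ∃ A : ℝ, A = A1 * (k * k) + 1 := ⟨_, rfl⟩
  have hA0 : 0 < A := by rw [hA]; positivity
  refine ⟨A, hA0, ?_⟩
  filter_upwards [eventually_ge_atTop (((2 * D).factorial + (D + 1) * 2 ^ D + 1))] with X hXb
  intro f g hf hg
  have hXr : (((2 * D).factorial + (D + 1) * 2 ^ D + 1 : ℕ) : ℝ) ≤ X := by exact_mod_cast hXb
  push_cast at hXr
  have hf0 : (0 : ℝ) ≤ ((2 * D).factorial : ℝ) := Nat.cast_nonneg _
  have hd0 : (0 : ℝ) ≤ ((D : ℝ) + 1) * 2 ^ D := by positivity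
  have hX1 : (1 : ℝ) ≤ X := by linarith
  have hX0 : (0 : ℝ) < X := by linarith
  intro h hhU hn
  refine ⟨RRz f g h, RRz_pos hf hg h hn, ?_, fun p m h1 h2 => RRz_dvd hf h p m h1 h2⟩
  have hXδ : 1 ≤ (X : ℝ) ^ δ := Real.one_le_rpow hX1 hδ.le
  refine (RRz_le (U := (X : ℝ) ^ δ) hf hg (Real.one_le_rpow hX1 hE.le) h (max |h| 1) (le_max_right _ _)
    (le_max_left _ _) (by push_cast; exact max_le (by exact_mod_cast hhU) hXδ)).trans ?_
  have h1 : ((D : ℝ) + 1) * ((X : ℝ) ^ E * (((X : ℝ) ^ δ) ^ D * 2 ^ D)) ≤ (X : ℝ) ^ (E + δ * D + 1) := by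
    calc ((D : ℝ) + 1) * ((X : ℝ) ^ E * (((X : ℝ) ^ δ) ^ D * 2 ^ D)) =
          (((D : ℝ) + 1) * 2 ^ D) * ((X : ℝ) ^ E * ((X : ℝ) ^ δ) ^ D) := by ring
      _ ≤ X * ((X : ℝ) ^ E * ((X : ℝ) ^ δ) ^ D) := by
          apply mul_le_mul_of_nonneg_right (by linarith) (by positivity)
      _ = (X : ℝ) ^ (E + δ * D + 1) := by
          rw [← Real.rpow_natCast ((X : ℝ) ^ δ), ← Real.rpow_mul hX0.le, ← Real.rpow_add hX0,
            Real.rpow_add hX0 (E + δ * D) 1, Real.rpow_one]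
          ring
  have h2 : ((2 * D).factorial : ℝ) * (((D : ℝ) + 1) * ((X : ℝ) ^ E * (((X : ℝ) ^ δ) ^ D * 2 ^ D))) ^ (2 * D) ≤
      (X : ℝ) ^ A1 := by
    calc ((2 * D).factorial : ℝ) * (((D : ℝ) + 1) * ((X : ℝ) ^ E * (((X : ℝ) ^ δ) ^ D * 2 ^ D))) ^ (2 * D)
        ≤ X * ((X : ℝ) ^ (E + δ * D + 1)) ^ (2 * D) := by
          apply mul_le_mul (by linarith) _ (by positivity) hX0.le
          exact pow_le_pow_left₀ (by positivity) h1 _
      _ = (X : ℝ) ^ A1 := by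
          rw [← Real.rpow_natCast, ← Real.rpow_mul hX0.le, hA1]
          nth_rewrite 1 [← Real.rpow_one (X : ℝ)]
          rw [← Real.rpow_add hX0]
          congr 1
          push_cast
          ring
  calc _ ≤ ((X : ℝ) ^ A1) ^ (k * k) := pow_le_pow_left₀ (by positivity) h2 _
    _ = (X : ℝ) ^ (A1 * (k * k)) := by
        rw [← Real.rpow_natCast, ← Real.rpow_mul hX0.le]
        push_cast
        rfl
    _ ≤ (X : ℝ) ^ A := Real.rpow_le_rpow_of_exponent_le hX1 (by rw [hA]; linarith)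

end Pool.Agent.Q236.UL
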