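import Pool.Agent.Q236.UL.ShiftLaw

set_option autoImplicit false

/-!
# The joint Poisson law for shifted conditions of several types: the theorem
-/

namespace Pool.Agent.Q236.UL

open Finset Filter Pool.Agent.H373R2.T7 Pool.Agent.W123.RP Pool.Agent.W123.RU Pool.Agent.TH464.PO
open Pool.Agent.Q236.CP Pool.Agent.Q236.ML

variable {τ : Type*} [Fintype τ] [DecidableEq τ]

open Classical in
/-- the pair sum -/
lemma pair_bound (K c w : ℕ) (ηa : ℝ) (hηa : 0 ≤ ηa) (Ta : ℕ) (hTa : 1 ≤ Ta)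
    (havg : ∀ T : ℕ, Ta ≤ T → ∀ P Q : ℕ → ℕ → Prop, PerB P c → PerB Q c → ∀ y : ℕ, ∀ η' : ℝ, 0 ≤ η' →
      K * η' ≤ ηa → ∀ E : Finset ℕ, E ⊆ Icc 1 T → (∀ h ∈ E, (LC P Q y T h : ℝ) ≤ η' * T) →
      ∑ h ∈ E, (FG P Q K w y h - 1) ≤ 38 * ηa * T) (C : ℝ) (Bl : ℕ) (hC : 0 < C)
    (hone : ∀ T : ℕ, Ta ≤ T → ∀ P Q : ℕ → ℕ → Prop, ∀ w y d : ℕ, ∀ η' : ℝ, 0 ≤ η' → K * η' ≤ 1 →
      (LC P Q y T d : ℝ) ≤ η' * T → FG P Q K w y d ≤ C * Real.log T ^ Bl)
    (δ : ℝ) (hδ : 0 ≤ δ) (hlogT : ∀ T : ℕ, Ta ≤ T → C * Real.log T ^ Bl ≤ δ * T)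
    (P0 : ℕ → ℕ → Prop) (Q : τ → ℕ → ℕ → Prop) (hP0 : PerB P0 c) (hQ : ∀ t, PerB (Q t) c)
    (X : τ → τ → Finset ℕ) (y : ℕ) (hwy : w ≤ y) (u v : τ → ℕ) (W0 Λ Λ2 : ℝ) (hW0 : 0 < W0) (hΛ : 0 ≤ Λ)
    (hΛ2 : 0 ≤ Λ2) (hW : ∀ t, W0 ≤ Vq (Q t) w) (hv : ∀ t, v t * Vq (Q t) y ≤ Λ)
    (η' : ℝ) (hη' : 0 ≤ η') (hK1 : K * η' ≤ ηa) (hK2 : K * η' ≤ 1)
    (hPH : PH P0 Q X y u v Ta Λ2 η') :
    ∑ x ∈ (insert none (Al (Ix u v))).offDiag.filter (fun x => ¬ Ex X x),
      Uw (Es P0 Q) none w y x.1 * Uw (Es P0 Q) none w y x.2 * (Fc (Es P0 Q) K w y x - 1) ≤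
      2 * (Fintype.card τ * (38 * ηa * (Λ2 / W0))) +
        (Fintype.card τ : ℝ) ^ 2 * ((Λ / W0) * ((76 * ηa + δ) * (Λ2 / W0))) := by
  obtain ⟨f, hf⟩ : ∃ f : Option (τ × ℕ) × Option (τ × ℕ) → ℝ, f = fun x =>
    Uw (Es P0 Q) none w y x.1 * Uw (Es P0 Q) none w y x.2 * (Fc (Es P0 Q) K w y x - 1) := ⟨_, rfl⟩
  have hf0 : ∀ x, 0 ≤ f x := by
    intro x
    rw [hf]
    have h1 := Fc_ge (Es P0 Q) K w y x
    exact mul_nonneg (mul_nonneg (Uw_nonneg _ _ w y _) (Uw_nonneg _ _ w y _)) (by linarith)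
  have hVt : ∀ t, Vt (Q t) w y ≤ Vq (Q t) y / W0 := fun t => Vt_le_div (Q t) w y hwy W0 hW0 (hW t)
  have hVt0 : ∀ t, 0 ≤ Vt (Q t) w y := fun t => Vt_nonneg (Q t) w y
  have hU : ∀ t b, Uw (Es P0 Q) none w y (some (t, b)) = Vt (Q t) w y := by
    intro t b
    rw [Uw_ne _ _ _ _ _ (by simp)]
    exact Vt_some P0 Q c hQ w y t b
  have hmain := sum_off (Al (Ix u v)) none (none_notMem u v) (Ex X) f hf0
  have e0 : ∑ x ∈ (insert none (Al (Ix u v))).offDiag.filter (fun x => ¬ Ex X x),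
      Uw (Es P0 Q) none w y x.1 * Uw (Es P0 Q) none w y x.2 * (Fc (Es P0 Q) K w y x - 1) =
      ∑ x ∈ (insert none (Al (Ix u v))).offDiag.filter (fun x => ¬ Ex X x), f x := by rw [hf]
  rw [e0]
  refine hmain.trans ?_
  -- the base
  have hbase : ∑ i ∈ Al (Ix u v), f (none, i) ≤ Fintype.card τ * (38 * ηa * (Λ2 / W0)) := by
    rw [sum_Al]
    have h1 : ∀ t : τ, ∑ b ∈ Ioc (u t) (v t), f (none, some (t, b)) ≤ 38 * ηa * (Λ2 / W0) := by
      intro t
      obtain ⟨T, hT0, hvT, hTV, hLC⟩ := hPH.base t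
      have h2 : ∑ b ∈ Ioc (u t) (v t), f (none, some (t, b)) ≤
          Vt (Q t) w y * ∑ b ∈ Ioc (u t) (v t), (FG P0 (Q t) K w y b - 1) := by
        rw [Finset.mul_sum]
        apply Finset.sum_le_sum
        intro b _
        rw [hf]
        simp only
        rw [Uw_o, hU, one_mul]
        apply mul_le_mul_of_nonneg_left _ (hVt0 t)
        have := Fc_none P0 Q K w y t b
        linarith
      have h3 : ∑ b ∈ Ioc (u t) (v t), (FG P0 (Q t) K w y b - 1) ≤ 38 * ηa * T := by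
        apply havg T hT0 P0 (Q t) hP0 (hQ t) y η' hη' hK1
        · intro b hb
          rw [mem_Ioc] at hb
          rw [mem_Icc]
          omega
        · intro b hb
          rw [mem_Ioc] at hb
          exact hLC b (mem_Icc.2 (by omega))
      have hTr : (0 : ℝ) ≤ T := Nat.cast_nonneg T
      have h4 : Vt (Q t) w y * T ≤ Λ2 / W0 := by
        calc Vt (Q t) w y * T ≤ Vq (Q t) y / W0 * T := mul_le_mul_of_nonneg_right (hVt t) hTr
          _ = (T * Vq (Q t) y) / W0 := by ring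
          _ ≤ Λ2 / W0 := div_le_div_of_nonneg_right hTV hW0.le
      calc ∑ b ∈ Ioc (u t) (v t), f (none, some (t, b)) ≤ Vt (Q t) w y * (38 * ηa * T) :=
            h2.trans (mul_le_mul_of_nonneg_left h3 (hVt0 t))
        _ = 38 * ηa * (Vt (Q t) w y * T) := by ring
        _ ≤ _ := mul_le_mul_of_nonneg_left h4 (by positivity)
    calc ∑ t, ∑ b ∈ Ioc (u t) (v t), f (none, some (t, b)) ≤ ∑ _t : τ, 38 * ηa * (Λ2 / W0) :=
          Finset.sum_le_sum fun t _ => h1 t
      _ = _ := by rw [Finset.sum_const, Finset.card_univ, nsmul_eq_mul]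
  have hbase' : ∑ i ∈ Al (Ix u v), f (i, none) ≤ Fintype.card τ * (38 * ηa * (Λ2 / W0)) := by
    refine le_trans (le_of_eq ?_) hbase
    apply Finset.sum_congr rfl
    intro i _
    rw [hf]
    simp only
    rw [Fc_symm]
    ring
  -- the pairs
  have hpairs : ∑ i ∈ Al (Ix u v), ∑ j ∈ Al (Ix u v), (if i ≠ j ∧ ¬ Ex X (i, j) then f (i, j) else 0) ≤
      (Fintype.card τ : ℝ) ^ 2 * ((Λ / W0) * ((76 * ηa + δ) * (Λ2 / W0))) := by
    have e1 : ∑ i ∈ Al (Ix u v), ∑ j ∈ Al (Ix u v), (if i ≠ j ∧ ¬ Ex X (i, j) then f (i, j) else 0) =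
        ∑ s : τ, ∑ t : τ, Vt (Q s) w y * Vt (Q t) w y *
          ∑ b ∈ Ioc (u s) (v s), ∑ b' ∈ Ioc (u t) (v t), gt P0 Q X K w y s b t b' := by
      rw [sum_Al]
      apply Finset.sum_congr rfl
      intro s _
      rw [Finset.sum_congr rfl (fun b _ => sum_Al u v
        (fun j => if (some (s, b)) ≠ j ∧ ¬ Ex X (some (s, b), j) then f (some (s, b), j) else 0)),
        Finset.sum_comm]
      apply Finset.sum_congr rfl
      intro t _
      rw [Finset.mul_sum]
      apply Finset.sum_congr rfl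
      intro b _
      rw [Finset.mul_sum]
      apply Finset.sum_congr rfl
      intro b' _
      unfold gt
      have h1 : (some (s, b) ≠ some (t, b') ∧ ¬ Ex X (some (s, b), some (t, b'))) ↔
          ((s, b) ≠ (t, b') ∧ ¬ Ex X (some (s, b), some (t, b'))) := by
        rw [ne_eq, Option.some.injEq]
      by_cases h : (s, b) ≠ (t, b') ∧ ¬ Ex X (some (s, b), some (t, b'))
      · rw [if_pos (h1.2 h), if_pos h, hf]
        simp only
        rw [hU, hU]
      · rw [if_neg (fun h2 => h (h1.1 h2)), if_neg h, mul_zero]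
    rw [e1]
    have h1 : ∀ s t : τ, Vt (Q s) w y * Vt (Q t) w y *
        ∑ b ∈ Ioc (u s) (v s), ∑ b' ∈ Ioc (u t) (v t), gt P0 Q X K w y s b t b' ≤
        (Λ / W0) * ((76 * ηa + δ) * (Λ2 / W0)) := by
      intro s t
      -- the one-sided bound
      have hside : ∀ s t : τ, ∀ T : ℕ, Ta ≤ T → v s ≤ T → v t ≤ T → T * Vq (Q t) y ≤ Λ2 →
          (∀ d ∈ Icc 1 T, d ∉ X s t → (LC (Q s) (Q t) y T d : ℝ) ≤ η' * T) →
          (∀ d ∈ Icc 1 T, d ∉ X t s → (LC (Q t) (Q s) y T d : ℝ) ≤ η' * T) →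
          (s ≠ t → Disjoint (Ioc (u s) (v s)) (Ioc (u t) (v t)) ∨ (0 ∈ X s t ∨ 0 ∈ X t s) ∨
            (LC (Q s) (Q t) y T 0 : ℝ) ≤ η' * T) →
          Vt (Q s) w y * Vt (Q t) w y *
            ∑ b ∈ Ioc (u s) (v s), ∑ b' ∈ Ioc (u t) (v t), gt P0 Q X K w y s b t b' ≤
            (Λ / W0) * ((76 * ηa + δ) * (Λ2 / W0)) := by
        intro s t T hT0 hvs hvt hTV g1 g2 g3
        have hTr : (0 : ℝ) ≤ T := Nat.cast_nonneg T
        have h2 : ∀ b ∈ Ioc (u s) (v s), ∑ b' ∈ Ioc (u t) (v t), gt P0 Q X K w y s b t b' ≤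
            (76 * ηa + δ) * T := by
          intro b hb
          have hb' := hb
          rw [mem_Ioc] at hb
          have h3 := inner_sum K c w ηa Ta havg C Bl hC hone P0 Q hQ X y T hT0 (by omega) η' hη' hK1 hK2 s t b
            (by omega) (by omega) (Ioc (u t) (v t)) (by
              intro b' hb'
              rw [mem_Ioc] at hb'
              rw [mem_Icc]
              omega) g1 g2 (by
              intro hst
              rcases g3 hst with h | h | h
              · exact Or.inl (fun hbt => Finset.disjoint_left.1 h hb' hbt)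
              · exact Or.inr (Or.inl h)
              · exact Or.inr (Or.inr h))
          have := hlogT T hT0
          linarith
        have h3 : ∑ b ∈ Ioc (u s) (v s), ∑ b' ∈ Ioc (u t) (v t), gt P0 Q X K w y s b t b' ≤
            v s * ((76 * ηa + δ) * T) := by
          refine (Finset.sum_le_sum h2).trans ?_
          rw [Finset.sum_const, nsmul_eq_mul, Nat.card_Ioc]
          apply mul_le_mul_of_nonneg_right _ (by positivity)
          exact_mod_cast Nat.sub_le _ _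
        have h4 : Vt (Q t) w y * T ≤ Λ2 / W0 := by
          calc Vt (Q t) w y * T ≤ Vq (Q t) y / W0 * T := mul_le_mul_of_nonneg_right (hVt t) hTr
            _ = (T * Vq (Q t) y) / W0 := by ring
            _ ≤ Λ2 / W0 := div_le_div_of_nonneg_right hTV hW0.le
        have h5 : Vt (Q s) w y * v s ≤ Λ / W0 := by
          calc Vt (Q s) w y * v s ≤ Vq (Q s) y / W0 * v s :=
                mul_le_mul_of_nonneg_right (hVt s) (Nat.cast_nonneg _)
            _ = (v s * Vq (Q s) y) / W0 := by ring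
            _ ≤ Λ / W0 := div_le_div_of_nonneg_right (hv s) hW0.le
        have hvs0 : (0 : ℝ) ≤ v s := Nat.cast_nonneg _
        calc Vt (Q s) w y * Vt (Q t) w y *
            ∑ b ∈ Ioc (u s) (v s), ∑ b' ∈ Ioc (u t) (v t), gt P0 Q X K w y s b t b' ≤
            Vt (Q s) w y * Vt (Q t) w y * (v s * ((76 * ηa + δ) * T)) :=
              mul_le_mul_of_nonneg_left h3 (mul_nonneg (hVt0 s) (hVt0 t))
          _ = (Vt (Q s) w y * v s) * ((76 * ηa + δ) * (Vt (Q t) w y * T)) := by ring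
          _ ≤ (Λ / W0) * ((76 * ηa + δ) * (Λ2 / W0)) := by
              apply mul_le_mul h5 _ _ (by positivity)
              · exact mul_le_mul_of_nonneg_left h4 (by positivity)
              · exact mul_nonneg (by positivity) (mul_nonneg (hVt0 t) hTr)
      obtain ⟨T, hT0, hvs, hvt, hTV, g1, g2, g3⟩ := hPH.pair s t
      rcases hTV with hTV | hTV
      · have h2 := hside t s T hT0 hvt hvs hTV g2 g1 (by
          intro hts
          rcases g3 hts.symm with h | h | h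
          · exact Or.inl h.symm
          · exact Or.inr (Or.inl (Or.inr h))
          · rw [LC_zero] at h
            exact Or.inr (Or.inr h))
        have e2 : ∑ b ∈ Ioc (u t) (v t), ∑ b' ∈ Ioc (u s) (v s), gt P0 Q X K w y t b s b' =
            ∑ b ∈ Ioc (u s) (v s), ∑ b' ∈ Ioc (u t) (v t), gt P0 Q X K w y s b t b' := by
          rw [Finset.sum_comm]
          apply Finset.sum_congr rfl
          intro b _
          apply Finset.sum_congr rfl
          intro b' _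
          exact gt_symm P0 Q X K w y t b' s b
        rw [e2, mul_comm (Vt (Q t) w y)] at h2
        exact h2
      · exact hside s t T hT0 hvs hvt hTV g1 g2 (by
          intro hst
          rcases g3 hst with h | h | h
          · exact Or.inl h
          · exact Or.inr (Or.inl (Or.inl h))
          · exact Or.inr (Or.inr h))
    calc ∑ s : τ, ∑ t : τ, Vt (Q s) w y * Vt (Q t) w y *
          ∑ b ∈ Ioc (u s) (v s), ∑ b' ∈ Ioc (u t) (v t), gt P0 Q X K w y s b t b' ≤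
        ∑ _s : τ, ∑ _t : τ, (Λ / W0) * ((76 * ηa + δ) * (Λ2 / W0)) :=
          Finset.sum_le_sum fun s _ => Finset.sum_le_sum fun t _ => h1 s t
      _ = _ := by
          rw [Finset.sum_const, Finset.sum_const, Finset.card_univ, nsmul_eq_mul, nsmul_eq_mul]
          ring
  linarith

open Classical in
lemma ex_part (X : τ → τ → Finset ℕ) (s t : τ) (B : Finset ℕ) (b : ℕ) (M : ℕ) (hXM : ∀ s t, (X s t).card ≤ M) :
    (B.filter (fun b' => Ex X (some (s, b), some (t, b')))).card ≤ 2 * M := by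
  have h5 : B.filter (fun b' => Ex X (some (s, b), some (t, b'))) ⊆
      (X s t).image (fun d => b + d) ∪ (X t s).image (fun d => b - d) := by
    intro b' hb'
    rw [mem_filter, ex_iff] at hb'
    rw [mem_union, mem_image, mem_image]
    rcases hb'.2.2 with h6 | h6
    · exact Or.inl ⟨b' - b, h6.2, by omega⟩
    · exact Or.inr ⟨b - b', h6.2, by omega⟩
  refine (card_le_card h5).trans ((card_union_le _ _).trans ?_)
  have h7 := card_image_le (s := X s t) (f := fun d => b + d)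
  have h8 := card_image_le (s := X t s) (f := fun d => b - d)
  have := hXM s t
  have := hXM t s
  omega

open Classical in
/-- the exceptional pairs -/
lemma ex_bound (P0 : ℕ → ℕ → Prop) (Q : τ → ℕ → ℕ → Prop) (X : τ → τ → Finset ℕ) (u v : τ → ℕ) (M : ℕ)
    (hXM : ∀ s t, (X s t).card ≤ M) (f : Option (τ × ℕ) × Option (τ × ℕ) → ℝ) (g : τ → τ → ℝ)
    (hg : ∀ s t, 0 ≤ g s t)
    (hfg : ∀ s b t b', Ex X (some (s, b), some (t, b')) → f (some (s, b), some (t, b')) ≤ g s t)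
    (G : ℝ) (hG : ∀ s t, v s * g s t ≤ G ∨ v t * g s t ≤ G) (hG0 : 0 ≤ G) :
    ∑ x ∈ (Al (Ix u v)).offDiag.filter (fun x => Ex X x), f x ≤ (Fintype.card τ : ℝ) ^ 2 * (2 * M) * G := by
  obtain ⟨h, hh⟩ : ∃ h : Option (τ × ℕ) → Option (τ × ℕ) → ℝ, h = fun i j =>
    if Ex X (i, j) then (match i, j with
      | some x, some y => g x.1 y.1
      | _, _ => 0) else 0 := ⟨_, rfl⟩
  have h1 : ∑ x ∈ (Al (Ix u v)).offDiag.filter (fun x => Ex X x), f x ≤
      ∑ i ∈ Al (Ix u v), ∑ j ∈ Al (Ix u v), h i j := by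
    rw [← Finset.sum_product']
    have h2 : ∀ x ∈ (Al (Ix u v)).offDiag.filter (fun x => Ex X x), f x ≤ h x.1 x.2 := by
      intro x hx
      rw [mem_filter] at hx
      obtain ⟨s, b, t, b', e, _⟩ := hx.2
      rw [hh]
      simp only
      rw [if_pos hx.2]
      have h3 := hx.2
      rw [e] at h3 ⊢
      exact hfg s b t b' h3
    refine (Finset.sum_le_sum h2).trans ?_
    apply Finset.sum_le_sum_of_subset_of_nonneg
    · intro x hx
      rw [mem_filter, mem_offDiag] at hx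
      rw [mem_product]
      exact ⟨hx.1.1, hx.1.2.1⟩
    · intro x _ _
      rw [hh]
      simp only
      split_ifs
      · rcases x.1 with _ | x1
        · exact le_rfl
        · rcases x.2 with _ | x2
          · exact le_rfl
          · exact hg _ _
      · exact le_rfl
  refine h1.trans ?_
  rw [sum_Al]
  have h2 : ∀ s t : τ, ∑ b ∈ Ioc (u s) (v s), ∑ b' ∈ Ioc (u t) (v t), h (some (s, b)) (some (t, b')) ≤
      2 * M * G := by
    intro s t
    have h3 : ∀ b b', h (some (s, b)) (some (t, b')) =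
        if Ex X (some (s, b), some (t, b')) then g s t else 0 := by
      intro b b'
      rw [hh]
    have h3' : ∑ b ∈ Ioc (u s) (v s), ∑ b' ∈ Ioc (u t) (v t), h (some (s, b)) (some (t, b')) =
        ∑ b ∈ Ioc (u s) (v s), ∑ b' ∈ Ioc (u t) (v t), if Ex X (some (s, b), some (t, b')) then g s t else 0 :=
      Finset.sum_congr rfl fun b _ => Finset.sum_congr rfl fun b' _ => h3 b b'
    have h4 : ∑ b ∈ Ioc (u s) (v s), ∑ b' ∈ Ioc (u t) (v t),
        (if Ex X (some (s, b), some (t, b')) then g s t else 0) ≤ v s * (2 * M * g s t) := by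
      have h5 : ∀ b ∈ Ioc (u s) (v s), ∑ b' ∈ Ioc (u t) (v t),
          (if Ex X (some (s, b), some (t, b')) then g s t else 0) ≤ 2 * M * g s t := by
        intro b _
        rw [Finset.sum_ite, Finset.sum_const_zero, add_zero, Finset.sum_const, nsmul_eq_mul]
        apply mul_le_mul_of_nonneg_right _ (hg s t)
        exact_mod_cast ex_part X s t (Ioc (u t) (v t)) b M hXM
      refine (Finset.sum_le_sum h5).trans ?_
      rw [Finset.sum_const, nsmul_eq_mul, Nat.card_Ioc]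
      apply mul_le_mul_of_nonneg_right _ (by have := hg s t; positivity)
      exact_mod_cast Nat.sub_le _ _
    have h4' : ∑ b ∈ Ioc (u s) (v s), ∑ b' ∈ Ioc (u t) (v t),
        (if Ex X (some (s, b), some (t, b')) then g s t else 0) ≤ v t * (2 * M * g s t) := by
      rw [Finset.sum_comm]
      have h5 : ∀ b' ∈ Ioc (u t) (v t), ∑ b ∈ Ioc (u s) (v s),
          (if Ex X (some (s, b), some (t, b')) then g s t else 0) ≤ 2 * M * g s t := by
        intro b' _
        rw [Finset.sum_ite, Finset.sum_const_zero, add_zero, Finset.sum_const, nsmul_eq_mul]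
        apply mul_le_mul_of_nonneg_right _ (hg s t)
        have h6 := ex_part X t s (Ioc (u s) (v s)) b' M hXM
        have h7 : (Ioc (u s) (v s)).filter (fun b => Ex X (some (s, b), some (t, b'))) =
            (Ioc (u s) (v s)).filter (fun b => Ex X (some (t, b'), some (s, b))) := by
          apply Finset.filter_congr
          intro b _
          exact ex_symm X s t b b'
        rw [h7]
        exact_mod_cast h6
      refine (Finset.sum_le_sum h5).trans ?_
      rw [Finset.sum_const, nsmul_eq_mul, Nat.card_Ioc]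
      apply mul_le_mul_of_nonneg_right _ (by have := hg s t; positivity)
      exact_mod_cast Nat.sub_le _ _
    rw [h3']
    rcases hG s t with h5 | h5
    · refine h4.trans ?_
      calc (v s : ℝ) * (2 * M * g s t) = 2 * M * (v s * g s t) := by ring
        _ ≤ _ := mul_le_mul_of_nonneg_left h5 (by positivity)
    · refine h4'.trans ?_
      calc (v t : ℝ) * (2 * M * g s t) = 2 * M * (v t * g s t) := by ring
        _ ≤ _ := mul_le_mul_of_nonneg_left h5 (by positivity)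
  have h3 : ∑ s, ∑ b ∈ Ioc (u s) (v s), ∑ j ∈ Al (Ix u v), h (some (s, b)) j =
      ∑ s, ∑ t, ∑ b ∈ Ioc (u s) (v s), ∑ b' ∈ Ioc (u t) (v t), h (some (s, b)) (some (t, b')) := by
    apply Finset.sum_congr rfl
    intro s _
    rw [Finset.sum_congr rfl (fun b _ => sum_Al u v (fun j => h (some (s, b)) j)), Finset.sum_comm]
  rw [h3]
  calc ∑ s : τ, ∑ t : τ, ∑ b ∈ Ioc (u s) (v s), ∑ b' ∈ Ioc (u t) (v t), h (some (s, b)) (some (t, b')) ≤
      ∑ _s : τ, ∑ _t : τ, 2 * M * G := Finset.sum_le_sum fun s _ => Finset.sum_le_sum fun t _ => h2 s t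
    _ = _ := by
        rw [Finset.sum_const, Finset.sum_const, Finset.card_univ, nsmul_eq_mul, nsmul_eq_mul]
        ring

open Classical in
/-- **The joint Poisson law for shifted conditions of several types.** -/
theorem shift_law (c M : ℕ) (Λ Λ2 ε : ℝ) (hΛ : 0 ≤ Λ) (hΛ2 : 0 ≤ Λ2) (hε : 0 < ε) :
    ∃ (R w K0 y0 T0 : ℕ) (η' κ : ℝ), 1 ≤ w ∧ 1 ≤ K0 ∧ 0 < η' ∧ 0 < κ ∧
      ∀ (P0 : ℕ → ℕ → Prop) (Q : τ → ℕ → ℕ → Prop) (X : τ → τ → Finset ℕ) (y Y : ℕ) (u v : τ → ℕ),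
      PerB P0 c → (∀ t, PerB (Q t) c) → (∀ p : ℕ, p.Prime → nuB P0 p < p) →
      (∀ t, ∀ p : ℕ, p.Prime → nuB (Q t) p < p) → y0 ≤ y → y ^ K0 ≤ Y → (∀ t, Vq (Q t) y ≤ κ) →
      (∀ t, u t ≤ v t) → (∀ t, v t * Vq (Q t) y ≤ Λ) → (∀ s t, (X s t).card ≤ M) →
      (∀ t, ∀ d ∈ X t t, d < M) →
      (∀ s t, ∃ g : ℝ, 0 ≤ g ∧ (v s * g ≤ κ ∨ v t * g ≤ κ) ∧ ∀ b b', Ex X (some (s, b), some (t, b')) →
        rh (Es P0 Q) none w y {some (s, b), some (t, b')} ≤ g) →
      (((∑ t, v t : ℕ) : ℝ) + 1) ^ R * √(Y : ℝ) ≤ κ * (Y * Vq P0 y) →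
      PH P0 Q X y u v T0 Λ2 η' →
      ∀ A : Finset (τ → ℕ), |(((OmG P0 y Y).filter
        (fun n => (fun t => NB (Q t) y (Ioc (u t) (v t)) n) ∈ A)).card : ℝ) -
        (OmG P0 y Y).card * PoJ (fun t => ((v t : ℝ) - u t) * Vq (Q t) y) A| ≤ ε * (OmG P0 y Y).card := by
  -- the colours
  obtain ⟨Dc, hDc⟩ : ∃ Dc, Dc = Fintype.card (Option (τ × Fin (M + 1))) := ⟨_, rfl⟩
  have hDc0 : 0 < Dc := by rw [hDc]; exact Fintype.card_pos
  obtain ⟨R, η, hη, hη1, hR, hglob⟩ := glob_law (ι := Option (τ × ℕ)) (τ := τ) c Dc hDc0 Λ ε hΛ hε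
  obtain ⟨K, hK⟩ : ∃ K, K = KK R c := ⟨_, rfl⟩
  obtain ⟨s, hs⟩ : ∃ s : ℝ, s = Fintype.card τ := ⟨_, rfl⟩
  have hs0 : 0 ≤ s := by rw [hs]; exact Nat.cast_nonneg _
  obtain ⟨c1, B, w1, hc1, hw12, hWlow⟩ := W_low c
  -- the choice of `w`
  obtain ⟨A, hA⟩ := exists_nat_ge (4 * (76 * (s * Λ2 + s ^ 2 * (Λ * Λ2)) + 1) * ((K : ℝ) * c ^ 2 + 1) +
    (((R + 1) * c : ℕ) : ℝ) ^ 2)
  obtain ⟨w, hw0, hw2, hAw, hAw'⟩ := exists_w A B 2 c1 η hc1 hη (max w1 (2 * ((R + 1) * c)))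
  have hww1 : w1 ≤ w := (le_max_left _ _).trans hw0
  have hwc : 2 * ((R + 1) * c) ≤ w := (le_max_right _ _).trans hw0
  have hwr : (0 : ℝ) < w := by exact_mod_cast (by omega : 0 < w)
  have hw1 : 1 ≤ w := by omega
  have hlogw : 0 < Real.log w := Real.log_pos (by exact_mod_cast (by omega : 1 < w))
  obtain ⟨W0, hW0e⟩ : ∃ W0 : ℝ, W0 = min (c1 / Real.log w ^ B) 1 := ⟨_, rfl⟩
  have hW0 : 0 < W0 := by rw [hW0e]; positivity
  have hW01 : W0 ≤ 1 := by rw [hW0e]; exact min_le_right _ _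
  have hW0' : ∀ Q : ℕ → ℕ → Prop, PerB Q c → (∀ p : ℕ, p.Prime → nuB Q p < p) → W0 ≤ Vq Q w := by
    intro Q hQ hadm
    rw [hW0e]
    exact (min_le_left _ _).trans (hWlow w hww1 Q hQ hadm)
  have hAW : (A : ℝ) / w ≤ η * W0 ^ 2 := by
    rcases le_total (c1 / Real.log w ^ B) 1 with h | h
    · rw [hW0e, min_eq_left h]
      exact hAw
    · rw [hW0e, min_eq_right h, one_pow, mul_one]
      exact hAw'
  obtain ⟨ηa, hηa⟩ : ∃ ηa : ℝ, ηa = ((K : ℝ) * c ^ 2 + 1) / w := ⟨_, rfl⟩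
  have hηa0 : 0 < ηa := by rw [hηa]; positivity
  have hKc0 : (0 : ℝ) ≤ (K : ℝ) * c ^ 2 := by positivity
  have hsΛ : 0 ≤ s * Λ2 + s ^ 2 * (Λ * Λ2) := by positivity
  have hAηa : 4 * (76 * (s * Λ2 + s ^ 2 * (Λ * Λ2)) + 1) * ηa ≤ η * W0 ^ 2 := by
    refine le_trans ?_ hAW
    rw [hηa, ← mul_div_assoc]
    apply div_le_div_of_nonneg_right _ hwr.le
    have : (0 : ℝ) ≤ (((R + 1) * c : ℕ) : ℝ) ^ 2 := by positivity
    linarith
  have hE1 : (((R + 1) * c : ℕ) : ℝ) ^ 2 / w ≤ η := by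
    refine le_trans ?_ hAw'
    apply div_le_div_of_nonneg_right _ hwr.le
    refine le_trans ?_ hA
    have : 0 ≤ 4 * (76 * (s * Λ2 + s ^ 2 * (Λ * Λ2)) + 1) * ((K : ℝ) * c ^ 2 + 1) := by positivity
    linarith
  have hW0sq : W0 ^ 2 ≤ 1 := pow_le_one₀ hW0.le hW01
  have hηa1 : ηa ≤ 1 := by
    have h1 : 4 * 1 * ηa ≤ 4 * (76 * (s * Λ2 + s ^ 2 * (Λ * Λ2)) + 1) * ηa := by
      apply mul_le_mul_of_nonneg_right _ hηa0.le
      linarith
    nlinarith
  -- the averages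
  obtain ⟨Ta, hTa2, havg⟩ := avg_FG K c w hw1 ηa hηa0 hηa1 (by
    rw [hηa]
    apply div_le_div_of_nonneg_right _ hwr.le
    push_cast
    linarith)
  obtain ⟨C, Bl, Tb, hC, hTb2, hone⟩ := one_FG K
  obtain ⟨δ, hδ⟩ : ∃ δ : ℝ, δ = η * W0 ^ 2 / (4 * (s ^ 2 * (Λ * Λ2) + 1)) := ⟨_, rfl⟩
  have hδ0 : 0 < δ := by rw [hδ]; positivity
  obtain ⟨Tc, hTc2, hlogT⟩ := log_T C Bl δ hC hδ0
  obtain ⟨Tm, hTm⟩ : ∃ Tm, Tm = max Ta (max Tb Tc) := ⟨_, rfl⟩
  obtain ⟨η', hη'⟩ : ∃ η' : ℝ, η' = ηa / (K + 1) := ⟨_, rfl⟩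
  have hη'0 : 0 < η' := by rw [hη']; positivity
  have hKη : K * η' ≤ ηa := by
    rw [hη', mul_div_assoc', div_le_iff₀ (by positivity)]
    nlinarith
  have hMr1 : (1 : ℝ) ≤ Mw w := by exact_mod_cast Mw_pos w
  obtain ⟨κ, hκ, hκ1, hκ2, hκ3, hκ4, hκ5⟩ := exists_kappa η W0 (Mw w) s M Λ hη hη1 hW0 hW01 hMr1 hs0
    (Nat.cast_nonneg _) hΛ
  obtain ⟨K0, x0, hK0, hlaw⟩ := hglob w hw1
  refine ⟨R, w, K0, max x0 w, Tm, η', κ, hw1, hK0, hη'0, hκ, ?_⟩
  intro P0 Q X y Y u v hP0 hQ hadm0 hadm hy hyY hVκ huv hvΛ hXM hXd hrh hsize hPH A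
  have hwy : w ≤ y := (le_max_right _ _).trans hy
  have hxy : x0 ≤ y := (le_max_left _ _).trans hy
  have hVt : ∀ t, Vt (Q t) w y ≤ Vq (Q t) y / W0 := fun t =>
    Vt_le_div (Q t) w y hwy W0 hW0 (hW0' (Q t) (hQ t) (hadm t))
  have hVtκ : ∀ t, Vt (Q t) w y ≤ κ / W0 := fun t =>
    (hVt t).trans (div_le_div_of_nonneg_right (hVκ t) hW0.le)
  have hVt0 : ∀ t, 0 ≤ Vt (Q t) w y := fun t => Vt_nonneg (Q t) w y
  have hvt : ∀ t, v t * Vt (Q t) w y ≤ Λ / W0 := by
    intro t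
    calc v t * Vt (Q t) w y ≤ v t * (Vq (Q t) y / W0) := mul_le_mul_of_nonneg_left (hVt t) (Nat.cast_nonneg _)
      _ = (v t * Vq (Q t) y) / W0 := by ring
      _ ≤ Λ / W0 := div_le_div_of_nonneg_right (hvΛ t) hW0.le
  have hper : ∀ i, PerB (Es P0 Q i) c := by
    intro i
    rcases i with _ | ⟨t, b⟩
    · exact hP0
    · exact perB_Qt (Q t) c (hQ t) b
  -- the pair sum
  have hpair := pair_bound K c w ηa hηa0.le Tm (by omega)
    (fun T hT => havg T (by omega)) C Bl hC (fun T hT => hone T (by omega)) δ hδ0.le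
    (fun T hT => hlogT T (by omega)) P0 Q hP0 hQ X y hwy u v W0 Λ Λ2 hW0 hΛ hΛ2
    (fun t => hW0' (Q t) (hQ t) (hadm t)) hvΛ η' hη'0.le hKη (hKη.trans hηa1) hPH
  rw [← hs] at hpair
  have hpair2 : 2 * (s * (38 * ηa * (Λ2 / W0))) + s ^ 2 * ((Λ / W0) * ((76 * ηa + δ) * (Λ2 / W0))) ≤ η := by
    have e1 : 2 * (s * (38 * ηa * (Λ2 / W0))) = 76 * (s * Λ2) * ηa * W0 / W0 ^ 2 := by
      field_simp
      ring
    have e2 : s ^ 2 * ((Λ / W0) * ((76 * ηa + δ) * (Λ2 / W0))) =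
        (76 * (s ^ 2 * (Λ * Λ2)) * ηa + s ^ 2 * (Λ * Λ2) * δ) / W0 ^ 2 := by
      field_simp
    rw [e1, e2, ← add_div, div_le_iff₀ (by positivity)]
    have h1 : 76 * (s * Λ2) * ηa * W0 ≤ 76 * (s * Λ2) * ηa * 1 := mul_le_mul_of_nonneg_left hW01 (by positivity)
    have h2 : s ^ 2 * (Λ * Λ2) * δ ≤ η * W0 ^ 2 / 4 := by
      rw [hδ, ← mul_div_assoc, div_le_div_iff₀ (by positivity) (by norm_num)]
      have : 0 ≤ η * W0 ^ 2 := by positivity
      nlinarith
    have h3 : 0 ≤ η * W0 ^ 2 := by positivity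
    nlinarith
  have hgd : GData (Es P0 Q) c none w y Y (Ix u v) (Ex X) R η (fun t => ((v t : ℝ) - u t) * Vq (Q t) y) := by
    refine ⟨hper, hadm0, none_notMem u v, fun t s hts => Ix_disj u v t s hts, ?_, ?_, ?_, ?_, ?_, ?_, ?_,
      hwc, hw1, hE1⟩
    · -- the sizes
      have h1 : (((Al (Ix u v)).card : ℝ) + 1) ^ R ≤ (((∑ t, v t : ℕ) : ℝ) + 1) ^ R := by
        apply pow_le_pow_left₀ (by positivity)
        have : ((Al (Ix u v)).card : ℝ) ≤ ((∑ t, v t : ℕ) : ℝ) := by exact_mod_cast card_Al u v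
        linarith
      have hM0 : (0 : ℝ) < Mw w := by linarith
      have hVP : Vq P0 y ≤ Vt P0 w y := by
        rw [Vq_split P0 w y hwy]
        have h2 := Vq_le_one' P0 w
        have h3 := Vt_nonneg P0 w y
        nlinarith
      calc (((Al (Ix u v)).card : ℝ) + 1) ^ R * √(Y : ℝ) ≤ (((∑ t, v t : ℕ) : ℝ) + 1) ^ R * √(Y : ℝ) :=
            mul_le_mul_of_nonneg_right h1 (Real.sqrt_nonneg _)
        _ ≤ κ * (Y * Vq P0 y) := hsize
        _ ≤ η / (16 * Mw w) * (Y * Vt P0 w y) := by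
            apply mul_le_mul hκ3 _ (mul_nonneg (Nat.cast_nonneg _) (Vq_nonneg P0 y)) (by positivity)
            exact mul_le_mul_of_nonneg_left hVP (Nat.cast_nonneg _)
        _ = η / 16 * (Y / Mw w * Vt P0 w y) := by
            field_simp
    · intro i hi
      unfold Al at hi
      rw [mem_biUnion] at hi
      obtain ⟨t, _, hi⟩ := hi
      unfold Ix at hi
      rw [mem_image] at hi
      obtain ⟨b, _, rfl⟩ := hi
      rw [Vt_some P0 Q c hQ]
      exact (hVtκ t).trans hκ1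
    · rw [← hK]
      exact hpair.trans hpair2
    · refine (ex_bound P0 Q X u v M hXM (fun x => Vt (Es P0 Q x.1) w y * Vt (Es P0 Q x.2) w y)
        (fun t _ => Vt (Q t) w y * (κ / W0)) (fun t _ => mul_nonneg (hVt0 t) (by positivity)) ?_
        (Λ / W0 * (κ / W0)) ?_ (by positivity)).trans ?_
      · intro s' b t b' _
        simp only
        rw [Vt_some P0 Q c hQ, Vt_some P0 Q c hQ]
        exact mul_le_mul_of_nonneg_left (hVtκ t) (hVt0 s')
      · intro s' _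
        left
        rw [← mul_assoc]
        exact mul_le_mul_of_nonneg_right (hvt s') (by positivity)
      · rw [← hs]
        exact hκ4
    · choose g hg0 hgv hgr using hrh
      refine (ex_bound P0 Q X u v M hXM (fun x => rh (Es P0 Q) none w y {x.1, x.2})
        g hg0 ?_ κ hgv hκ.le).trans ?_
      · intro s' b t b' he
        exact hgr s' t b b' he
      · rw [← hs]
        exact hκ5
    · intro i _
      constructor
      · rintro ⟨t, b, t', b', h1, _⟩
        simp at h1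
      · rintro ⟨t, b, t', b', h1, _⟩
        simp at h1
    · intro a ha t
      have h1 := win_count (Q t) c (hQ t) w a (u t) (v t) (huv t)
      have e1 : ∑ i ∈ (Ix u v t).filter (fun i => Sf (Es P0 Q i) w a), Vt (Es P0 Q i) w y =
          ((((Ioc (u t) (v t)).filter (fun b => Sf (Q t) w (a + b))).card : ℕ) : ℝ) * Vt (Q t) w y := by
        rw [Finset.sum_filter, sum_Ix, ← Finset.sum_filter]
        rw [Finset.sum_congr rfl (fun b _ => Vt_some P0 Q c hQ w y t b), Finset.sum_const, nsmul_eq_mul]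
        rfl
      rw [e1, Vq_split (Q t) w y hwy]
      have e2 : ((((Ioc (u t) (v t)).filter (fun b => Sf (Q t) w (a + b))).card : ℕ) : ℝ) * Vt (Q t) w y -
          ((v t : ℝ) - u t) * (Vq (Q t) w * Vt (Q t) w y) =
          (((((Ioc (u t) (v t)).filter (fun b => Sf (Q t) w (a + b))).card : ℕ) : ℝ) -
            ((v t : ℝ) - u t) * Vq (Q t) w) * Vt (Q t) w y := by ring
      rw [e2, abs_mul, abs_of_nonneg (hVt0 t)]
      calc _ ≤ 2 * (Mw w : ℝ) * (κ / W0) := mul_le_mul h1 (hVtκ t) (hVt0 t) (by positivity)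
        _ ≤ η := hκ2
  -- the colouring
  obtain ⟨e⟩ : Nonempty (Option (τ × Fin (M + 1)) ≃ Fin Dc) := by
    rw [hDc]
    exact ⟨Fintype.equivFin _⟩
  obtain ⟨col, hcol⟩ : ∃ col : Option (τ × ℕ) → Fin Dc, col = fun i =>
    e (i.map (fun x => (x.1, (⟨x.2 % (M + 1), Nat.mod_lt _ (by omega)⟩ : Fin (M + 1))))) := ⟨_, rfl⟩
  have h1 := hlaw (Es P0 Q) none y Y (Ix u v) (Ex X) col (fun t => ((v t : ℝ) - u t) * Vq (Q t) y) hwy hxy hyY
    (by
      rintro x ⟨t, b, t', b', rfl, hne, hd⟩ hcc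
      rw [hcol] at hcc
      simp only [Option.map_some] at hcc
      have h2 := e.injective hcc
      simp only [Option.some.injEq, Prod.mk.injEq, Fin.mk.injEq] at h2
      obtain ⟨rfl, h3⟩ := h2
      have hbb : b ≠ b' := fun h => hne (by rw [h])
      rcases hd with ⟨h4, h5⟩ | ⟨h4, h5⟩
      · have h6 := hXd t _ h5
        have h7 : b' % (M + 1) = (b + (b' - b)) % (M + 1) := by congr 1; omega
        rw [← h3] at h7
        have h8 : b ≡ b + (b' - b) [MOD (M + 1)] := h7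
        have h9 : (M + 1) ∣ b + (b' - b) - b := (Nat.modEq_iff_dvd' (by omega)).1 h8
        rw [Nat.add_sub_cancel_left] at h9
        have := Nat.le_of_dvd (by omega) h9
        omega
      · have h6 := hXd t _ h5
        have h7 : b % (M + 1) = (b' + (b - b')) % (M + 1) := by congr 1; omega
        rw [h3] at h7
        have h8 : b' ≡ b' + (b - b') [MOD (M + 1)] := h7
        have h9 : (M + 1) ∣ b' + (b - b') - b' := (Nat.modEq_iff_dvd' (by omega)).1 h8
        rw [Nat.add_sub_cancel_left] at h9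
        have := Nat.le_of_dvd (by omega) h9
        omega) hgd (by
      intro t
      apply mul_nonneg _ (Vq_nonneg _ y)
      have : (u t : ℝ) ≤ v t := by exact_mod_cast huv t
      linarith) (by
      intro t
      refine le_trans ?_ (hvΛ t)
      apply mul_le_mul_of_nonneg_right _ (Vq_nonneg _ y)
      have : (0 : ℝ) ≤ u t := Nat.cast_nonneg _
      linarith) A
  have e3 : ∀ n, (fun t => NG (Es P0 Q) y (Ix u v t) n) = fun t => NB (Q t) y (Ioc (u t) (v t)) n := by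
    intro n
    funext t
    unfold NG NB Ix
    rw [Finset.filter_image, Finset.card_image_of_injective]
    · rfl
    · intro b b' hbb
      simp only [Option.some.injEq, Prod.mk.injEq] at hbb
      exact hbb.2
  have e4 : Es P0 Q none = P0 := rfl
  rw [e4] at h1
  simp only [e3] at h1
  exact h1

end Pool.Agent.Q236.UL
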