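import Pool.Agent.Q236.UL.ShiftMain

set_option autoImplicit false

/-!
# The joint Poisson law for shifted conditions of several types: arbitrary few exceptional differences
-/

namespace Pool.Agent.Q236.UL

open Finset Filter Pool.Agent.H373R2.T7 Pool.Agent.W123.RP Pool.Agent.W123.RU Pool.Agent.TH464.PO
open Pool.Agent.Q236.CP Pool.Agent.Q236.ML

variable {τ : Type*} [Fintype τ] [DecidableEq τ]

/-- a proper colouring of the integers, for a set of forbidden differences -/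
lemma greedy (E : Finset ℕ) (M : ℕ) (hM : E.card ≤ M) : ∃ col : ℕ → Fin (M + 1), ∀ b b' : ℕ, b < b' →
    b' - b ∈ E → col b ≠ col b' := by
  classical
  have hfree : ∀ U : Finset (Fin (M + 1)), U.card ≤ M → ∃ c : Fin (M + 1), c ∉ U := by
    intro U hU
    by_contra hcon
    push Not at hcon
    have h1 : (univ : Finset (Fin (M + 1))) ⊆ U := fun c _ => hcon c
    have h2 := card_le_card h1
    rw [card_univ, Fintype.card_fin] at h2
    omega
  choose! fr hfr using hfree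
  obtain ⟨nb, hnb⟩ : ∃ nb : (b : ℕ) → ((a : ℕ) → a < b → Fin (M + 1)) → Finset (Fin (M + 1)),
    nb = fun b g => E.image (fun e => if h : 0 < e ∧ e ≤ b then g (b - e) (by omega) else 0) := ⟨_, rfl⟩
  obtain ⟨col, hcol⟩ : ∃ col : ℕ → Fin (M + 1), ∀ b, col b = fr (nb b (fun a _ => col a)) := by
    refine ⟨fun b => Nat.strongRec (motive := fun _ => Fin (M + 1)) (fun b g => fr (nb b g)) b, fun b => ?_⟩
    simp only
    rw [Nat.strongRec]
  refine ⟨col, ?_⟩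
  intro b b' hb he h
  have h1 : col b' ∉ nb b' (fun a _ => col a) := by
    rw [hcol b']
    apply hfr
    rw [hnb]
    exact card_image_le.trans hM
  apply h1
  rw [hnb]
  simp only
  rw [mem_image]
  refine ⟨b' - b, he, ?_⟩
  rw [dif_pos ⟨by omega, by omega⟩, Nat.sub_sub_self hb.le]
  exact h

open Classical in
/-- **The joint Poisson law for shifted conditions of several types.** -/
theorem shift_law2 (c M : ℕ) (Λ Λ2 ε : ℝ) (hΛ : 0 ≤ Λ) (hΛ2 : 0 ≤ Λ2) (hε : 0 < ε) :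
    ∃ (R w K0 y0 T0 : ℕ) (η' κ : ℝ), 1 ≤ w ∧ 1 ≤ K0 ∧ 0 < η' ∧ 0 < κ ∧
      ∀ (P0 : ℕ → ℕ → Prop) (Q : τ → ℕ → ℕ → Prop) (X : τ → τ → Finset ℕ) (y Y : ℕ) (u v : τ → ℕ),
      PerB P0 c → (∀ t, PerB (Q t) c) → (∀ p : ℕ, p.Prime → nuB P0 p < p) →
      (∀ t, ∀ p : ℕ, p.Prime → nuB (Q t) p < p) → y0 ≤ y → y ^ K0 ≤ Y → (∀ t, Vq (Q t) y ≤ κ) →
      (∀ t, u t ≤ v t) → (∀ t, v t * Vq (Q t) y ≤ Λ) → (∀ s t, (X s t).card ≤ M) →
      (∀ t, 0 ∉ X t t) →
      (∀ s t, ∃ g : ℝ, 0 ≤ g ∧ (v s * g ≤ κ ∨ v t * g ≤ κ) ∧ ∀ b b', Ex X (some (s, b), some (t, b')) →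
        rh (Es P0 Q) none w y {some (s, b), some (t, b')} ≤ g) →
      (((∑ t, v t : ℕ) : ℝ) + 1) ^ R * √(Y : ℝ) ≤ κ * (Y * Vq P0 y) →
      PH P0 Q X y u v T0 Λ2 η' →
      ∀ A : Finset (τ → ℕ), |(((OmG P0 y Y).filter
        (fun n => (fun t => NB (Q t) y (Ioc (u t) (v t)) n) ∈ A)).card : ℝ) -
        (OmG P0 y Y).card * PoJ (fun t => ((v t : ℝ) - u t) * Vq (Q t) y) A| ≤ ε * (OmG P0 y Y).card := by
  -- the colours
  obtain ⟨Dc, hDc⟩ : ∃ Dc, Dc = Fintype.card (Option (τ × Fin (M + 1))) := ⟨_, rfl⟩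
  have hDc0 : 0 < Dc := by rw [hDc]; exact Fintype.card_pos
  obtain ⟨R, η, hη, hη1, hR, hglob⟩ := glob_law (ι := Option (τ × ℕ)) (τ := τ) c Dc hDc0 Λ ε hΛ hε
  obtain ⟨K, hK⟩ : ∃ K, K = KK R c := ⟨_, rfl⟩
  obtain ⟨s, hs⟩ : ∃ s : ℝ, s = Fintype.card τ := ⟨_, rfl⟩
  have hs0 : 0 ≤ s := by rw [hs]; exact Nat.cast_nonneg _
  obtain ⟨c1, B, w1, hc1, hw12, hWlow⟩ := W_low c
  -- the choice of `w`
  obtain ⟨A, hA⟩ := exists_nat_ge (4 * (76 * (s * Λ2 + s ^ 2 * (Λ * Λ2)) + 1) * ((K : ℝ) * c ^ 2 + 1) +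
    (((R + 1) * c : ℕ) : ℝ) ^ 2)
  obtain ⟨w, hw0, hw2, hAw, hAw'⟩ := exists_w A B 2 c1 η hc1 hη (max w1 (2 * ((R + 1) * c)))
  have hww1 : w1 ≤ w := (le_max_left _ _).trans hw0
  have hwc : 2 * ((R + 1) * c) ≤ w := (le_max_right _ _).trans hw0
  have hwr : (0 : ℝ) < w := by exact_mod_cast (by omega : 0 < w)
  have hw1 : 1 ≤ w := by omega
  have hlogw : 0 < Real.log w := Real.log_pos (by exact_mod_cast (by omega : 1 < w))
  obtain ⟨W0, hW0e⟩ : ∃ W0 : ℝ, W0 = min (c1 / Real.log w ^ B) 1 := ⟨_, rfl⟩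
  have hW0 : 0 < W0 := by rw [hW0e]; positivity
  have hW01 : W0 ≤ 1 := by rw [hW0e]; exact min_le_right _ _
  have hW0' : ∀ Q : ℕ → ℕ → Prop, PerB Q c → (∀ p : ℕ, p.Prime → nuB Q p < p) → W0 ≤ Vq Q w := by
    intro Q hQ hadm
    rw [hW0e]
    exact (min_le_left _ _).trans (hWlow w hww1 Q hQ hadm)
  have hAW : (A : ℝ) / w ≤ η * W0 ^ 2 := by
    rcases le_total (c1 / Real.log w ^ B) 1 with h | h
    · rw [hW0e, min_eq_left h]
      exact hAw
    · rw [hW0e, min_eq_right h, one_pow, mul_one]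
      exact hAw'
  obtain ⟨ηa, hηa⟩ : ∃ ηa : ℝ, ηa = ((K : ℝ) * c ^ 2 + 1) / w := ⟨_, rfl⟩
  have hηa0 : 0 < ηa := by rw [hηa]; positivity
  have hKc0 : (0 : ℝ) ≤ (K : ℝ) * c ^ 2 := by positivity
  have hsΛ : 0 ≤ s * Λ2 + s ^ 2 * (Λ * Λ2) := by positivity
  have hAηa : 4 * (76 * (s * Λ2 + s ^ 2 * (Λ * Λ2)) + 1) * ηa ≤ η * W0 ^ 2 := by
    refine le_trans ?_ hAW
    rw [hηa, ← mul_div_assoc]
    apply div_le_div_of_nonneg_right _ hwr.le
    have : (0 : ℝ) ≤ (((R + 1) * c : ℕ) : ℝ) ^ 2 := by positivity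
    linarith
  have hE1 : (((R + 1) * c : ℕ) : ℝ) ^ 2 / w ≤ η := by
    refine le_trans ?_ hAw'
    apply div_le_div_of_nonneg_right _ hwr.le
    refine le_trans ?_ hA
    have : 0 ≤ 4 * (76 * (s * Λ2 + s ^ 2 * (Λ * Λ2)) + 1) * ((K : ℝ) * c ^ 2 + 1) := by positivity
    linarith
  have hW0sq : W0 ^ 2 ≤ 1 := pow_le_one₀ hW0.le hW01
  have hηa1 : ηa ≤ 1 := by
    have h1 : 4 * 1 * ηa ≤ 4 * (76 * (s * Λ2 + s ^ 2 * (Λ * Λ2)) + 1) * ηa := by
      apply mul_le_mul_of_nonneg_right _ hηa0.le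
      linarith
    nlinarith
  -- the averages
  obtain ⟨Ta, hTa2, havg⟩ := avg_FG K c w hw1 ηa hηa0 hηa1 (by
    rw [hηa]
    apply div_le_div_of_nonneg_right _ hwr.le
    push_cast
    linarith)
  obtain ⟨C, Bl, Tb, hC, hTb2, hone⟩ := one_FG K
  obtain ⟨δ, hδ⟩ : ∃ δ : ℝ, δ = η * W0 ^ 2 / (4 * (s ^ 2 * (Λ * Λ2) + 1)) := ⟨_, rfl⟩
  have hδ0 : 0 < δ := by rw [hδ]; positivity
  obtain ⟨Tc, hTc2, hlogT⟩ := log_T C Bl δ hC hδ0
  obtain ⟨Tm, hTm⟩ : ∃ Tm, Tm = max Ta (max Tb Tc) := ⟨_, rfl⟩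
  obtain ⟨η', hη'⟩ : ∃ η' : ℝ, η' = ηa / (K + 1) := ⟨_, rfl⟩
  have hη'0 : 0 < η' := by rw [hη']; positivity
  have hKη : K * η' ≤ ηa := by
    rw [hη', mul_div_assoc', div_le_iff₀ (by positivity)]
    nlinarith
  have hMr1 : (1 : ℝ) ≤ Mw w := by exact_mod_cast Mw_pos w
  obtain ⟨κ, hκ, hκ1, hκ2, hκ3, hκ4, hκ5⟩ := exists_kappa η W0 (Mw w) s M Λ hη hη1 hW0 hW01 hMr1 hs0
    (Nat.cast_nonneg _) hΛ
  obtain ⟨K0, x0, hK0, hlaw⟩ := hglob w hw1
  refine ⟨R, w, K0, max x0 w, Tm, η', κ, hw1, hK0, hη'0, hκ, ?_⟩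
  intro P0 Q X y Y u v hP0 hQ hadm0 hadm hy hyY hVκ huv hvΛ hXM hXd hrh hsize hPH A
  have hwy : w ≤ y := (le_max_right _ _).trans hy
  have hxy : x0 ≤ y := (le_max_left _ _).trans hy
  have hVt : ∀ t, Vt (Q t) w y ≤ Vq (Q t) y / W0 := fun t =>
    Vt_le_div (Q t) w y hwy W0 hW0 (hW0' (Q t) (hQ t) (hadm t))
  have hVtκ : ∀ t, Vt (Q t) w y ≤ κ / W0 := fun t =>
    (hVt t).trans (div_le_div_of_nonneg_right (hVκ t) hW0.le)
  have hVt0 : ∀ t, 0 ≤ Vt (Q t) w y := fun t => Vt_nonneg (Q t) w y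
  have hvt : ∀ t, v t * Vt (Q t) w y ≤ Λ / W0 := by
    intro t
    calc v t * Vt (Q t) w y ≤ v t * (Vq (Q t) y / W0) := mul_le_mul_of_nonneg_left (hVt t) (Nat.cast_nonneg _)
      _ = (v t * Vq (Q t) y) / W0 := by ring
      _ ≤ Λ / W0 := div_le_div_of_nonneg_right (hvΛ t) hW0.le
  have hper : ∀ i, PerB (Es P0 Q i) c := by
    intro i
    rcases i with _ | ⟨t, b⟩
    · exact hP0
    · exact perB_Qt (Q t) c (hQ t) b
  -- the pair sum
  have hpair := pair_bound K c w ηa hηa0.le Tm (by omega)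
    (fun T hT => havg T (by omega)) C Bl hC (fun T hT => hone T (by omega)) δ hδ0.le
    (fun T hT => hlogT T (by omega)) P0 Q hP0 hQ X y hwy u v W0 Λ Λ2 hW0 hΛ hΛ2
    (fun t => hW0' (Q t) (hQ t) (hadm t)) hvΛ η' hη'0.le hKη (hKη.trans hηa1) hPH
  rw [← hs] at hpair
  have hpair2 : 2 * (s * (38 * ηa * (Λ2 / W0))) + s ^ 2 * ((Λ / W0) * ((76 * ηa + δ) * (Λ2 / W0))) ≤ η := by
    have e1 : 2 * (s * (38 * ηa * (Λ2 / W0))) = 76 * (s * Λ2) * ηa * W0 / W0 ^ 2 := by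
      field_simp
      ring
    have e2 : s ^ 2 * ((Λ / W0) * ((76 * ηa + δ) * (Λ2 / W0))) =
        (76 * (s ^ 2 * (Λ * Λ2)) * ηa + s ^ 2 * (Λ * Λ2) * δ) / W0 ^ 2 := by
      field_simp
    rw [e1, e2, ← add_div, div_le_iff₀ (by positivity)]
    have h1 : 76 * (s * Λ2) * ηa * W0 ≤ 76 * (s * Λ2) * ηa * 1 := mul_le_mul_of_nonneg_left hW01 (by positivity)
    have h2 : s ^ 2 * (Λ * Λ2) * δ ≤ η * W0 ^ 2 / 4 := by
      rw [hδ, ← mul_div_assoc, div_le_div_iff₀ (by positivity) (by norm_num)]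
      have : 0 ≤ η * W0 ^ 2 := by positivity
      nlinarith
    have h3 : 0 ≤ η * W0 ^ 2 := by positivity
    nlinarith
  have hgd : GData (Es P0 Q) c none w y Y (Ix u v) (Ex X) R η (fun t => ((v t : ℝ) - u t) * Vq (Q t) y) := by
    refine ⟨hper, hadm0, none_notMem u v, fun t s hts => Ix_disj u v t s hts, ?_, ?_, ?_, ?_, ?_, ?_, ?_,
      hwc, hw1, hE1⟩
    · -- the sizes
      have h1 : (((Al (Ix u v)).card : ℝ) + 1) ^ R ≤ (((∑ t, v t : ℕ) : ℝ) + 1) ^ R := by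
        apply pow_le_pow_left₀ (by positivity)
        have : ((Al (Ix u v)).card : ℝ) ≤ ((∑ t, v t : ℕ) : ℝ) := by exact_mod_cast card_Al u v
        linarith
      have hM0 : (0 : ℝ) < Mw w := by linarith
      have hVP : Vq P0 y ≤ Vt P0 w y := by
        rw [Vq_split P0 w y hwy]
        have h2 := Vq_le_one' P0 w
        have h3 := Vt_nonneg P0 w y
        nlinarith
      calc (((Al (Ix u v)).card : ℝ) + 1) ^ R * √(Y : ℝ) ≤ (((∑ t, v t : ℕ) : ℝ) + 1) ^ R * √(Y : ℝ) :=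
            mul_le_mul_of_nonneg_right h1 (Real.sqrt_nonneg _)
        _ ≤ κ * (Y * Vq P0 y) := hsize
        _ ≤ η / (16 * Mw w) * (Y * Vt P0 w y) := by
            apply mul_le_mul hκ3 _ (mul_nonneg (Nat.cast_nonneg _) (Vq_nonneg P0 y)) (by positivity)
            exact mul_le_mul_of_nonneg_left hVP (Nat.cast_nonneg _)
        _ = η / 16 * (Y / Mw w * Vt P0 w y) := by
            field_simp
    · intro i hi
      unfold Al at hi
      rw [mem_biUnion] at hi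
      obtain ⟨t, _, hi⟩ := hi
      unfold Ix at hi
      rw [mem_image] at hi
      obtain ⟨b, _, rfl⟩ := hi
      rw [Vt_some P0 Q c hQ]
      exact (hVtκ t).trans hκ1
    · rw [← hK]
      exact hpair.trans hpair2
    · refine (ex_bound P0 Q X u v M hXM (fun x => Vt (Es P0 Q x.1) w y * Vt (Es P0 Q x.2) w y)
        (fun t _ => Vt (Q t) w y * (κ / W0)) (fun t _ => mul_nonneg (hVt0 t) (by positivity)) ?_
        (Λ / W0 * (κ / W0)) ?_ (by positivity)).trans ?_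
      · intro s' b t b' _
        simp only
        rw [Vt_some P0 Q c hQ, Vt_some P0 Q c hQ]
        exact mul_le_mul_of_nonneg_left (hVtκ t) (hVt0 s')
      · intro s' _
        left
        rw [← mul_assoc]
        exact mul_le_mul_of_nonneg_right (hvt s') (by positivity)
      · rw [← hs]
        exact hκ4
    · choose g hg0 hgv hgr using hrh
      refine (ex_bound P0 Q X u v M hXM (fun x => rh (Es P0 Q) none w y {x.1, x.2})
        g hg0 ?_ κ hgv hκ.le).trans ?_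
      · intro s' b t b' he
        exact hgr s' t b b' he
      · rw [← hs]
        exact hκ5
    · intro i _
      constructor
      · rintro ⟨t, b, t', b', h1, _⟩
        simp at h1
      · rintro ⟨t, b, t', b', h1, _⟩
        simp at h1
    · intro a ha t
      have h1 := win_count (Q t) c (hQ t) w a (u t) (v t) (huv t)
      have e1 : ∑ i ∈ (Ix u v t).filter (fun i => Sf (Es P0 Q i) w a), Vt (Es P0 Q i) w y =
          ((((Ioc (u t) (v t)).filter (fun b => Sf (Q t) w (a + b))).card : ℕ) : ℝ) * Vt (Q t) w y := by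
        rw [Finset.sum_filter, sum_Ix, ← Finset.sum_filter]
        rw [Finset.sum_congr rfl (fun b _ => Vt_some P0 Q c hQ w y t b), Finset.sum_const, nsmul_eq_mul]
        rfl
      rw [e1, Vq_split (Q t) w y hwy]
      have e2 : ((((Ioc (u t) (v t)).filter (fun b => Sf (Q t) w (a + b))).card : ℕ) : ℝ) * Vt (Q t) w y -
          ((v t : ℝ) - u t) * (Vq (Q t) w * Vt (Q t) w y) =
          (((((Ioc (u t) (v t)).filter (fun b => Sf (Q t) w (a + b))).card : ℕ) : ℝ) -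
            ((v t : ℝ) - u t) * Vq (Q t) w) * Vt (Q t) w y := by ring
      rw [e2, abs_mul, abs_of_nonneg (hVt0 t)]
      calc _ ≤ 2 * (Mw w : ℝ) * (κ / W0) := mul_le_mul h1 (hVtκ t) (hVt0 t) (by positivity)
        _ ≤ η := hκ2
  -- the colouring
  obtain ⟨e⟩ : Nonempty (Option (τ × Fin (M + 1)) ≃ Fin Dc) := by
    rw [hDc]
    exact ⟨Fintype.equivFin _⟩
  choose gc hgc using fun t => greedy (X t t) M (hXM t t)
  obtain ⟨col, hcol⟩ : ∃ col : Option (τ × ℕ) → Fin Dc, col = fun i =>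
    e (i.map (fun x => (x.1, gc x.1 x.2))) := ⟨_, rfl⟩
  have h1 := hlaw (Es P0 Q) none y Y (Ix u v) (Ex X) col (fun t => ((v t : ℝ) - u t) * Vq (Q t) y) hwy hxy hyY
    (by
      rintro x ⟨t, b, t', b', rfl, hne, hd⟩ hcc
      rw [hcol] at hcc
      simp only [Option.map_some] at hcc
      have h2 := e.injective hcc
      simp only [Option.some.injEq, Prod.mk.injEq] at h2
      obtain ⟨rfl, h3⟩ := h2
      have hbb : b ≠ b' := fun h => hne (by rw [h])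
      rcases hd with ⟨h4, h5⟩ | ⟨h4, h5⟩
      · exact hgc t b b' (by omega) h5 h3
      · exact hgc t b' b (by omega) h5 h3.symm) hgd (by
      intro t
      apply mul_nonneg _ (Vq_nonneg _ y)
      have : (u t : ℝ) ≤ v t := by exact_mod_cast huv t
      linarith) (by
      intro t
      refine le_trans ?_ (hvΛ t)
      apply mul_le_mul_of_nonneg_right _ (Vq_nonneg _ y)
      have : (0 : ℝ) ≤ u t := Nat.cast_nonneg _
      linarith) A
  have e3 : ∀ n, (fun t => NG (Es P0 Q) y (Ix u v t) n) = fun t => NB (Q t) y (Ioc (u t) (v t)) n := by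
    intro n
    funext t
    unfold NG NB Ix
    rw [Finset.filter_image, Finset.card_image_of_injective]
    · rfl
    · intro b b' hbb
      simp only [Option.some.injEq, Prod.mk.injEq] at hbb
      exact hbb.2
  have e4 : Es P0 Q none = P0 := rfl
  rw [e4] at h1
  simp only [e3] at h1
  exact h1

end Pool.Agent.Q236.UL
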