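import Pool.Agent.Q236.UL.Trace

set_option autoImplicit false

/-!
# Consecutive points of several types, from the occupation of the cells
-/

namespace Pool.Agent.Q236.UL

open Finset

variable {σ : Type*} [Fintype σ] [DecidableEq σ]

/-- points of some type -/
def AnyT (G : σ → ℕ → Prop) (m : ℕ) : Prop := ∃ s, G s m

open Classical in
/-- the trace of the occupation of the cells -/
lemma traceS (G : σ → ℕ → Prop) (m0 Δ : ℕ) (c : ℕ → σ → ℕ)
    (hc : ∀ i s, c i s = ((Ioc (i * Δ) ((i + 1) * Δ)).filter (fun b => G s (m0 + b))).card) :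
    ∀ (l : List (ℕ × σ)) (i m : ℕ), m ≤ m0 + i * Δ → m0 + i * Δ ≤ m + Δ →
      (∀ t, m < t → AnyT G t → m0 + i * Δ < t) → Ev c i l → ∃ g : ℕ → ℕ, g 0 = m ∧ ∀ (j : ℕ) (hj : j < l.length),
        Nx (AnyT G) (g j) (g (j + 1)) ∧ (∀ s, G s (g (j + 1)) ↔ s = (l[j]).2) ∧
        g j + (l[j]).1 * Δ < g (j + 1) ∧ g (j + 1) ≤ g j + ((l[j]).1 + 2) * Δ := by
  intro l
  induction l with
  | nil =>
    intro i m _ _ _ _
    exact ⟨fun _ => m, rfl, fun j hj => absurd hj (Nat.not_lt_zero _)⟩
  | cons x l ih =>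
    intro i m hm1 hm2 hinv hEv
    obtain ⟨h1, h2, h3⟩ := hEv
    have h4 := h2 x.2
    rw [if_pos rfl, hc, card_eq_one] at h4
    obtain ⟨b', hb'⟩ := h4
    have hb'm : b' ∈ (Ioc ((i + x.1) * Δ) ((i + x.1 + 1) * Δ)).filter (fun b => G x.2 (m0 + b)) := by
      rw [hb']
      exact mem_singleton_self _
    rw [mem_filter, mem_Ioc] at hb'm
    obtain ⟨⟨hb'1, hb'2⟩, hb'S⟩ := hb'm
    have e1 : (i + x.1) * Δ = i * Δ + x.1 * Δ := by ring
    have e2 : (i + x.1 + 1) * Δ = i * Δ + x.1 * Δ + Δ := by ring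
    have e3 : (x.1 + 2) * Δ = x.1 * Δ + Δ + Δ := by ring
    rw [e1] at hb'1
    rw [e2] at hb'2
    have hcell : ∀ t, m < t → AnyT G t → t ≤ m0 + (i + x.1 + 1) * Δ → t = m0 + b' ∧ ∀ s, G s t → s = x.2 := by
      intro t ht1 ht2 ht3
      have ht4 := hinv t ht1 ht2
      obtain ⟨bt, hbt⟩ : ∃ bt, bt = t - m0 := ⟨_, rfl⟩
      have htb : t = m0 + bt := by omega
      have hbt1 : i * Δ < bt := by omega
      have hbt2 : bt ≤ (i + x.1 + 1) * Δ := by omega
      by_cases hlast : (i + x.1) * Δ < bt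
      · have hall : ∀ s, G s t → s = x.2 := by
          intro s hs
          by_contra hne
          have h6 := h2 s
          rw [hc, if_neg hne, card_eq_zero] at h6
          have h7 : bt ∈ (Ioc ((i + x.1) * Δ) ((i + x.1 + 1) * Δ)).filter (fun b => G s (m0 + b)) := by
            rw [mem_filter, mem_Ioc, ← htb]
            exact ⟨⟨hlast, hbt2⟩, hs⟩
          rw [h6] at h7
          exact absurd h7 (notMem_empty _)
        obtain ⟨s, hs⟩ := ht2
        have hsx := hall s hs
        rw [hsx] at hs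
        have h5 : bt ∈ (Ioc ((i + x.1) * Δ) ((i + x.1 + 1) * Δ)).filter (fun b => G x.2 (m0 + b)) := by
          rw [mem_filter, mem_Ioc, ← htb]
          exact ⟨⟨hlast, hbt2⟩, hs⟩
        rw [hb', mem_singleton] at h5
        exact ⟨by rw [htb, h5], hall⟩
      · rw [not_lt, e1] at hlast
        exfalso
        have hΔ : 1 ≤ Δ := by
          by_contra hcon
          have : Δ = 0 := by omega
          subst this
          simp at hbt2
          omega
        obtain ⟨k, hk⟩ : ∃ k, k = (bt - i * Δ - 1) / Δ := ⟨_, rfl⟩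
        have h5 := Nat.div_add_mod (bt - i * Δ - 1) Δ
        have h6 := Nat.mod_lt (bt - i * Δ - 1) (by omega : 0 < Δ)
        rw [← hk] at h5
        have e4 : (i + k) * Δ = i * Δ + Δ * k := by ring
        have e5 : (i + k + 1) * Δ = i * Δ + Δ * k + Δ := by ring
        have hkx : k < x.1 := by
          by_contra hcon
          have h7 : Δ * x.1 ≤ Δ * k := Nat.mul_le_mul_left Δ (not_lt.1 hcon)
          have h8 : Δ * x.1 = x.1 * Δ := mul_comm _ _
          omega
        obtain ⟨s, hs⟩ := ht2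
        have h7 : bt ∈ (Ioc ((i + k) * Δ) ((i + k + 1) * Δ)).filter (fun b => G s (m0 + b)) := by
          rw [mem_filter, mem_Ioc, e4, e5, ← htb]
          exact ⟨⟨by omega, by omega⟩, hs⟩
        have h8 := h1 k hkx s
        rw [hc, card_eq_zero] at h8
        rw [h8] at h7
        exact absurd h7 (notMem_empty _)
    have hm'0 : m < m0 + b' := by omega
    have hm'cell : m0 + b' ≤ m0 + (i + x.1 + 1) * Δ := by omega
    have hany : AnyT G (m0 + b') := ⟨x.2, hb'S⟩
    have hNx : Nx (AnyT G) m (m0 + b') := by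
      refine ⟨hm'0, hany, ?_⟩
      intro t ht1 ht2 ht3
      have := (hcell t ht1 ht3 (by omega)).1
      omega
    obtain ⟨g, hg0, hg⟩ := ih (i + x.1 + 1) (m0 + b') (by omega) (by omega) (by
        intro t ht1 ht2
        by_contra hcon
        have := (hcell t (by omega) ht2 (by omega)).1
        omega) h3
    refine ⟨fun j => if j = 0 then m else g (j - 1), by simp, ?_⟩
    intro j hj
    rcases j with _ | j
    · simp only [if_true, Nat.zero_add, one_ne_zero, if_false, Nat.sub_self, List.getElem_cons_zero]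
      rw [hg0]
      refine ⟨hNx, ?_, by omega, by omega⟩
      intro s
      constructor
      · exact (hcell _ hm'0 hany hm'cell).2 s
      · rintro rfl
        exact hb'S
    · have h5 := hg j (by simpa using hj)
      simp only [Nat.add_one_ne_zero, if_false, Nat.add_sub_cancel, List.getElem_cons_succ]
      exact h5

/-- the next points after `m` exist, are of the prescribed types, and the gaps are larger than prescribed -/
def FollowT (G : σ → ℕ → Prop) {J : ℕ} (a : Fin J → σ) (T : Fin J → ℕ) (m : ℕ) : Prop :=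
  ∃ g : ℕ → ℕ, g 0 = m ∧ ∀ j : Fin J, Nx (AnyT G) (g j) (g (j + 1)) ∧ G (a j) (g (j + 1)) ∧ g j + T j < g (j + 1)

open Classical in
lemma followT_low (G : σ → ℕ → Prop) (m0 Δ : ℕ) (c : ℕ → σ → ℕ)
    (hc : ∀ i s, c i s = ((Ioc (i * Δ) ((i + 1) * Δ)).filter (fun b => G s (m0 + b))).card)
    {J : ℕ} (a : Fin J → σ) (T : Fin J → ℕ) (d : Fin J → ℕ) (hd : ∀ j, T j ≤ d j * Δ)
    (hEv : Ev c 0 (lst d a)) : FollowT G a T m0 := by
  obtain ⟨g, hg0, hg⟩ := traceS G m0 Δ c hc (lst d a) 0 m0 (by simp) (by simp) (by intro t ht _; simpa using ht) hEv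
  refine ⟨g, hg0, ?_⟩
  intro j
  obtain ⟨h1, h2, h3, _⟩ := hg j (by rw [lst_length]; exact j.isLt)
  have e : (lst d a)[(j : ℕ)]'(by rw [lst_length]; exact j.isLt) = (d j, a j) := by
    unfold lst
    rw [List.getElem_ofFn]
  rw [e] at h2 h3
  refine ⟨h1, (h2 (a j)).2 rfl, ?_⟩
  have := hd j
  simp only at h3
  omega

open Classical in
lemma followT_up (G : σ → ℕ → Prop) (m0 Δ : ℕ) (c : ℕ → σ → ℕ)
    (hc : ∀ i s, c i s = ((Ioc (i * Δ) ((i + 1) * Δ)).filter (fun b => G s (m0 + b))).card)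
    {J : ℕ} (a a' : Fin J → σ) (T : Fin J → ℕ) (d : Fin J → ℕ)
    (hd : a' ≠ a ∨ ∃ j, (d j + 2) * Δ ≤ T j) (hEv : Ev c 0 (lst d a')) : ¬ FollowT G a T m0 := by
  rintro ⟨g', hg'0, hg'⟩
  obtain ⟨g, hg0, hg⟩ := traceS G m0 Δ c hc (lst d a') 0 m0 (by simp) (by simp) (by intro t ht _; simpa using ht) hEv
  have hgg : ∀ j : ℕ, j ≤ J → g j = g' j := by
    intro j
    induction j with
    | zero =>
      intro _
      rw [hg0, hg'0]
    | succ j ih =>
      intro hj
      have h1 := (hg j (by rw [lst_length]; omega)).1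
      have h2 := (hg' ⟨j, by omega⟩).1
      rw [ih (by omega)] at h1
      exact Nx_unique h1 h2
  have hall : ∀ j : Fin J, a' j = a j ∧ T j < (d j + 2) * Δ := by
    intro j
    obtain ⟨h1, h2, _, h4⟩ := hg j (by rw [lst_length]; exact j.isLt)
    obtain ⟨k1, k2, k3⟩ := hg' j
    have e : (lst d a')[(j : ℕ)]'(by rw [lst_length]; exact j.isLt) = (d j, a' j) := by
      unfold lst
      rw [List.getElem_ofFn]
    rw [e] at h2 h4
    simp only at h2 h4
    rw [← hgg j j.isLt.le, ← hgg (j + 1) j.isLt] at k3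
    rw [← hgg (j + 1) j.isLt] at k2
    exact ⟨((h2 _).1 k2).symm, by omega⟩
  rcases hd with h | ⟨j, hj⟩
  · exact h (funext fun j => (hall j).1)
  · have := (hall j).2
    omega

/-- starting a little later -/
lemma followT_shift (G : σ → ℕ → Prop) {J : ℕ} (a : Fin J → σ) (T : Fin J → ℕ) (m M : ℕ)
    (hfree : ∀ t, m < t → t ≤ m + M → ¬ AnyT G t) :
    FollowT G a T m ↔ FollowT G a (fun j => if (j : ℕ) = 0 then T j - M else T j) (m + M) := by
  constructor
  · rintro ⟨g, hg0, hg⟩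
    refine ⟨fun j => if j = 0 then m + M else g j, by simp, ?_⟩
    intro j
    obtain ⟨h1, h2, h3⟩ := hg j
    by_cases hj : (j : ℕ) = 0
    · simp only [hj, if_true, Nat.zero_add, one_ne_zero, if_false] at h1 h2 h3 ⊢
      rw [hg0] at h1 h3
      have h4 : m + M < g 1 := by
        by_contra hcon
        exact hfree (g 1) h1.1 (not_lt.1 hcon) h1.2.1
      exact ⟨⟨h4, h1.2.1, fun c hc1 hc2 => h1.2.2 c (by omega) hc2⟩, h2, by omega⟩
    · simp only [hj, if_false, Nat.add_one_ne_zero]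
      exact ⟨h1, h2, h3⟩
  · rintro ⟨g, hg0, hg⟩
    refine ⟨fun j => if j = 0 then m else g j, by simp, ?_⟩
    intro j
    obtain ⟨h1, h2, h3⟩ := hg j
    by_cases hj : (j : ℕ) = 0
    · simp only [hj, if_true, Nat.zero_add, one_ne_zero, if_false] at h1 h2 h3 ⊢
      rw [hg0] at h1 h3
      refine ⟨⟨by have := h1.1; omega, h1.2.1, fun c hc1 hc2 hc3 => ?_⟩, h2, by have := h1.1; omega⟩
      by_cases hcM : c ≤ m + M
      · exact hfree c hc1 hcM hc3
      · exact h1.2.2 c (by omega) hc2 hc3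
    · simp only [hj, if_false, Nat.add_one_ne_zero] at h3 ⊢
      exact ⟨h1, h2, h3⟩

end Pool.Agent.Q236.UL
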