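import Pool.Agent.Q236.UL.Resz

set_option autoImplicit false

/-!
# The joint Poisson law for several systems of polynomials
-/

namespace Pool.Agent.Q236.UL

open Polynomial Finset Filter
open Pool.Agent.W123.RP Pool.Agent.H373R2.T7 Pool.Agent.W123.RU Pool.Agent.W123.RU.Poly
open Pool.Agent.TH464.PW Pool.Agent.TH464.PO Pool.Agent.Y879.GL Pool.Agent.Q236.CP Pool.Agent.Q236.GW

variable {τ : Type*} [Fintype τ] [DecidableEq τ]

/-- a family of systems without coincidences -/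
structure USF {ι : Type*} (k D : ℕ) (H U : ℝ) (F : ι → Fin k → ℤ[X]) : Prop where
  bd : ∀ t, Bd D H (F t)
  adm : ∀ t, ∀ p : ℕ, p.Prime → ∃ m : ℕ, ∀ i, ¬ (p : ℤ) ∣ (F t i).eval (m : ℤ)
  tr : ∀ s t i j, ∀ h : ℕ, (h : ℝ) ≤ U → (s = t → 1 ≤ h) →
    ¬ Associated (F s i) ((F t j).comp (X + C (h : ℤ)))

lemma usf_us {ι : Type*} {k D : ℕ} {H U : ℝ} {F : ι → Fin k → ℤ[X]} (h : USF k D H U F) (t : ι) :
    US k D H U (F t) where
  irr := (h.bd t).irr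
  deg := (h.bd t).deg
  degD := (h.bd t).degD
  hgt := (h.bd t).hgt
  adm := h.adm t
  tr i j s hs hsU := h.tr t t i j s hsU (fun _ => hs)

lemma perB_false (c : ℕ) : PerB (fun _ _ => False) c := by
  refine ⟨fun p n => Iff.rfl, ?_⟩
  intro p hp
  unfold nuB
  simp

lemma nuB_false (p : ℕ) : nuB (fun _ _ => False) p = 0 := by
  unfold nuB
  simp

lemma OmY_false (y Z Y : ℕ) : OmY (fun _ _ => False) y Z Y = Ioc Z (Z + Y) := by
  classical
  unfold OmY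
  apply Finset.filter_true_of_mem
  intro n _ p _ h
  exact h

open Classical in
/-- **The joint Poisson law for several systems of polynomials.** -/
theorem fam_law {ι : Type*} (k D : ℕ) (Λ ε : ℝ) (hΛ : 0 ≤ Λ) (hε : 0 < ε) (E δ θ : ℝ) (hE : 0 < E) (hδ : 0 < δ)
    (hθ : 0 < θ) : ∃ r0 : ℕ, 2 ≤ r0 ∧ ∀ r : ℕ, r0 ≤ r → ∀ Cv : ℝ, 0 < Cv → ∀ᶠ X : ℕ in atTop,
      ∀ F : ι → Fin k → ℤ[X], USF k D ((X : ℝ) ^ E) ((X : ℝ) ^ δ) F →
      (∀ t, Vq (Q (F t)) X ≤ Cv / Real.log X) → ∀ Z Y : ℕ, (X : ℝ) ^ θ ≤ Y →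
      ∀ (σ : τ → ι) (u v : τ → ℕ), (∀ t, u t ≤ v t) →
      (∀ t, v t * Vq (Q (F (σ t))) ⌊(X : ℝ) ^ (1 / (r : ℝ))⌋₊ ≤ Λ) →
      (∀ s t, s ≠ t → σ s = σ t → Disjoint (Ioc (u s) (v s)) (Ioc (u t) (v t))) →
      ∀ A : Finset (τ → ℕ), |(((Ioc Z (Z + Y)).filter
        (fun n => (fun t => NB (Q (F (σ t))) ⌊(X : ℝ) ^ (1 / (r : ℝ))⌋₊ (Ioc (u t) (v t)) n) ∈ A)).card : ℝ) -
        Y * PoJ (fun t => ((v t : ℝ) - u t) * Vq (Q (F (σ t))) ⌊(X : ℝ) ^ (1 / (r : ℝ))⌋₊) A| ≤ ε * Y := by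
  obtain ⟨A, hA, hres⟩ := resz k D E δ hE hδ
  obtain ⟨w, κ, r0, _, hκ, hr0, hlaw⟩ := gen_law (τ := τ) (k * D + 1) 0 Λ ε hΛ hε A δ θ hA hδ hθ
  refine ⟨r0, hr0, ?_⟩
  intro r hr Cv hCv
  have hr2 : 2 ≤ r := hr0.trans hr
  obtain ⟨C, hC, hlev⟩ := Vq_level (k * D + 1) r hr2
  filter_upwards [hlaw r hr (C * Cv) (by positivity), hlev, hres, eventually_ge_atTop 1] with X hX hlX hresX hX1
  intro F hF hV Z Y hY σ u v huv hvΛ hdis A'
  have hXr : (1 : ℝ) ≤ X := by exact_mod_cast hX1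
  have hX0 : (0 : ℝ) < X := by linarith
  have hXA : 1 ≤ (X : ℝ) ^ A := Real.one_le_rpow hXr hA.le
  have h1 := hX (fun _ _ => False) (fun t => Q (F (σ t))) (fun _ _ => ∅) u v Z Y (perB_false _)
    (fun t => us_perB (usf_us hF (σ t))) (fun p hp => by rw [nuB_false]; exact hp.pos)
    (fun t => us_adm (usf_us hF (σ t))) (fun t => by
      refine (hlX (Q (F (σ t))) (us_perB (usf_us hF (σ t))) (us_adm (usf_us hF (σ t)))).2.trans ?_
      rw [mul_div_assoc]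
      exact mul_le_mul_of_nonneg_left (hV (σ t)) hC.le) huv hvΛ (fun _ _ => by simp) (fun _ d hd => by simp at hd)
    (fun s t => ⟨0, le_rfl, Or.inl (by rw [mul_zero]; exact hκ.le), fun b b' he => by
      exfalso
      rw [ex_iff] at he
      rcases he.2 with h | h
      · simp at h
      · simp at h⟩) ⟨?_, ?_⟩ hY A'
  · rw [OmY_false] at h1
    rw [Nat.card_Ioc, Nat.add_sub_cancel_left] at h1
    exact h1
  · intro t d _ _
    refine ⟨1, one_pos, by push_cast; exact hXA, ?_⟩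
    rintro p _ _ ⟨m, h2, _⟩
    exact absurd h2 id
  · intro s t d hd _ hor
    obtain ⟨R, hR0, hRA, hRd⟩ := hresX (F (σ s)) (F (σ t)) (hF.bd _) (hF.bd _) (d : ℤ) (by
        rw [abs_of_nonneg (by positivity)]
        push_cast
        exact hd) (fun i j => by
        apply hF.tr (σ s) (σ t) i j d hd
        intro hst
        rcases hor with h2 | ⟨h2, h3⟩
        · exact h2
        · exact absurd (hdis s t h2 hst) h3)
    refine ⟨R, hR0, hRA, ?_⟩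
    rintro p _ _ ⟨m, h2, h3⟩
    exact hRd p (m : ℤ) h2 (by
      obtain ⟨j, hj⟩ := h3
      exact ⟨j, by push_cast at hj; exact hj⟩)

end Pool.Agent.Q236.UL
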