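import Pool.Agent.Q236.UL.ClsAbs
import Pool.Agent.Y879.GL.Linear

set_option autoImplicit false

/-!
# The pairs `n, n + 2`
-/

namespace Pool.Agent.Q236.UL

open Polynomial Finset Filter
open Pool.Agent.W123.RP Pool.Agent.H373R2.T7 Pool.Agent.W123.RU Pool.Agent.W123.RU.Poly
open Pool.Agent.TH464.PW Pool.Agent.TH464.PO Pool.Agent.Y879.GL Pool.Agent.Q236.CP Pool.Agent.Q236.GW

/-- the forms `6 x - 1`, `6 x + 1` -/
noncomputable def tw : Fin 2 → ℤ[X] := fun i => lf 6 (if i = 0 then -1 else 1)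

lemma tw_adm (p : ℕ) (hp : p.Prime) : ∃ m : ℕ, ∀ i, ¬ (p : ℤ) ∣ (tw i).eval (m : ℤ) := by
  refine ⟨0, fun i hd => ?_⟩
  unfold tw at hd
  rw [lf_eval] at hd
  have h1 : (p : ℤ) ∣ 1 := by
    split_ifs at hd
    · have : (p : ℤ) ∣ -1 := by simpa using hd
      exact (dvd_neg.1 this)
    · simpa using hd
  exact hp.one_lt.ne' (Nat.dvd_one.1 (by exact_mod_cast h1))

lemma tw_sys : Sys tw := by
  refine ⟨fun i => ?_, fun i => ?_, fun i => ?_, ?_, tw_adm⟩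
  · unfold tw
    apply lf_irr _ _ (by norm_num)
    split_ifs
    · exact ⟨0, -1, by norm_num⟩
    · exact ⟨0, 1, by norm_num⟩
  · unfold tw
    rw [lf_deg _ _ (by norm_num)]
    norm_num
  · unfold tw
    rw [Polynomial.leadingCoeff, lf_deg _ _ (by norm_num), lf_coeff]
    norm_num
  · intro i j h
    unfold tw at h
    have h1 := (lf_inj _ _ _ _ h).2
    fin_cases i <;> fin_cases j <;> simp_all

lemma tw_us (H U : ℝ) (hH : 6 ≤ H) : US 2 1 H U tw := by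
  refine us_lf 2 (fun _ => 6) (fun i => if i = 0 then -1 else 1) H U (fun _ => by norm_num) (fun i => ?_)
    (fun i => ?_) (fun i => ?_) (fun p hp => ?_) (fun i j t ht _ => ?_)
  · split_ifs
    · exact ⟨0, -1, by norm_num⟩
    · exact ⟨0, 1, by norm_num⟩
  · rw [abs_of_pos (by norm_num)]
    push_cast
    linarith
  · split_ifs
    · push_cast
      rw [abs_neg, abs_one]
      linarith
    · push_cast
      rw [abs_one]
      linarith
  · obtain ⟨m, hm⟩ := tw_adm p hp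
    refine ⟨m, fun i => ?_⟩
    have := hm i
    unfold tw at this
    rw [lf_eval] at this
    exact this
  · constructor
    · rintro ⟨_, h⟩
      split_ifs at h <;> omega
    · rintro ⟨h, _⟩
      omega

/-- no prime `≤ y` divides `n (n + 2)` -/
def TG (y n : ℕ) : Prop := ∀ p : ℕ, p.Prime → p ≤ y → ¬ p ∣ n ∧ ¬ p ∣ n + 2

lemma tg_mod (y n : ℕ) (hy : 3 ≤ y) (h : TG y n) : n % 6 = 5 := by
  have h2 := (h 2 Nat.prime_two (by omega)).1
  obtain ⟨h3, h4⟩ := h 3 Nat.prime_three hy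
  have h5 : n % 2 = 1 := by omega
  have h6 : n % 3 = 2 := by omega
  omega

lemma tg_sf (y m : ℕ) (hm : 1 ≤ m) : TG y (6 * m - 1) ↔ Sf (Q tw) y m := by
  have e1 : ((6 * m - 1 : ℕ) : ℤ) = 6 * m + -1 := by
    rw [Nat.cast_sub (by omega)]
    push_cast
    ring
  have e2 : ((6 * m - 1 + 2 : ℕ) : ℤ) = 6 * m + 1 := by
    have : 6 * m - 1 + 2 = 6 * m + 1 := by omega
    rw [this]
    push_cast
    ring
  constructor
  · rintro h p hp ⟨i, hi⟩
    have h1 := h p (mem_pz.1 hp).2 (mem_pz.1 hp).1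
    unfold tw at hi
    rw [lf_eval] at hi
    split_ifs at hi
    · rw [← e1] at hi
      exact h1.1 (by exact_mod_cast hi)
    · rw [← e2] at hi
      exact h1.2 (by exact_mod_cast hi)
  · intro h p hp hpy
    have h1 := h p (mem_pz.2 ⟨hpy, hp⟩)
    constructor
    · intro hd
      apply h1
      refine ⟨0, ?_⟩
      unfold tw
      rw [lf_eval, if_pos rfl, ← e1]
      exact_mod_cast hd
    · intro hd
      apply h1
      refine ⟨1, ?_⟩
      unfold tw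
      rw [lf_eval, if_neg (by norm_num), ← e2]
      exact_mod_cast hd

/-- consecutive pairs -/
lemma nx_tg (y m m' : ℕ) (hy : 3 ≤ y) (hm : 1 ≤ m) (hm' : 1 ≤ m') :
    Nx (TG y) (6 * m - 1) (6 * m' - 1) ↔ Nx (Sf (Q tw) y) m m' := by
  unfold Nx
  rw [tg_sf y m' hm']
  constructor
  · rintro ⟨h1, h2, h3⟩
    refine ⟨by omega, h2, fun c hc1 hc2 hc3 => ?_⟩
    exact h3 (6 * c - 1) (by omega) (by omega) ((tg_sf y c (by omega)).2 hc3)
  · rintro ⟨h1, h2, h3⟩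
    refine ⟨by omega, h2, fun c hc1 hc2 hc3 => ?_⟩
    have h4 := tg_mod y c hy hc3
    obtain ⟨b, hb⟩ : ∃ b, c = 6 * b - 1 ∧ 1 ≤ b := ⟨(c + 1) / 6, by omega, by omega⟩
    exact h3 b (by omega) (by omega) ((tg_sf y b hb.2).1 (by rw [← hb.1]; exact hc3))

/-- the class of `m` modulo `2` -/
def cl (a : ℕ) : ℕ := if a = 1 then 1 else 0

lemma cl_iff (a m : ℕ) (ha : a = 1 ∨ a = 3) (hm : 1 ≤ m) : 6 * m - 1 ≡ a [MOD 4] ↔ m ≡ cl a [MOD 2] := by
  unfold cl Nat.ModEq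
  rcases ha with rfl | rfl
  · rw [if_pos rfl]
    omega
  · rw [if_neg (by norm_num)]
    omega

lemma follow_tg (y m : ℕ) (hy : 3 ≤ y) (hm : 1 ≤ m) {J : ℕ} (a : Fin J → ℕ) (ha : ∀ j, a j = 1 ∨ a j = 3) :
    Follow (TG y) 4 a (fun _ => 0) (6 * m - 1) ↔ Follow (Sf (Q tw) y) 2 (fun j => cl (a j)) (fun _ => 0) m := by
  constructor
  · rintro ⟨g, hg0, hg⟩
    -- all elements of the chain are of the form `6 b - 1`
    have hform : ∀ j : ℕ, j ≤ J → ∃ b, 1 ≤ b ∧ g j = 6 * b - 1 := by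
      intro j hj
      rcases j with _ | j
      · exact ⟨m, hm, hg0⟩
      · have h1 := (hg ⟨j, by omega⟩).1.2.1
        simp only at h1
        have h2 := tg_mod y _ hy h1
        exact ⟨(g (j + 1) + 1) / 6, by omega, by omega⟩
    refine ⟨fun j => (g j + 1) / 6, ?_, ?_⟩
    · change (g 0 + 1) / 6 = m
      rw [hg0]
      omega
    · intro j
      obtain ⟨b, hb1, hb⟩ := hform j j.isLt.le
      obtain ⟨b', hb'1, hb'⟩ := hform (j + 1) j.isLt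
      obtain ⟨h1, h2, _⟩ := hg j
      rw [hb, hb'] at h1
      rw [hb'] at h2
      have e1 : (g j + 1) / 6 = b := by omega
      have e2 : (g (j + 1) + 1) / 6 = b' := by omega
      rw [nx_tg y b b' hy hb1 hb'1] at h1
      rw [cl_iff (a j) b' (ha j) hb'1] at h2
      simp only [e1, e2]
      exact ⟨h1, h2, h1.1⟩
  · rintro ⟨g, hg0, hg⟩
    have hpos : ∀ j : ℕ, j ≤ J → 1 ≤ g j := by
      intro j hj
      rcases j with _ | j
      · omega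
      · have h1 := (hg ⟨j, by omega⟩).1.1
        simp only at h1
        omega
    refine ⟨fun j => 6 * g j - 1, by change 6 * g 0 - 1 = _; rw [hg0], ?_⟩
    intro j
    obtain ⟨h1, h2, _⟩ := hg j
    have p1 := hpos j j.isLt.le
    have p2 := hpos (j + 1) j.isLt
    refine ⟨(nx_tg y _ _ hy p1 p2).2 h1, (cl_iff (a j) _ (ha j) p2).2 h2, ?_⟩
    have := h1.1
    change 6 * g j - 1 + 0 < 6 * g (j + 1) - 1
    omega

/-- the interval -/
lemma mem_six (Z Y m : ℕ) : 6 * m - 1 ∈ Ioc Z (Z + Y) ∧ 1 ≤ m ↔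
    m ∈ Ioc ((Z + 1) / 6) ((Z + 1) / 6 + ((Z + Y + 1) / 6 - (Z + 1) / 6)) := by
  rw [mem_Ioc, mem_Ioc]
  omega

open Classical in
/-- the counting of the pairs -/
lemma card_tg (y Z Y a0 : ℕ) (hy : 3 ≤ y) (ha0 : a0 = 1 ∨ a0 = 3) {J : ℕ} (a : Fin J → ℕ)
    (ha : ∀ j, a j = 1 ∨ a j = 3) :
    ((Ioc Z (Z + Y)).filter (fun n => TG y n ∧ n ≡ a0 [MOD 4] ∧ Follow (TG y) 4 a (fun _ => 0) n)).card =
      ((Ioc ((Z + 1) / 6) ((Z + 1) / 6 + ((Z + Y + 1) / 6 - (Z + 1) / 6))).filter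
        (fun m => Sf (Q tw) y m ∧ m ≡ cl a0 [MOD 2] ∧
          Follow (Sf (Q tw) y) 2 (fun j => cl (a j)) (fun _ => 0) m)).card := by
  symm
  apply Finset.card_bij (fun m _ => 6 * m - 1)
  · intro m hm
    rw [mem_filter, ← mem_six] at hm
    obtain ⟨⟨h1, h2⟩, h3, h4, h5⟩ := hm
    rw [mem_filter]
    exact ⟨h1, (tg_sf y m h2).2 h3, (cl_iff a0 m ha0 h2).2 h4, (follow_tg y m hy h2 a ha).2 h5⟩
  · intro m hm m' hm' h
    rw [mem_filter, ← mem_six] at hm hm'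
    omega
  · intro n hn
    rw [mem_filter] at hn
    obtain ⟨h1, h2, h3, h4⟩ := hn
    have h5 := tg_mod y n hy h2
    obtain ⟨m, hm1, hm2⟩ : ∃ m, n = 6 * m - 1 ∧ 1 ≤ m := ⟨(n + 1) / 6, by omega, by omega⟩
    subst hm1
    refine ⟨m, ?_, rfl⟩
    rw [mem_filter, ← mem_six]
    exact ⟨⟨h1, hm2⟩, (tg_sf y m hm2).1 h2, (cl_iff a0 m ha0 hm2).1 h3, (follow_tg y m hy hm2 a ha).1 h4⟩

lemma tw_AC (a : ℕ) : AC tw 2 a := by
  rintro p hp hpq ⟨i, hi⟩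
  have hp2 : p = 2 := (Nat.prime_dvd_prime_iff_eq hp Nat.prime_two).1 hpq
  subst hp2
  unfold tw at hi
  rw [lf_eval] at hi
  split_ifs at hi <;> omega

lemma tw_gq : gq tw 2 = 2 := by
  classical
  unfold gq
  rw [Finset.filter_true_of_mem (fun a _ => tw_AC a), card_range]

open Classical in
/-- **Residues modulo 4 of consecutive almost prime pairs.** -/
theorem twin_law (J : ℕ) (θ ε : ℝ) (hθ : 0 < θ) (hε : 0 < ε) : ∃ r0 : ℕ, 2 ≤ r0 ∧ ∀ r : ℕ, r0 ≤ r →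
    ∀ᶠ X : ℕ in atTop, ∀ Z Y : ℕ, (X : ℝ) ^ θ ≤ Y → ∀ a0 : ℕ, (a0 = 1 ∨ a0 = 3) → ∀ a : Fin J → ℕ,
      (∀ j, a j = 1 ∨ a j = 3) →
      |(((Ioc Z (Z + Y)).filter (fun n => TG ⌊(X : ℝ) ^ (1 / (r : ℝ))⌋₊ n ∧ n ≡ a0 [MOD 4] ∧
          Follow (TG ⌊(X : ℝ) ^ (1 / (r : ℝ))⌋₊) 4 a (fun _ => 0) n)).card : ℝ) -
        Y * (Vq (Q tw) ⌊(X : ℝ) ^ (1 / (r : ℝ))⌋₊ / 6) / 2 ^ (J + 1)| ≤
        ε * (Y * (Vq (Q tw) ⌊(X : ℝ) ^ (1 / (r : ℝ))⌋₊ / 6)) := by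
  obtain ⟨ε1, hε1⟩ : ∃ ε1 : ℝ, ε1 = ε / 4 := ⟨_, rfl⟩
  have hε10 : 0 < ε1 := by rw [hε1]; positivity
  obtain ⟨r0, hr0, hlaw⟩ := cls_abs 2 1 2 J (by norm_num) 0 ε1 le_rfl hε10 1 1 (θ / 2) one_pos one_pos
    (by positivity)
  refine ⟨r0, hr0, ?_⟩
  intro r hr
  have hr2 : 2 ≤ r := hr0.trans hr
  obtain ⟨v, Cv, hv, hCv, hV⟩ := V_bounds tw tw_sys
  have hpow : Tendsto (fun X : ℕ => (X : ℝ) ^ (1 / (2 * r : ℝ))) atTop atTop :=
    (tendsto_rpow_atTop (by positivity)).comp tendsto_natCast_atTop_atTop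
  have hpowθ : Tendsto (fun X : ℕ => (X : ℝ) ^ (θ / 2)) atTop atTop :=
    (tendsto_rpow_atTop (by positivity)).comp tendsto_natCast_atTop_atTop
  have hlogX : Tendsto (fun X : ℕ => Real.log (X : ℝ)) atTop atTop :=
    Real.tendsto_log_atTop.comp tendsto_natCast_atTop_atTop
  filter_upwards [hlaw r hr Cv hCv, hpow.eventually_ge_atTop 4, hpowθ.eventually_ge_atTop (12 + 24 / ε),
    eventually_ge_atTop 16, hlogX.eventually_ge_atTop 1] with X hX hpw hpwθ hX16 hlog1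
  intro Z Y hXY a0 ha0 a ha
  have hXr : (16 : ℝ) ≤ X := by exact_mod_cast hX16
  have hXpos : (0 : ℝ) < X := by linarith
  obtain ⟨y, hy⟩ : ∃ y, y = ⌊(X : ℝ) ^ (1 / (r : ℝ))⌋₊ := ⟨_, rfl⟩
  obtain ⟨hy1, _⟩ := level_low r hr2 X (by omega) (by linarith)
  rw [← hy] at hy1
  have hy3 : 3 ≤ y := by
    have : (3 : ℝ) ≤ y := by linarith
    exact_mod_cast this
  have hθ2 : (X : ℝ) ^ θ = (X : ℝ) ^ (θ / 2) * (X : ℝ) ^ (θ / 2) := by
    rw [← Real.rpow_add hXpos]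
    congr 1
    ring
  have hV2 : Vq (Q tw) X ≤ Cv / Real.log X := by
    refine (hV X (by omega)).2.trans ?_
    rw [Fintype.card_fin]
    apply div_le_div_of_nonneg_left hCv.le (by linarith)
    nlinarith
  obtain ⟨Y', hY'⟩ : ∃ Y', Y' = (Z + Y + 1) / 6 - (Z + 1) / 6 := ⟨_, rfl⟩
  have hY'1 : 6 * Y' ≤ Y + 6 := by omega
  have hY'2 : Y ≤ 6 * Y' + 6 := by omega
  have hY'1r : 6 * (Y' : ℝ) ≤ Y + 6 := by exact_mod_cast hY'1
  have hY'2r : (Y : ℝ) ≤ 6 * Y' + 6 := by exact_mod_cast hY'2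
  have h24 : 0 < 24 / ε := by positivity
  have hYb : (12 + 24 / ε) * (X : ℝ) ^ (θ / 2) ≤ Y := by
    refine le_trans ?_ hXY
    rw [hθ2]
    exact mul_le_mul_of_nonneg_right hpwθ (by positivity)
  have hXY' : (X : ℝ) ^ (θ / 2) ≤ Y' := by
    have h1 : 12 * (X : ℝ) ^ (θ / 2) ≤ Y := by
      refine le_trans ?_ hYb
      apply mul_le_mul_of_nonneg_right _ (by positivity)
      linarith
    linarith
  have hmain := hX tw (tw_us _ _ (by rw [Real.rpow_one]; linarith)) hV2 (cl a0) (by unfold cl; split_ifs <;> norm_num)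
    (tw_AC _) (fun j => cl (a j)) (fun _ => 0) (fun j => tw_AC _) (fun j => by simp) ((Z + 1) / 6) Y' hXY'
  rw [← hy] at hmain ⊢
  rw [hY', ← card_tg y Z Y a0 hy3 ha0 a ha, ← hY', tw_gq] at hmain
  simp only [Nat.cast_zero, zero_mul, Finset.sum_const_zero, neg_zero, Real.exp_zero] at hmain
  obtain ⟨V, hVe⟩ : ∃ V, V = Vq (Q tw) y := ⟨_, rfl⟩
  rw [← hVe] at hmain ⊢
  have hV0 : 0 ≤ V := by rw [hVe]; exact Vq_nonneg _ _
  obtain ⟨c, hc⟩ : ∃ c : ℝ, c = 1 / 2 ^ (J + 1) := ⟨_, rfl⟩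
  have hc0 : 0 ≤ c := by rw [hc]; positivity
  have hc1 : c ≤ 1 := by
    rw [hc, div_le_one (by positivity)]
    exact one_le_pow₀ (by norm_num)
  push_cast at hmain
  rw [← hc] at hmain
  have e1 : (Y : ℝ) * (V / 6) / 2 ^ (J + 1) = Y * V / 6 * c := by rw [hc]; ring
  rw [e1]
  obtain ⟨N, hN⟩ : ∃ N : ℝ, N = (((Ioc Z (Z + Y)).filter (fun n => TG y n ∧ n ≡ a0 [MOD 4] ∧
          Follow (TG y) 4 a (fun _ => 0) n)).card : ℝ) := ⟨_, rfl⟩
  rw [← hN] at hmain ⊢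
  have hYε : 24 ≤ ε * Y := by
    have h1 : 1 ≤ (X : ℝ) ^ (θ / 2) := by linarith
    have h2 : 24 / ε ≤ Y := by nlinarith
    rw [div_le_iff₀ hε] at h2
    linarith
  have hm := abs_le.1 hmain
  have h1 : (Y' : ℝ) * V * c ≤ Y * V / 6 * c + V := by
    have h2 : (Y' : ℝ) * (V * c) ≤ (Y / 6 + 1) * (V * c) := mul_le_mul_of_nonneg_right (by linarith) (by positivity)
    have h3 : V * c ≤ V * 1 := mul_le_mul_of_nonneg_left hc1 hV0
    nlinarith
  have h2 : (Y : ℝ) * V / 6 * c - V ≤ Y' * V * c := by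
    have h2 : (Y / 6 - 1) * (V * c) ≤ (Y' : ℝ) * (V * c) := mul_le_mul_of_nonneg_right (by linarith) (by positivity)
    have h3 : V * c ≤ V * 1 := mul_le_mul_of_nonneg_left hc1 hV0
    nlinarith
  have h3 : ε1 * (Y' * V) ≤ ε / 2 * (Y * (V / 6)) := by
    have h4 : (Y' : ℝ) ≤ Y / 3 := by
      have : (12 : ℝ) ≤ Y := by
        have h1 : 1 ≤ (X : ℝ) ^ (θ / 2) := by linarith
        nlinarith
      linarith
    rw [hε1]
    have h5 : (Y' : ℝ) * V ≤ Y / 3 * V := mul_le_mul_of_nonneg_right h4 hV0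
    calc ε / 4 * (Y' * V) ≤ ε / 4 * (Y / 3 * V) := mul_le_mul_of_nonneg_left h5 (by positivity)
      _ = ε / 2 * (Y * (V / 6)) := by ring
  have h4 : V ≤ ε / 2 * (Y * (V / 6)) := by
    have h5 : V * 24 ≤ V * (ε * Y) := mul_le_mul_of_nonneg_left hYε hV0
    nlinarith
  rw [abs_le]
  constructor
  · linarith [hm.1]
  · linarith [hm.2]

end Pool.Agent.Q236.UL
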